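import Mathlib
import Pool.Agent.LGO.H.MDeg
import Pool.Agent.LGO.Gal.NCM
import Pool.Agent.LGO.Mul.Unif

/-!
# LGO/U: the number `B` of a cyclic isogeny

`IsB x y B`: there are `τ`, `τ'` with `x = j(τ)`, `y = j(τ')` and a primitive integral matrix `g` of positive
determinant with `g τ = τ'` and `B Δ(τ') = (c τ + d) ^ 12 Δ(τ)`, `(c, d)` the second row of `g`.

PROOFS.
`IsB.maps` (the equation does not depend on the choices).  Let `τ₀, τ₀', g₀` be the data of `IsB`.  By `j_inj`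
(`LGO/Gal/JInj.lean`) `τ = γ • τ₀`, `τ' = γ' • τ₀'` with `γ, γ' ∈ SL₂(ℤ)`.  `h = γ' * g₀ * γ⁻¹` is primitive (entries of `g₀` are
integral combinations of the entries of `h`), of determinant `det g₀ > 0` and maps `τ` to `τ'` (`maps_sl`, `Maps.mul`).
`NonCM τ` (`NCM.nonCM` in `H/Model.lean`, or `ncm_jInv` in `Gal/NCM.lean`), so `g = ± h` (`NonCM.prim_unique`).  With
`J(g, τ) = g₁₀ τ + g₁₁` one has `J(h g, τ) = J(h, g τ) J(g, τ)`, and `Δ(γ • τ₀) = J(γ, τ₀) ^ 12 Δ(τ₀)` (modularity of weight 12: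
`ModularForm.discriminant` is a cusp form / `SlashInvariantForm.slash_action_eqn`, see how it is used in
`Pool/Agent/Hhelper14/ZP/`, `LGO/Gal/` and `LGO/Mul/Disc.lean`; alternatively use `disc_eq : G2 1 τ ^ 3 - 27 * G3 1 τ ^ 2 = (2 π) ^ 12 Δ(τ)`
and the homogeneity and invariance of `G2`, `G3` under change of basis, `G2_change`, `G2_scale`).
`exists_B`: `j_surj`, `exists_prim_mdeg`; `B = J(g, τ) ^ 12 Δ(τ) / Δ(τ')`; it is not `0` because `Δ` has no zeros and `J(g, τ) ≠ 0`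
(`den_ne_zero`).
`IsB.ne_zero`: the same.  `IsB.unique`: `IsB.maps` for both, `Δ(τ') ≠ 0`.  `IsB.ncm`, `IsB.isog`: `isogDeg` with `N = det g`.
`IsB.lat`: `IsB.maps` for the matrix of `exists_prim_mdeg` and `disc_eq`, homogeneity:
`G2 w (w τ) ^ 3 - 27 G3 w (w τ) ^ 2 = w ^ (-12) (2 π) ^ 12 Δ(τ)` (`G2_scale`, `G3_scale` in `LGO/Gal/JEq.lean` or `LGO/Mul`).
`isB_of_lat`: the same computation backwards (`w, w' ≠ 0`).
-/

namespace Pool.Agent.LGO.U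

open UpperHalfPlane Pool.Agent.Hhelper14.ZP Pool.Agent.EllSch Pool.Agent.LGO

/-- `B Δ(τ') = (c τ + d) ^ 12 Δ(τ)` for `x = j(τ)`, `y = j(τ')`, `τ' = g τ` with a primitive integral matrix `g` of positive
determinant with second row `(c, d)` -/
def IsB (x y B : ℂ) : Prop :=
  ∃ (τ τ' : ℍ) (g : Matrix (Fin 2) (Fin 2) ℤ), jInv τ = x ∧ jInv τ' = y ∧ Prim g ∧ 0 < g.det ∧
    Maps g (τ : ℂ) (τ' : ℂ) ∧
    B * ModularForm.discriminant τ' =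
      ((g 1 0 : ℂ) * (τ : ℂ) + (g 1 1 : ℂ)) ^ 12 * ModularForm.discriminant τ

theorem BDef_J_mul {g h : Matrix (Fin 2) (Fin 2) ℤ} {τ τ' : ℂ} (hm : Maps g τ τ') :
    (((h * g) 1 0 : ℤ) : ℂ) * τ + (((h * g) 1 1 : ℤ) : ℂ) =
      ((h 1 0 : ℂ) * τ' + (h 1 1 : ℂ)) * ((g 1 0 : ℂ) * τ + (g 1 1 : ℂ)) := by
  rw [Maps] at hm
  simp only [Matrix.mul_apply, Fin.sum_univ_two]
  push_cast
  linear_combination (-(h 1 0 : ℂ)) * hm

theorem BDef_disc_sl (γ : Matrix.SpecialLinearGroup (Fin 2) ℤ) (τ : ℍ) :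
    ModularForm.discriminant (γ • τ) =
      ((γ.1 1 0 : ℂ) * (τ : ℂ) + (γ.1 1 1 : ℂ)) ^ 12 * ModularForm.discriminant τ := by
  rw [disc_smul]
  have : denom (γ : GL (Fin 2) ℝ) τ = (γ.1 1 0 : ℂ) * (τ : ℂ) + (γ.1 1 1 : ℂ) := by
    rw [ModularGroup.denom_apply]
  rw [this]
  norm_cast

theorem BDef_prim_mul_sl {g : Matrix (Fin 2) (Fin 2) ℤ} (hg : Prim g)
    (γ : Matrix.SpecialLinearGroup (Fin 2) ℤ) : Prim (g * γ.1) := by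
  intro d hd
  apply hg d
  have h1 : g = (g * γ.1) * γ.1.adjugate := by
    rw [Matrix.mul_assoc, Matrix.mul_adjugate, γ.2, one_smul, Matrix.mul_one]
  intro i j
  rw [h1, Matrix.mul_apply, Fin.sum_univ_two]
  exact dvd_add ((hd i 0).mul_right _) ((hd i 1).mul_right _)

theorem BDef_prim_sl_mul {g : Matrix (Fin 2) (Fin 2) ℤ} (hg : Prim g)
    (γ : Matrix.SpecialLinearGroup (Fin 2) ℤ) : Prim (γ.1 * g) := by
  intro d hd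
  apply hg d
  have h1 : g = γ.1.adjugate * (γ.1 * g) := by
    rw [← Matrix.mul_assoc, Matrix.adjugate_mul, γ.2, one_smul, Matrix.one_mul]
  intro i j
  rw [h1, Matrix.mul_apply, Fin.sum_univ_two]
  exact dvd_add ((hd 0 j).mul_left _) ((hd 1 j).mul_left _)

theorem IsB.maps {x y B : ℂ} (h : IsB x y B) (hx : NCM x) {τ τ' : ℍ} (hτ : jInv τ = x)
    (hτ' : jInv τ' = y) {g : Matrix (Fin 2) (Fin 2) ℤ} (hp : Prim g) (hg : 0 < g.det)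
    (hm : Maps g (τ : ℂ) (τ' : ℂ)) :
    B * ModularForm.discriminant τ' =
      ((g 1 0 : ℂ) * (τ : ℂ) + (g 1 1 : ℂ)) ^ 12 * ModularForm.discriminant τ := by
  obtain ⟨τ₀, τ₀', g₀, h1, h2, hp0, hg0, hm0, hB⟩ := h
  obtain ⟨γ, hγ⟩ := Gal.j_inj (hτ.trans h1.symm)
  obtain ⟨γ', hγ'⟩ := Gal.j_inj (hτ'.trans h2.symm)
  have hcm : NonCM (τ₀ : ℂ) := by
    rw [← ncm_jInv, h1]
    exact hx
  have ma : Maps γ.1 (τ₀ : ℂ) (τ : ℂ) := by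
    rw [hγ]
    exact Gal.maps_sl γ τ₀
  have mb : Maps γ'.1 (τ₀' : ℂ) (τ' : ℂ) := by
    rw [hγ']
    exact Gal.maps_sl γ' τ₀'
  have m1 : Maps (g * γ.1) (τ₀ : ℂ) (τ' : ℂ) := ma.mul hm
  have m2 : Maps (γ'.1 * g₀) (τ₀ : ℂ) (τ' : ℂ) := hm0.mul mb
  have hd1 : 0 < (g * γ.1).det := by
    rw [Matrix.det_mul, γ.2, mul_one]
    exact hg
  have e1 := BDef_J_mul (h := g) ma
  have e2 := BDef_J_mul (h := γ'.1) hm0
  have e3 : ((((γ'.1 * g₀) 1 0 : ℤ) : ℂ) * (τ₀ : ℂ) + (((γ'.1 * g₀) 1 1 : ℤ) : ℂ)) ^ 12 =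
      ((((g * γ.1) 1 0 : ℤ) : ℂ) * (τ₀ : ℂ) + (((g * γ.1) 1 1 : ℤ) : ℂ)) ^ 12 := by
    rcases hcm.prim_unique m1 m2 hd1 (BDef_prim_mul_sl hp γ) (BDef_prim_sl_mul hp0 γ') with h | h
    · rw [h]
    · rw [h, Matrix.neg_apply, Matrix.neg_apply]
      push_cast
      ring
  rw [e1, e2] at e3
  have d1 : ModularForm.discriminant τ =
      ((γ.1 1 0 : ℂ) * (τ₀ : ℂ) + (γ.1 1 1 : ℂ)) ^ 12 * ModularForm.discriminant τ₀ := by
    rw [hγ]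
    exact BDef_disc_sl γ τ₀
  have d2 : ModularForm.discriminant τ' =
      ((γ'.1 1 0 : ℂ) * (τ₀' : ℂ) + (γ'.1 1 1 : ℂ)) ^ 12 * ModularForm.discriminant τ₀' := by
    rw [hγ']
    exact BDef_disc_sl γ' τ₀'
  rw [d1, d2]
  linear_combination ((γ'.1 1 0 : ℂ) * (τ₀' : ℂ) + (γ'.1 1 1 : ℂ)) ^ 12 * hB +
    ModularForm.discriminant τ₀ * e3

theorem exists_B {x y : ℂ} (h : ∃ N, 0 < N ∧ IsogDeg N x y) : ∃ B, IsB x y B := by
  obtain ⟨τ, rfl⟩ := Pool.Agent.Hhelper14.ZPL.j_surj x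
  obtain ⟨τ', rfl⟩ := Pool.Agent.Hhelper14.ZPL.j_surj y
  obtain ⟨g, -, hg, hp, hm⟩ := exists_prim_mdeg h
  refine ⟨((g 1 0 : ℂ) * (τ : ℂ) + (g 1 1 : ℂ)) ^ 12 * ModularForm.discriminant τ /
    ModularForm.discriminant τ', τ, τ', g, rfl, rfl, hp, hg, hm, ?_⟩
  exact div_mul_cancel₀ _ (ModularForm.discriminant_ne_zero τ')

theorem IsB.ne_zero {x y B : ℂ} (h : IsB x y B) : B ≠ 0 := by
  obtain ⟨τ, τ', g, h1, h2, hp, hg, hm, hB⟩ := h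
  rintro rfl
  rw [zero_mul] at hB
  exact mul_ne_zero (pow_ne_zero _ (Gal.den_ne_zero hg.ne' τ))
    (ModularForm.discriminant_ne_zero τ) hB.symm

theorem IsB.unique {x y B B' : ℂ} (h : IsB x y B) (hx : NCM x) (h' : IsB x y B') : B = B' := by
  obtain ⟨τ, τ', g, h1, h2, hp, hg, hm, hB⟩ := h'
  have h3 := h.maps hx h1 h2 hp hg hm
  rw [← hB] at h3
  exact mul_right_cancel₀ (ModularForm.discriminant_ne_zero τ') h3

theorem IsB.isog {x y B : ℂ} (h : IsB x y B) : ∃ N, 0 < N ∧ IsogDeg N x y := by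
  obtain ⟨τ, τ', g, h1, h2, hp, hg, hm, hB⟩ := h
  exact ⟨g.det.toNat, by omega, τ, τ', g, (Int.toNat_of_nonneg hg.le).symm, hm, h1.symm, h2.symm⟩

theorem BDef_disc_w (τ : ℍ) {w : ℂ} (hw : w ≠ 0) :
    G2 w (w * τ) ^ 3 - 27 * G3 w (w * τ) ^ 2 =
      (2 * Real.pi) ^ 12 * ModularForm.discriminant τ / w ^ 12 := by
  rw [G2_scale hw, G3_scale hw, ← disc_eq]
  field_simp

theorem BDef_two_pi_ne : ((2 * Real.pi : ℂ)) ^ 12 ≠ 0 := by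
  apply pow_ne_zero
  apply mul_ne_zero two_ne_zero
  exact_mod_cast Real.pi_ne_zero

theorem IsB.lat {x y B : ℂ} (h : IsB x y B) (hx : NCM x) {τ τ' : ℍ} (hτ : jInv τ = x)
    (hτ' : jInv τ' = y) {w w' : ℂ} (hw : w ≠ 0) (hw' : w' ≠ 0) :
    ∃ g : Matrix (Fin 2) (Fin 2) ℤ, g.det = mdeg x y ∧ 0 < g.det ∧ Prim g ∧
      Maps g (τ : ℂ) (τ' : ℂ) ∧
      B * (G2 w' (w' * τ') ^ 3 - 27 * G3 w' (w' * τ') ^ 2) =
        (w * ((g 1 0 : ℂ) * (τ : ℂ) + (g 1 1 : ℂ)) / w') ^ 12 *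
          (G2 w (w * τ) ^ 3 - 27 * G3 w (w * τ) ^ 2) := by
  have h0 := h.isog
  rw [← hτ, ← hτ'] at h0
  obtain ⟨g, hd, hg, hp, hm⟩ := exists_prim_mdeg h0
  refine ⟨g, by rw [hd, hτ, hτ'], hg, hp, hm, ?_⟩
  have h1 := h.maps hx hτ hτ' hp hg hm
  rw [BDef_disc_w τ hw, BDef_disc_w τ' hw', div_pow, mul_pow]
  field_simp
  linear_combination h1

theorem isB_of_lat {B : ℂ} {τ τ' : ℍ} {g : Matrix (Fin 2) (Fin 2) ℤ} (hp : Prim g)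
    (hg : 0 < g.det) (hm : Maps g (τ : ℂ) (τ' : ℂ)) {w w' : ℂ} (hw : w ≠ 0) (hw' : w' ≠ 0)
    (h : B * (G2 w' (w' * τ') ^ 3 - 27 * G3 w' (w' * τ') ^ 2) =
      (w * ((g 1 0 : ℂ) * (τ : ℂ) + (g 1 1 : ℂ)) / w') ^ 12 *
        (G2 w (w * τ) ^ 3 - 27 * G3 w (w * τ) ^ 2)) : IsB (jInv τ) (jInv τ') B := by
  refine ⟨τ, τ', g, rfl, rfl, hp, hg, hm, ?_⟩
  rw [BDef_disc_w τ hw, BDef_disc_w τ' hw', div_pow, mul_pow] at h
  have h2 := BDef_two_pi_ne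
  have hw12 : w ^ 12 ≠ 0 := pow_ne_zero _ hw
  have hw12' : w' ^ 12 ≠ 0 := pow_ne_zero _ hw'
  apply mul_left_cancel₀ (mul_ne_zero h2 (inv_ne_zero hw12'))
  have h3 : w ^ 12 * (w ^ 12)⁻¹ = 1 := mul_inv_cancel₀ hw12
  rw [div_eq_mul_inv, div_eq_mul_inv, div_eq_mul_inv] at h
  linear_combination h + (w' ^ 12)⁻¹ * ((g 1 0 : ℂ) * (τ : ℂ) + (g 1 1 : ℂ)) ^ 12 *
    (2 * Real.pi) ^ 12 * ModularForm.discriminant τ * h3

end Pool.Agent.LGO.U
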