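import Mathlib
import Pool.Agent.LGO.H.BdC
import Pool.Agent.Hhelper14.ZPL.KClosed

/-!
# LGO/U: fields

PROOFS.  `fld_root`: `t` is algebraic over `K` of degree at most `deg P ≤ d` (`P` comes from `K[X]`); `K' = K⟮t⟯` restricted to `ℚ`
(see `exists_quad` in `LGO/Mul/Gen.lean`, the same proof with `P` instead of `X ^ 2 - γ ^ 2`), or `K' = K ⊔ ℚ⟮t⟯`.
`fld_fix`: adjoin the finitely many coefficients (algebraic numbers) to `ℚ`.
`fld_t`: `K₀` from `fld_fix` for `S ∪ {A, B}`, `K ⊔ K₀` has degree at most `[K : ℚ] [K₀ : ℚ]` (`IntermediateField.finrank_sup_le`),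
and `fld_root` for `P = A - x B` (mapped to `ℂ[X]`), of degree `deg A` with leading coefficient `lc(A)`, over `K ⊔ K₀`.
`mem_aeval`: `Polynomial.aeval_eq_sum_range`.
`bd_root`: if `x ^ k ∈ K'`, `Bd`: `n x ^ k` integral implies `(n x) ^ k = n ^ (k - 1) (n x ^ k)` integral, so `n x` integral; the
conjugates: `‖σ x‖ ^ k ≤ exp B`.
-/

namespace Pool.Agent.LGO.U

open Polynomial Pool.Agent.Hhelper14.ZPL Pool.Agent.LGO

theorem fld_root (d : ℕ) (K : IntermediateField ℚ ℂ) [FiniteDimensional ℚ K] (P : ℂ[X])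
    (hP : P ≠ 0) (hd : P.natDegree ≤ d) (hc : ∀ i, P.coeff i ∈ K) (t : ℂ) (ht : P.eval t = 0) :
    ∃ K' : IntermediateField ℚ ℂ, K ≤ K' ∧ FiniteDimensional ℚ K' ∧
      Module.finrank ℚ K' ≤ d * Module.finrank ℚ K ∧ t ∈ K' := by
  obtain ⟨Q, hQ⟩ : ∃ Q : K[X], Q.map (algebraMap K ℂ) = P := by
    rw [← Polynomial.mem_lifts, Polynomial.lifts_iff_coeff_lifts]
    intro i
    exact ⟨⟨P.coeff i, hc i⟩, rfl⟩
  have hQ0 : Q ≠ 0 := by
    rintro rfl
    rw [Polynomial.map_zero] at hQ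
    exact hP hQ.symm
  have hQd : Q.natDegree ≤ d := by
    rw [← hQ, natDegree_map_eq_of_injective (algebraMap K ℂ).injective] at hd
    exact hd
  have hroot : aeval t Q = 0 := by
    rw [aeval_def, ← eval_map, hQ]
    exact ht
  have halg : IsAlgebraic K t := ⟨Q, hQ0, hroot⟩
  have hint : IsIntegral K t := halg.isIntegral
  set L : IntermediateField K ℂ := IntermediateField.adjoin K {t} with hL
  have hfd : FiniteDimensional K L := IntermediateField.adjoin.finiteDimensional hint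
  have hfr : Module.finrank K L ≤ d := by
    rw [hL, IntermediateField.adjoin.finrank hint]
    exact (natDegree_le_of_dvd (minpoly.dvd K t hroot) hQ0).trans hQd
  have hfd' : FiniteDimensional ℚ L := FiniteDimensional.trans ℚ K L
  have hmul : Module.finrank ℚ K * Module.finrank K L = Module.finrank ℚ L :=
    Module.finrank_mul_finrank ℚ K L
  have htL : t ∈ L := IntermediateField.mem_adjoin_simple_self K t
  refine ⟨L.restrictScalars ℚ, ?_, hfd', ?_, htL⟩
  · intro x hx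
    exact L.algebraMap_mem (⟨x, hx⟩ : K)
  · show Module.finrank ℚ L ≤ _
    rw [← hmul, mul_comm]
    exact Nat.mul_le_mul_right _ hfr

theorem fld_fix (S : Finset (Polynomial Qb)) : ∃ K₀ : IntermediateField ℚ ℂ,
    FiniteDimensional ℚ K₀ ∧ ∀ P ∈ S, ∀ i, ((P.coeff i : Qb) : ℂ) ∈ K₀ := by
  classical
  let T : Finset ℂ := S.biUnion fun P => (Finset.range (P.natDegree + 1)).image fun i => ((P.coeff i : Qb) : ℂ)
  refine ⟨IntermediateField.adjoin ℚ (T : Set ℂ), ?_, ?_⟩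
  · refine IntermediateField.finiteDimensional_adjoin ?_
    intro x hx
    rw [Finset.mem_coe, Finset.mem_biUnion] at hx
    obtain ⟨P, -, hx⟩ := hx
    obtain ⟨i, -, rfl⟩ := Finset.mem_image.1 hx
    exact ((mem_algebraicClosure_iff).1 (P.coeff i).2).isIntegral
  · intro P hP i
    by_cases hi : i ≤ P.natDegree
    · apply IntermediateField.subset_adjoin
      rw [Finset.mem_coe, Finset.mem_biUnion]
      exact ⟨P, hP, Finset.mem_image.2 ⟨i, Finset.mem_range.2 (by omega), rfl⟩⟩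
    · rw [coeff_eq_zero_of_natDegree_lt (by omega)]
      exact zero_mem _

theorem fld_t (A B : Polynomial Qb) (hd : B.natDegree < A.natDegree)
    (S : Finset (Polynomial Qb)) : ∃ C : ℕ, 0 < C ∧ ∀ (K : IntermediateField ℚ ℂ)
      [FiniteDimensional ℚ K] (x t : ℂ), x ∈ K → (aeval t A : ℂ) = x * aeval t B →
        ∃ K' : IntermediateField ℚ ℂ, K ≤ K' ∧ FiniteDimensional ℚ K' ∧
          Module.finrank ℚ K' ≤ C * Module.finrank ℚ K ∧ t ∈ K' ∧
          ∀ P ∈ S, ∀ i, ((P.coeff i : Qb) : ℂ) ∈ K' := by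
  classical
  obtain ⟨K₀, hK₀, hS⟩ := fld_fix (S ∪ {A, B})
  refine ⟨A.natDegree * Module.finrank ℚ K₀, Nat.mul_pos (by omega) Module.finrank_pos, ?_⟩
  intro K _ x t hx hxt
  have hfd : FiniteDimensional ℚ (K ⊔ K₀ : IntermediateField ℚ ℂ) :=
    IntermediateField.finiteDimensional_sup K K₀
  set P : ℂ[X] := A.map (algebraMap Qb ℂ) - C x * B.map (algebraMap Qb ℂ) with hPd
  have hAd : (A.map (algebraMap Qb ℂ)).natDegree = A.natDegree :=
    natDegree_map_eq_of_injective (algebraMap Qb ℂ).injective A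
  have hBd : (B.map (algebraMap Qb ℂ)).natDegree = B.natDegree :=
    natDegree_map_eq_of_injective (algebraMap Qb ℂ).injective B
  have hlt : (C x * B.map (algebraMap Qb ℂ)).natDegree < (A.map (algebraMap Qb ℂ)).natDegree := by
    rw [hAd]
    refine lt_of_le_of_lt (natDegree_C_mul_le _ _) ?_
    rw [hBd]; exact hd
  have hPn : P.natDegree = A.natDegree := by
    rw [hPd, natDegree_sub_eq_left_of_natDegree_lt hlt, hAd]
  have hP0 : P ≠ 0 := by
    intro h
    rw [h, natDegree_zero] at hPn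
    omega
  have hc : ∀ i, P.coeff i ∈ (K ⊔ K₀ : IntermediateField ℚ ℂ) := by
    intro i
    rw [hPd, coeff_sub, coeff_C_mul, coeff_map, coeff_map]
    have h1 : ((A.coeff i : Qb) : ℂ) ∈ (K ⊔ K₀ : IntermediateField ℚ ℂ) :=
      (le_sup_right : K₀ ≤ K ⊔ K₀) (hS A (by simp) i)
    have h2 : ((B.coeff i : Qb) : ℂ) ∈ (K ⊔ K₀ : IntermediateField ℚ ℂ) :=
      (le_sup_right : K₀ ≤ K ⊔ K₀) (hS B (by simp) i)
    exact sub_mem h1 (mul_mem ((le_sup_left : K ≤ K ⊔ K₀) hx) h2)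
  have ht : P.eval t = 0 := by
    rw [hPd, eval_sub, eval_mul, eval_C, eval_map, eval_map, ← aeval_def, ← aeval_def, hxt, sub_self]
  obtain ⟨K', h1, h2, h3, h4⟩ := fld_root A.natDegree (K ⊔ K₀) P hP0 hPn.le hc t ht
  refine ⟨K', le_sup_left.trans h1, h2, ?_, h4, ?_⟩
  · refine h3.trans ?_
    have h5 : Module.finrank ℚ (K ⊔ K₀ : IntermediateField ℚ ℂ) ≤ Module.finrank ℚ K * Module.finrank ℚ K₀ :=
      IntermediateField.finrank_sup_le K K₀
    calc A.natDegree * Module.finrank ℚ (K ⊔ K₀ : IntermediateField ℚ ℂ)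
        ≤ A.natDegree * (Module.finrank ℚ K * Module.finrank ℚ K₀) := Nat.mul_le_mul_left _ h5
      _ = A.natDegree * Module.finrank ℚ K₀ * Module.finrank ℚ K := by ring
  · intro P hP i
    exact h1 ((le_sup_right : K₀ ≤ K ⊔ K₀) (hS P (Finset.mem_union_left _ hP) i))

theorem mem_aeval {K : IntermediateField ℚ ℂ} {P : Polynomial Qb} {t : ℂ} (ht : t ∈ K)
    (hP : ∀ i, ((P.coeff i : Qb) : ℂ) ∈ K) : (aeval t P : ℂ) ∈ K := by
  rw [aeval_eq_sum_range]
  refine sum_mem fun i _ => ?_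
  rw [Algebra.smul_def]
  exact mul_mem (hP i) (pow_mem ht i)

theorem bd_root {K : IntermediateField ℚ ℂ} {B : ℝ} {x : ℂ} (k : ℕ) (hk : 0 < k) (hx : x ∈ K)
    (h : Bd K B (x ^ k)) : Bd K B x := by
  have hE := h.one_le_exp
  obtain ⟨n, hn, hn', hni⟩ := h.den
  refine ⟨hx, ⟨n, hn, hn', ?_⟩, fun σ => ?_⟩
  · have h1 : IsIntegral ℤ (((n : ℂ) * x) ^ k) := by
      have : ((n : ℂ) * x) ^ k = ((n ^ (k - 1) : ℕ) : ℂ) * ((n : ℂ) * x ^ k) := by
        obtain ⟨j, rfl⟩ : ∃ j, k = j + 1 := ⟨k - 1, by omega⟩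
        rw [Nat.add_sub_cancel]
        push_cast
        ring
      rw [this]
      exact isIntegral_natCast_mul _ hni
    exact IsIntegral.of_pow hk h1
  · have h2 := h.house σ
    have h3 : (⟨x ^ k, h.mem⟩ : K) = ⟨x, hx⟩ ^ k := rfl
    rw [h3, map_pow, norm_pow] at h2
    by_contra hlt
    push Not at hlt
    have h4 : 1 ≤ ‖σ ⟨x, hx⟩‖ := hE.trans hlt.le
    have h5 : ‖σ ⟨x, hx⟩‖ ≤ ‖σ ⟨x, hx⟩‖ ^ k := le_self_pow₀ h4 hk.ne'
    linarith

end Pool.Agent.LGO.U
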