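import Mathlib
import Pool.Agent.Hhelper14.ZPL.KClosed

/-!
# LGO/U: integrality of the parameter and of the denominators

PROOFS.  For finitely many algebraic numbers `a_i` there is an integer `m ≥ 1` such that all `m a_i` are integral over `ℤ`
(`exists_integral_multiple`).
`int_t`: `m A`, `m B` with integral coefficients, `x` integral: `P = m A - x m B` has integral coefficients, degree `deg A`
(because `deg B < deg A`) and leading coefficient `a = m lc(A)`, and `P(t) = 0`; so `a t` is integral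
(`isIntegral_leadingCoeff_smul` over the integral closure of `ℤ` in `ℂ`).  `a ≠ 0` is algebraic: there is an integer `r ≥ 1` such
that `r a⁻¹` is integral, and `r t = (r a⁻¹) (a t)`.
`int_B`: Let `m` be a common denominator for the coefficients of `B`, `U`, `W`, where `U A + W B = 1` in `Qb[X]`, and `d` a bound for
their degrees.  For such a polynomial `P`: `m r ^ d P(t) = Σ (m p_i) r ^ (d - i) (r t) ^ i` is integral.  So `m r ^ d B(t)` is
integral, and `1 / B(t) = U(t) A(t) / B(t) + W(t) = U(t) x + W(t)`, so `m r ^ d / B(t)` is integral.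
-/

namespace Pool.Agent.LGO.U

open Polynomial Pool.Agent.Hhelper14.ZPL

/-- an algebraic complex number has a positive natural multiple which is integral -/
theorem RInt_one (z : ℂ) (hz : IsAlgebraic ℚ z) : ∃ m : ℕ, 0 < m ∧ IsIntegral ℤ ((m : ℂ) * z) := by
  have hz' : IsAlgebraic ℤ z := (IsFractionRing.isAlgebraic_iff ℤ ℚ ℂ).2 hz
  obtain ⟨y, hy0, hy⟩ := hz'.exists_integral_multiple
  refine ⟨y.natAbs, Int.natAbs_pos.2 hy0, ?_⟩
  have e : ((y.natAbs : ℕ) : ℂ) = (((y.natAbs : ℕ) : ℤ) : ℂ) := (Int.cast_natCast _).symm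
  rcases Int.natAbs_eq y with h | h
  · have : ((y.natAbs : ℕ) : ℂ) * z = y • z := by
      rw [zsmul_eq_mul, e, ← h]
    rw [this]; exact hy
  · have : ((y.natAbs : ℕ) : ℂ) * z = -(y • z) := by
      have h' : (y.natAbs : ℤ) = -y := by omega
      rw [zsmul_eq_mul, e, h']
      push_cast
      ring
    rw [this]; exact hy.neg

theorem RInt_natmul {z : ℂ} (m : ℕ) (hz : IsIntegral ℤ z) : IsIntegral ℤ ((m : ℂ) * z) := by
  have : IsIntegral ℤ (m : ℂ) := by
    have := isIntegral_algebraMap (R := ℤ) (A := ℂ) (x := (m : ℤ))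
    simpa using this
  exact this.mul hz

theorem RInt_alg (a : Qb) : IsAlgebraic ℚ (algebraMap Qb ℂ a) := by
  exact mem_algebraicClosure_iff.1 a.2

/-- a common denominator for the coefficients of a polynomial -/
theorem RInt_den (P : Polynomial Qb) : ∃ m : ℕ, 0 < m ∧
    ∀ i, IsIntegral ℤ ((m : ℂ) * algebraMap Qb ℂ (P.coeff i)) := by
  choose f hf hf' using fun i => RInt_one (algebraMap Qb ℂ (P.coeff i)) (RInt_alg _)
  refine ⟨∏ i ∈ P.support, f i, Finset.prod_pos fun i _ => hf i, fun i => ?_⟩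
  by_cases hi : i ∈ P.support
  · rw [← Finset.mul_prod_erase _ _ hi]
    have : ((f i * ∏ j ∈ P.support.erase i, f j : ℕ) : ℂ) * algebraMap Qb ℂ (P.coeff i)
        = ((∏ j ∈ P.support.erase i, f j : ℕ) : ℂ) * ((f i : ℂ) * algebraMap Qb ℂ (P.coeff i)) := by
      push_cast; ring
    rw [this]
    exact RInt_natmul _ (hf' i)
  · rw [Polynomial.notMem_support_iff.1 hi]
    simpa using isIntegral_zero

theorem RInt_den_mul (P : Polynomial Qb) {m : ℕ}
    (h : ∀ i, IsIntegral ℤ ((m : ℂ) * algebraMap Qb ℂ (P.coeff i))) (k : ℕ) (i : ℕ) :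
    IsIntegral ℤ (((m * k : ℕ) : ℂ) * algebraMap Qb ℂ (P.coeff i)) := by
  have : (((m * k : ℕ) : ℂ) * algebraMap Qb ℂ (P.coeff i))
      = (k : ℂ) * ((m : ℂ) * algebraMap Qb ℂ (P.coeff i)) := by push_cast; ring
  rw [this]; exact RInt_natmul _ (h i)

/-- if all coefficients of `P` are integral and `P(t) = 0` then `lc(P) t` is integral -/
theorem RInt_lc (P : Polynomial ℂ) (hP : ∀ i, IsIntegral ℤ (P.coeff i)) (t : ℂ)
    (ht : P.eval t = 0) : IsIntegral ℤ (P.leadingCoeff * t) := by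
  have hl : P ∈ Polynomial.lifts (algebraMap (integralClosure ℤ ℂ) ℂ) := by
    rw [Polynomial.lifts_iff_coeff_lifts]
    intro i
    exact ⟨⟨P.coeff i, hP i⟩, rfl⟩
  obtain ⟨Q, hQ, hQd⟩ := Polynomial.exists_natDegree_eq_of_mem_lifts hl
  have h1 : (aeval t Q : ℂ) = 0 := by
    rw [← Polynomial.eval_map_algebraMap, hQ, ht]
  have h2 := isIntegral_trans (R := ℤ) _ (isIntegral_leadingCoeff_smul (R := integralClosure ℤ ℂ) Q t h1)
  have h3 : Q.leadingCoeff • t = P.leadingCoeff * t := by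
    rw [Algebra.smul_def]
    congr 1
    rw [Polynomial.leadingCoeff, Polynomial.leadingCoeff, ← hQd, ← hQ, Polynomial.coeff_map]
  rw [← h3]; exact h2

/-- `m r ^ d P(t)` is integral -/
theorem RInt_val (P : Polynomial Qb) {m r d : ℕ}
    (h : ∀ i, IsIntegral ℤ ((m : ℂ) * algebraMap Qb ℂ (P.coeff i))) (hd : P.natDegree ≤ d)
    (t : ℂ) (ht : IsIntegral ℤ ((r : ℂ) * t)) :
    IsIntegral ℤ (((m * r ^ d : ℕ) : ℂ) * aeval t P) := by
  rw [Polynomial.aeval_eq_sum_range' (Nat.lt_succ_of_le hd), Finset.mul_sum]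
  refine IsIntegral.sum _ fun i hi => ?_
  have hi' : i ≤ d := Nat.lt_succ_iff.1 (Finset.mem_range.1 hi)
  have e : ((m * r ^ d : ℕ) : ℂ) * P.coeff i • t ^ i
      = ((r ^ (d - i) : ℕ) : ℂ) * (((m : ℂ) * algebraMap Qb ℂ (P.coeff i)) * ((r : ℂ) * t) ^ i) := by
    rw [Algebra.smul_def]
    have : (r : ℂ) ^ d = (r : ℂ) ^ (d - i) * (r : ℂ) ^ i := by
      rw [← pow_add, Nat.sub_add_cancel hi']
    push_cast
    rw [this]
    ring
  rw [e]
  exact RInt_natmul _ ((h i).mul (ht.pow i))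

theorem int_t (A B : Polynomial Qb) (hd : B.natDegree < A.natDegree) : ∃ r : ℕ, 0 < r ∧
    ∀ x t : ℂ, IsIntegral ℤ x → (aeval t A : ℂ) = x * aeval t B → IsIntegral ℤ ((r : ℂ) * t) := by
  obtain ⟨m1, hm1, h1⟩ := RInt_den A
  obtain ⟨m2, hm2, h2⟩ := RInt_den B
  set m : ℕ := m1 * m2 with hm
  have hmpos : 0 < m := Nat.mul_pos hm1 hm2
  have hA : ∀ i, IsIntegral ℤ ((m : ℂ) * algebraMap Qb ℂ (A.coeff i)) := RInt_den_mul A h1 m2
  have hB : ∀ i, IsIntegral ℤ ((m : ℂ) * algebraMap Qb ℂ (B.coeff i)) := by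
    have := RInt_den_mul B h2 m1
    intro i
    rw [hm, Nat.mul_comm]
    exact this i
  have hA0 : A ≠ 0 := by
    rintro rfl
    simp at hd
  have hla : algebraMap Qb ℂ A.leadingCoeff ≠ 0 := by
    intro h
    exact hA0 (Polynomial.leadingCoeff_eq_zero.1 ((map_eq_zero _).1 h))
  obtain ⟨s, hs, hs'⟩ := RInt_one ((m : ℂ) * algebraMap Qb ℂ A.leadingCoeff)⁻¹ (by
    have hmq : IsAlgebraic ℚ (m : ℂ) := by
      have := isAlgebraic_algebraMap (R := ℚ) (A := ℂ) (m : ℚ)
      simpa using this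
    exact (hmq.mul (RInt_alg _)).inv)
  refine ⟨s, hs, fun x t hx hxt => ?_⟩
  set P : Polynomial ℂ := C (m : ℂ) * A.map (algebraMap Qb ℂ) - C ((m : ℂ) * x) * B.map (algebraMap Qb ℂ)
    with hP
  have hmC : (m : ℂ) ≠ 0 := by exact_mod_cast hmpos.ne'
  have hPc : ∀ i, IsIntegral ℤ (P.coeff i) := by
    intro i
    rw [hP, Polynomial.coeff_sub, Polynomial.coeff_C_mul, Polynomial.coeff_C_mul,
      Polynomial.coeff_map, Polynomial.coeff_map]
    refine (hA i).sub ?_
    have : (m : ℂ) * x * algebraMap Qb ℂ (B.coeff i) = x * ((m : ℂ) * algebraMap Qb ℂ (B.coeff i)) := by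
      ring
    rw [this]
    exact hx.mul (hB i)
  have hPt : P.eval t = 0 := by
    rw [hP]
    simp only [Polynomial.eval_sub, Polynomial.eval_mul, Polynomial.eval_C,
      Polynomial.eval_map_algebraMap]
    rw [hxt]; ring
  have hdeg : P.natDegree = A.natDegree := by
    rw [hP, Polynomial.natDegree_sub_eq_left_of_natDegree_lt]
    · rw [Polynomial.natDegree_C_mul hmC, Polynomial.natDegree_map]
    · rw [Polynomial.natDegree_C_mul hmC, Polynomial.natDegree_map]
      refine lt_of_le_of_lt (Polynomial.natDegree_C_mul_le _ _) ?_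
      rw [Polynomial.natDegree_map]; exact hd
  have hlc : P.leadingCoeff = (m : ℂ) * algebraMap Qb ℂ A.leadingCoeff := by
    rw [Polynomial.leadingCoeff, hdeg, hP, Polynomial.coeff_sub, Polynomial.coeff_C_mul,
      Polynomial.coeff_C_mul, Polynomial.coeff_map, Polynomial.coeff_map,
      Polynomial.coeff_eq_zero_of_natDegree_lt hd, map_zero, mul_zero, sub_zero]
    rfl
  have h3 := RInt_lc P hPc t hPt
  rw [hlc] at h3
  have h4 := hs'.mul h3
  have : (s : ℂ) * ((m : ℂ) * algebraMap Qb ℂ A.leadingCoeff)⁻¹ *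
      ((m : ℂ) * algebraMap Qb ℂ A.leadingCoeff * t) = (s : ℂ) * t := by
    have hne : (m : ℂ) * algebraMap Qb ℂ A.leadingCoeff ≠ 0 := mul_ne_zero hmC hla
    field_simp
  rw [this] at h4
  exact h4

theorem int_B {A B : Polynomial Qb} (h : IsCoprime A B) (r : ℕ) (hr : 0 < r) :
    ∃ r' : ℕ, 0 < r' ∧ ∀ x t : ℂ, IsIntegral ℤ x → IsIntegral ℤ ((r : ℂ) * t) →
      (aeval t A : ℂ) = x * aeval t B → (aeval t B : ℂ) ≠ 0 →
        IsIntegral ℤ ((r' : ℂ) * aeval t B) ∧ IsIntegral ℤ ((r' : ℂ) * (aeval t B : ℂ)⁻¹) := by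
  obtain ⟨U, W, hUW⟩ := h
  obtain ⟨m1, hm1, h1⟩ := RInt_den B
  obtain ⟨m2, hm2, h2⟩ := RInt_den U
  obtain ⟨m3, hm3, h3⟩ := RInt_den W
  set m : ℕ := m1 * m2 * m3 with hm
  have hmpos : 0 < m := Nat.mul_pos (Nat.mul_pos hm1 hm2) hm3
  have hB : ∀ i, IsIntegral ℤ ((m : ℂ) * algebraMap Qb ℂ (B.coeff i)) := by
    have := RInt_den_mul B h1 (m2 * m3)
    intro i
    have e : m = m1 * (m2 * m3) := by rw [hm]; ring
    rw [e]; exact this i
  have hU : ∀ i, IsIntegral ℤ ((m : ℂ) * algebraMap Qb ℂ (U.coeff i)) := by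
    have := RInt_den_mul U h2 (m1 * m3)
    intro i
    have e : m = m2 * (m1 * m3) := by rw [hm]; ring
    rw [e]; exact this i
  have hW : ∀ i, IsIntegral ℤ ((m : ℂ) * algebraMap Qb ℂ (W.coeff i)) := by
    have := RInt_den_mul W h3 (m1 * m2)
    intro i
    have e : m = m3 * (m1 * m2) := by rw [hm]; ring
    rw [e]; exact this i
  set d : ℕ := max B.natDegree (max U.natDegree W.natDegree) with hd
  refine ⟨m * r ^ d, Nat.mul_pos hmpos (pow_pos hr _), fun x t hx ht hxt hBt => ⟨?_, ?_⟩⟩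
  · exact RInt_val B hB (le_max_left _ _) t ht
  · have hU' := RInt_val U hU (le_trans (le_max_left _ _) (le_max_right _ _) : U.natDegree ≤ d) t ht
    have hW' := RInt_val W hW (le_trans (le_max_right _ _) (le_max_right _ _) : W.natDegree ≤ d) t ht
    have e1 : (aeval t U : ℂ) * aeval t A + aeval t W * aeval t B = 1 := by
      have := congrArg (aeval t : Polynomial Qb → ℂ) hUW
      simpa only [map_add, map_mul, map_one] using this
    have e2 : (aeval t B : ℂ)⁻¹ = aeval t U * x + aeval t W := by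
      rw [hxt] at e1
      field_simp
      linear_combination -e1
    rw [e2]
    have e3 : ((m * r ^ d : ℕ) : ℂ) * ((aeval t U : ℂ) * x + aeval t W)
        = ((m * r ^ d : ℕ) : ℂ) * aeval t U * x + ((m * r ^ d : ℕ) : ℂ) * aeval t W := by ring
    rw [e3]
    exact (hU'.mul hx).add hW'

/-- `int_t` with `m x` integral in place of `x` integral -/
theorem int_t_m (A B : Polynomial Qb) (hd : B.natDegree < A.natDegree) (m : ℕ) (hm : 0 < m) :
    ∃ r : ℕ, 0 < r ∧ ∀ x t : ℂ, IsIntegral ℤ ((m : ℂ) * x) →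
      (aeval t A : ℂ) = x * aeval t B → IsIntegral ℤ ((r : ℂ) * t) := by
  have hmQ : (m : Qb) ≠ 0 := by exact_mod_cast hm.ne'
  have hdeg : (C (m : Qb) * A).natDegree = A.natDegree := Polynomial.natDegree_C_mul hmQ
  obtain ⟨r, hr, h⟩ := int_t (C (m : Qb) * A) B (by rw [hdeg]; exact hd)
  refine ⟨r, hr, fun x t hx hxt => h ((m : ℂ) * x) t hx ?_⟩
  rw [map_mul, hxt, Polynomial.aeval_C, map_natCast, mul_assoc]

/-- `int_B` with `m x` integral in place of `x` integral -/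
theorem int_B_m {A B : Polynomial Qb} (h : IsCoprime A B) (m : ℕ) (hm : 0 < m) (r : ℕ)
    (hr : 0 < r) :
    ∃ r' : ℕ, 0 < r' ∧ ∀ x t : ℂ, IsIntegral ℤ ((m : ℂ) * x) → IsIntegral ℤ ((r : ℂ) * t) →
      (aeval t A : ℂ) = x * aeval t B → (aeval t B : ℂ) ≠ 0 →
        IsIntegral ℤ ((r' : ℂ) * aeval t B) ∧ IsIntegral ℤ ((r' : ℂ) * (aeval t B : ℂ)⁻¹) := by
  have hmQ : (m : Qb) ≠ 0 := by exact_mod_cast hm.ne'
  have hu : IsUnit (C (m : Qb) : Polynomial Qb) := Polynomial.isUnit_C.2 (isUnit_iff_ne_zero.2 hmQ)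
  have h' : IsCoprime (C (m : Qb) * A) B := (isCoprime_mul_unit_left_left hu A B).2 h
  obtain ⟨r', hr', h2⟩ := int_B h' r hr
  refine ⟨r', hr', fun x t hx ht hxt hB => h2 ((m : ℂ) * x) t hx ht ?_ hB⟩
  rw [map_mul, hxt, Polynomial.aeval_C, map_natCast, mul_assoc]

end Pool.Agent.LGO.U
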