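import Mathlib
import Pool.Agent.Hhelper14.ZPL.KClosed

/-!
# LGO/U: the values of a rational function and its conjugates

`rdeg A B = max (deg A) (deg B)`: the degree of the rational function `A / B` if `A`, `B` are coprime.

PROOFS.  `comp_le`: `s (A(t)) = Σ s(a_i) (s t) ^ i` and the conjugates `s(a_i)` of the algebraic number `a_i` are bounded
(`CuspF_conj` in `LGO/H/CuspF.lean`, proof by the finitely many roots of the minimal polynomial).
`comp_ge`: write `A^s = (A.map (algebraMap Qb ℂ)).map s`; `s (A(t)) = A^s(s t)`.  There are only finitely many pairs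
`(A^s, B^s)` (all coefficients are roots of the minimal polynomials of the coefficients and the degrees are bounded).
`A^s`, `B^s` are coprime (image of the Bezout identity) and `max (deg A^s) (deg B^s) = n = rdeg A B`.  For one coprime pair
`(P, Q)` of complex polynomials with `max (deg P) (deg Q) = n`: the function `z ↦ max ‖P(z)‖ ‖Q(z)‖ / max 1 ‖z‖ ^ n` is
continuous and positive (no common zero), and near infinity it is at least `‖lc‖ / 2`, where `lc` is the leading coefficient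
of the polynomial of degree `n` (`P(z) / z ^ n → lc`; for instance `Polynomial.isEquivalent_atTop_lead` is for real
polynomials, for complex ones use `P(z) = z ^ n * (reverse P)(1/z)` or the estimate `‖P(z) - lc z ^ n‖ ≤ C ‖z‖ ^ (n - 1)` for
`‖z‖ ≥ 1`); on the compact ball it has a positive minimum.  Take the maximum of the finitely many constants.
`comp_x`: `max ‖s A(t)‖ ‖s B(t)‖ = ‖s B(t)‖ max 1 ‖s x‖` because `s A(t) = s x * s B(t)`; for the upper bound `comp_le` and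
`max 1 ‖s t‖ ^ deg ≤ max 1 ‖s t‖ ^ n`.
-/

namespace Pool.Agent.LGO.U

open Polynomial Pool.Agent.Hhelper14.ZPL

/-- the degree of the rational function `A / B` (for coprime `A`, `B`) -/
noncomputable def rdeg (A B : Polynomial Qb) : ℕ := max A.natDegree B.natDegree

/-- the conjugates of an algebraic number are bounded -/
private theorem RComp_conj (g : Qb) : ∃ B : ℝ, 1 ≤ B ∧ ∀ s : ℂ ≃+* ℂ, ‖s (g : ℂ)‖ ≤ B := by
  have h : IsAlgebraic ℚ (g : ℂ) := mem_algebraicClosure_iff.1 g.2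
  obtain ⟨p, hp, hp0⟩ := h
  have hfin : (p.rootSet ℂ).Finite := Polynomial.rootSet_finite p ℂ
  obtain ⟨B, hB⟩ := (hfin.image fun z => ‖z‖).bddAbove
  refine ⟨max B 1, le_max_right _ _, fun s => ?_⟩
  have h1 : Polynomial.aeval (s (g : ℂ)) p = 0 := by
    have h2 := Polynomial.aeval_algHom_apply (RingHom.toRatAlgHom (s : ℂ →+* ℂ)) (g : ℂ) p
    rw [hp0, map_zero] at h2
    exact h2
  have h3 : s (g : ℂ) ∈ p.rootSet ℂ := by
    rw [Polynomial.mem_rootSet]
    exact ⟨hp, h1⟩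
  exact (hB ⟨s (g : ℂ), h3, rfl⟩).trans (le_max_left _ _)

theorem comp_le (A : Polynomial Qb) : ∃ C : ℝ, 1 ≤ C ∧ ∀ (s : ℂ ≃+* ℂ) (t : ℂ),
    ‖s (aeval t A : ℂ)‖ ≤ C * max 1 ‖s t‖ ^ A.natDegree := by
  choose B hB1 hB using RComp_conj
  refine ⟨∑ i ∈ Finset.range (A.natDegree + 1), B (A.coeff i), ?_, fun s t => ?_⟩
  · refine (hB1 (A.coeff 0)).trans ?_
    exact Finset.single_le_sum (f := fun i => B (A.coeff i)) (fun i _ => zero_le_one.trans (hB1 _))
      (Finset.mem_range.2 (Nat.succ_pos _))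
  · rw [aeval_eq_sum_range, map_sum, Finset.sum_mul]
    refine (norm_sum_le _ _).trans (Finset.sum_le_sum fun i hi => ?_)
    rw [Algebra.smul_def, map_mul, map_pow, norm_mul, norm_pow]
    have hi' : i ≤ A.natDegree := Nat.lt_succ_iff.1 (Finset.mem_range.1 hi)
    refine mul_le_mul (hB _ s) ?_ (by positivity) (zero_le_one.trans (hB1 _))
    exact (pow_le_pow_left₀ (norm_nonneg _) (le_max_right _ _) i).trans
      (pow_le_pow_right₀ (le_max_left _ _) hi')

/-- growth at infinity -/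
private theorem RComp_inf {P : Polynomial Qb} (hP : P ≠ 0) : ∃ R C : ℝ, 1 ≤ R ∧ 1 ≤ C ∧
    ∀ (s : ℂ ≃+* ℂ) (t : ℂ), R ≤ ‖s t‖ → ‖s t‖ ^ P.natDegree ≤ C * ‖s (aeval t P : ℂ)‖ := by
  obtain ⟨B, hB1, hB⟩ := RComp_conj (P.leadingCoeff)⁻¹
  have hlc : P.leadingCoeff ≠ 0 := leadingCoeff_ne_zero.2 hP
  have hlc' : ((P.leadingCoeff : Qb) : ℂ) ≠ 0 := by
    intro h
    exact hlc (by exact_mod_cast h)
  have hlow : ∀ s : ℂ ≃+* ℂ, 1 ≤ B * ‖s (P.leadingCoeff : ℂ)‖ := by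
    intro s
    have h1 : s (((P.leadingCoeff)⁻¹ : Qb) : ℂ) * s ((P.leadingCoeff : Qb) : ℂ) = 1 := by
      rw [← map_mul]
      push_cast
      rw [inv_mul_cancel₀ hlc', map_one]
    calc (1 : ℝ) = ‖s (((P.leadingCoeff)⁻¹ : Qb) : ℂ) * s ((P.leadingCoeff : Qb) : ℂ)‖ := by
          rw [h1, norm_one]
      _ = ‖s (((P.leadingCoeff)⁻¹ : Qb) : ℂ)‖ * ‖s ((P.leadingCoeff : Qb) : ℂ)‖ := norm_mul _ _
      _ ≤ B * ‖s ((P.leadingCoeff : Qb) : ℂ)‖ :=
          mul_le_mul_of_nonneg_right (hB s) (norm_nonneg _)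
  have hdec : ∀ t : ℂ, (aeval t P : ℂ) = aeval t P.eraseLead +
      (P.leadingCoeff : ℂ) * t ^ P.natDegree := by
    intro t
    conv_lhs => rw [← P.eraseLead_add_monomial_natDegree_leadingCoeff]
    rw [map_add, aeval_monomial]
    rfl
  obtain ⟨C, hC1, hC⟩ := comp_le P.eraseLead
  rcases Nat.eq_zero_or_pos P.natDegree with h0 | hpos
  · refine ⟨1, B, le_refl _, hB1, fun s t _ => ?_⟩
    have h1 : P.eraseLead = 0 := by
      have h2 := P.eraseLead_natDegree_lt_or_eraseLead_eq_zero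
      rcases h2 with h2 | h2
      · omega
      · exact h2
    rw [hdec, h1, map_zero, zero_add, h0, pow_zero, pow_zero, mul_one]
    exact hlow s
  · refine ⟨2 * B * C, 2 * B, by nlinarith, by linarith, fun s t ht => ?_⟩
    have ht1 : 1 ≤ ‖s t‖ := by nlinarith
    have hmax : max 1 ‖s t‖ = ‖s t‖ := max_eq_right ht1
    have he : ‖s (aeval t P.eraseLead : ℂ)‖ ≤ C * ‖s t‖ ^ (P.natDegree - 1) := by
      refine (hC s t).trans ?_
      rw [hmax]
      exact mul_le_mul_of_nonneg_left (pow_le_pow_right₀ ht1 P.eraseLead_natDegree_le)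
        (by linarith)
    have hpow : ‖s t‖ ^ P.natDegree = ‖s t‖ ^ (P.natDegree - 1) * ‖s t‖ := by
      rw [← pow_succ, Nat.sub_add_cancel hpos]
    have h3 : ‖s (P.leadingCoeff : ℂ)‖ * ‖s t‖ ^ P.natDegree ≤
        ‖s (aeval t P : ℂ)‖ + ‖s (aeval t P.eraseLead : ℂ)‖ := by
      rw [← norm_pow, ← norm_mul, ← map_pow, ← map_mul]
      have h4 : (P.leadingCoeff : ℂ) * t ^ P.natDegree = aeval t P - aeval t P.eraseLead := by
        rw [hdec]
        ring
      rw [h4, map_sub]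
      exact norm_sub_le _ _
    have hq : 0 ≤ ‖s t‖ ^ (P.natDegree - 1) := by positivity
    have h5 : ‖s t‖ ^ P.natDegree ≤ B * (‖s (P.leadingCoeff : ℂ)‖ * ‖s t‖ ^ P.natDegree) := by
      rw [← mul_assoc]
      exact le_mul_of_one_le_left (by positivity) (hlow s)
    have h6 : 2 * B * C * ‖s t‖ ^ (P.natDegree - 1) ≤ ‖s t‖ ^ P.natDegree := by
      rw [hpow, mul_comm]
      exact mul_le_mul_of_nonneg_left ht hq
    have h7 : B * (‖s (P.leadingCoeff : ℂ)‖ * ‖s t‖ ^ P.natDegree) ≤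
        B * (‖s (aeval t P : ℂ)‖ + C * ‖s t‖ ^ (P.natDegree - 1)) :=
      mul_le_mul_of_nonneg_left (h3.trans (by linarith)) (by linarith)
    nlinarith

theorem comp_ge {A B : Polynomial Qb} (h : IsCoprime A B) : ∃ C : ℝ, 1 ≤ C ∧
    ∀ (s : ℂ ≃+* ℂ) (t : ℂ),
      max 1 ‖s t‖ ^ rdeg A B ≤ C * max ‖s (aeval t A : ℂ)‖ ‖s (aeval t B : ℂ)‖ := by
  -- a polynomial of the largest degree
  have hlarge : ∃ R C : ℝ, 1 ≤ R ∧ 1 ≤ C ∧ ∀ (s : ℂ ≃+* ℂ) (t : ℂ), R ≤ ‖s t‖ →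
      ‖s t‖ ^ rdeg A B ≤ C * max ‖s (aeval t A : ℂ)‖ ‖s (aeval t B : ℂ)‖ := by
    have hA : A ≠ 0 → A.natDegree = rdeg A B → ∃ R C : ℝ, 1 ≤ R ∧ 1 ≤ C ∧
        ∀ (s : ℂ ≃+* ℂ) (t : ℂ), R ≤ ‖s t‖ →
        ‖s t‖ ^ rdeg A B ≤ C * max ‖s (aeval t A : ℂ)‖ ‖s (aeval t B : ℂ)‖ := by
      intro h1 h2
      obtain ⟨R, C, hR, hC, h3⟩ := RComp_inf h1
      refine ⟨R, C, hR, hC, fun s t ht => ?_⟩
      rw [← h2]
      exact (h3 s t ht).trans (mul_le_mul_of_nonneg_left (le_max_left _ _) (by linarith))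
    have hB : B ≠ 0 → B.natDegree = rdeg A B → ∃ R C : ℝ, 1 ≤ R ∧ 1 ≤ C ∧
        ∀ (s : ℂ ≃+* ℂ) (t : ℂ), R ≤ ‖s t‖ →
        ‖s t‖ ^ rdeg A B ≤ C * max ‖s (aeval t A : ℂ)‖ ‖s (aeval t B : ℂ)‖ := by
      intro h1 h2
      obtain ⟨R, C, hR, hC, h3⟩ := RComp_inf h1
      refine ⟨R, C, hR, hC, fun s t ht => ?_⟩
      rw [← h2]
      exact (h3 s t ht).trans (mul_le_mul_of_nonneg_left (le_max_right _ _) (by linarith))
    by_cases hA0 : A = 0
    · have hu : IsUnit B := by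
        rw [hA0] at h
        exact isCoprime_zero_left.1 h
      refine hB hu.ne_zero ?_
      rw [rdeg, hA0, natDegree_zero, natDegree_eq_zero_of_isUnit hu, max_self]
    · by_cases hB0 : B = 0
      · have hu : IsUnit A := by
          rw [hB0] at h
          exact isCoprime_zero_right.1 h
        refine hA hu.ne_zero ?_
        rw [rdeg, hB0, natDegree_zero, natDegree_eq_zero_of_isUnit hu, max_self]
      · rcases le_total A.natDegree B.natDegree with h1 | h1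
        · exact hB hB0 (by rw [rdeg, max_eq_right h1])
        · exact hA hA0 (by rw [rdeg, max_eq_left h1])
  obtain ⟨R, C, hR, hC, hl⟩ := hlarge
  obtain ⟨U, V, hUV⟩ := h
  obtain ⟨CU, hCU1, hCU⟩ := comp_le U
  obtain ⟨CV, hCV1, hCV⟩ := comp_le V
  have hR0 : (0 : ℝ) ≤ R := by linarith
  have hM0 : 0 ≤ CU * R ^ U.natDegree + CV * R ^ V.natDegree := by positivity
  refine ⟨C + R ^ rdeg A B * (CU * R ^ U.natDegree + CV * R ^ V.natDegree), ?_, fun s t => ?_⟩
  · have : 0 ≤ R ^ rdeg A B * (CU * R ^ U.natDegree + CV * R ^ V.natDegree) := by positivity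
    linarith
  · have hmx : 0 ≤ max ‖s (aeval t A : ℂ)‖ ‖s (aeval t B : ℂ)‖ :=
      (norm_nonneg _).trans (le_max_left _ _)
    rcases le_total R ‖s t‖ with h1 | h1
    · rw [max_eq_right (hR.trans h1), add_mul]
      have := hl s t h1
      have h2 : 0 ≤ R ^ rdeg A B * (CU * R ^ U.natDegree + CV * R ^ V.natDegree) *
        max ‖s (aeval t A : ℂ)‖ ‖s (aeval t B : ℂ)‖ := by positivity
      linarith
    · have hm : max 1 ‖s t‖ ≤ R := max_le hR h1
      have hm0 : (0 : ℝ) ≤ max 1 ‖s t‖ := zero_le_one.trans (le_max_left _ _)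
      have h2 : (1 : ℂ) = s (aeval t U : ℂ) * s (aeval t A : ℂ) +
          s (aeval t V : ℂ) * s (aeval t B : ℂ) := by
        have h2' : (aeval t U : ℂ) * aeval t A + aeval t V * aeval t B = 1 := by
          have h2'' := congrArg (fun p => (aeval t p : ℂ)) hUV
          simpa only [map_add, map_mul, map_one] using h2''
        rw [← map_mul s, ← map_mul s, ← map_add s, h2', map_one]
      have h3 : (1 : ℝ) ≤ ‖s (aeval t U : ℂ)‖ * ‖s (aeval t A : ℂ)‖ +
          ‖s (aeval t V : ℂ)‖ * ‖s (aeval t B : ℂ)‖ := by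
        calc (1 : ℝ) = ‖(1 : ℂ)‖ := norm_one.symm
          _ = ‖s (aeval t U : ℂ) * s (aeval t A : ℂ) +
              s (aeval t V : ℂ) * s (aeval t B : ℂ)‖ := by rw [← h2]
          _ ≤ ‖s (aeval t U : ℂ) * s (aeval t A : ℂ)‖ +
              ‖s (aeval t V : ℂ) * s (aeval t B : ℂ)‖ := norm_add_le _ _
          _ = _ := by rw [norm_mul, norm_mul]
      have hU : ‖s (aeval t U : ℂ)‖ ≤ CU * R ^ U.natDegree :=
        (hCU s t).trans (mul_le_mul_of_nonneg_left (pow_le_pow_left₀ hm0 hm _) (by linarith))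
      have hV : ‖s (aeval t V : ℂ)‖ ≤ CV * R ^ V.natDegree :=
        (hCV s t).trans (mul_le_mul_of_nonneg_left (pow_le_pow_left₀ hm0 hm _) (by linarith))
      have h4 : ‖s (aeval t U : ℂ)‖ * ‖s (aeval t A : ℂ)‖ ≤
          CU * R ^ U.natDegree * max ‖s (aeval t A : ℂ)‖ ‖s (aeval t B : ℂ)‖ :=
        mul_le_mul hU (le_max_left _ _) (norm_nonneg _) (by positivity)
      have h5 : ‖s (aeval t V : ℂ)‖ * ‖s (aeval t B : ℂ)‖ ≤
          CV * R ^ V.natDegree * max ‖s (aeval t A : ℂ)‖ ‖s (aeval t B : ℂ)‖ :=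
        mul_le_mul hV (le_max_right _ _) (norm_nonneg _) (by positivity)
      have h6 : (1 : ℝ) ≤ (CU * R ^ U.natDegree + CV * R ^ V.natDegree) *
          max ‖s (aeval t A : ℂ)‖ ‖s (aeval t B : ℂ)‖ := by
        rw [add_mul]
        linarith
      have h7 : max 1 ‖s t‖ ^ rdeg A B ≤ R ^ rdeg A B := pow_le_pow_left₀ hm0 hm _
      have h8 : R ^ rdeg A B ≤ R ^ rdeg A B * ((CU * R ^ U.natDegree + CV * R ^ V.natDegree) *
          max ‖s (aeval t A : ℂ)‖ ‖s (aeval t B : ℂ)‖) :=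
        le_mul_of_one_le_right (by positivity) h6
      have h9 : 0 ≤ C * max ‖s (aeval t A : ℂ)‖ ‖s (aeval t B : ℂ)‖ := by positivity
      rw [add_mul, mul_assoc (R ^ rdeg A B)]
      linarith

theorem comp_x {A B : Polynomial Qb} (h : IsCoprime A B) : ∃ C : ℝ, 1 ≤ C ∧
    ∀ (s : ℂ ≃+* ℂ) (t x : ℂ), (aeval t A : ℂ) = x * aeval t B →
      ‖s (aeval t B : ℂ)‖ * max 1 ‖s x‖ ≤ C * max 1 ‖s t‖ ^ rdeg A B ∧
      max 1 ‖s t‖ ^ rdeg A B ≤ C * (‖s (aeval t B : ℂ)‖ * max 1 ‖s x‖) := by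
  obtain ⟨C, hC1, hC⟩ := comp_ge h
  obtain ⟨CA, hCA1, hCA⟩ := comp_le A
  obtain ⟨CB, hCB1, hCB⟩ := comp_le B
  refine ⟨C + CA + CB, by linarith, fun s t x hx => ?_⟩
  have h1 : ‖s (aeval t B : ℂ)‖ * max 1 ‖s x‖ =
      max ‖s (aeval t A : ℂ)‖ ‖s (aeval t B : ℂ)‖ := by
    rw [hx, map_mul, norm_mul, mul_max_of_nonneg _ _ (norm_nonneg _), mul_one, max_comm,
      mul_comm ‖s x‖]
  have hm1 : (1 : ℝ) ≤ max 1 ‖s t‖ := le_max_left _ _
  have hm0 : (0 : ℝ) ≤ max 1 ‖s t‖ ^ rdeg A B := by positivity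
  have hmx : 0 ≤ max ‖s (aeval t A : ℂ)‖ ‖s (aeval t B : ℂ)‖ :=
    (norm_nonneg _).trans (le_max_left _ _)
  rw [h1]
  constructor
  · refine max_le ?_ ?_
    · refine (hCA s t).trans ?_
      have h2 : max 1 ‖s t‖ ^ A.natDegree ≤ max 1 ‖s t‖ ^ rdeg A B :=
        pow_le_pow_right₀ hm1 (le_max_left _ _)
      exact mul_le_mul (by linarith) h2 (by positivity) (by linarith)
    · refine (hCB s t).trans ?_
      have h2 : max 1 ‖s t‖ ^ B.natDegree ≤ max 1 ‖s t‖ ^ rdeg A B :=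
        pow_le_pow_right₀ hm1 (le_max_right _ _)
      exact mul_le_mul (by linarith) h2 (by positivity) (by linarith)
  · refine (hC s t).trans ?_
    exact mul_le_mul_of_nonneg_right (by linarith) hmx

end Pool.Agent.LGO.U
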