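import Mathlib
import Pool.Agent.LGO.U.RComp

/-!
# LGO/U: moving a pole to infinity

PROOF.  `n = rdeg A B`, `A' = reflect n (A.comp (X + C c))`, `B' = reflect n (B.comp (X + C c))` (`Polynomial.reflect`):
`A'(z) = z ^ n A(c + 1 / z)` for `z ≠ 0` (`Polynomial.eval₂_reflect_mul_pow` and similar).  With `z = (t - c)⁻¹` the equations.
`deg A', deg B' ≤ n`, the coefficient of `A'` at `n` is `A(c)`, that of `B'` is `B(c)`; they are not both `0` (coprime), so
`rdeg A' B' = n`.  If `B(c) = 0` then `A(c) ≠ 0`, so `deg A' = n`, and `deg B' < n` (`n ≥ 1`: if `n = 0` then `A, B` are constants, `B = 0`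
and `rdeg`.. in this case the claim `deg B' < deg A'` would be false, so `1 ≤ rdeg A B` is a hypothesis; the coefficient of `B'` at
`n` is `0` and `n ≥ 1` give `natDegree B' < n`).  If `B(c) ≠ 0` then `deg B' = n ≥ deg A'`.
Coprime: `Qb` is algebraically closed, so it is enough that `A'`, `B'` have no common zero `z ∈ Qb` (and are not both `0`):
`z ≠ 0` would give the common zero `c + 1 / z` of `A`, `B`; and `A'(0)`, `B'(0)` are the coefficients at `n` of `A.comp (X + C c)`,
`B.comp (X + C c)`, i.e. of `A`, `B`, and one of them is a leading coefficient, `≠ 0`.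
`exists_coprime`: `G = gcd A B`, `A = G A'`, `B = G B'`; `B(t) = G(t) B'(t) ≠ 0`.
-/

namespace Pool.Agent.LGO.U

open Polynomial Pool.Agent.Hhelper14.ZPL

/-- the reflected translate at a nonzero point -/
private theorem RMob_aeval {K : Type*} [Field K] [Algebra Qb K] (c : Qb) {P : Polynomial Qb} {n : ℕ}
    (hP : P.natDegree ≤ n) {z : K} (hz : z ≠ 0) :
    aeval z (reflect n (P.comp (X + C c))) = z ^ n * aeval (algebraMap Qb K c + z⁻¹) P := by
  have hd : (P.comp (X + C c)).natDegree ≤ n := by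
    rw [natDegree_comp, natDegree_X_add_C, mul_one]
    exact hP
  have hzi : z⁻¹ ≠ 0 := inv_ne_zero hz
  let _ : Invertible z⁻¹ := invertibleOfNonzero hzi
  have h1 := eval₂_reflect_mul_pow (algebraMap Qb K) z⁻¹ n (P.comp (X + C c)) hd
  have h2 : (⅟(z⁻¹) : K) = z := by
    rw [invOf_eq_inv, inv_inv]
  rw [h2, ← aeval_def, ← aeval_def, aeval_comp, map_add, aeval_X, aeval_C] at h1
  rw [add_comm (algebraMap Qb K c), ← h1, inv_pow, mul_comm, mul_assoc,
    inv_mul_cancel₀ (pow_ne_zero n hz), mul_one]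

/-- the coefficient at `n` of the reflected translate -/
private theorem RMob_coeff_n (c : Qb) (P : Polynomial Qb) (n : ℕ) :
    (reflect n (P.comp (X + C c))).coeff n = P.eval c := by
  rw [coeff_reflect, revAt_le le_rfl, Nat.sub_self, coeff_zero_eq_eval_zero, eval_comp, eval_add,
    eval_X, eval_C, zero_add]

/-- the value at `0` of the reflected translate -/
private theorem RMob_eval_zero (c : Qb) {P : Polynomial Qb} (hP0 : P ≠ 0) :
    (reflect P.natDegree (P.comp (X + C c))).eval 0 ≠ 0 := by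
  have h0 : P.comp (X + C c) ≠ 0 := by
    intro h
    exact hP0 (by
      have h1 := congrArg (fun q : Polynomial Qb => q.comp (X - C c)) h
      simpa [comp_assoc] using h1)
  have h1 : (P.comp (X + C c)).natDegree = P.natDegree := by
    rw [natDegree_comp, natDegree_X_add_C, mul_one]
  rw [← coeff_zero_eq_eval_zero, coeff_reflect, revAt_le (Nat.zero_le _), Nat.sub_zero, ← h1]
  exact leadingCoeff_ne_zero.2 h0

/-- the degree of the reflected translate -/
private theorem RMob_natDegree_le (c : Qb) {P : Polynomial Qb} {n : ℕ} (hP : P.natDegree ≤ n) :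
    (reflect n (P.comp (X + C c))).natDegree ≤ n := by
  refine natDegree_reflect_le.trans ?_
  rw [natDegree_comp, natDegree_X_add_C, mul_one]
  exact max_le le_rfl hP

theorem mob (c : Qb) {A B : Polynomial Qb} (h : IsCoprime A B) (hn : 1 ≤ rdeg A B) :
    ∃ A' B' : Polynomial Qb, IsCoprime A' B' ∧ rdeg A' B' = rdeg A B ∧
      (∀ t : ℂ, t ≠ c → (aeval (t - c)⁻¹ A' : ℂ) = (t - c)⁻¹ ^ rdeg A B * aeval t A ∧
        (aeval (t - c)⁻¹ B' : ℂ) = (t - c)⁻¹ ^ rdeg A B * aeval t B) ∧
      (B.eval c = 0 → B'.natDegree < A'.natDegree) ∧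
      (B.eval c ≠ 0 → A'.natDegree ≤ B'.natDegree) := by
  have hA : A.natDegree ≤ rdeg A B := le_max_left _ _
  have hB : B.natDegree ≤ rdeg A B := le_max_right _ _
  have hne : ¬ (A.eval c = 0 ∧ B.eval c = 0) := by
    rintro ⟨h1, h2⟩
    obtain ⟨u, v, huv⟩ := h
    have h3 := congrArg (eval c) huv
    rw [eval_add, eval_mul, eval_mul, h1, h2, mul_zero, mul_zero, add_zero, eval_one] at h3
    exact zero_ne_one h3
  have hnd : ∀ P : Polynomial Qb, P.natDegree ≤ rdeg A B → P.eval c ≠ 0 →
      (reflect (rdeg A B) (P.comp (X + C c))).natDegree = rdeg A B := by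
    intro P hP hPc
    refine le_antisymm (RMob_natDegree_le c hP) (le_natDegree_of_ne_zero ?_)
    rw [RMob_coeff_n]
    exact hPc
  have hlt : ∀ P : Polynomial Qb, P.natDegree ≤ rdeg A B → P.eval c = 0 →
      (reflect (rdeg A B) (P.comp (X + C c))).natDegree < rdeg A B := by
    intro P hP hPc
    refine lt_of_le_of_ne (RMob_natDegree_le c hP) ?_
    intro h1
    have h2 := RMob_coeff_n c P (rdeg A B)
    rw [hPc] at h2
    have h3 : (reflect (rdeg A B) (P.comp (X + C c))).leadingCoeff = 0 := by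
      rw [leadingCoeff, h1, h2]
    rw [leadingCoeff_eq_zero] at h3
    rw [h3, natDegree_zero] at h1
    omega
  refine ⟨reflect (rdeg A B) (A.comp (X + C c)), reflect (rdeg A B) (B.comp (X + C c)), ?_, ?_,
    ?_, ?_, ?_⟩
  · refine (isCoprime_iff_aeval_ne_zero_of_isAlgClosed (K := Qb) (k := Qb) _ _).2 fun z => ?_
    by_cases hz : z = 0
    · subst hz
      have hcase : A ≠ 0 ∧ A.natDegree = rdeg A B ∨ B ≠ 0 ∧ B.natDegree = rdeg A B := by
        rcases le_total B.natDegree A.natDegree with h1 | h1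
        · have h2 : A.natDegree = rdeg A B := (max_eq_left h1).symm
          refine Or.inl ⟨?_, h2⟩
          rintro rfl
          rw [natDegree_zero] at h2
          omega
        · have h2 : B.natDegree = rdeg A B := (max_eq_right h1).symm
          refine Or.inr ⟨?_, h2⟩
          rintro rfl
          rw [natDegree_zero] at h2
          omega
      rcases hcase with ⟨h1, h2⟩ | ⟨h1, h2⟩
      · refine Or.inl ?_
        have h3 := RMob_eval_zero c h1
        rw [h2] at h3
        rw [coe_aeval_eq_eval]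
        exact h3
      · refine Or.inr ?_
        have h3 := RMob_eval_zero c h1
        rw [h2] at h3
        rw [coe_aeval_eq_eval]
        exact h3
    · rw [RMob_aeval c hA hz, RMob_aeval c hB hz]
      have h1 := (isCoprime_iff_aeval_ne_zero_of_isAlgClosed (K := Qb) (k := Qb) A B).1 h
        (algebraMap Qb Qb c + z⁻¹)
      rcases h1 with h1 | h1
      · exact Or.inl (mul_ne_zero (pow_ne_zero _ hz) h1)
      · exact Or.inr (mul_ne_zero (pow_ne_zero _ hz) h1)
  · by_cases h1 : A.eval c = 0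
    · have h2 : B.eval c ≠ 0 := fun h2 => hne ⟨h1, h2⟩
      rw [rdeg, hnd B hB h2, max_eq_right (RMob_natDegree_le c hA)]
    · rw [rdeg, hnd A hA h1, max_eq_left (RMob_natDegree_le c hB)]
  · intro t ht
    have hz : (t - (c : ℂ))⁻¹ ≠ 0 := inv_ne_zero (sub_ne_zero.2 ht)
    have h1 : algebraMap Qb ℂ c + ((t - (c : ℂ))⁻¹)⁻¹ = t := by
      rw [inv_inv]
      exact add_sub_cancel (c : ℂ) t
    constructor
    · rw [RMob_aeval c hA hz, h1]
    · rw [RMob_aeval c hB hz, h1]
  · intro h1
    have h2 : A.eval c ≠ 0 := fun h2 => hne ⟨h2, h1⟩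
    rw [hnd A hA h2]
    exact hlt B hB h1
  · intro h1
    rw [hnd B hB h1]
    exact RMob_natDegree_le c hA

theorem exists_coprime {A B : Polynomial Qb} (hB : B ≠ 0) :
    ∃ A' B' : Polynomial Qb, IsCoprime A' B' ∧ ∀ (t x : ℂ), (aeval t B : ℂ) ≠ 0 →
      x * aeval t B = aeval t A → (aeval t B' : ℂ) ≠ 0 ∧ x * aeval t B' = aeval t A' := by
  obtain ⟨A', hA'⟩ := EuclideanDomain.gcd_dvd_left A B
  obtain ⟨B', hB'⟩ := EuclideanDomain.gcd_dvd_right A B
  have hG : EuclideanDomain.gcd A B ≠ 0 := by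
    intro h
    exact hB (EuclideanDomain.gcd_eq_zero_iff.1 h).2
  refine ⟨A', B', ?_, ?_⟩
  · refine ⟨EuclideanDomain.gcdA A B, EuclideanDomain.gcdB A B, ?_⟩
    have h1 := EuclideanDomain.gcd_eq_gcd_ab A B
    apply mul_left_cancel₀ hG
    calc EuclideanDomain.gcd A B * (EuclideanDomain.gcdA A B * A' + EuclideanDomain.gcdB A B * B')
        = (EuclideanDomain.gcd A B * A') * EuclideanDomain.gcdA A B +
          (EuclideanDomain.gcd A B * B') * EuclideanDomain.gcdB A B := by ring
      _ = A * EuclideanDomain.gcdA A B + B * EuclideanDomain.gcdB A B := by rw [← hA', ← hB']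
      _ = EuclideanDomain.gcd A B * 1 := by rw [mul_one, ← h1]
  · intro t x h1 h2
    have h3 : (aeval t B : ℂ) = aeval t (EuclideanDomain.gcd A B) * aeval t B' := by
      rw [← map_mul, ← hB']
    have h4 : (aeval t A : ℂ) = aeval t (EuclideanDomain.gcd A B) * aeval t A' := by
      rw [← map_mul, ← hA']
    have h5 : (aeval t (EuclideanDomain.gcd A B) : ℂ) ≠ 0 := by
      intro h
      rw [h3, h, zero_mul] at h1
      exact h1 rfl
    refine ⟨?_, ?_⟩
    · intro h
      rw [h3, h, mul_zero] at h1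
      exact h1 rfl
    · apply mul_left_cancel₀ h5
      rw [← h4, ← h2, h3]
      ring

end Pool.Agent.LGO.U
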