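import Mathlib

/-!
# LGO/U: two numerical lemmas

PROOFS.  `num_H`: Put `l = log N ≥ 1` (`N ≥ 3 > e`), `h = log H ≥ 0`.  `a ≥ 1` may be assumed (replace `a` by `max a 1`; the base is
nonnegative if `a ≥ 0`; for `a < 0` the base may be negative, so `a ≥ 0` is a hypothesis).  If `h ≤ l`: `H ≤ (2 a D l) ^ k`.  If `h ≥ l`:
`H ≤ (2 a D h) ^ k`, and `h ^ k ≤ (2 k) ^ k H ^ (1/2)` for `k ≥ 1` (`h = log H ≤ 2 k H ^ (1 / (2 k))`, `Real.log_le_rpow_div` or
`Real.add_one_le_exp`), so `H ^ (1/2) ≤ (2 a D) ^ k (2 k) ^ k`, `H ≤ (4 a k D) ^ (2 k)`.  Take `C ≥ 4 a (k + 1) + 2 k + 2`; `C D l ≥ 1`.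
`num_N`: the same with `N` in place of `H`: `log N ^ k ≤ (2 k) ^ k N ^ (1/2)`.
-/

namespace Pool.Agent.LGO.U

private theorem RNum_aux {b H : ℝ} (hb : 0 ≤ b) (hH : 1 ≤ H) (k : ℕ)
    (h : H ≤ (b * Real.log H) ^ k) : H ≤ (2 * k * b) ^ (2 * k) := by
  rcases Nat.eq_zero_or_pos k with hk | hk
  · subst hk
    simpa using h
  · have hkr : (0 : ℝ) < k := by exact_mod_cast hk
    have hl : 0 ≤ Real.log H := Real.log_nonneg hH
    set x : ℝ := Real.exp (Real.log H / (2 * k)) with hx
    have hxpos : 0 < x := Real.exp_pos _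
    have h1 : Real.log H ≤ 2 * k * x := by
      have e1 := Real.add_one_le_exp (Real.log H / (2 * k))
      have e2 : Real.log H / (2 * k) ≤ x := by linarith
      rw [div_le_iff₀ (by positivity)] at e2
      linarith
    have h2 : H = (x ^ k) ^ 2 := by
      rw [← pow_mul, hx, ← Real.exp_nat_mul]
      have : ((k * 2 : ℕ) : ℝ) * (Real.log H / (2 * k)) = Real.log H := by
        push_cast
        field_simp
      rw [this, Real.exp_log (by linarith)]
    have h3 : (b * Real.log H) ^ k ≤ (2 * k * b) ^ k * x ^ k := by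
      rw [← mul_pow]
      apply pow_le_pow_left₀ (by positivity)
      calc b * Real.log H ≤ b * (2 * k * x) := mul_le_mul_of_nonneg_left h1 hb
        _ = 2 * k * b * x := by ring
    have hxk : 0 < x ^ k := by positivity
    have h4 : x ^ k ≤ (2 * k * b) ^ k := by
      have h5 : (x ^ k) ^ 2 ≤ (2 * k * b) ^ k * x ^ k := by
        rw [← h2]; exact le_trans h h3
      rw [pow_two] at h5
      exact le_of_mul_le_mul_right h5 hxk
    rw [h2]
    have h6 : (2 * k * b) ^ (2 * k) = ((2 * k * b) ^ k) ^ 2 := by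
      rw [← pow_mul]
      congr 1
      ring
    rw [h6]
    exact pow_le_pow_left₀ hxk.le h4 2

private theorem RNum_one_le_log {N : ℝ} (hN : 3 ≤ N) : 1 ≤ Real.log N := by
  rw [Real.le_log_iff_exp_le (by linarith)]
  have := Real.exp_one_lt_d9
  linarith

theorem num_H (a : ℝ) (ha : 0 ≤ a) (k : ℕ) : ∃ C : ℕ, 1 ≤ C ∧ ∀ D N H : ℝ, 1 ≤ D → 3 ≤ N →
    1 ≤ H → H ≤ (a * D * (Real.log N + Real.log H)) ^ k → H ≤ (C * D * Real.log N) ^ C := by
  refine ⟨⌈4 * a * (k + 1)⌉₊ + 2 * k + 2, by omega, ?_⟩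
  intro D N H hD hN hH h
  set C : ℕ := ⌈4 * a * (k + 1)⌉₊ + 2 * k + 2 with hC
  have hkr : (0 : ℝ) ≤ k := Nat.cast_nonneg k
  have hCr : 4 * a * (k + 1) + 2 ≤ (C : ℝ) := by
    have e1 := Nat.le_ceil (4 * a * ((k : ℝ) + 1))
    rw [hC]
    push_cast
    linarith
  have hl : 1 ≤ Real.log N := RNum_one_le_log hN
  have hh : 0 ≤ Real.log H := Real.log_nonneg hH
  have hC1 : (1 : ℝ) ≤ C := by nlinarith [mul_nonneg ha hkr]
  have hCD : 1 ≤ C * D * Real.log N := by
    have : 1 ≤ C * D := by nlinarith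
    nlinarith
  have hak : 0 ≤ a * k := mul_nonneg ha hkr
  rcases le_total (Real.log H) (Real.log N) with hc | hc
  · have h1 : a * D * (Real.log N + Real.log H) ≤ C * D * Real.log N := by
      have e1 : a * D * (Real.log N + Real.log H) ≤ a * D * (2 * Real.log N) := by
        apply mul_le_mul_of_nonneg_left (by linarith) (by positivity)
      have e2 : a * D * (2 * Real.log N) = (2 * a) * (D * Real.log N) := by ring
      have e3 : (2 * a) * (D * Real.log N) ≤ C * (D * Real.log N) := by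
        apply mul_le_mul_of_nonneg_right _ (by positivity)
        nlinarith
      calc _ ≤ _ := e1
        _ = _ := e2
        _ ≤ _ := e3
        _ = _ := by ring
    calc H ≤ _ := h
      _ ≤ (C * D * Real.log N) ^ k := pow_le_pow_left₀ (by positivity) h1 k
      _ ≤ (C * D * Real.log N) ^ C := pow_le_pow_right₀ hCD (by omega)
  · have h1 : H ≤ (2 * a * D * Real.log H) ^ k := by
      refine le_trans h (pow_le_pow_left₀ (by positivity) ?_ k)
      have e1 : a * D * (Real.log N + Real.log H) ≤ a * D * (2 * Real.log H) := by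
        apply mul_le_mul_of_nonneg_left (by linarith) (by positivity)
      calc _ ≤ _ := e1
        _ = _ := by ring
    have h2 := RNum_aux (by positivity) hH k h1
    have h3 : 2 * k * (2 * a * D) ≤ C * D * Real.log N := by
      have e2 : 2 * k * (2 * a * D) = (4 * (a * k)) * D := by ring
      have e3 : (4 * (a * k)) * D ≤ C * D := by
        apply mul_le_mul_of_nonneg_right _ (by linarith)
        nlinarith
      have e4 : C * D ≤ C * D * Real.log N := by
        have : 0 ≤ C * D := by positivity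
        nlinarith
      linarith
    calc H ≤ _ := h2
      _ ≤ (C * D * Real.log N) ^ (2 * k) := pow_le_pow_left₀ (by positivity) h3 _
      _ ≤ (C * D * Real.log N) ^ C := pow_le_pow_right₀ hCD (by omega)

theorem num_N (a : ℝ) (ha : 0 ≤ a) (k : ℕ) : ∃ C : ℕ, 1 ≤ C ∧ ∀ D N : ℝ, 1 ≤ D → 3 ≤ N →
    N ≤ (a * D * Real.log N) ^ k → N ≤ (C * D) ^ C := by
  refine ⟨⌈2 * a * (k + 1)⌉₊ + 2 * k + 2, by omega, ?_⟩
  intro D N hD hN h
  set C : ℕ := ⌈2 * a * (k + 1)⌉₊ + 2 * k + 2 with hC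
  have hkr : (0 : ℝ) ≤ k := Nat.cast_nonneg k
  have hCr : 2 * a * (k + 1) + 2 ≤ (C : ℝ) := by
    have e1 := Nat.le_ceil (2 * a * ((k : ℝ) + 1))
    rw [hC]
    push_cast
    linarith
  have hak : 0 ≤ a * k := mul_nonneg ha hkr
  have hC1 : (1 : ℝ) ≤ C := by nlinarith
  have hCD : 1 ≤ C * D := by nlinarith
  have h2 := RNum_aux (by positivity) (by linarith) k h
  have h3 : 2 * k * (a * D) ≤ C * D := by
    have e2 : 2 * k * (a * D) = (2 * (a * k)) * D := by ring
    have e3 : (2 * (a * k)) * D ≤ C * D := by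
      apply mul_le_mul_of_nonneg_right _ (by linarith)
      nlinarith
    linarith
  calc N ≤ _ := h2
    _ ≤ (C * D) ^ (2 * k) := pow_le_pow_left₀ (by positivity) h3 _
    _ ≤ (C * D) ^ C := pow_le_pow_right₀ hCD (by omega)

end Pool.Agent.LGO.U
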