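import Mathlib
import Pool.Agent.LGO.H.CoreG
import Pool.Agent.LGO.U.RNum

/-!
# LGO/U: from a bound for one coordinate to the conclusion

PROOF of `core_D`: the same as `core_good` (`LGO/H/CoreG.lean`) with `F = X a`, `aeval (x ∘ i) (X a) = x (i a)` (`hconst a` gives `hF`), and a bound which
depends on the field.  `rel_height` for `F` and the three coordinates: `C₁`, finite sets `Er`.  `isog_use`: `C₂`.  Let `x ∈ V` be outside
`E₀` and the `Er`, `K ∋ x (i b)`, `D = [K : ℚ] ≥ 1`, `N = 3 + Σ mdeg (x (i a)) (x (i b))`, `L = (C₀ (D log N)) ^ C₀ ≥ 0`.  By hypothesis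
`‖s (x (i a))‖ ≤ exp L`, so `‖s (x (i b))‖ ≤ exp (C₁ D (1 + L))` for all `b`, `s` (`rel_height`), `Bd K (C₁ D (1 + L)) (x (i b))`
(`bd_of_aut`), and with `M = 2 C₁ D (1 + L)` `isog_use` gives `mdeg ≤ M ^ C₂`, `N ≤ 3 + 9 M ^ C₂ ≤ (c D log N) ^ k`; `num_N`: `N ≤ (C D) ^ C`.
Then `log N ≤ C' (1 + log D) ≤ C' (1 + D)` (or `log N ≤ N`), and `M ≤ (C D) ^ C`.
-/

namespace Pool.Agent.LGO.U

open MvPolynomial Pool.Agent.Hhelper14.ZPL Pool.Agent.LGO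

private theorem RCore_one {N : ℝ} (hN : 3 ≤ N) : 1 ≤ Real.log N := by
  rw [Real.le_log_iff_exp_le (by linarith)]
  have := Real.exp_one_lt_d9
  linarith

/-- the bound for `2 H` -/
private theorem RCore_H {c C₀ : ℕ} (hc : 1 ≤ c) {D l : ℝ} (hD : 1 ≤ D) (hl : 1 ≤ l) :
    2 * (c * D * (1 + (C₀ * (D * l)) ^ C₀)) ≤ ((4 * c * (C₀ + 1) : ℕ) * D * l) ^ (C₀ + 1) := by
  have hc1 : (1 : ℝ) ≤ c := by exact_mod_cast hc
  have hDl : 1 ≤ D * l := one_le_mul_of_one_le_of_one_le hD hl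
  have hC0 : (0 : ℝ) ≤ C₀ := Nat.cast_nonneg _
  have hb1 : 1 ≤ (C₀ + 1) * (D * l) := one_le_mul_of_one_le_of_one_le (by linarith) hDl
  have h1 : (C₀ * (D * l)) ^ C₀ ≤ ((C₀ + 1) * (D * l)) ^ C₀ :=
    pow_le_pow_left₀ (by positivity) (mul_le_mul_of_nonneg_right (by linarith) (by linarith)) _
  have h2 : (1 : ℝ) ≤ ((C₀ + 1) * (D * l)) ^ C₀ := one_le_pow₀ hb1
  have h3 : 2 * (c * D * (1 + (C₀ * (D * l)) ^ C₀)) ≤ 4 * c * D * ((C₀ + 1) * (D * l)) ^ C₀ := by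
    have h4 : 2 * (c * D * (1 + (C₀ * (D * l)) ^ C₀)) ≤
        2 * (c * D * (2 * ((C₀ + 1) * (D * l)) ^ C₀)) := by
      have h5 : 1 + (C₀ * (D * l)) ^ C₀ ≤ 2 * ((C₀ + 1) * (D * l)) ^ C₀ := by linarith
      have h6 : 0 ≤ c * D := by positivity
      linarith [mul_le_mul_of_nonneg_left h5 h6]
    linarith
  refine h3.trans ?_
  push_cast
  have e1 : (4 : ℝ) * c * (C₀ + 1) * D * l = 4 * c * ((C₀ + 1) * (D * l)) := by ring
  rw [e1, pow_succ, mul_comm]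
  have h7 : ((C₀ + 1) * (D * l)) ^ C₀ ≤ (4 * c * ((C₀ + 1) * (D * l))) ^ C₀ := by
    refine pow_le_pow_left₀ (by positivity) ?_ _
    refine le_mul_of_one_le_left (by positivity) ?_
    linarith
  have h8 : 4 * c * D ≤ 4 * c * ((C₀ + 1) * (D * l)) := by
    refine mul_le_mul_of_nonneg_left ?_ (by positivity)
    have h9 : D ≤ D * l := le_mul_of_one_le_right (by linarith) hl
    exact h9.trans (le_mul_of_one_le_left (by linarith) (by linarith))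
  exact mul_le_mul h7 h8 (by positivity) (by positivity)

private theorem RCore_pow {b : ℝ} (hb : 1 ≤ b) (m : ℕ) : 12 * b ^ m ≤ (12 * b) ^ (m + 1) := by
  rw [mul_pow, pow_succ (12 : ℝ), pow_succ b]
  have h1 : (1 : ℝ) ≤ 12 ^ m := one_le_pow₀ (by norm_num)
  have h2 : (0 : ℝ) ≤ b ^ m := by positivity
  have h3 : b ^ m ≤ b ^ m * b := le_mul_of_one_le_right h2 hb
  have h4 : 12 * b ^ m ≤ 12 * (b ^ m * b) := by linarith
  have h5 : 12 * (b ^ m * b) ≤ 12 ^ m * 12 * (b ^ m * b) := by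
    refine mul_le_mul_of_nonneg_right ?_ (by positivity)
    linarith
  exact h4.trans h5

/-- the numerical conclusion -/
private theorem RCore_num {c C₀ C₂ : ℕ} (hc : 1 ≤ c) : ∃ C : ℕ, ∀ D N : ℝ, 1 ≤ D → 3 ≤ N →
    N ≤ 12 * (2 * (c * D * (1 + (C₀ * (D * Real.log N)) ^ C₀))) ^ C₂ →
    N ≤ (C * D) ^ C ∧ c * D * (1 + (C₀ * (D * Real.log N)) ^ C₀) ≤ (C * D) ^ C := by
  obtain ⟨A, hA⟩ : ∃ A : ℕ, A = 4 * c * (C₀ + 1) := ⟨_, rfl⟩
  have hA1 : 1 ≤ A := by rw [hA]; nlinarith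
  have hA1r : (1 : ℝ) ≤ A := by exact_mod_cast hA1
  obtain ⟨C₃, hC₃, hnum⟩ := num_N (12 * A) (by positivity) ((C₀ + 1) * C₂ + 1)
  have hC₃r : (1 : ℝ) ≤ C₃ := by exact_mod_cast hC₃
  refine ⟨C₃ + A * C₃ + (1 + C₃) * (C₀ + 1), fun D N hD hN h => ?_⟩
  obtain ⟨C, hC⟩ : ∃ C : ℕ, C = C₃ + A * C₃ + (1 + C₃) * (C₀ + 1) := ⟨_, rfl⟩
  rw [← hC]
  have hl := RCore_one hN
  have hD0 : 0 ≤ D := by linarith
  have hH := RCore_H (C₀ := C₀) hc hD hl
  rw [← hA] at hH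
  have hb : 1 ≤ A * D * Real.log N :=
    one_le_mul_of_one_le_of_one_le (one_le_mul_of_one_le_of_one_le hA1r hD) hl
  have hnn : 0 ≤ c * D * (1 + (C₀ * (D * Real.log N)) ^ C₀) := by
    have : 0 ≤ Real.log N := by linarith
    positivity
  have hC₃C : C₃ ≤ C := by rw [hC]; exact le_trans (Nat.le_add_right _ _) (Nat.le_add_right _ _)
  have hAC : A * C₃ ≤ C := by rw [hC]; exact le_trans (Nat.le_add_left _ _) (Nat.le_add_right _ _)
  have heC : (1 + C₃) * (C₀ + 1) ≤ C := by rw [hC]; exact Nat.le_add_left _ _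
  have hCr : (1 : ℝ) ≤ C := hC₃r.trans (by exact_mod_cast hC₃C)
  have hCD : 1 ≤ C * D := one_le_mul_of_one_le_of_one_le hCr hD
  have hNb : N ≤ (C₃ * D) ^ C₃ := by
    refine hnum D N hD hN ?_
    refine h.trans ?_
    have h1 : (2 * (c * D * (1 + (C₀ * (D * Real.log N)) ^ C₀))) ^ C₂ ≤
        (A * D * Real.log N) ^ ((C₀ + 1) * C₂) := by
      rw [pow_mul]
      exact pow_le_pow_left₀ (by linarith) hH _
    have h2 := RCore_pow hb ((C₀ + 1) * C₂)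
    have h3 : 12 * (A * D * Real.log N) = 12 * A * D * Real.log N := by ring
    rw [h3] at h2
    linarith
  constructor
  · refine hNb.trans ?_
    refine (pow_le_pow_left₀ (by positivity) ?_ _).trans (pow_le_pow_right₀ hCD hC₃C)
    exact mul_le_mul_of_nonneg_right (by exact_mod_cast hC₃C) hD0
  · have hlN : Real.log N ≤ (C₃ * D) ^ C₃ := (Real.log_le_self (by linarith)).trans hNb
    have h1 : A * D * Real.log N ≤ (A * C₃ * D) ^ (C₃ + 1) := by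
      rw [pow_succ, mul_comm]
      refine mul_le_mul (hlN.trans (pow_le_pow_left₀ (by positivity) ?_ _)) ?_ (by positivity)
        (by positivity)
      · rw [mul_assoc]
        exact le_mul_of_one_le_left (by positivity) hA1r
      · refine mul_le_mul_of_nonneg_right ?_ hD0
        exact le_mul_of_one_le_right (by positivity) hC₃r
    have h2 : c * D * (1 + (C₀ * (D * Real.log N)) ^ C₀) ≤
        ((A * C₃ * D) ^ (C₃ + 1)) ^ (C₀ + 1) := by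
      have h3 := pow_le_pow_left₀ (by linarith) h1 (C₀ + 1)
      linarith
    refine h2.trans ?_
    rw [← pow_mul]
    refine (pow_le_pow_left₀ (by positivity) (b := (C : ℝ) * D) ?_ _).trans
      (pow_le_pow_right₀ hCD ((le_of_eq (by ring)).trans heC))
    refine mul_le_mul_of_nonneg_right ?_ hD0
    exact_mod_cast hAC

theorem core_D {n : ℕ} {V : Set (Fin n → ℂ)} (hV : Pool.Agent.Hhelper14.ZPL.IsIrredClosed V)
    (hVk : KClosed V) (hdim : Pool.Agent.Hhelper14.ZPL.dim V = 1) (i : Fin 3 → Fin n)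
    (a : Fin 3) (hconst : ∀ c : ℂ, ∃ x ∈ V, x (i a) ≠ c)
    {C₀ : ℕ} {E₀ : Set (Fin n → ℂ)} (hE₀ : E₀.Finite)
    (h0 : ∀ x ∈ V, x ∉ E₀ → (∀ a, NCM (x (i a))) →
      (∀ a b, ∃ N, 0 < N ∧ IsogDeg N (x (i a)) (x (i b))) → (∀ a, IsIntegral ℤ (x (i a))) →
      ∀ (K : IntermediateField ℚ ℂ) [FiniteDimensional ℚ K], (∀ b, x (i b) ∈ K) →
        ∀ N : ℝ, 3 ≤ N → (∀ a b, (mdeg (x (i a)) (x (i b)) : ℝ) ≤ N) → ∀ s : ℂ ≃+* ℂ,
          ‖s (x (i a))‖ ≤ Real.exp ((C₀ * (Module.finrank ℚ K * Real.log N)) ^ C₀)) :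
    ∃ (C : ℕ) (E : Set (Fin n → ℂ)), E.Finite ∧ ∀ x ∈ V, x ∉ E → (∀ a, NCM (x (i a))) →
      (∀ a b, ∃ N, 0 < N ∧ IsogDeg N (x (i a)) (x (i b))) → (∀ a, IsIntegral ℤ (x (i a))) →
      Concl i C x := by
  classical
  have hF : ∀ c : ℂ, ∃ x ∈ V, (aeval (x ∘ i) (X a : MvPolynomial (Fin 3) Qb) : ℂ) ≠ c := by
    intro c
    obtain ⟨x, hx, hxc⟩ := hconst c
    refine ⟨x, hx, ?_⟩
    rw [aeval_X]
    exact hxc
  choose Cr Er hCr hEr hrel using fun b => rel_height hV hVk hdim i hF b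
  obtain ⟨C₂, hisog⟩ := isog_use
  obtain ⟨c, hc⟩ := exists_nat_ge (∑ b, Cr b)
  have hca : ∀ b, Cr b ≤ c := fun b =>
    (Finset.single_le_sum (f := Cr) (fun d _ => zero_le_one.trans (hCr d)) (Finset.mem_univ b)).trans
      hc
  have hc1 : (1 : ℝ) ≤ c := (hCr 0).trans (hca 0)
  have hc1' : 1 ≤ c := by exact_mod_cast hc1
  obtain ⟨C, hnum⟩ := RCore_num (C₀ := C₀) (C₂ := C₂) hc1'
  refine ⟨C, E₀ ∪ ⋃ b, Er b, hE₀.union (Set.finite_iUnion hEr), ?_⟩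
  intro x hx hxE hncm hiso hint K _ hxK
  have hxE₀ : x ∉ E₀ := fun h => hxE (Or.inl h)
  have hxEr : ∀ b, x ∉ Er b := fun b h => hxE (Or.inr (Set.mem_iUnion.2 ⟨b, h⟩))
  obtain ⟨D, hDdef⟩ : ∃ D : ℝ, D = (Module.finrank ℚ K : ℝ) := ⟨_, rfl⟩
  have hD : 1 ≤ D := by
    rw [hDdef]
    exact_mod_cast Module.finrank_pos (R := ℚ) (M := K)
  obtain ⟨N, hNdef⟩ : ∃ N : ℝ, N = 3 + ∑ a, ∑ b, (mdeg (x (i a)) (x (i b)) : ℝ) := ⟨_, rfl⟩
  have hNab : ∀ a b, (mdeg (x (i a)) (x (i b)) : ℝ) ≤ N := by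
    intro a b
    have h1 : (mdeg (x (i a)) (x (i b)) : ℝ) ≤ ∑ b, (mdeg (x (i a)) (x (i b)) : ℝ) :=
      Finset.single_le_sum (f := fun b => (mdeg (x (i a)) (x (i b)) : ℝ))
        (fun _ _ => Nat.cast_nonneg _) (Finset.mem_univ b)
    have h2 : ∑ b, (mdeg (x (i a)) (x (i b)) : ℝ) ≤ ∑ a, ∑ b, (mdeg (x (i a)) (x (i b)) : ℝ) :=
      Finset.single_le_sum (f := fun a => ∑ b, (mdeg (x (i a)) (x (i b)) : ℝ))
        (fun _ _ => Finset.sum_nonneg fun _ _ => Nat.cast_nonneg _) (Finset.mem_univ a)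
    linarith
  have hN3 : 3 ≤ N := by
    have : 0 ≤ ∑ a, ∑ b, (mdeg (x (i a)) (x (i b)) : ℝ) :=
      Finset.sum_nonneg fun _ _ => Finset.sum_nonneg fun _ _ => Nat.cast_nonneg _
    linarith
  have hlog := RCore_one hN3
  have hL0 : 0 ≤ (C₀ * (D * Real.log N)) ^ C₀ := by positivity
  obtain ⟨H, hH⟩ : ∃ H : ℝ, H = c * D * (1 + (C₀ * (D * Real.log N)) ^ C₀) := ⟨_, rfl⟩
  have hHD : D ≤ H := by
    rw [hH]
    have h1 : (1 : ℝ) * D * 1 ≤ c * D * (1 + (C₀ * (D * Real.log N)) ^ C₀) := by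
      refine mul_le_mul (mul_le_mul_of_nonneg_right hc1 (by linarith)) (by linarith) zero_le_one
        (by positivity)
    linarith
  have hFx : ∀ s : ℂ ≃+* ℂ, ‖s (aeval (x ∘ i) (X a : MvPolynomial (Fin 3) Qb) : ℂ)‖ ≤
      Real.exp ((C₀ * (D * Real.log N)) ^ C₀) := by
    intro s
    rw [aeval_X, hDdef]
    exact h0 x hx hxE₀ hncm hiso hint K hxK N hN3 hNab s
  have hsx : ∀ b, ∀ s : ℂ ≃+* ℂ, ‖s (x (i b))‖ ≤ Real.exp H := by
    intro b s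
    refine (hrel b x hx (hxEr b) K hxK hint _ hL0 hFx s).trans ?_
    apply Real.exp_le_exp.2
    rw [hH, ← hDdef]
    have := hca b
    gcongr
  have hBd : ∀ b, Bd K (2 * H) (x (i b)) := by
    intro b
    refine bd_of_aut (hxK b) (hint b) (by linarith) fun s => (hsx b s).trans ?_
    apply Real.exp_le_exp.2
    linarith
  have hmd : ∀ a b, (mdeg (x (i a)) (x (i b)) : ℝ) ≤ (2 * H) ^ C₂ := fun a b =>
    hisog K (2 * H) _ _ (by linarith) (by linarith) (hBd a) (hBd b) (hncm a) (hncm b) (hiso a b)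
  have hN : N ≤ 12 * (2 * H) ^ C₂ := by
    have h1 : ∑ a : Fin 3, ∑ b : Fin 3, (mdeg (x (i a)) (x (i b)) : ℝ) ≤
        ∑ _a : Fin 3, ∑ _b : Fin 3, (2 * H) ^ C₂ :=
      Finset.sum_le_sum fun a _ => Finset.sum_le_sum fun b _ => hmd a b
    have h2 : (1 : ℝ) ≤ (2 * H) ^ C₂ := one_le_pow₀ (by linarith)
    simp only [Finset.sum_const, Finset.card_univ, Fintype.card_fin, nsmul_eq_mul] at h1
    push_cast at h1
    linarith
  rw [hH] at hN
  obtain ⟨hN1, hH1⟩ := hnum D N hD hN3 hN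
  rw [← hDdef]
  refine ⟨fun a b => (hNab a b).trans hN1, fun b s => (hsx b s).trans (Real.exp_le_exp.2 ?_)⟩
  rw [hH]
  exact hH1

end Pool.Agent.LGO.U
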