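import Mathlib
import Pool.Agent.LGO.U.RMob
import Pool.Agent.LGO.H.Defs

/-!
# LGO/U: normalisation

`RatPair V i a b`: up to finitely many points the coordinates `i a`, `i b` are rational functions `Aa/Ba`, `Ab/Bb` of a parameter `t`,
in lowest terms, the first has a pole at `t = ∞`, and the second has no pole there or a different degree.

PROOFS.
`ratPair_of_pair`.  Case (1): there is `z ∈ Qb` with `Ba(z) = 0`, `Bb(z) ≠ 0`: then `1 ≤ rdeg Aa Ba` (`Ba` is not constant: `Ba = 0` is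
impossible because `Ba(t) ≠ 0` for a point, or if there is no such point everything is trivial: take `E = V` finite, see below).  If
`1 ≤ rdeg Ab Bb`, `mob` with `c = z` for both pairs; for the parameter `t` of a point `t ≠ z` (`Ba(t) ≠ 0 = Ba(z)`); new parameter
`(t - z)⁻¹`: `RatPair V i a b` (first alternative).  If `rdeg Ab Bb = 0`: `Ab`, `Bb` are constants and can be kept (`deg Ab = 0 ≤ deg Bb`).
(2) `Bb(z) = 0`, `Ba(z) ≠ 0`: the same with `a`, `b` exchanged.  (3) `deg Ba < deg Aa` and `deg Ab ≤ deg Bb`: directly; (4) symmetric.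
(5) `rdeg Aa Ba ≠ rdeg Ab Bb`: let the first be larger (or exchange), so `≥ 1`: either `deg Ba < deg Aa`: directly (second alternative), or
`deg Ba ≥ deg Aa`, `deg Ba = rdeg ≥ 1`: `Ba` has a zero `z ∈ Qb`, `mob` for both (`rdeg` is preserved; constants can be kept).
The hypotheses `Ba ≠ 0`, `Bb ≠ 0` are given.
`ratPair_of_rat`.  `B a ≠ 0`: there is a point of `V` outside `E` (`V` is infinite: by `const_of_finite` in `ZPL/Isog.lean` and `hconst`).
`exists_coprime`: we may assume that `A a`, `B a` are coprime (all `a`).  If `ratPair_of_pair` applies to one of the pairs `a ≠ b` we are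
done.  Otherwise for all `a, b`: `B a`, `B b` have the same zeros in `Qb`, `deg B a < deg A a ↔ deg B b < deg A b`, and the same `rdeg = n`.
`n ≥ 1`: otherwise all coordinates are constant on `V \ E`, and on `V` by `const_of_finite` (values in a finite set), contradiction
to `hconst`.  Let `Q = Σ q_m X^m` have total degree `≤ d` and put `P = Σ_m q_m ∏_a (B a) ^ (m a) (A a) ^ (d - m a)` in `ℂ[X]`.  For the
parameter `t` of `x ∈ V \ E` with all `x (i a) ≠ 0`: `P(t) = ∏_a A_a(t) ^ d * Q(1 / x) = 0`.  There are infinitely many such `t`: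
otherwise `x (i 0)` would take finitely many values on `V` (the values at these `t`, the values at the points of `E`, and for the
points with some `x (i a) = 0`, `t` is a zero of `A a`, `A a ≠ 0` as `n ≥ 1` and coprime.. so again finitely many `t`), contradiction to
`hconst` by `const_of_finite`.  So `P = 0`.  If the `B a` have a common zero `z` then `A_a(z) ≠ 0` (coprime) and
`P(z) = q_0 ∏ A_a(z) ^ d ≠ 0`.  Otherwise the `B a` have no zeros, are nonzero constants, `deg A a = n ≥ 1`, and the coefficient of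
`P` at `3 n d` is `q_0 ∏ lc(A a) ^ d ≠ 0` (all other terms have degree `< 3 n d`).  Contradiction.
-/

namespace Pool.Agent.LGO.U

open Polynomial Pool.Agent.Hhelper14.ZPL Pool.Agent.LGO

/-- up to finitely many points the coordinates `i a`, `i b` of the points of `V` are rational functions of a parameter, the
first with a pole at infinity, and the second without a pole there or of different degree -/
def RatPair {n : ℕ} (V : Set (Fin n → ℂ)) (i : Fin 3 → Fin n) (a b : Fin 3) : Prop :=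
  ∃ (Aa Ba Ab Bb : Polynomial Qb) (E : Set (Fin n → ℂ)), E.Finite ∧ IsCoprime Aa Ba ∧
    IsCoprime Ab Bb ∧ Ba.natDegree < Aa.natDegree ∧
    (Ab.natDegree ≤ Bb.natDegree ∨ rdeg Aa Ba ≠ rdeg Ab Bb) ∧
    ∀ x ∈ V, x ∉ E → ∃ t : ℂ, (aeval t Ba : ℂ) ≠ 0 ∧ x (i a) * aeval t Ba = aeval t Aa ∧
      (aeval t Bb : ℂ) ≠ 0 ∧ x (i b) * aeval t Bb = aeval t Ab

/-- a polynomial with algebraic coefficients at an algebraic point -/
private theorem RNorm_aeval (P : Polynomial Qb) (z : Qb) : (aeval (z : ℂ) P : ℂ) = ((P.eval z : Qb) : ℂ) := by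
  exact Polynomial.aeval_algebraMap_apply_eq_algebraMap_eval z P

/-- a nonzero polynomial with a root has positive degree -/
private theorem RNorm_deg {P : Polynomial Qb} (hP : P ≠ 0) {z : Qb} (hz : P.eval z = 0) : 1 ≤ P.natDegree := by
  by_contra h
  have h0 : P.natDegree = 0 := by omega
  rw [eq_C_of_natDegree_eq_zero h0, eval_C] at hz
  rw [eq_C_of_natDegree_eq_zero h0, hz, C_0] at hP
  exact hP rfl

/-- a polynomial of positive degree has a root -/
private theorem RNorm_root {P : Polynomial Qb} (hP : 1 ≤ P.natDegree) : ∃ z : Qb, P.eval z = 0 := by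
  have h : P.degree ≠ 0 := by
    intro h
    have h1 := natDegree_eq_zero_iff_degree_le_zero.2 h.le
    omega
  obtain ⟨z, hz⟩ := IsAlgClosed.exists_root P h
  exact ⟨z, hz⟩

/-- moving the point `c` to infinity, also for constants -/
private theorem RNorm_mob (c : Qb) {A B : Polynomial Qb} (h : IsCoprime A B) :
    ∃ A' B' : Polynomial Qb, IsCoprime A' B' ∧ rdeg A' B' = rdeg A B ∧
      (∀ t : ℂ, t ≠ c → ∀ x : ℂ, (aeval t B : ℂ) ≠ 0 → x * aeval t B = aeval t A →
        (aeval (t - c)⁻¹ B' : ℂ) ≠ 0 ∧ x * aeval (t - c)⁻¹ B' = aeval (t - c)⁻¹ A') ∧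
      (B ≠ 0 → B.eval c = 0 → B'.natDegree < A'.natDegree) ∧
      (B.eval c ≠ 0 → A'.natDegree ≤ B'.natDegree) := by
  by_cases hn : 1 ≤ rdeg A B
  · obtain ⟨A', B', h1, h2, h3, h4, h5⟩ := mob c h hn
    refine ⟨A', B', h1, h2, fun t ht x hx hxA => ?_, fun _ => h4, h5⟩
    obtain ⟨h6, h7⟩ := h3 t ht
    have h8 : (t - (c : ℂ))⁻¹ ^ rdeg A B ≠ 0 := pow_ne_zero _ (inv_ne_zero (sub_ne_zero.2 ht))
    rw [h6, h7]
    refine ⟨mul_ne_zero h8 hx, ?_⟩
    rw [← hxA]
    ring
  · have h0 : rdeg A B = 0 := by omega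
    have hA : A.natDegree = 0 := by
      have : A.natDegree ≤ rdeg A B := le_max_left _ _
      omega
    have hB : B.natDegree = 0 := by
      have : B.natDegree ≤ rdeg A B := le_max_right _ _
      omega
    refine ⟨A, B, h, rfl, fun t _ x hx hxA => ?_, fun h1 h2 => ?_, fun _ => ?_⟩
    · obtain ⟨a, ha⟩ : ∃ a, A = C a := ⟨_, eq_C_of_natDegree_eq_zero hA⟩
      obtain ⟨b, hb⟩ : ∃ b, B = C b := ⟨_, eq_C_of_natDegree_eq_zero hB⟩
      rw [ha] at hxA ⊢
      rw [hb] at hx hxA ⊢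
      rw [aeval_C] at hx hxA ⊢
      rw [aeval_C] at hxA ⊢
      exact ⟨hx, hxA⟩
    · have := RNorm_deg h1 h2
      omega
    · omega

/-- a zero of the first denominator -/
private theorem RNorm_pole {n : ℕ} {V : Set (Fin n → ℂ)} (i : Fin 3 → Fin n) (a b : Fin 3)
    {Aa Ba Ab Bb : Polynomial Qb} {E : Set (Fin n → ℂ)} (hE : E.Finite) (ca : IsCoprime Aa Ba)
    (cb : IsCoprime Ab Bb) (ha : Ba ≠ 0)
    (hpar : ∀ x ∈ V, x ∉ E → ∃ t : ℂ, (aeval t Ba : ℂ) ≠ 0 ∧ x (i a) * aeval t Ba = aeval t Aa ∧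
      (aeval t Bb : ℂ) ≠ 0 ∧ x (i b) * aeval t Bb = aeval t Ab)
    (z : Qb) (hz : Ba.eval z = 0) (h : Bb.eval z ≠ 0 ∨ rdeg Aa Ba ≠ rdeg Ab Bb) :
    RatPair V i a b := by
  obtain ⟨A1, B1, h1, h2, h3, h4, -⟩ := RNorm_mob z ca
  obtain ⟨A2, B2, g1, g2, g3, -, g5⟩ := RNorm_mob z cb
  refine ⟨A1, B1, A2, B2, E, hE, h1, g1, h4 ha hz, ?_, fun x hx hxE => ?_⟩
  · rcases h with h | h
    · exact Or.inl (g5 h)
    · rw [h2, g2]
      exact Or.inr h
  · obtain ⟨t, t1, t2, t3, t4⟩ := hpar x hx hxE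
    have ht : t ≠ z := by
      rintro rfl
      rw [RNorm_aeval, hz] at t1
      exact t1 rfl
    obtain ⟨u1, u2⟩ := h3 t ht _ t1 t2
    obtain ⟨u3, u4⟩ := g3 t ht _ t3 t4
    exact ⟨_, u1, u2, u3, u4⟩

/-- larger degree -/
private theorem RNorm_gt {n : ℕ} {V : Set (Fin n → ℂ)} (i : Fin 3 → Fin n) (a b : Fin 3)
    {Aa Ba Ab Bb : Polynomial Qb} {E : Set (Fin n → ℂ)} (hE : E.Finite) (ca : IsCoprime Aa Ba)
    (cb : IsCoprime Ab Bb) (ha : Ba ≠ 0)
    (hpar : ∀ x ∈ V, x ∉ E → ∃ t : ℂ, (aeval t Ba : ℂ) ≠ 0 ∧ x (i a) * aeval t Ba = aeval t Aa ∧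
      (aeval t Bb : ℂ) ≠ 0 ∧ x (i b) * aeval t Bb = aeval t Ab)
    (h : rdeg Ab Bb < rdeg Aa Ba) : RatPair V i a b := by
  by_cases h1 : Ba.natDegree < Aa.natDegree
  · exact ⟨Aa, Ba, Ab, Bb, E, hE, ca, cb, h1, Or.inr (ne_of_gt h), hpar⟩
  · have h2 : rdeg Aa Ba = Ba.natDegree := max_eq_right (not_lt.1 h1)
    obtain ⟨z, hz⟩ := RNorm_root (P := Ba) (by omega)
    exact RNorm_pole i a b hE ca cb ha hpar z hz (Or.inr (ne_of_gt h))

theorem ratPair_of_pair {n : ℕ} {V : Set (Fin n → ℂ)} (i : Fin 3 → Fin n) (a b : Fin 3)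
    {Aa Ba Ab Bb : Polynomial Qb} {E : Set (Fin n → ℂ)} (hE : E.Finite) (ca : IsCoprime Aa Ba)
    (cb : IsCoprime Ab Bb) (ha : Ba ≠ 0) (hb : Bb ≠ 0)
    (hpar : ∀ x ∈ V, x ∉ E → ∃ t : ℂ, (aeval t Ba : ℂ) ≠ 0 ∧ x (i a) * aeval t Ba = aeval t Aa ∧
      (aeval t Bb : ℂ) ≠ 0 ∧ x (i b) * aeval t Bb = aeval t Ab)
    (hne : ¬ ((∀ z : Qb, Ba.eval z = 0 ↔ Bb.eval z = 0) ∧
      (Ba.natDegree < Aa.natDegree ↔ Bb.natDegree < Ab.natDegree) ∧
      rdeg Aa Ba = rdeg Ab Bb)) : RatPair V i a b ∨ RatPair V i b a := by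
  have hpar' : ∀ x ∈ V, x ∉ E → ∃ t : ℂ, (aeval t Bb : ℂ) ≠ 0 ∧ x (i b) * aeval t Bb = aeval t Ab ∧
      (aeval t Ba : ℂ) ≠ 0 ∧ x (i a) * aeval t Ba = aeval t Aa := by
    intro x hx hxE
    obtain ⟨t, t1, t2, t3, t4⟩ := hpar x hx hxE
    exact ⟨t, t3, t4, t1, t2⟩
  by_cases h1 : ∀ z : Qb, Ba.eval z = 0 ↔ Bb.eval z = 0
  · by_cases h2 : Ba.natDegree < Aa.natDegree ↔ Bb.natDegree < Ab.natDegree
    · have h3 : rdeg Aa Ba ≠ rdeg Ab Bb := fun h3 => hne ⟨h1, h2, h3⟩
      rcases lt_or_gt_of_ne h3 with h4 | h4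
      · exact Or.inr (RNorm_gt i b a hE cb ca hb hpar' h4)
      · exact Or.inl (RNorm_gt i a b hE ca cb ha hpar h4)
    · by_cases h3 : Ba.natDegree < Aa.natDegree
      · have h4 : ¬ Bb.natDegree < Ab.natDegree := fun h4 => h2 ⟨fun _ => h4, fun _ => h3⟩
        exact Or.inl ⟨Aa, Ba, Ab, Bb, E, hE, ca, cb, h3, Or.inl (not_lt.1 h4), hpar⟩
      · have h4 : Bb.natDegree < Ab.natDegree := by
          by_contra h4
          exact h2 ⟨fun h5 => absurd h5 h3, fun h5 => absurd h5 h4⟩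
        exact Or.inr ⟨Ab, Bb, Aa, Ba, E, hE, cb, ca, h4, Or.inl (not_lt.1 h3), hpar'⟩
  · rw [not_forall] at h1
    obtain ⟨z, hz⟩ := h1
    by_cases h2 : Ba.eval z = 0
    · have h3 : Bb.eval z ≠ 0 := fun h3 => hz ⟨fun _ => h3, fun _ => h2⟩
      exact Or.inl (RNorm_pole i a b hE ca cb ha hpar z h2 (Or.inl h3))
    · have h3 : Bb.eval z = 0 := by
        by_contra h3
        exact hz ⟨fun h4 => absurd h4 h2, fun h4 => absurd h4 h3⟩
      exact Or.inr (RNorm_pole i b a hE cb ca hb hpar' z h3 (Or.inl h2))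

/-- a coordinate takes infinitely many values -/
private theorem RNorm_inf {n : ℕ} {V : Set (Fin n → ℂ)}
    (hV : Pool.Agent.Hhelper14.ZPL.IsIrredClosed V) (p : Fin n)
    (hconst : ∀ c : ℂ, ∃ x ∈ V, x p ≠ c) {F : Set ℂ} (hF : F.Finite) : ∃ x ∈ V, x p ∉ F := by
  classical
  by_contra hcon
  push Not at hcon
  let D : ℂ → Set (Fin n → ℂ) := fun a => {z | z p = a}
  obtain ⟨E, hE, hDE⟩ := irred_cover hV (hF.toFinset.image D) (fun E hE => by
      obtain ⟨a, -, rfl⟩ := Finset.mem_image.mp hE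
      have h1 : D a = MvPolynomial.zeroLocus ℂ
          (Ideal.span {(MvPolynomial.X p - MvPolynomial.C a : MvPolynomial (Fin n) ℂ)}) := by
        ext z
        rw [MvPolynomial.zeroLocus_span]
        simp [D, sub_eq_zero]
      rw [h1]
      exact closed_zeroLocus _) (fun z hz => ⟨D (z p), Finset.mem_image_of_mem _
        (hF.mem_toFinset.mpr (hcon z hz)), rfl⟩)
  obtain ⟨a, -, rfl⟩ := Finset.mem_image.mp hE
  obtain ⟨x, hx, hxa⟩ := hconst a
  exact hxa (hDE hx)

/-- the polynomial in the parameter -/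
private noncomputable def RNorm_P (Q : MvPolynomial (Fin 3) ℂ) (A B : Fin 3 → Polynomial ℂ) :
    Polynomial ℂ :=
  ∑ m ∈ Q.support, C (Q.coeff m) * ∏ a, B a ^ m a * A a ^ (Q.totalDegree - m a)

private theorem RNorm_le {Q : MvPolynomial (Fin 3) ℂ} {m : Fin 3 →₀ ℕ} (hm : m ∈ Q.support)
    (a : Fin 3) : m a ≤ Q.totalDegree := by
  refine le_trans ?_ (MvPolynomial.le_totalDegree hm)
  rw [Finsupp.sum_fintype _ _ (fun _ => rfl)]
  exact Finset.single_le_sum (f := fun i => m i) (fun _ _ => Nat.zero_le _) (Finset.mem_univ a)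

private theorem RNorm_P_eval (Q : MvPolynomial (Fin 3) ℂ) (A B : Fin 3 → Polynomial ℂ) (t : ℂ)
    (x : Fin 3 → ℂ) (hx : ∀ a, x a ≠ 0) (h : ∀ a, x a * (B a).eval t = (A a).eval t)
    (hQ : MvPolynomial.eval (fun a => (x a)⁻¹) Q = 0) : (RNorm_P Q A B).eval t = 0 := by
  have h1 : (RNorm_P Q A B).eval t =
      (∏ a, (A a).eval t ^ Q.totalDegree) * MvPolynomial.eval (fun a => (x a)⁻¹) Q := by
    rw [RNorm_P, eval_finsetSum, MvPolynomial.eval_eq', Finset.mul_sum]
    refine Finset.sum_congr rfl fun m hm => ?_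
    rw [eval_mul, eval_C, eval_prod]
    rw [mul_left_comm, ← Finset.prod_mul_distrib]
    congr 1
    refine Finset.prod_congr rfl fun a _ => ?_
    rw [eval_mul, eval_pow, eval_pow, ← h a]
    have h2 : Q.totalDegree = m a + (Q.totalDegree - m a) := by
      have := RNorm_le hm a
      omega
    conv_rhs => rw [h2]
    rw [pow_add, mul_pow (x a) _ (m a), inv_pow]
    have h3 : x a ^ m a ≠ 0 := pow_ne_zero _ (hx a)
    field_simp
  rw [h1, hQ, mul_zero]

/-- first case: a common zero of the denominators -/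
private theorem RNorm_P_ne1 (Q : MvPolynomial (Fin 3) ℂ)
    (hQ0 : MvPolynomial.constantCoeff Q ≠ 0) (A B : Fin 3 → Polynomial ℂ) (z : ℂ)
    (hB : ∀ a, (B a).eval z = 0) (hA : ∀ a, (A a).eval z ≠ 0) : RNorm_P Q A B ≠ 0 := by
  intro h
  have h1 : (RNorm_P Q A B).eval z = Q.coeff 0 * ∏ a, (A a).eval z ^ Q.totalDegree := by
    rw [RNorm_P, eval_finsetSum, Finset.sum_eq_single 0]
    · rw [eval_mul, eval_C, eval_prod]
      congr 1
      refine Finset.prod_congr rfl fun a _ => ?_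
      rw [eval_mul, eval_pow, eval_pow, Finsupp.coe_zero, Pi.zero_apply, pow_zero, one_mul,
        Nat.sub_zero]
    · intro m _ hm0
      obtain ⟨a, ha⟩ : ∃ a, m a ≠ 0 := by
        by_contra hcon
        push Not at hcon
        exact hm0 (Finsupp.ext hcon)
      rw [eval_mul, eval_prod, Finset.prod_eq_zero (Finset.mem_univ a), mul_zero]
      rw [eval_mul, eval_pow, hB a, zero_pow ha, zero_mul]
    · intro h0
      rw [MvPolynomial.notMem_support_iff.1 h0, C_0, zero_mul, eval_zero]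
  rw [h, eval_zero] at h1
  have h2 : Q.coeff 0 ≠ 0 := by
    rw [← MvPolynomial.constantCoeff_eq]
    exact hQ0
  exact mul_ne_zero h2 (Finset.prod_ne_zero_iff.2 fun a _ => pow_ne_zero _ (hA a)) h1.symm

/-- second case: polynomials -/
private theorem RNorm_P_ne2 (Q : MvPolynomial (Fin 3) ℂ)
    (hQ0 : MvPolynomial.constantCoeff Q ≠ 0) (A B : Fin 3 → Polynomial ℂ) (k : ℕ) (hk : 1 ≤ k)
    (hB : ∀ a, (B a).natDegree = 0) (hA : ∀ a, (A a).natDegree = k) : RNorm_P Q A B ≠ 0 := by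
  intro h
  have hA0 : ∀ a, A a ≠ 0 := by
    intro a ha
    have := hA a
    rw [ha, natDegree_zero] at this
    omega
  have h1 : (RNorm_P Q A B).coeff (3 * (Q.totalDegree * k)) =
      Q.coeff 0 * ∏ a, (A a).leadingCoeff ^ Q.totalDegree := by
    rw [RNorm_P, finsetSum_coeff, Finset.sum_eq_single 0]
    · rw [coeff_C_mul]
      congr 1
      have h2 : (∏ a, B a ^ (0 : Fin 3 →₀ ℕ) a * A a ^ (Q.totalDegree - (0 : Fin 3 →₀ ℕ) a)) =
          ∏ a, A a ^ Q.totalDegree := by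
        refine Finset.prod_congr rfl fun a _ => ?_
        rw [Finsupp.coe_zero, Pi.zero_apply, pow_zero, one_mul, Nat.sub_zero]
      have h3 : (∏ a, A a ^ Q.totalDegree).natDegree = 3 * (Q.totalDegree * k) := by
        rw [natDegree_prod _ _ fun a _ => pow_ne_zero _ (hA0 a)]
        rw [Finset.sum_congr rfl fun a _ => by rw [natDegree_pow, hA a]]
        rw [Finset.sum_const, Finset.card_univ, Fintype.card_fin, smul_eq_mul]
      rw [h2, ← h3, coeff_natDegree, leadingCoeff_prod]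
      exact Finset.prod_congr rfl fun a _ => leadingCoeff_pow _ _
    · intro m hm hm0
      obtain ⟨a, ha⟩ : ∃ a, m a ≠ 0 := by
        by_contra hcon
        push Not at hcon
        exact hm0 (Finsupp.ext hcon)
      rw [coeff_C_mul]
      have h2 : (∏ a, B a ^ m a * A a ^ (Q.totalDegree - m a)).natDegree <
          3 * (Q.totalDegree * k) := by
        refine (natDegree_prod_le _ _).trans_lt ?_
        have h3 : ∀ b, (B b ^ m b * A b ^ (Q.totalDegree - m b)).natDegree ≤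
            (Q.totalDegree - m b) * k := by
          intro b
          refine natDegree_mul_le.trans ?_
          have h4 := natDegree_pow_le (p := B b) (n := m b)
          have h5 := natDegree_pow_le (p := A b) (n := Q.totalDegree - m b)
          rw [hB b, mul_zero] at h4
          rw [hA b] at h5
          omega
        have h6 : ∀ b, (B b ^ m b * A b ^ (Q.totalDegree - m b)).natDegree ≤
            Q.totalDegree * k := fun b => (h3 b).trans (Nat.mul_le_mul_right _ (Nat.sub_le _ _))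
        have h7 : (B a ^ m a * A a ^ (Q.totalDegree - m a)).natDegree < Q.totalDegree * k := by
          refine (h3 a).trans_lt (Nat.mul_lt_mul_of_pos_right ?_ hk)
          have := RNorm_le hm a
          omega
        refine (Finset.sum_lt_sum (g := fun _ => Q.totalDegree * k) (fun b _ => h6 b)
          ⟨a, Finset.mem_univ a, h7⟩).trans_eq ?_
        rw [Finset.sum_const, Finset.card_univ, Fintype.card_fin, smul_eq_mul]
      rw [coeff_eq_zero_of_natDegree_lt h2, mul_zero]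
    · intro h0
      rw [MvPolynomial.notMem_support_iff.1 h0, C_0, zero_mul, coeff_zero]
  rw [h, coeff_zero] at h1
  have h2 : Q.coeff 0 ≠ 0 := by
    rw [← MvPolynomial.constantCoeff_eq]
    exact hQ0
  exact mul_ne_zero h2 (Finset.prod_ne_zero_iff.2 fun a _ =>
    pow_ne_zero _ (leadingCoeff_ne_zero.2 (hA0 a))) h1.symm

theorem ratPair_of_rat {n : ℕ} {V : Set (Fin n → ℂ)}
    (hV : Pool.Agent.Hhelper14.ZPL.IsIrredClosed V) (i : Fin 3 → Fin n)
    (hconst : ∀ a, ∀ c : ℂ, ∃ x ∈ V, x (i a) ≠ c)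
    {Q : MvPolynomial (Fin 3) ℂ} (hQ0 : MvPolynomial.constantCoeff Q ≠ 0)
    (hQ : ∀ x ∈ V, (∀ a, x (i a) ≠ 0) → MvPolynomial.eval (fun a => (x (i a))⁻¹) Q = 0)
    {A B : Fin 3 → Polynomial Qb} {E : Set (Fin n → ℂ)} (hE : E.Finite)
    (hpar : ∀ x ∈ V, x ∉ E → ∃ t : ℂ, ∀ a, (aeval t (B a) : ℂ) ≠ 0 ∧
      x (i a) * aeval t (B a) = aeval t (A a)) : ∃ a b, a ≠ b ∧ RatPair V i a b := by
  classical
  -- points outside a finite set of values
  have hpt : ∀ F : Set ℂ, F.Finite → ∃ x ∈ V, x ∉ E ∧ x (i 0) ∉ F := by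
    intro F hF
    obtain ⟨x, hx, hxF⟩ := RNorm_inf hV (i 0) (hconst 0) (hF.union (hE.image fun y => y (i 0)))
    refine ⟨x, hx, fun hxE => hxF (Or.inr ⟨x, hxE, rfl⟩), fun h => hxF (Or.inl h)⟩
  obtain ⟨x0, hx0, hx0E, -⟩ := hpt ∅ Set.finite_empty
  obtain ⟨t0, ht0⟩ := hpar x0 hx0 hx0E
  have hB : ∀ a, B a ≠ 0 := by
    intro a ha
    have h1 := (ht0 a).1
    rw [ha, map_zero] at h1
    exact h1 rfl
  choose A' B' hc hAB using fun a => exists_coprime (A := A a) (hB a)
  have hpar' : ∀ x ∈ V, x ∉ E → ∃ t : ℂ, ∀ a, (aeval t (B' a) : ℂ) ≠ 0 ∧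
      x (i a) * aeval t (B' a) = aeval t (A' a) := by
    intro x hx hxE
    obtain ⟨t, ht⟩ := hpar x hx hxE
    exact ⟨t, fun a => hAB a t _ (ht a).1 (ht a).2⟩
  obtain ⟨t1, ht1⟩ := hpar' x0 hx0 hx0E
  have hB' : ∀ a, B' a ≠ 0 := by
    intro a ha
    have h1 := (ht1 a).1
    rw [ha, map_zero] at h1
    exact h1 rfl
  by_contra hcon
  push Not at hcon
  have hcmp : ∀ a, (∀ z : Qb, (B' 0).eval z = 0 ↔ (B' a).eval z = 0) ∧
      ((B' 0).natDegree < (A' 0).natDegree ↔ (B' a).natDegree < (A' a).natDegree) ∧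
      rdeg (A' 0) (B' 0) = rdeg (A' a) (B' a) := by
    intro a
    by_cases ha : (0 : Fin 3) = a
    · subst ha
      exact ⟨fun _ => Iff.rfl, Iff.rfl, rfl⟩
    · by_contra hne
      have h1 := ratPair_of_pair (V := V) i 0 a hE (hc 0) (hc a) (hB' 0) (hB' a) (fun x hx hxE => by
        obtain ⟨t, ht⟩ := hpar' x hx hxE
        exact ⟨t, (ht 0).1, (ht 0).2, (ht a).1, (ht a).2⟩) hne
      rcases h1 with h1 | h1
      · exact hcon 0 a ha h1
      · exact hcon a 0 (Ne.symm ha) h1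
  -- all parameters in a finite set: contradiction
  have hT : ∀ T : Set ℂ, T.Finite → (∀ x ∈ V, x ∉ E → ∀ t : ℂ, (∀ a, (aeval t (B' a) : ℂ) ≠ 0 ∧
      x (i a) * aeval t (B' a) = aeval t (A' a)) → t ∈ T) → False := by
    intro T hT h
    obtain ⟨x, hx, hxE, hxT⟩ := hpt _ (hT.image fun t => (aeval t (A' 0) : ℂ) / aeval t (B' 0))
    obtain ⟨t, ht⟩ := hpar' x hx hxE
    refine hxT ⟨t, h x hx hxE t ht, ?_⟩
    change (aeval t (A' 0) : ℂ) / aeval t (B' 0) = x (i 0)
    rw [← (ht 0).2, mul_div_assoc, div_self (ht 0).1, mul_one]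
  have hn : 1 ≤ rdeg (A' 0) (B' 0) := by
    by_contra hn
    have h0 : rdeg (A' 0) (B' 0) = 0 := by omega
    have hA0 : (A' 0).natDegree = 0 := by
      have : (A' 0).natDegree ≤ rdeg (A' 0) (B' 0) := le_max_left _ _
      omega
    have hB0 : (B' 0).natDegree = 0 := by
      have : (B' 0).natDegree ≤ rdeg (A' 0) (B' 0) := le_max_right _ _
      omega
    obtain ⟨u, hu⟩ : ∃ u, A' 0 = C u := ⟨_, eq_C_of_natDegree_eq_zero hA0⟩
    obtain ⟨v, hv⟩ : ∃ v, B' 0 = C v := ⟨_, eq_C_of_natDegree_eq_zero hB0⟩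
    obtain ⟨x, hx, hxE, hxT⟩ := hpt {((u : Qb) : ℂ) / ((v : Qb) : ℂ)} (Set.finite_singleton _)
    obtain ⟨t, ht⟩ := hpar' x hx hxE
    obtain ⟨h1, h2⟩ := ht 0
    rw [hu, hv, aeval_C, aeval_C] at h2
    rw [hv, aeval_C] at h1
    refine hxT ?_
    rw [Set.mem_singleton_iff]
    change x (i 0) = algebraMap Qb ℂ u / algebraMap Qb ℂ v
    rw [eq_div_iff h1]
    exact h2
  have hA' : ∀ a, A' a ≠ 0 := by
    intro a ha
    have h1 := hc a
    rw [ha, isCoprime_zero_left] at h1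
    have h2 := natDegree_eq_zero_of_isUnit h1
    have h3 : rdeg (A' a) (B' a) = 0 := by
      rw [rdeg, ha, h2, natDegree_zero, max_self]
    have h4 := (hcmp a).2.2
    omega
  have hinj : Function.Injective (algebraMap Qb ℂ) := (algebraMap Qb ℂ).injective
  have hev : ∀ (P : Polynomial Qb) (t : ℂ), (P.map (algebraMap Qb ℂ)).eval t = aeval t P := by
    intro P t
    rw [eval_map, aeval_def]
  have hP : RNorm_P Q (fun a => (A' a).map (algebraMap Qb ℂ))
      (fun a => (B' a).map (algebraMap Qb ℂ)) ≠ 0 := by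
    by_cases hz : ∃ z : Qb, (B' 0).eval z = 0
    · obtain ⟨z, hz⟩ := hz
      refine RNorm_P_ne1 Q hQ0 _ _ (z : ℂ) (fun a => ?_) (fun a => ?_)
      · rw [hev, RNorm_aeval, ((hcmp a).1 z).1 hz]
        rfl
      · rw [hev, RNorm_aeval]
        intro h1
        have h2 : (A' a).eval z = 0 := by exact_mod_cast h1
        obtain ⟨u, v, huv⟩ := hc a
        have h3 := congrArg (eval z) huv
        rw [eval_add, eval_mul, eval_mul, h2, ((hcmp a).1 z).1 hz, mul_zero, mul_zero, add_zero,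
          eval_one] at h3
        exact zero_ne_one h3
    · push Not at hz
      have hdB : ∀ a, (B' a).natDegree = 0 := by
        intro a
        by_contra h1
        obtain ⟨z, h2⟩ := RNorm_root (P := B' a) (by omega)
        exact hz z (((hcmp a).1 z).2 h2)
      refine RNorm_P_ne2 Q hQ0 _ _ (rdeg (A' 0) (B' 0)) hn (fun a => ?_) (fun a => ?_)
      · rw [natDegree_map_eq_of_injective hinj, hdB a]
      · rw [natDegree_map_eq_of_injective hinj, (hcmp a).2.2, rdeg, hdB a, Nat.max_zero]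
  -- the finite set of parameters
  refine hT (↑((RNorm_P Q (fun a => (A' a).map (algebraMap Qb ℂ))
      (fun a => (B' a).map (algebraMap Qb ℂ)) *
      ∏ a, (A' a).map (algebraMap Qb ℂ)).roots.toFinset)) (Finset.finite_toSet _) ?_
  intro x hx hxE t ht
  have hne : RNorm_P Q (fun a => (A' a).map (algebraMap Qb ℂ))
      (fun a => (B' a).map (algebraMap Qb ℂ)) * ∏ a, (A' a).map (algebraMap Qb ℂ) ≠ 0 := by
    refine mul_ne_zero hP (Finset.prod_ne_zero_iff.2 fun a _ => ?_)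
    exact (Polynomial.map_ne_zero_iff hinj).2 (hA' a)
  rw [Finset.mem_coe, Multiset.mem_toFinset, mem_roots hne, IsRoot.def, eval_mul]
  by_cases hx0 : ∀ a, x (i a) ≠ 0
  · rw [RNorm_P_eval Q _ _ t (fun a => x (i a)) hx0 (fun a => ?_) (hQ x hx hx0), zero_mul]
    rw [hev, hev]
    exact (ht a).2
  · push Not at hx0
    obtain ⟨a, ha⟩ := hx0
    rw [eval_prod, Finset.prod_eq_zero (Finset.mem_univ a), mul_zero]
    rw [hev, ← (ht a).2, ha, zero_mul]

end Pool.Agent.LGO.U
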