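import Mathlib
import Pool.Agent.LGO.U.RComp
import Pool.Agent.LGO.U.RInt
import Pool.Agent.LGO.H.BdC
import Pool.Agent.LGO.Mul.Ht

/-!
# LGO/U: Liouville's inequality for the denominator

PROOF of `ht_x_m` (`ht_x` is the case `m = 1`).  `C₁` from `comp_x`, `C₂` from `comp_le` for `B`, `r'` from `int_B_m`, `D = [K : ℚ] ≥ 1`.  `r' B(t)` is integral and
`‖s B(t)‖ ≤ C₂ exp (n L)` for all `s` (`n = deg B`, `max 1 ‖s t‖ ≤ exp L`), so `Bd K (C₃ (1 + L)) (B(t))` (denominator `r'`; every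
embedding of `K` extends to an automorphism of `ℂ`, `exists_aut`).  `B(t) ≠ 0`: `Bd.lower` for the restriction of `s` to `K` gives
`‖s B(t)‖ ≥ exp (-(2 D C₃ (1 + L)))`.  `comp_x`: `‖s x‖ ≤ max 1 ‖s x‖ ≤ C₁ exp (n' L) / ‖s B(t)‖ ≤ exp (C D (1 + L))`.
-/

namespace Pool.Agent.LGO.U

open Polynomial Pool.Agent.Hhelper14.ZPL Pool.Agent.LGO

theorem ht_x_m {A B : Polynomial Qb} (h : IsCoprime A B) (m : ℕ) (hm : 0 < m) (r : ℕ) (hr : 0 < r) :
    ∃ C : ℝ, 1 ≤ C ∧ ∀ (K : IntermediateField ℚ ℂ) [FiniteDimensional ℚ K] (x t : ℂ) (L : ℝ),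
      IsIntegral ℤ ((m : ℂ) * x) → IsIntegral ℤ ((r : ℂ) * t) → (aeval t A : ℂ) = x * aeval t B →
      (aeval t B : ℂ) ≠ 0 → (aeval t B : ℂ) ∈ K → 0 ≤ L →
      (∀ s : ℂ ≃+* ℂ, ‖s t‖ ≤ Real.exp L) →
        ∀ s : ℂ ≃+* ℂ, ‖s x‖ ≤ Real.exp (C * Module.finrank ℚ K * (1 + L)) := by
  obtain ⟨C₁, hC₁, h₁⟩ := comp_x h
  obtain ⟨C₂, hC₂, h₂⟩ := comp_le B
  obtain ⟨r', hr', h₃⟩ := int_B_m h m hm r hr
  have hr1 : (1 : ℝ) ≤ r' := by exact_mod_cast hr'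
  have hl1 : 0 ≤ Real.log C₁ := Real.log_nonneg hC₁
  have hl2 : 0 ≤ Real.log C₂ := Real.log_nonneg hC₂
  have hl3 : 0 ≤ Real.log r' := Real.log_nonneg hr1
  have hn1 : (0 : ℝ) ≤ (rdeg A B : ℝ) := Nat.cast_nonneg _
  have hn2 : (0 : ℝ) ≤ (B.natDegree : ℝ) := Nat.cast_nonneg _
  set C₃ : ℝ := Real.log r' + Real.log C₂ + B.natDegree with hC₃
  have hC₃0 : 0 ≤ C₃ := by linarith
  refine ⟨Real.log C₁ + rdeg A B + 2 * C₃ + 1, by linarith, ?_⟩
  intro K _ x t L hx hrt heq hB0 hBK hL hs s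
  have hD1 : (1 : ℝ) ≤ Module.finrank ℚ K := by exact_mod_cast Module.finrank_pos
  have hL1 : (0 : ℝ) ≤ 1 + L := by linarith
  have hmax : ∀ s : ℂ ≃+* ℂ, max 1 ‖s t‖ ≤ Real.exp L := fun s =>
    max_le (Real.one_le_exp hL) (hs s)
  have hmax0 : ∀ s : ℂ ≃+* ℂ, (0 : ℝ) ≤ max 1 ‖s t‖ := fun s => zero_le_one.trans (le_max_left _ _)
  -- the upper bound for the conjugates of the denominator
  have hup : ∀ s : ℂ ≃+* ℂ, ‖s (aeval t B : ℂ)‖ ≤ Real.exp (C₃ * (1 + L)) := by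
    intro s
    calc ‖s (aeval t B : ℂ)‖ ≤ C₂ * max 1 ‖s t‖ ^ B.natDegree := h₂ s t
      _ ≤ C₂ * Real.exp L ^ B.natDegree :=
          mul_le_mul_of_nonneg_left (pow_le_pow_left₀ (hmax0 s) (hmax s) _) (by linarith)
      _ = Real.exp (Real.log C₂ + B.natDegree * L) := by
          rw [Real.exp_add, Real.exp_log (by linarith), Real.exp_nat_mul]
      _ ≤ Real.exp (C₃ * (1 + L)) := by
          apply Real.exp_le_exp.2
          rw [hC₃]
          nlinarith [mul_nonneg hl2 hL, mul_nonneg hl3 hL]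
  have hbd : Bd K (C₃ * (1 + L)) (aeval t B : ℂ) :=
    { mem := hBK
      den := by
        refine ⟨r', hr', ?_, (h₃ x t hx hrt heq hB0).1⟩
        calc (r' : ℝ) = Real.exp (Real.log r') := (Real.exp_log (by linarith)).symm
          _ ≤ Real.exp (C₃ * (1 + L)) := by
              apply Real.exp_le_exp.2
              rw [hC₃]
              nlinarith [mul_nonneg hl2 hL, mul_nonneg hl3 hL, mul_nonneg hn2 hL]
      house := by
        intro σ
        obtain ⟨s, hs⟩ := exists_aut K σ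
        rw [← hs ⟨_, hBK⟩]
        exact hup s }
  have hlow := hbd.lower (le_refl _) (mul_nonneg hC₃0 hL1) hB0
    ((s : ℂ →+* ℂ).comp (algebraMap K ℂ))
  have hlow2 : Real.exp (-(2 * (Module.finrank ℚ K : ℝ) * (C₃ * (1 + L)))) ≤
      ‖s (aeval t B : ℂ)‖ := hlow
  have hmain : ‖s (aeval t B : ℂ)‖ * max 1 ‖s x‖ ≤
      Real.exp (Real.log C₁ + rdeg A B * L) := by
    calc ‖s (aeval t B : ℂ)‖ * max 1 ‖s x‖ ≤ C₁ * max 1 ‖s t‖ ^ rdeg A B := (h₁ s t x heq).1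
      _ ≤ C₁ * Real.exp L ^ rdeg A B :=
          mul_le_mul_of_nonneg_left (pow_le_pow_left₀ (hmax0 s) (hmax s) _) (by linarith)
      _ = Real.exp (Real.log C₁ + rdeg A B * L) := by
          rw [Real.exp_add, Real.exp_log (by linarith), Real.exp_nat_mul]
  have hxs : ‖s x‖ ≤ max 1 ‖s x‖ := le_max_right _ _
  have hprod : Real.exp (-(2 * (Module.finrank ℚ K : ℝ) * (C₃ * (1 + L)))) * ‖s x‖ ≤
      Real.exp (Real.log C₁ + rdeg A B * L) :=
    (mul_le_mul hlow2 hxs (norm_nonneg _) (norm_nonneg _)).trans hmain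
  calc ‖s x‖ = Real.exp (2 * (Module.finrank ℚ K : ℝ) * (C₃ * (1 + L))) *
        (Real.exp (-(2 * (Module.finrank ℚ K : ℝ) * (C₃ * (1 + L)))) * ‖s x‖) := by
        rw [← mul_assoc, ← Real.exp_add, add_neg_cancel, Real.exp_zero, one_mul]
    _ ≤ Real.exp (2 * (Module.finrank ℚ K : ℝ) * (C₃ * (1 + L))) *
        Real.exp (Real.log C₁ + rdeg A B * L) :=
        mul_le_mul_of_nonneg_left hprod (Real.exp_pos _).le
    _ = Real.exp (2 * (Module.finrank ℚ K : ℝ) * (C₃ * (1 + L)) +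
        (Real.log C₁ + rdeg A B * L)) := (Real.exp_add _ _).symm
    _ ≤ Real.exp ((Real.log C₁ + rdeg A B + 2 * C₃ + 1) * Module.finrank ℚ K * (1 + L)) := by
        apply Real.exp_le_exp.2
        have ha : Real.log C₁ + rdeg A B * L ≤ (Real.log C₁ + rdeg A B) * (1 + L) := by
          nlinarith [mul_nonneg hl1 hL]
        have hb : (Real.log C₁ + rdeg A B) * (1 + L) ≤
            (Real.log C₁ + rdeg A B) * (1 + L) * Module.finrank ℚ K :=
          le_mul_of_one_le_right (mul_nonneg (by linarith) hL1) hD1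
        have hc : 0 ≤ (1 + L) * (Module.finrank ℚ K : ℝ) := mul_nonneg hL1 (by linarith)
        calc 2 * (Module.finrank ℚ K : ℝ) * (C₃ * (1 + L)) + (Real.log C₁ + rdeg A B * L)
            ≤ 2 * (Module.finrank ℚ K : ℝ) * (C₃ * (1 + L)) +
              (Real.log C₁ + rdeg A B) * (1 + L) * Module.finrank ℚ K := by linarith
          _ ≤ 2 * (Module.finrank ℚ K : ℝ) * (C₃ * (1 + L)) +
              (Real.log C₁ + rdeg A B) * (1 + L) * Module.finrank ℚ K +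
              (1 + L) * (Module.finrank ℚ K : ℝ) := by linarith
          _ = (Real.log C₁ + rdeg A B + 2 * C₃ + 1) * Module.finrank ℚ K * (1 + L) := by ring

theorem ht_x {A B : Polynomial Qb} (h : IsCoprime A B) (r : ℕ) (hr : 0 < r) :
    ∃ C : ℝ, 1 ≤ C ∧ ∀ (K : IntermediateField ℚ ℂ) [FiniteDimensional ℚ K] (x t : ℂ) (L : ℝ),
      IsIntegral ℤ x → IsIntegral ℤ ((r : ℂ) * t) → (aeval t A : ℂ) = x * aeval t B →
      (aeval t B : ℂ) ≠ 0 → (aeval t B : ℂ) ∈ K → 0 ≤ L →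
      (∀ s : ℂ ≃+* ℂ, ‖s t‖ ≤ Real.exp L) →
        ∀ s : ℂ ≃+* ℂ, ‖s x‖ ≤ Real.exp (C * Module.finrank ℚ K * (1 + L)) := by
  obtain ⟨C, hC, hmain⟩ := ht_x_m h 1 one_pos r hr
  refine ⟨C, hC, fun K _ x t L hx => ?_⟩
  exact hmain K x t L (by simpa using hx)

end Pool.Agent.LGO.U
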