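import Mathlib
import Pool.Agent.LGO.A.MulOrd

/-!
# LGO/U: multiplicity estimate for `u = 1 / ℘` and the exponential function, polynomial part

Notes 2975, 2982 (helper11), engine 4, step 6.  Everything is an adaptation of `LGO/A/MulBasic.lean`
(`dX_QQ_le`, `dY_QQ_le`, `evalEval_QQ`) and `LGO/A/MulOrd.lean` (`MulOrd_step`, `ord_irr`): the second
function is now `G(z) = exp (c z) - 1` with `G'² = c² (G + 1)²` instead of `G'² = ξ² f₂(G)`.

PROOF of `ord_exp`: `φ(z) = P(F(z), G(z))`; if `φ(0) ≠ 0` the order is `0`.  Otherwise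
`ord φ' + 1 = ord φ`, `φ' = P_X F' + P_Y G'`, and near `0`
`(P_X F' + P_Y G') (P_X F' - P_Y G') = P_X² f(F) - c² (G + 1)² P_Y² = QE(F, G)`, so
`ord φ ≤ ord QE(F, G) + 1`.  By `elim` for `P` and `QE ..`: `A P + B QE = C R`, `R ≠ 0`, so
`ord R(F) ≥ min(ord P(F, G), ord QE(F, G)) ≥ ord φ - 1`, and `ord R(F) ≤ 2 deg R` by `ord_one`;
`deg R ≤ (dY P + 2 dY P + 4) (2 dX P + 4) ≤ 49 (dX P + dY P)²`.
-/

namespace Pool.Agent.LGO.U

open Polynomial Pool.Agent.EllSch Pool.Agent.LGO.Mul Filter Topology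
open scoped Polynomial.Bivariate

/-- `QE = P_X² f(X) - c² P_Y² (Y + 1)²`, `f = ff g2 g3` -/
noncomputable def QE (g2 g3 c : ℂ) (P : ℂ[X][Y]) : ℂ[X][Y] :=
  pX P ^ 2 * C (ff g2 g3) - C (C (c ^ 2)) * pY P ^ 2 * ((X : ℂ[X][Y]) + 1) ^ 2

private lemma XPoly_dX_pY (P : ℂ[X][Y]) : dX (pY P) ≤ dX P := by
  apply dX_le_of_coeff
  intro k
  unfold pY
  rw [coeff_derivative]
  have h : ((k : ℂ[X]) + 1) = C ((k : ℂ) + 1) := by
    rw [C_add, C_1]
    rfl
  rw [h]
  exact (natDegree_mul_C_le _ _).trans (natDegree_coeff_le P (k + 1))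

private lemma XPoly_dX_pX (P : ℂ[X][Y]) : dX (pX P) ≤ dX P := by
  unfold dX pX
  rw [Bivariate.swap_swap_apply]
  exact (natDegree_derivative_le _).trans (Nat.sub_le _ _)

private lemma XPoly_coeff_pX (P : ℂ[X][Y]) (k : ℕ) :
    (pX P).coeff k = derivative (P.coeff k) := by
  ext j
  unfold pX
  rw [coeff_coeff_swap, coeff_derivative, coeff_derivative, ← coeff_coeff_swap]
  have h : ((j : ℂ[X]) + 1) = C ((j : ℂ) + 1) := by
    rw [C_add, C_1]
    rfl
  rw [h, coeff_mul_C]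

private lemma XPoly_dY_pX (P : ℂ[X][Y]) : dY (pX P) ≤ dY P := by
  unfold dY
  rw [natDegree_le_iff_coeff_eq_zero]
  intro k hk
  rw [XPoly_coeff_pX, coeff_eq_zero_of_natDegree_lt hk, derivative_zero]

private lemma XPoly_dY_pY (P : ℂ[X][Y]) : dY (pY P) ≤ dY P := by
  unfold dY pY
  exact (natDegree_derivative_le _).trans (Nat.sub_le _ _)

private lemma XPoly_ff (g2 g3 : ℂ) : (ff g2 g3).natDegree ≤ 4 := by
  unfold ff
  compute_degree

private lemma XPoly_sq : ((X : ℂ[X][Y]) + 1) ^ 2 = (((X : ℂ[X]) + 1) ^ 2).map C := by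
  simp

private lemma XPoly_sq_deg : (((X : ℂ[X]) + 1) ^ 2).natDegree ≤ 4 := by
  compute_degree
  norm_num

theorem dX_QE_le (g2 g3 c : ℂ) (P : ℂ[X][Y]) : dX (QE g2 g3 c P) ≤ 2 * dX P + 4 := by
  have h1 := XPoly_dX_pX P
  have h2' := XPoly_dX_pY P
  have h3' := XPoly_ff g2 g3
  unfold dX at h1 h2' ⊢
  unfold QE
  rw [XPoly_sq]
  rw [map_sub, map_mul, map_mul, map_mul, map_pow Bivariate.swap (pX P),
    map_pow Bivariate.swap (pY P)]
  refine (natDegree_sub_le _ _).trans (max_le ?_ ?_)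
  · rw [Bivariate.swap_C]
    refine natDegree_mul_le.trans (add_le_add (natDegree_pow_le.trans ?_) ?_)
    · exact Nat.mul_le_mul_left _ h1
    · exact natDegree_map_le.trans h3'
  · rw [Bivariate.swap_map_C]
    refine natDegree_mul_le.trans ?_
    rw [natDegree_C, add_zero]
    refine natDegree_mul_le.trans ?_
    have h5 : (Bivariate.swap (C (C (c ^ 2)) : ℂ[X][Y])).natDegree = 0 := by
      rw [Bivariate.swap_C_C, natDegree_C]
    rw [h5, zero_add]
    refine natDegree_pow_le.trans ?_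
    have := Nat.mul_le_mul_left 2 h2'
    omega

theorem dY_QE_le (g2 g3 c : ℂ) (P : ℂ[X][Y]) : dY (QE g2 g3 c P) ≤ 2 * dY P + 4 := by
  have h1 := XPoly_dY_pX P
  have h2' := XPoly_dY_pY P
  have h3' := XPoly_sq_deg
  unfold dY at h1 h2' ⊢
  unfold QE
  rw [XPoly_sq]
  refine (natDegree_sub_le _ _).trans (max_le ?_ ?_)
  · refine natDegree_mul_le.trans ?_
    rw [natDegree_C, add_zero]
    refine natDegree_pow_le.trans ?_
    have := Nat.mul_le_mul_left 2 h1
    omega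
  · refine natDegree_mul_le.trans (add_le_add ?_ (natDegree_map_le.trans h3'))
    refine natDegree_mul_le.trans ?_
    rw [natDegree_C, zero_add]
    exact natDegree_pow_le.trans (Nat.mul_le_mul_left _ h2')

theorem evalEval_QE (g2 g3 c : ℂ) (P : ℂ[X][Y]) (x y : ℂ) :
    (QE g2 g3 c P).evalEval x y = (pX P).evalEval x y ^ 2 * (ff g2 g3).eval x -
      c ^ 2 * (pY P).evalEval x y ^ 2 * (y + 1) ^ 2 := by
  unfold QE
  rw [XPoly_sq, evalEval_sub, evalEval_mul, evalEval_pow, evalEval_C, evalEval_mul, evalEval_mul,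
    evalEval_pow, evalEval_map_C, evalEval_C, eval_C, eval_pow, eval_add, eval_X, eval_one]

/-- `ord φ ≤ ord QE(F, G) + 1` -/
private theorem XPoly_step {F G : ℂ → ℂ} {g2 g3 c : ℂ} (hF : AnalyticAt ℂ F 0)
    (hG : AnalyticAt ℂ G 0)
    (eF : ∀ᶠ z in 𝓝 (0 : ℂ), deriv F z ^ 2 = (ff g2 g3).eval (F z))
    (eG : ∀ᶠ z in 𝓝 (0 : ℂ), deriv G z ^ 2 = c ^ 2 * (G z + 1) ^ 2) (P : ℂ[X][Y]) :
    analyticOrderAt (fun z => P.evalEval (F z) (G z)) 0 ≤
      analyticOrderAt (fun z => (QE g2 g3 c P).evalEval (F z) (G z)) 0 + 1 := by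
  have hφ : AnalyticAt ℂ (fun z => P.evalEval (F z) (G z)) 0 := analyticAt_eval P hF hG
  by_cases h0 : P.evalEval (F 0) (G 0) = 0
  · have h1 := hφ.analyticOrderAt_deriv_add_one
    have h4 : (fun z => P.evalEval (F z) (G z) - P.evalEval (F 0) (G 0)) =
        fun z => P.evalEval (F z) (G z) := by
      funext z
      rw [h0, sub_zero]
    rw [h4] at h1
    rw [← h1]
    have hX : AnalyticAt ℂ (fun z => (pX P).evalEval (F z) (G z)) 0 := analyticAt_eval _ hF hG
    have hY : AnalyticAt ℂ (fun z => (pY P).evalEval (F z) (G z)) 0 := analyticAt_eval _ hF hG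
    have hχ : AnalyticAt ℂ (fun z => (pX P).evalEval (F z) (G z) * deriv F z -
        (pY P).evalEval (F z) (G z) * deriv G z) 0 :=
      (hX.mul hF.deriv).sub (hY.mul hG.deriv)
    have hev : (fun z => (QE g2 g3 c P).evalEval (F z) (G z)) =ᶠ[𝓝 0]
        (deriv (fun z => P.evalEval (F z) (G z)) *
          fun z => (pX P).evalEval (F z) (G z) * deriv F z -
            (pY P).evalEval (F z) (G z) * deriv G z) := by
      filter_upwards [eF, eG, hF.eventually_analyticAt, hG.eventually_analyticAt]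
        with z e1 e2 a1 a2
      have hd := (hasDerivAt_eval P a1.differentiableAt.hasDerivAt
        a2.differentiableAt.hasDerivAt).deriv
      rw [evalEval_QE, Pi.mul_apply, hd, ← e1]
      linear_combination ((pY P).evalEval (F z) (G z)) ^ 2 * e2
    rw [analyticOrderAt_congr hev, analyticOrderAt_mul hφ.deriv hχ]
    exact add_le_add_left le_self_add 1
  · have h1 : analyticOrderAt (fun z => P.evalEval (F z) (G z)) 0 = 0 :=
      hφ.analyticOrderAt_eq_zero.2 h0
    rw [h1]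
    exact zero_le

private theorem XPoly_ord {F G : ℂ → ℂ} {g2 g3 c : ℂ} (hF : AnalyticAt ℂ F 0)
    (hG : AnalyticAt ℂ G 0) (oF : analyticOrderAt F 0 = 2)
    (eF : ∀ᶠ z in 𝓝 (0 : ℂ), deriv F z ^ 2 = (ff g2 g3).eval (F z))
    (eG : ∀ᶠ z in 𝓝 (0 : ℂ), deriv G z ^ 2 = c ^ 2 * (G z + 1) ^ 2)
    {P : ℂ[X][Y]} (hP : Irreducible P) (hd : 0 < dY P) (hQ : ¬ P ∣ QE g2 g3 c P) :
    analyticOrderAt (fun z => P.evalEval (F z) (G z)) 0 ≤ ((99 * (dX P + dY P) ^ 2 : ℕ) : ℕ∞) := by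
  obtain ⟨A, B, R, hR, hAB, hdeg⟩ := elim hP hd hQ (dX P) (2 * dX P + 4)
    (natDegree_coeff_le P)
    (fun k => (natDegree_coeff_le _ k).trans (dX_QE_le g2 g3 c P))
  have hstep := XPoly_step hF hG eF eG P
  have hφ : AnalyticAt ℂ (fun z => P.evalEval (F z) (G z)) 0 := analyticAt_eval P hF hG
  have hψ : AnalyticAt ℂ (fun z => (QE g2 g3 c P).evalEval (F z) (G z)) 0 :=
    analyticAt_eval _ hF hG
  have hA : AnalyticAt ℂ (fun z => A.evalEval (F z) (G z)) 0 := analyticAt_eval A hF hG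
  have hB : AnalyticAt ℂ (fun z => B.evalEval (F z) (G z)) 0 := analyticAt_eval B hF hG
  have hone := ord_one hF oF hR
  have e : (fun z => R.eval (F z)) = ((fun z => A.evalEval (F z) (G z)) *
      fun z => P.evalEval (F z) (G z)) + ((fun z => B.evalEval (F z) (G z)) *
      fun z => (QE g2 g3 c P).evalEval (F z) (G z)) := by
    funext z
    have h5 := congrArg (fun S : ℂ[X][Y] => S.evalEval (F z) (G z)) hAB
    simp only [evalEval_add, evalEval_mul, evalEval_C] at h5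
    rw [← h5]
    rfl
  rw [e] at hone
  have hmin := (le_analyticOrderAt_add (f := (fun z => A.evalEval (F z) (G z)) *
      fun z => P.evalEval (F z) (G z)) (g := (fun z => B.evalEval (F z) (G z)) *
      fun z => (QE g2 g3 c P).evalEval (F z) (G z)) (z₀ := 0)).trans hone
  rw [analyticOrderAt_mul hA hφ, analyticOrderAt_mul hB hψ] at hmin
  have hfin : analyticOrderAt (fun z => P.evalEval (F z) (G z)) 0 ≤
      ((2 * R.natDegree + 1 : ℕ) : ℕ∞) := by
    rw [min_le_iff] at hmin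
    rcases hmin with h6 | h6
    · refine (le_add_self.trans h6).trans ?_
      exact_mod_cast Nat.le_succ _
    · have h7 := (le_add_self.trans h6)
      refine hstep.trans ?_
      push_cast
      push_cast at h7
      exact add_le_add_left h7 1
  refine hfin.trans ?_
  have hY := dY_QE_le g2 g3 c P
  have hmax : max (dX P) (2 * dX P + 4) = 2 * dX P + 4 := max_eq_right (by omega)
  rw [hmax] at hdeg
  have h8 : R.natDegree ≤ (dY P + (2 * dY P + 4)) * (2 * dX P + 4) := by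
    refine hdeg.trans (Nat.mul_le_mul_right _ ?_)
    exact add_le_add_right hY _
  have h9 : 2 * R.natDegree + 1 ≤ 99 * (dX P + dY P) ^ 2 := by
    generalize dX P = x at h8
    generalize dY P = y at h8 hd
    have : (y + (2 * y + 4)) * (2 * x + 4) ≤ 49 * (x + y) ^ 2 := by
      obtain ⟨w, rfl⟩ : ∃ w, y = w + 1 := ⟨y - 1, by omega⟩
      nlinarith [mul_nonneg (Nat.zero_le x) (Nat.zero_le w), sq_nonneg x, sq_nonneg w]
    have h10 : 1 ≤ (x + y) ^ 2 := Nat.one_le_pow _ _ (by omega)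
    omega
  exact_mod_cast h9

theorem ord_exp {F : ℂ → ℂ} {g2 g3 c : ℂ} (hF : AnalyticAt ℂ F 0) (oF : analyticOrderAt F 0 = 2)
    (eF : ∀ᶠ z in 𝓝 (0 : ℂ), deriv F z ^ 2 = (ff g2 g3).eval (F z))
    {P : ℂ[X][Y]} (hP : Irreducible P) (hd : 0 < dY P) (hQ : ¬ P ∣ QE g2 g3 c P) :
    analyticOrderAt (fun z => P.evalEval (F z) (Complex.exp (c * z) - 1)) 0 ≤
      ((99 * (dX P + dY P) ^ 2 : ℕ) : ℕ∞) := by
  have hD : ∀ z : ℂ, HasDerivAt (fun z : ℂ => Complex.exp (c * z) - 1)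
      (Complex.exp (c * z) * c) z := by
    intro z
    have h1 : HasDerivAt (fun z : ℂ => c * z) c z := by
      simpa using (hasDerivAt_id z).const_mul c
    exact h1.cexp.sub_const 1
  have hG : AnalyticAt ℂ (fun z : ℂ => Complex.exp (c * z) - 1) 0 := by
    have h2 : Differentiable ℂ (fun z : ℂ => Complex.exp (c * z) - 1) :=
      fun z => (hD z).differentiableAt
    exact h2.analyticAt 0
  refine XPoly_ord (G := fun z : ℂ => Complex.exp (c * z) - 1) hF hG oF eF
    (Eventually.of_forall fun z => ?_) hP hd hQ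
  rw [(hD z).deriv]
  ring

end Pool.Agent.LGO.U
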