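import Mathlib
import Pool.Agent.LGO.U.XPoly
import Pool.Agent.LGO.A.MulBad

/-!
# LGO/U: multiplicity estimate for `u = 1 / ℘` and the exponential function, the case `P ∣ QE`

Adaptation of `LGO/A/MulBad.lean` and of `comm_of_rel` in `LGO/A/MulRel.lean`.

PROOF of `bad_exp`.  Suppose `QE = P T`.  Let `H = P_X · f(X) · (Y + 1)` (i.e. `pX P * C (ff ..) * (X + 1)`,
outer variable).  `P` is prime and divides none of the factors (`not_dvd_pX`, `not_dvd_C` with `ff ≠ 0`,
`not_dvd_map` with `Y + 1 = (X + 1).map C`), so by `exists_point` there are `x`, `y` with `P(x, y) = 0`,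
`P_X(x, y) ≠ 0`, `f(x) ≠ 0` (so `x ≠ 0`), `y ≠ -1`.  By `exists_iu_eq` choose `z₀` with `u(z₀) = x`, `Off`,
`℘(z₀) ≠ 0`.  For `s = ± 1` put `G(z) = (y + 1) exp (s c (z - z₀)) - 1`, `F = u`, `φ = P(F, G)`,
`ψ = P_X F' - P_Y G'`; `G' = s c (G + 1)`.  Near `z₀`: `φ' ψ = P_X² F'² - P_Y² G'² = QE(F, G) = T(F, G) φ`
(`hasDerivAt_eval`, `hasDerivAt_iu`, `sq_deriv`, `evalEval_QE`).  At `z₀`: `φ' + ψ = 2 P_X F' ≠ 0`; changing `s`
exchanges `φ'(z₀)` and `ψ(z₀)`, so for one of the signs `ψ(z₀) ≠ 0` and `local_zero` gives `φ = 0` near `z₀`.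
With `S` from `exists_rev` for `P` in the first variable only (or: `S(x, y) = x^m P(1/x, y)`), the function
`S(℘(z), G(z))` is analytic on the complement of the lattice, which is preconnected, and vanishes near
`z₀`, so it vanishes for all `z` off the lattice.  Let `ω` be one of the periods `a`, `b` such that
`exp (s c ω)` is not a root of unity: if `n c a`, `m c b ∈ 2 π i ℤ` with `n, m > 0`, then `b / a` would be
rational (or `c a = 0`), against `Ind a b`.  For fixed `z` off the lattice the points `z + k ω`, `k ∈ ℕ`,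
give infinitely many zeros `(y + 1) exp (s c (z - z₀)) exp (s c ω)^k - 1` of `S(℘(z), Y) ∈ ℂ[Y]`
(`wp_add_lat`), so `S(℘(z), Y) = 0`; as `℘` takes infinitely many values, `S = 0`: contradiction.
-/

namespace Pool.Agent.LGO.U

open Polynomial Pool.Agent.EllSch Pool.Agent.LGO.Mul Filter Topology
open scoped Polynomial.Bivariate

variable {a b : ℂ}

/-- the value of the reflected polynomial -/
private theorem XBad_reflect {p : ℂ[X]} {m : ℕ} (h : p.natDegree ≤ m) {x : ℂ} (hx : x ≠ 0) :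
    (reflect m p).eval x = x ^ m * p.eval x⁻¹ := by
  have hx' : x⁻¹ ≠ 0 := inv_ne_zero hx
  let _ : Invertible x⁻¹ := invertibleOfNonzero hx'
  have h1 := eval₂_reflect_mul_pow (RingHom.id ℂ) (x⁻¹) m p h
  have h2 : ⅟(x⁻¹) = x := by
    rw [invOf_eq_inv, inv_inv]
  rw [h2] at h1
  simp only [eval₂_id] at h1
  rw [← h1, mul_comm (x ^ m), mul_assoc, ← mul_pow, inv_mul_cancel₀ hx, one_pow, mul_one]

private theorem XBad_evalEval (P : ℂ[X][Y]) (x y : ℂ) :
    P.evalEval x y = ∑ k ∈ Finset.range (P.natDegree + 1), (P.coeff k).eval x * y ^ k := by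
  have h : eval (C y) P = ∑ k ∈ Finset.range (P.natDegree + 1), P.coeff k * C y ^ k :=
    eval_eq_sum_range _
  rw [evalEval, h, eval_finsetSum]
  refine Finset.sum_congr rfl fun k _ => ?_
  rw [eval_mul, eval_pow, eval_C]

/-- reversing the first variable -/
private theorem XBad_rev {P : ℂ[X][Y]} (hP : P ≠ 0) : ∃ (S : ℂ[X][Y]) (m : ℕ), S ≠ 0 ∧
    ∀ x y : ℂ, x ≠ 0 → S.evalEval x y = x ^ m * P.evalEval x⁻¹ y := by
  set n := P.natDegree with hn
  set m := (Finset.range (n + 1)).sup fun k => (P.coeff k).natDegree with hm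
  have hle : ∀ k ∈ Finset.range (n + 1), (P.coeff k).natDegree ≤ m := fun k hk =>
    Finset.le_sup (f := fun k => (P.coeff k).natDegree) hk
  refine ⟨∑ k ∈ Finset.range (n + 1), C (reflect m (P.coeff k)) * X ^ k, m, ?_, ?_⟩
  · intro h0
    have h1 : (∑ k ∈ Finset.range (n + 1), C (reflect m (P.coeff k)) * X ^ k :
        ℂ[X][Y]).coeff n = reflect m (P.coeff n) := by
      rw [finsetSum_coeff, Finset.sum_eq_single n]
      · rw [coeff_C_mul_X_pow, if_pos rfl]
      · intro k _ hkn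
        rw [coeff_C_mul_X_pow, if_neg (Ne.symm hkn)]
      · intro h
        exact absurd (Finset.mem_range.mpr (Nat.lt_succ_self n)) h
    rw [h0, coeff_zero] at h1
    have h2 : P.coeff n = 0 := (reflect_eq_zero_iff).mp h1.symm
    rw [hn, coeff_natDegree, leadingCoeff_eq_zero] at h2
    exact hP h2
  · intro x y hx
    rw [evalEval_finsetSum, XBad_evalEval P, Finset.mul_sum]
    refine Finset.sum_congr rfl fun k hk => ?_
    rw [evalEval_mul, evalEval_C, evalEval_pow, evalEval_X, XBad_reflect (hle k hk) hx]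
    ring

private theorem XBad_analytic (h : Ind a b) {z : ℂ} (hz : Off a b z) :
    AnalyticAt ℂ (wp a b) z := by
  have hd : DifferentiableOn ℂ (wp a b) {z | Off a b z} := fun w hw =>
    (hasDerivAt_wp h hw).differentiableAt.differentiableWithinAt
  exact hd.analyticAt ((isOpen_off h).mem_nhds hz)

/-- a nonzero multiple of `κ ω` is a multiple of `2 π i` -/
private theorem XBad_root {κ A z₀ z w : ℂ} (hA : A ≠ 0) {T : ℂ[X]} (hT : T ≠ 0)
    (hroot : ∀ k : ℕ, T.eval (A * Complex.exp (κ * (z + k * w - z₀)) - 1) = 0) :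
    ∃ (n : ℕ) (p : ℤ), 0 < n ∧ (n : ℂ) * (κ * w) = p * (2 * Real.pi * Complex.I) := by
  have hmaps : Set.MapsTo (fun k : ℕ => A * Complex.exp (κ * (z + k * w - z₀)) - 1) Set.univ
      ((T.roots.toFinset : Finset ℂ) : Set ℂ) := by
    intro k _
    simp only [Finset.mem_coe, Multiset.mem_toFinset]
    exact (mem_roots hT).mpr (hroot k)
  obtain ⟨j, -, k, -, hjk, heq⟩ :=
    Set.Infinite.exists_ne_map_eq_of_mapsTo Set.infinite_univ hmaps (Finset.finite_toSet _)
  simp only [sub_left_inj] at heq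
  have h1 := mul_left_cancel₀ hA heq
  obtain ⟨p, hp⟩ := Complex.exp_eq_exp_iff_exists_int.1 h1
  rcases lt_or_gt_of_ne hjk with hlt | hlt
  · refine ⟨k - j, -p, by omega, ?_⟩
    rw [Nat.cast_sub hlt.le]
    push_cast
    linear_combination -hp
  · refine ⟨j - k, p, by omega, ?_⟩
    rw [Nat.cast_sub hlt.le]
    linear_combination hp

/-- no algebraic relation between `℘` and the exponential function -/
private theorem XBad_rel (h : Ind a b) {κ A z₀ : ℂ} (hκ : κ ≠ 0) (hA : A ≠ 0) {S : ℂ[X][Y]}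
    (hS0 : S ≠ 0) (hS : ∀ z, Off a b z →
      S.evalEval (wp a b z) (A * Complex.exp (κ * (z - z₀)) - 1) = 0) : False := by
  have hlc : S.leadingCoeff ≠ 0 := leadingCoeff_ne_zero.mpr hS0
  -- a good value
  obtain ⟨v, hv⟩ : ∃ v : ℂ, v ∉ ((S.leadingCoeff * X).roots.toFinset : Finset ℂ) :=
    Infinite.exists_notMem_finset _
  have hv2 : (S.leadingCoeff * X).eval v ≠ 0 := by
    intro h0
    apply hv
    rw [Multiset.mem_toFinset]
    exact (mem_roots (mul_ne_zero hlc X_ne_zero)).mpr h0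
  rw [eval_mul, eval_X] at hv2
  have hv0 : v ≠ 0 := right_ne_zero_of_mul hv2
  obtain ⟨z, hz, hz0, hzv⟩ := exists_iu_eq h (inv_ne_zero hv0)
  have hzw : wp a b z = v := by
    rw [iu] at hzv
    exact inv_injective hzv
  set T : ℂ[X] := S.map (evalRingHom v) with hT
  have hT0 : T ≠ 0 := by
    intro h0
    have h1 : T.coeff S.natDegree = 0 := by rw [h0, coeff_zero]
    rw [hT, coeff_map, coeff_natDegree] at h1
    exact left_ne_zero_of_mul hv2 h1
  have hTe : ∀ y, S.evalEval v y = T.eval y := by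
    intro y
    rw [XBad_evalEval, hT, eval_map, eval₂_eq_sum_range]
    rfl
  have key : ∀ l : ℤ × ℤ, ∃ (n : ℕ) (p : ℤ), 0 < n ∧
      (n : ℂ) * (κ * lat a b l) = p * (2 * Real.pi * Complex.I) := by
    intro l
    refine XBad_root (z₀ := z₀) (z := z) hA hT0 fun k => ?_
    have hk : (k : ℂ) * lat a b l = lat a b ((k : ℤ) * l.1, (k : ℤ) * l.2) := by
      simp only [lat]
      push_cast
      ring
    have h1 := hS (z + lat a b ((k : ℤ) * l.1, (k : ℤ) * l.2)) ((off_add_lat _).mpr hz)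
    rw [wp_add_lat h, hzw, hTe, ← hk] at h1
    exact h1
  obtain ⟨n1, p1, hn1, hp1⟩ := key (1, 0)
  obtain ⟨n2, p2, hn2, hp2⟩ := key (0, 1)
  have hpi : (2 * Real.pi * Complex.I : ℂ) ≠ 0 := by
    simp [Real.pi_ne_zero]
  have hlat : ∀ x : ℤ × ℤ, lat a b x = 0 → x = (0, 0) := by
    intro x hx
    apply lat_injective h
    rw [hx]
    simp [lat]
  have h3 : lat a b (p2 * n1, -(p1 * n2)) = 0 := by
    have h4 : κ * lat a b (p2 * n1, -(p1 * n2)) = 0 := by
      simp only [lat] at hp1 hp2 ⊢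
      push_cast at hp1 hp2 ⊢
      linear_combination (p2 : ℂ) * hp1 - (p1 : ℂ) * hp2
    exact (mul_eq_zero.1 h4).resolve_left hκ
  have h5 := hlat _ h3
  rw [Prod.mk.injEq] at h5
  have h6 : p2 = 0 := by
    rcases mul_eq_zero.1 h5.1 with h6 | h6
    · exact h6
    · exfalso
      have : (n1 : ℤ) ≠ 0 := by exact_mod_cast hn1.ne'
      exact this h6
  rw [h6, Int.cast_zero, zero_mul] at hp2
  rcases mul_eq_zero.1 hp2 with h7 | h7
  · exact hn2.ne' (by exact_mod_cast h7)
  · have h8 := hlat _ ((mul_eq_zero.1 h7).resolve_left hκ)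
    simp at h8

/-- the contradiction for one choice of the sign -/
private lemma XBad_one (h : Ind a b) {c κ : ℂ} (hκ : κ ≠ 0) (hκc : κ ^ 2 = c ^ 2) {P : ℂ[X][Y]}
    (hP : P ≠ 0) (hQ : P ∣ QE (G2 a b) (G3 a b) c P) {z₀ y : ℂ}
    (hz : Off a b z₀) (hz0 : wp a b z₀ ≠ 0) (hy : y + 1 ≠ 0)
    (h0 : P.evalEval (iu a b z₀) y = 0)
    (h1 : (pX P).evalEval (iu a b z₀) y * (-wq a b z₀ / wp a b z₀ ^ 2) -
      (pY P).evalEval (iu a b z₀) y * (κ * (y + 1)) ≠ 0) : False := by
  obtain ⟨T, hT⟩ := hQ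
  have ev1 : ∀ᶠ z in 𝓝 z₀, Off a b z := (isOpen_off h).eventually_mem hz
  have ev2 : ∀ᶠ z in 𝓝 z₀, wp a b z ≠ 0 := (hasDerivAt_wp h hz).continuousAt.eventually_ne hz0
  have hG0 : (y + 1) * Complex.exp (κ * (z₀ - z₀)) - 1 = y := by
    rw [sub_self, mul_zero, Complex.exp_zero]
    ring
  have dG : ∀ z, HasDerivAt (fun z => (y + 1) * Complex.exp (κ * (z - z₀)) - 1)
      (κ * ((y + 1) * Complex.exp (κ * (z - z₀)))) z := by
    intro z
    have d1 : HasDerivAt (fun z : ℂ => κ * (z - z₀)) κ z := by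
      have := ((hasDerivAt_id z).sub_const z₀).const_mul κ
      rwa [mul_one] at this
    have d2 := (d1.cexp.const_mul (y + 1)).sub_const 1
    have e : (y + 1) * (Complex.exp (κ * (z - z₀)) * κ) =
        κ * ((y + 1) * Complex.exp (κ * (z - z₀))) := by ring
    rwa [e] at d2
  have aF : AnalyticAt ℂ (iu a b) z₀ := analyticAt_iu h hz hz0
  have aG' : ∀ z₁, AnalyticAt ℂ (fun z => (y + 1) * Complex.exp (κ * (z - z₀)) - 1) z₁ := by
    intro z₁
    have hd : Differentiable ℂ (fun z => (y + 1) * Complex.exp (κ * (z - z₀)) - 1) :=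
      fun z => (dG z).differentiableAt
    exact hd.analyticAt z₁
  have aG := aG' z₀
  have aφ : AnalyticAt ℂ (fun z => P.evalEval (iu a b z)
      ((y + 1) * Complex.exp (κ * (z - z₀)) - 1)) z₀ := analyticAt_eval P aF aG
  have aT : AnalyticAt ℂ (fun z => T.evalEval (iu a b z)
      ((y + 1) * Complex.exp (κ * (z - z₀)) - 1)) z₀ := analyticAt_eval T aF aG
  have aψ : AnalyticAt ℂ (fun z => (pX P).evalEval (iu a b z)
      ((y + 1) * Complex.exp (κ * (z - z₀)) - 1) *
      deriv (iu a b) z - (pY P).evalEval (iu a b z) ((y + 1) * Complex.exp (κ * (z - z₀)) - 1) *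
      deriv (fun z => (y + 1) * Complex.exp (κ * (z - z₀)) - 1) z) z₀ :=
    ((analyticAt_eval (pX P) aF aG).mul aF.deriv).sub
      ((analyticAt_eval (pY P) aF aG).mul aG.deriv)
  have key := local_zero aφ aψ aT (by
    rw [hG0]
    exact h0) (by
    rw [(hasDerivAt_iu h hz hz0).deriv, (dG z₀).deriv, hG0]
    have e : (y + 1) * Complex.exp (κ * (z₀ - z₀)) = y + 1 := by
      rw [sub_self, mul_zero, Complex.exp_zero, mul_one]
    rw [e]
    exact h1) (by
    filter_upwards [ev1, ev2] with z z1 z2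
    have k1 := hasDerivAt_iu h z1 z2
    have k2 := dG z
    have k3 := (hasDerivAt_eval P k1 k2).deriv
    rw [k3, k1.deriv, k2.deriv]
    have k4 := evalEval_QE (G2 a b) (G3 a b) c P (iu a b z)
      ((y + 1) * Complex.exp (κ * (z - z₀)) - 1)
    rw [hT, evalEval_mul, ← sq_deriv h z1 z2, ← hκc] at k4
    linear_combination -k4)
  obtain ⟨S, m, hS0, hrev⟩ := XBad_rev hP
  have hA : AnalyticOnNhd ℂ (fun z => S.evalEval (wp a b z)
      ((y + 1) * Complex.exp (κ * (z - z₀)) - 1)) {z | Off a b z} := by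
    intro z hz
    exact analyticAt_eval S (XBad_analytic h hz) (aG' z)
  have hloc : ∀ᶠ z in 𝓝 z₀, S.evalEval (wp a b z)
      ((y + 1) * Complex.exp (κ * (z - z₀)) - 1) = 0 := by
    filter_upwards [key, ev2] with z e1 e2
    rw [hrev _ _ e2]
    have e4 : P.evalEval (wp a b z)⁻¹ ((y + 1) * Complex.exp (κ * (z - z₀)) - 1) = 0 := e1
    rw [e4, mul_zero]
  have hglob := hA.eqOn_zero_of_preconnected_of_eventuallyEq_zero (isPreconnected_off h)
    (z₀ := z₀) hz hloc
  exact XBad_rel h hκ hy hS0 fun z hz => hglob hz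

theorem bad_exp {a b c : ℂ} (h : Ind a b) (hc : c ≠ 0) {P : ℂ[X][Y]} (hP : Irreducible P)
    (hX : 0 < dX P) (hY : 0 < dY P) : ¬ P ∣ QE (G2 a b) (G3 a b) c P := by
  intro hQ
  have hff : ff (G2 a b) (G3 a b) ≠ 0 := by
    intro h0
    have := congrArg (fun p : ℂ[X] => p.coeff 1) h0
    simp [ff, coeff_X_pow, coeff_C_mul, coeff_ofNat_mul] at this
  have hX1 : (X + 1 : ℂ[X]) ≠ 0 := by
    have := X_add_C_ne_zero (1 : ℂ)
    rwa [C_1] at this
  have hH : ¬ P ∣ pX P * C (ff (G2 a b) (G3 a b)) * (X + 1 : ℂ[X]).map C := by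
    intro hd
    rcases hP.prime.dvd_or_dvd hd with hd | hd
    · rcases hP.prime.dvd_or_dvd hd with hd | hd
      · exact not_dvd_pX hX hd
      · exact not_dvd_C hY hff hd
    · exact not_dvd_map hX hX1 hd
  obtain ⟨x, y, hxy, hne⟩ := exists_point hP hY hH
  rw [evalEval_mul, evalEval_mul, evalEval_C, evalEval_map_C, eval_add, eval_X, eval_one] at hne
  have hy : y + 1 ≠ 0 := right_ne_zero_of_mul hne
  have hf : (ff (G2 a b) (G3 a b)).eval x ≠ 0 := right_ne_zero_of_mul (left_ne_zero_of_mul hne)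
  have hpx : (pX P).evalEval x y ≠ 0 := left_ne_zero_of_mul (left_ne_zero_of_mul hne)
  have hx : x ≠ 0 := by
    rintro rfl
    apply hf
    simp [ff]
  obtain ⟨z₀, hz, hz0, hzx⟩ := exists_iu_eq h hx
  have hd : -wq a b z₀ / wp a b z₀ ^ 2 ≠ 0 := by
    intro h0
    have := sq_deriv h hz hz0
    rw [h0, hzx] at this
    apply hf
    rw [← this]
    ring
  by_cases hcc : (pX P).evalEval (iu a b z₀) y * (-wq a b z₀ / wp a b z₀ ^ 2) -
      (pY P).evalEval (iu a b z₀) y * (c * (y + 1)) = 0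
  · refine XBad_one h (neg_ne_zero.2 hc) (by ring) hP.ne_zero hQ hz hz0 hy
      (by rw [hzx]; exact hxy) ?_
    intro h0
    rw [hzx] at hcc h0
    have h2 : 2 * ((pX P).evalEval x y * (-wq a b z₀ / wp a b z₀ ^ 2)) = 0 := by
      linear_combination hcc + h0
    exact (mul_ne_zero two_ne_zero (mul_ne_zero hpx hd)) h2
  · exact XBad_one h hc rfl hP.ne_zero hQ hz hz0 hy (by rw [hzx]; exact hxy) hcc

end Pool.Agent.LGO.U
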