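import Mathlib
import Pool.Agent.LGO.E3.Defs
import Pool.Agent.LGO.E3.Hur

/-!
# LGO/U: the series `exp - 1` and the function `exp (w z) - 1`

All statements are elementary.
* `xs_ar`: coefficient `0` is `0`; `n! * (1/n!) = 1`; `‖σ (1/n!)‖ = 1/n! ≤ 1`.
* `xs_map`: a ring homomorphism of fields of characteristic zero maps `(n! : K)⁻¹` to `(n! : K')⁻¹`.
* `xs_tay`: the `n`-th derivative of `exp (w z) - 1` at `0` is `w^n` for `n ≥ 1` and `0` for `n = 0`.
* `xs_loc`: the structure `LocW` (local data without periodicity) for `w`, `xs`, `exp (w z) - 1`, `1`.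
* `xs_gro`: for `‖z‖ ≤ R`, `1 ≤ R`: `‖exp (w z) - 1‖ ≤ exp (7 R) + 1 ≤ exp (8 R)`.
* `xs_shift`: `exp (w m) = exp ((w - 2 π i) m)` for an integer `m`, and `‖exp x - 1‖ ≤ 2 ‖x‖` for `‖x‖ ≤ 1`
  (`Complex.norm_exp_sub_one_le`), `‖exp (w z)‖ ≤ exp (‖w‖ ‖z‖)`.
-/

namespace Pool.Agent.LGO.U

open Pool.Agent.Schn Pool.Agent.LGO.E3

/-- the power series `exp - 1` -/
noncomputable def xs (F : Type*) [Field F] : PowerSeries F :=
  PowerSeries.mk fun n => if n = 0 then 0 else ((n.factorial : F))⁻¹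

/-- local data without periodicity -/
structure LocW (w : ℂ) (U : PowerSeries ℂ) (s e : ℂ → ℂ) : Prop where
  ds : Differentiable ℂ s
  de : Differentiable ℂ e
  e0 : e 0 = 1
  ser : tay s = tay e * PowerSeries.rescale w U

theorem LocW.of_loc {w : ℂ} {U : PowerSeries ℂ} {s e : ℂ → ℂ} (h : Loc w U s e) : LocW w U s e :=
  ⟨h.ds, h.de, h.e0, h.ser⟩

theorem xs_ar (K : IntermediateField ℚ ℂ) : Ar 1 1 (xs K) := by
  have hc : ∀ n, PowerSeries.coeff n (xs K) = if n = 0 then 0 else ((n.factorial : K))⁻¹ := fun n => by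
    rw [xs, PowerSeries.coeff_mk]
  refine ⟨?_, ?_, ?_⟩
  · rw [hc, if_pos rfl]
  · intro n
    rw [hc]
    by_cases hn : n = 0
    · rw [if_pos hn, mul_zero]
      exact isIntegral_zero
    · have h1 : (n.factorial : K) ≠ 0 := by exact_mod_cast n.factorial_ne_zero
      rw [if_neg hn, Nat.cast_one, one_pow, mul_one, mul_inv_cancel₀ h1]
      exact isIntegral_one
  · intro σ n
    rw [hc, one_pow]
    by_cases hn : n = 0
    · rw [if_pos hn, map_zero, norm_zero]
      exact zero_le_one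
    · rw [if_neg hn, map_inv₀, map_natCast, norm_inv, Complex.norm_natCast]
      have h1 : (1 : ℝ) ≤ (n.factorial : ℝ) := by exact_mod_cast n.factorial_pos
      exact inv_le_one_of_one_le₀ h1

theorem xs_map {F F' : Type*} [Field F] [Field F'] (f : F →+* F') :
    PowerSeries.map f (xs F) = xs F' := by
  ext n
  rw [PowerSeries.coeff_map, xs, xs, PowerSeries.coeff_mk, PowerSeries.coeff_mk]
  by_cases hn : n = 0
  · rw [if_pos hn, if_pos hn, map_zero]
  · rw [if_neg hn, if_neg hn, map_inv₀, map_natCast]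

theorem xs_tay (w : ℂ) : tay (fun z => Complex.exp (w * z) - 1) = PowerSeries.rescale w (xs ℂ) := by
  have h1 : AnalyticAt ℂ (fun z : ℂ => Complex.exp (w * z)) 0 :=
    (analyticAt_const.mul analyticAt_id).cexp
  have h2 : AnalyticAt ℂ (fun _ : ℂ => (-1 : ℂ)) 0 := analyticAt_const
  have h3 : (fun z : ℂ => Complex.exp (w * z) - 1) = fun z => Complex.exp (w * z) + (-1) := by
    funext z
    ring
  rw [h3, tay_add h1 h2, tay_const]
  ext n
  rw [map_add, PowerSeries.coeff_rescale, xs, PowerSeries.coeff_mk, PowerSeries.coeff_C, tay,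
    PowerSeries.coeff_mk, iteratedDeriv_cexp_const_mul]
  by_cases hn : n = 0
  · subst hn
    simp
  · rw [if_neg hn, if_neg hn]
    change w ^ n * Complex.exp (w * 0) / (n.factorial : ℂ) + 0 = w ^ n * ((n.factorial : ℂ))⁻¹
    rw [mul_zero, Complex.exp_zero, mul_one, add_zero, div_eq_mul_inv]

theorem xs_loc (w : ℂ) : LocW w (xs ℂ) (fun z => Complex.exp (w * z) - 1) (fun _ => 1) := by
  refine ⟨?_, differentiable_const _, rfl, ?_⟩
  · exact ((differentiable_const w).mul differentiable_id).cexp.sub (differentiable_const 1)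
  · rw [xs_tay, tay_const, map_one, one_mul]

theorem xs_gro {w : ℂ} (hw : ‖w‖ ≤ 7) {c G t : ℝ} (hc : 8 ≤ c) (hG : 0 ≤ G) (ht : 0 < t) :
    Gro c G t (fun z => Complex.exp (w * z) - 1) (fun _ => 1) := by
  intro R z hR hz
  have h0 : 0 ≤ R ^ 2 / t := by positivity
  have h1 : 8 * R ≤ c * (R ^ 2 / t + R) + G := by nlinarith
  have h2 : Real.exp (8 * R) ≤ Real.exp (c * (R ^ 2 / t + R) + G) := Real.exp_le_exp.2 h1
  have h3 : 1 ≤ Real.exp (7 * R) := Real.one_le_exp (by linarith)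
  have h4 : 2 ≤ Real.exp R := by
    have := Real.add_one_le_exp R
    linarith
  have h5 : Real.exp (8 * R) = Real.exp (7 * R) * Real.exp R := by
    rw [← Real.exp_add]
    congr 1
    ring
  have h6 : ‖w * z‖ ≤ 7 * R := by
    rw [norm_mul]
    exact mul_le_mul hw hz (norm_nonneg _) (by norm_num)
  have h7 : ‖Complex.exp (w * z)‖ ≤ Real.exp (7 * R) := by
    rw [Complex.norm_exp]
    exact Real.exp_le_exp.2 ((Complex.re_le_norm _).trans h6)
  refine ⟨?_, ?_⟩
  · have h8 : ‖Complex.exp (w * z) - 1‖ ≤ Real.exp (7 * R) + 1 := by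
      refine (norm_sub_le _ _).trans ?_
      rw [norm_one]
      linarith
    have h9 : Real.exp (7 * R) * 2 ≤ Real.exp (7 * R) * Real.exp R :=
      mul_le_mul_of_nonneg_left h4 (Real.exp_pos _).le
    change ‖Complex.exp (w * z) - 1‖ ≤ _
    linarith
  · rw [norm_one]
    exact Real.one_le_exp (by linarith)

theorem xs_shift {w : ℂ} (m : ℤ) (h : |(m : ℝ)| * ‖w - 2 * Real.pi * Complex.I‖ ≤ 1) (z : ℂ) :
    ‖(Complex.exp (w * (z + m)) - 1) - (Complex.exp (w * z) - 1)‖ ≤
      2 * (|(m : ℝ)| * ‖w - 2 * Real.pi * Complex.I‖) * Real.exp (‖w‖ * ‖z‖) := by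
  have h1 : Complex.exp (w * m) = Complex.exp ((w - 2 * Real.pi * Complex.I) * m) := by
    have h2 : w * m = (w - 2 * Real.pi * Complex.I) * m + m * (2 * Real.pi * Complex.I) := by ring
    rw [h2, Complex.exp_add, Complex.exp_int_mul_two_pi_mul_I, mul_one]
  have h3 : (Complex.exp (w * (z + m)) - 1) - (Complex.exp (w * z) - 1) =
      (Complex.exp ((w - 2 * Real.pi * Complex.I) * m) - 1) * Complex.exp (w * z) := by
    rw [← h1, mul_add, Complex.exp_add]
    ring
  have h4 : ‖(w - 2 * Real.pi * Complex.I) * m‖ = |(m : ℝ)| * ‖w - 2 * Real.pi * Complex.I‖ := by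
    rw [norm_mul, mul_comm, Complex.norm_intCast]
  have h5 : ‖Complex.exp ((w - 2 * Real.pi * Complex.I) * m) - 1‖ ≤
      2 * (|(m : ℝ)| * ‖w - 2 * Real.pi * Complex.I‖) := by
    rw [← h4]
    exact Complex.norm_exp_sub_one_le (by rw [h4]; exact h)
  have h6 : ‖Complex.exp (w * z)‖ ≤ Real.exp (‖w‖ * ‖z‖) := by
    rw [Complex.norm_exp, ← norm_mul]
    exact Real.exp_le_exp.2 (Complex.re_le_norm _)
  rw [h3, norm_mul]
  exact mul_le_mul h5 h6 (norm_nonneg _) (by positivity)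

end Pool.Agent.LGO.U
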