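import Mathlib
import Pool.Agent.LGO.U.XBad
import Pool.Agent.LGO.U.Xs
import Pool.Agent.LGO.A.BsAn

/-!
# LGO/U: multiplicity estimate for `u = 1 / ℘` and the exponential function

* `mult_exp`: by `ord_of_irr` (`LGO/A/MulOrd.lean`) with `F = iu a b`, `G(z) = exp (c z) - 1` it is enough to
  treat an irreducible `P`.  If `dY P = 0`: `P = C p`, `P(F, G) = p(F)`, order `≤ 2 deg p` (`ord_one`,
  `order_iu_zero`).  If `dX P = 0`: `P = p.map C`, `P(F, G) = p(G)`; `G` has order `1` at `0`, so `p(G)` has order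
  `≤ deg p` (`p = X^m p₁`, `p₁(0) ≠ 0`).  Otherwise `bad_exp`, `ord_exp`, `ode_iu`.
* `mult_exp_coeff`: `P = ∑ i k, C (C (p i k)) * C X ^ i * Y ^ k ≠ 0`, `dX P ≤ L`, `dY P ≤ L'`, order
  `≤ 99 (L + L')² ≤ 400 (L + L')²`; the coefficients of the power series in the statement are the Taylor
  coefficients of `z ↦ P(u(z), exp (c z) - 1)` (`Schn.tay_mul`, `tay_pow`, `tay_sum`, `tay_const`, `xs_tay`), and the
  Taylor coefficient of index `analyticOrderAt` is not zero (see `exists_iteratedDeriv_ne_zero` in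
  `LGO/A/MulInt.lean`).
-/

namespace Pool.Agent.LGO.U

open Polynomial Pool.Agent.EllSch Pool.Agent.LGO.Mul Filter Topology Pool.Agent.Schn
open scoped Polynomial.Bivariate

variable {a b c : ℂ}

private theorem XFin_le {n d : ℕ} (h : n ≤ d) (e : ℕ) : 2 * n ≤ 99 * (d + e) ^ 2 := by
  rcases Nat.eq_zero_or_pos n with h0 | h0
  · subst h0; simp
  · have h1 : 1 ≤ d + e := by omega
    nlinarith

private theorem XFin_le' {n d : ℕ} (h : n ≤ d) (e : ℕ) : n ≤ 99 * (e + d) ^ 2 := by
  have := XFin_le h e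
  rw [add_comm e d]
  omega

private theorem XFin_an (c z : ℂ) : AnalyticAt ℂ (fun z => Complex.exp (c * z) - 1) z := by
  fun_prop

private theorem XFin_order (hc : c ≠ 0) :
    analyticOrderAt (fun z => Complex.exp (c * z) - 1) 0 = 1 := by
  have h1 := (XFin_an c 0).analyticOrderAt_deriv_add_one
  have h2 : (fun z => (fun z => Complex.exp (c * z) - 1) z - (fun z => Complex.exp (c * z) - 1) 0) =
      fun z => Complex.exp (c * z) - 1 := by
    funext z
    simp
  rw [h2] at h1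
  have h3 : deriv (fun z => Complex.exp (c * z) - 1) = fun z => Complex.exp (c * z) * c := by
    funext z
    have h4 : HasDerivAt (fun z : ℂ => c * z) c z := by
      simpa using (hasDerivAt_id z).const_mul c
    exact ((h4.cexp).sub_const 1).deriv
  have h4 : analyticOrderAt (deriv (fun z => Complex.exp (c * z) - 1)) 0 = 0 := by
    have h5 : AnalyticAt ℂ (deriv (fun z => Complex.exp (c * z) - 1)) 0 := (XFin_an c 0).deriv
    rw [h5.analyticOrderAt_eq_zero, h3]
    simpa using hc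
  rw [← h1, h4, zero_add]

private theorem XFin_one {F : ℂ → ℂ} (hF : AnalyticAt ℂ F 0) (h2 : analyticOrderAt F 0 = 1) {R : ℂ[X]}
    (hR : R ≠ 0) : analyticOrderAt (fun z => R.eval (F z)) 0 ≤ ((R.natDegree : ℕ) : ℕ∞) := by
  have h0 : F 0 = 0 := by
    apply apply_eq_zero_of_analyticOrderAt_ne_zero (𝕜 := ℂ)
    rw [h2]
    exact one_ne_zero
  obtain ⟨q, hq, hnd⟩ := R.exists_eq_pow_rootMultiplicity_mul_and_not_dvd hR 0
  generalize R.rootMultiplicity 0 = m at hq
  rw [C_0, sub_zero] at hq hnd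
  have hq0 : q ≠ 0 := by
    rintro rfl
    exact hnd (dvd_zero _)
  have hm : m ≤ R.natDegree := by
    rw [hq, natDegree_mul (pow_ne_zero _ X_ne_zero) hq0, natDegree_X_pow]
    exact Nat.le_add_right _ _
  have hqe : q.eval 0 ≠ 0 := by
    intro h
    exact hnd (X_dvd_iff.2 (by rwa [coeff_zero_eq_eval_zero]))
  have hqF : AnalyticAt ℂ (fun z => q.eval (F z)) 0 := MulOrd_analyticAt q hF
  have e : (fun z => R.eval (F z)) = F ^ m * fun z => q.eval (F z) := by
    funext z
    rw [hq, eval_mul, eval_pow, eval_X]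
    rfl
  have hz : analyticOrderAt (fun z => q.eval (F z)) 0 = 0 :=
    hqF.analyticOrderAt_eq_zero.2 (by rwa [h0])
  rw [e, analyticOrderAt_mul (hF.pow m) hqF, analyticOrderAt_pow hF, h2, hz, add_zero,
    nsmul_eq_mul, mul_one]
  exact_mod_cast hm

theorem mult_exp {a b c : ℂ} (h : Ind a b) (hc : c ≠ 0) {P : ℂ[X][Y]} (hP : P ≠ 0) :
    analyticOrderAt (fun z => P.evalEval (iu a b z) (Complex.exp (c * z) - 1)) 0 ≤
      ((99 * (dX P + dY P) ^ 2 : ℕ) : ℕ∞) := by
  have hF := analyticAt_iu_zero h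
  have hG := XFin_an c 0
  refine ord_of_irr (F := iu a b) (G := fun z => Complex.exp (c * z) - 1) hF hG (fun P hP => ?_) hP
  rcases Nat.eq_zero_or_pos (dY P) with hY | hY
  · obtain ⟨p, rfl⟩ := eq_C_of_dY_eq_zero hY
    have hp : p ≠ 0 := by
      rintro rfl
      exact hP.ne_zero (by simp)
    have h1 := ord_one hF (order_iu_zero h) hp
    have h2 : p.natDegree ≤ dX (C p) := by
      have := natDegree_coeff_le (C p) 0
      rwa [coeff_C_zero] at this
    refine le_trans ?_ (Nat.cast_le.2 (XFin_le h2 (dY (C p))))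
    refine le_trans (le_of_eq ?_) h1
    congr 1
    funext z
    rw [evalEval_C]
  rcases Nat.eq_zero_or_pos (dX P) with hX | hX
  · obtain ⟨p, rfl⟩ := eq_map_of_dX_eq_zero hX
    have hp : p ≠ 0 := by
      rintro rfl
      exact hP.ne_zero (by simp)
    have h1 := XFin_one hG (XFin_order hc) hp
    have h2 : p.natDegree ≤ dY (p.map C) := by
      unfold dY
      rw [natDegree_map_eq_of_injective C_injective]
    refine le_trans ?_ (Nat.cast_le.2 (XFin_le' h2 (dX (p.map C))))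
    refine le_trans (le_of_eq ?_) h1
    congr 1
    funext z
    rw [evalEval_map_C]
  · exact ord_exp hF (order_iu_zero h) (ode_iu h) hP hY (bad_exp h hc hP hX hY)

private noncomputable def XFin_P (p : ℕ → ℕ → ℂ) (L L' : ℕ) : ℂ[X][Y] :=
  ∑ i ∈ Finset.range L, ∑ j ∈ Finset.range L', C (C (p i j) * X ^ i) * X ^ j

private theorem XFin_coeff (p : ℕ → ℕ → ℂ) (L L' k : ℕ) : (XFin_P p L L').coeff k =
    ∑ i ∈ Finset.range L, ∑ j ∈ Finset.range L', if k = j then C (p i j) * X ^ i else 0 := by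
  unfold XFin_P
  rw [finsetSum_coeff]
  refine Finset.sum_congr rfl fun i _ => ?_
  rw [finsetSum_coeff]
  refine Finset.sum_congr rfl fun j _ => ?_
  rw [coeff_C_mul_X_pow]

private theorem XFin_deg (p : ℕ → ℕ → ℂ) (L L' k : ℕ) :
    ((XFin_P p L L').coeff k).natDegree ≤ L := by
  rw [XFin_coeff]
  refine natDegree_sum_le_of_forall_le _ _ fun i hi => ?_
  refine natDegree_sum_le_of_forall_le _ _ fun j _ => ?_
  split_ifs
  · exact (natDegree_C_mul_X_pow_le _ _).trans (Finset.mem_range.1 hi).le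
  · simp

private theorem XFin_dY (p : ℕ → ℕ → ℂ) (L L' : ℕ) : dY (XFin_P p L L') ≤ L' := by
  unfold dY XFin_P
  refine natDegree_sum_le_of_forall_le _ _ fun i _ => ?_
  refine natDegree_sum_le_of_forall_le _ _ fun j hj => ?_
  exact (natDegree_C_mul_X_pow_le _ _).trans (Finset.mem_range.1 hj).le

private theorem XFin_ne (p : ℕ → ℕ → ℂ) (L L' : ℕ) (hp : ∃ i < L, ∃ j < L', p i j ≠ 0) :
    XFin_P p L L' ≠ 0 := by
  obtain ⟨i, hi, j, hj, hij⟩ := hp
  intro h0
  apply hij
  have h1 : ((XFin_P p L L').coeff j).coeff i = p i j := by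
    rw [XFin_coeff, finsetSum_coeff, Finset.sum_eq_single i]
    · rw [finsetSum_coeff, Finset.sum_eq_single j]
      · rw [if_pos rfl, coeff_C_mul_X_pow, if_pos rfl]
      · intro j' _ hne
        rw [if_neg hne.symm, coeff_zero]
      · intro hn
        exact absurd (Finset.mem_range.2 hj) hn
    · intro i' _ hne
      rw [finsetSum_coeff]
      refine Finset.sum_eq_zero fun j' _ => ?_
      split_ifs
      · rw [coeff_C_mul_X_pow, if_neg hne.symm]
      · rw [coeff_zero]
    · intro hn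
      exact absurd (Finset.mem_range.2 hi) hn
  rw [← h1, h0]
  simp

private theorem XFin_eval (p : ℕ → ℕ → ℂ) (L L' : ℕ) (x y : ℂ) : (XFin_P p L L').evalEval x y =
    ∑ i ∈ Finset.range L, ∑ j ∈ Finset.range L', p i j * (x ^ i * y ^ j) := by
  unfold XFin_P
  rw [evalEval_finsetSum]
  refine Finset.sum_congr rfl fun i _ => ?_
  rw [evalEval_finsetSum]
  refine Finset.sum_congr rfl fun j _ => ?_
  rw [evalEval_mul, evalEval_C, evalEval_pow, evalEval_X]
  simp [mul_assoc]

private theorem XFin_tay (h : Ind a b) (p : ℕ → ℕ → ℂ) (L L' : ℕ) :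
    tay (fun z => ∑ i ∈ Finset.range L, ∑ k ∈ Finset.range L',
      p i k * (iu a b z ^ i * (Complex.exp (c * z) - 1) ^ k)) =
    ∑ i ∈ Finset.range L, ∑ k ∈ Finset.range L',
      PowerSeries.C (p i k) * (tay (iu a b) ^ i * PowerSeries.rescale c (xs ℂ) ^ k) := by
  have hF := analyticAt_iu_zero h
  have hG := XFin_an c 0
  have hm : ∀ i k : ℕ, AnalyticAt ℂ
      (fun z => iu a b z ^ i * (Complex.exp (c * z) - 1) ^ k) 0 :=
    fun i k => (hF.pow i).mul (hG.pow k)
  have ht : ∀ i k : ℕ, AnalyticAt ℂ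
      (fun z => p i k * (iu a b z ^ i * (Complex.exp (c * z) - 1) ^ k)) 0 :=
    fun i k => analyticAt_const.mul (hm i k)
  rw [tay_sum _ _ fun i _ => Finset.analyticAt_fun_sum _ fun k _ => ht i k]
  refine Finset.sum_congr rfl fun i _ => ?_
  rw [tay_sum _ _ fun k _ => ht i k]
  refine Finset.sum_congr rfl fun k _ => ?_
  rw [tay_mul (f := fun _ => p i k) analyticAt_const (hm i k), tay_const]
  have e1 : tay (fun z => iu a b z ^ i * (Complex.exp (c * z) - 1) ^ k) =
      tay (fun z => iu a b z ^ i) * tay (fun z => (Complex.exp (c * z) - 1) ^ k) :=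
    tay_mul (hF.pow i) (hG.pow k)
  have e2 : tay (fun z => (Complex.exp (c * z) - 1) ^ k) = PowerSeries.rescale c (xs ℂ) ^ k := by
    rw [← xs_tay]
    exact tay_pow hG k
  rw [e1, e2, tay_pow hF]

theorem mult_exp_coeff {a b c : ℂ} (h : Ind a b) (hc : c ≠ 0) (p : ℕ → ℕ → ℂ) (L L' : ℕ)
    (hp : ∃ i < L, ∃ k < L', p i k ≠ 0) :
    ∃ n ≤ 400 * (L + L') ^ 2, PowerSeries.coeff n (∑ i ∈ Finset.range L, ∑ k ∈ Finset.range L',
      PowerSeries.C (p i k) * (tay (iu a b) ^ i * PowerSeries.rescale c (xs ℂ) ^ k)) ≠ 0 := by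
  have h1 := mult_exp h hc (XFin_ne p L L' hp)
  have h2 : dX (XFin_P p L L') ≤ L := dX_le_of_coeff _ _ fun k => XFin_deg p L L' k
  have h3 := XFin_dY p L L'
  have h4 : 99 * (dX (XFin_P p L L') + dY (XFin_P p L L')) ^ 2 ≤ 400 * (L + L') ^ 2 := by
    have h5 : dX (XFin_P p L L') + dY (XFin_P p L L') ≤ L + L' := by omega
    calc 99 * (dX (XFin_P p L L') + dY (XFin_P p L L')) ^ 2 ≤ 99 * (L + L') ^ 2 := by gcongr
      _ ≤ 400 * (L + L') ^ 2 := by nlinarith
  have h5 : (fun z => (XFin_P p L L').evalEval (iu a b z) (Complex.exp (c * z) - 1)) =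
      fun z => ∑ i ∈ Finset.range L, ∑ k ∈ Finset.range L',
        p i k * (iu a b z ^ i * (Complex.exp (c * z) - 1) ^ k) := by
    funext z
    rw [XFin_eval]
  rw [h5] at h1
  have h6 := h1.trans (Nat.cast_le.2 h4)
  have hF := analyticAt_iu_zero h
  have hA : AnalyticAt ℂ (fun z => ∑ i ∈ Finset.range L, ∑ k ∈ Finset.range L',
        p i k * (iu a b z ^ i * (Complex.exp (c * z) - 1) ^ k)) 0 :=
    Finset.analyticAt_fun_sum _ fun i _ => Finset.analyticAt_fun_sum _ fun k _ =>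
      analyticAt_const.mul ((hF.pow i).mul ((XFin_an c 0).pow k))
  by_contra hne
  push Not at hne
  rw [← XFin_tay h p L L'] at hne
  have h7 : ((400 * (L + L') ^ 2 + 1 : ℕ) : ℕ∞) ≤
      analyticOrderAt (fun z => ∑ i ∈ Finset.range L, ∑ k ∈ Finset.range L',
        p i k * (iu a b z ^ i * (Complex.exp (c * z) - 1) ^ k)) 0 := by
    refine (natCast_le_analyticOrderAt_iff_iteratedDeriv_eq_zero hA).2 fun k hk => ?_
    have h8 := hne k (Nat.lt_succ_iff.1 hk)
    rw [tay, PowerSeries.coeff_mk, div_eq_zero_iff] at h8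
    rcases h8 with h8 | h8
    · exact h8
    · exact absurd h8 (Nat.cast_ne_zero.2 (Nat.factorial_ne_zero k))
  have h9 := h7.trans h6
  rw [Nat.cast_le] at h9
  omega

end Pool.Agent.LGO.U
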