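import Mathlib
import Pool.Agent.LGO.U.XFin
import Pool.Agent.LGO.E3.Defs

/-!
# LGO/U: upper bound for the order of the forms (engine 4)

`U = tay (iu a b) = t² + ...` (order `2`, leading coefficient `1`: `order_iu_zero`, `MulIu_tendsto`, or `iu_tay`
and `us_zero`, `us_one`, `us_two`).

PROOF.  Case `l₁ ≠ 0`.  Let `j₀` be the smallest `j < L` such that some `p i j k ≠ 0` (`i < L`, `k < L'`).  The
coefficient of `X^(2 j₀)` in the `n`-th coefficient of `U(t)^i U(X t)^j E((l₁ + l₂ X) t)^k` (`E = xs`) is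
* `0` for `j > j₀`, because `U(X t)^j` is divisible by `X^(2 j)` (as a power series in `t` over `ℂ[X]`);
* the `n`-th coefficient of `t^(2 j₀) U(t)^i E(l₁ t)^k` for `j = j₀`: `U(X t)^j₀ = (X t)^(2 j₀) (1 + X t (...))`, and
  modulo `X` one has `E((l₁ + l₂ X) t) ≡ E(l₁ t)`.
So the coefficient of `X^(2 j₀)` of `frm .. n` is the `(n - 2 j₀)`-th coefficient of
`∑ i k, p i j₀ k U^i E(l₁ t)^k`, and `mult_exp_coeff` (with `c = l₁`) gives `n = 2 j₀ + n'`, `n' ≤ 400 (L + L')²`.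
A convenient way: work in `ℂ[X]` modulo `X^(2 j₀ + 1)`, or: `rescale X (map C U) = X^2 * V` with a series `V`
over `ℂ[X]` whose coefficients mod `X` are those of `t² `.
Case `l₁ = 0`, `l₂ ≠ 0`.  By evaluation at `x ≠ 0` and rescaling by `x⁻¹` one has
`frm l₁ l₂ p n (x) = x^n frm l₂ l₁ p' n (x⁻¹)` with `p' i j k = p j i k` (`Ord4_swap`), so this case follows from
the first one.
-/

namespace Pool.Agent.LGO.U

open Polynomial Pool.Agent.EllSch Pool.Agent.LGO.Mul Pool.Agent.Schn Pool.Agent.LGO.E3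

/-- the generating series of the forms -/
private noncomputable def Ord4_gen {S : Type*} [CommRing S] (x y : S) (U E : PowerSeries S)
    (L L' : ℕ) (p : ℕ → ℕ → ℕ → ℤ) : PowerSeries S :=
  ∑ i ∈ Finset.range L, ∑ j ∈ Finset.range L, ∑ k ∈ Finset.range L',
    PowerSeries.C (p i j k : S) *
      (U ^ i * (PowerSeries.rescale x U) ^ j * (PowerSeries.rescale y E) ^ k)

private theorem Ord4_map_rescale {S T : Type*} [CommRing S] [CommRing T] (f : S →+* T) (x : S)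
    (U : PowerSeries S) :
    PowerSeries.map f (PowerSeries.rescale x U) =
      PowerSeries.rescale (f x) (PowerSeries.map f U) := by
  ext n
  simp [PowerSeries.coeff_rescale]

private theorem Ord4_map_gen {S T : Type*} [CommRing S] [CommRing T] (f : S →+* T) (x y : S)
    (U E : PowerSeries S) (L L' : ℕ) (p : ℕ → ℕ → ℕ → ℤ) :
    PowerSeries.map f (Ord4_gen x y U E L L' p) =
      Ord4_gen (f x) (f y) (PowerSeries.map f U) (PowerSeries.map f E) L L' p := by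
  unfold Ord4_gen
  simp only [map_sum, map_mul, map_pow, map_intCast, Ord4_map_rescale]

private theorem Ord4_frm (U E : PowerSeries ℂ) (l₁ l₂ : ℂ) (L L' : ℕ) (p : ℕ → ℕ → ℕ → ℤ)
    (n : ℕ) :
    frm U U E l₁ l₂ L L' p n = PowerSeries.coeff n
      (Ord4_gen (X : ℂ[X]) (C l₁ + C l₂ * X) (PowerSeries.map (C : ℂ →+* ℂ[X]) U)
        (PowerSeries.map (C : ℂ →+* ℂ[X]) E) L L' p) := by
  unfold frm Ord4_gen dirS
  simp only [map_sum, PowerSeries.coeff_C_mul]

private theorem Ord4_map_map (x : ℂ) (U : PowerSeries ℂ) :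
    PowerSeries.map (evalRingHom x) (PowerSeries.map (C : ℂ →+* ℂ[X]) U) = U := by
  ext n
  simp

private theorem Ord4_eval (U E : PowerSeries ℂ) (l₁ l₂ : ℂ) (L L' : ℕ) (p : ℕ → ℕ → ℕ → ℤ)
    (n : ℕ) (x : ℂ) :
    eval x (frm U U E l₁ l₂ L L' p n) =
      PowerSeries.coeff n (Ord4_gen x (l₁ + l₂ * x) U E L L' p) := by
  have h := congrArg (PowerSeries.coeff n) (Ord4_map_gen (evalRingHom x) (X : ℂ[X])
    (C l₁ + C l₂ * X) (PowerSeries.map (C : ℂ →+* ℂ[X]) U)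
    (PowerSeries.map (C : ℂ →+* ℂ[X]) E) L L' p)
  rw [Ord4_map_map, Ord4_map_map, PowerSeries.coeff_map, ← Ord4_frm, coe_evalRingHom] at h
  rw [h]
  simp

/-- the symmetry between the two variables -/
private theorem Ord4_swap (U E : PowerSeries ℂ) (l₁ l₂ : ℂ) (L L' : ℕ) (p : ℕ → ℕ → ℕ → ℤ)
    (n : ℕ) {x : ℂ} (hx : x ≠ 0) :
    eval x (frm U U E l₁ l₂ L L' p n) =
      x ^ n * eval x⁻¹ (frm U U E l₂ l₁ L L' (fun i j k => p j i k) n) := by
  rw [Ord4_eval, Ord4_eval, ← PowerSeries.coeff_rescale]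
  congr 1
  unfold Ord4_gen
  rw [Finset.sum_comm]
  simp only [map_sum, map_mul, map_pow]
  refine Finset.sum_congr rfl fun i _ => Finset.sum_congr rfl fun j _ =>
    Finset.sum_congr rfl fun k _ => ?_
  have h1 : PowerSeries.rescale x (PowerSeries.rescale x⁻¹ U) = U := by
    rw [PowerSeries.rescale_rescale, inv_mul_cancel₀ hx, PowerSeries.rescale_one,
      RingHom.id_apply]
  have h2 : PowerSeries.rescale x (PowerSeries.rescale (l₂ + l₁ * x⁻¹) E) =
      PowerSeries.rescale (l₁ + l₂ * x) E := by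
    rw [PowerSeries.rescale_rescale]
    congr 2
    field_simp
    ring
  have h3 : PowerSeries.rescale x (PowerSeries.C ((p j i k : ℤ) : ℂ)) =
      PowerSeries.C ((p j i k : ℤ) : ℂ) := by
    ext m
    rw [PowerSeries.coeff_rescale, PowerSeries.coeff_C]
    split_ifs with hm
    · rw [hm, pow_zero, one_mul]
    · rw [mul_zero]
  rw [h1, h2, h3]
  ring

private theorem Ord4_case {U : PowerSeries ℂ} (hU0 : PowerSeries.coeff 0 U = 0)
    (hU1 : PowerSeries.coeff 1 U = 0) (hU2 : PowerSeries.coeff 2 U = 1) (E : PowerSeries ℂ)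
    (l₁ l₂ : ℂ) (L L' : ℕ) (p : ℕ → ℕ → ℕ → ℤ) (j₀ : ℕ) (hj₀ : j₀ < L)
    (hmin : ∀ j < j₀, ∀ i < L, ∀ k < L', p i j k = 0) (n : ℕ)
    (hn : PowerSeries.coeff n (∑ i ∈ Finset.range L, ∑ k ∈ Finset.range L',
      PowerSeries.C ((p i j₀ k : ℤ) : ℂ) * (U ^ i * PowerSeries.rescale l₁ E ^ k)) ≠ 0) :
    frm U U E l₁ l₂ L L' p (n + 2 * j₀) ≠ 0 := by
  classical
  obtain ⟨V, hV⟩ : (PowerSeries.X : PowerSeries ℂ) ^ 2 ∣ U := by
    rw [PowerSeries.X_pow_dvd_iff]
    intro m hm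
    interval_cases m
    · exact hU0
    · exact hU1
  have hV0 : PowerSeries.constantCoeff V = 1 := by
    have h := hU2
    rw [hV, PowerSeries.coeff_X_pow_mul'] at h
    simpa using h
  set U' : PowerSeries ℂ[X] := PowerSeries.map (C : ℂ →+* ℂ[X]) U with hU'
  set V' : PowerSeries ℂ[X] := PowerSeries.map (C : ℂ →+* ℂ[X]) V with hV'
  set E' : PowerSeries ℂ[X] := PowerSeries.map (C : ℂ →+* ℂ[X]) E with hE'
  let z : PowerSeries ℂ[X] := PowerSeries.C (X : ℂ[X]) * PowerSeries.X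
  have hres : PowerSeries.rescale (X : ℂ[X]) U' = z ^ 2 * PowerSeries.rescale (X : ℂ[X]) V' := by
    rw [hU', hV, map_mul, map_pow, PowerSeries.map_X, map_mul, map_pow, PowerSeries.rescale_X]
  let H : PowerSeries ℂ[X] := ∑ i ∈ Finset.range L, ∑ j ∈ Finset.range L,
    ∑ k ∈ Finset.range L', if j₀ ≤ j then PowerSeries.C (p i j k : ℂ[X]) *
      (U' ^ i * (z ^ (2 * (j - j₀)) * (PowerSeries.rescale (X : ℂ[X]) V') ^ j) *
        (PowerSeries.rescale (C l₁ + C l₂ * X) E') ^ k) else 0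
  have hgen : Ord4_gen (X : ℂ[X]) (C l₁ + C l₂ * X) U' E' L L' p = z ^ (2 * j₀) * H := by
    simp only [Ord4_gen, H, Finset.mul_sum]
    refine Finset.sum_congr rfl fun i hi => Finset.sum_congr rfl fun j hj =>
      Finset.sum_congr rfl fun k hk => ?_
    split_ifs with hjj
    · rw [hres, mul_pow, ← pow_mul]
      have h1 : z ^ (2 * j) = z ^ (2 * j₀) * z ^ (2 * (j - j₀)) := by
        rw [← pow_add]
        congr 1
        omega
      rw [h1]
      ring
    · rw [hmin j (by omega) i (Finset.mem_range.1 hi) k (Finset.mem_range.1 hk)]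
      simp
  have hH : PowerSeries.map (evalRingHom (0 : ℂ)) H =
      ∑ i ∈ Finset.range L, ∑ k ∈ Finset.range L',
        PowerSeries.C ((p i j₀ k : ℤ) : ℂ) * (U ^ i * PowerSeries.rescale l₁ E ^ k) := by
    simp only [H, map_sum]
    refine Finset.sum_congr rfl fun i _ => ?_
    rw [Finset.sum_comm]
    refine Finset.sum_congr rfl fun k _ => ?_
    have hz : PowerSeries.map (evalRingHom (0 : ℂ)) z = 0 := by
      simp [z]
    rw [Finset.sum_eq_single j₀]
    · rw [if_pos le_rfl, Nat.sub_self, mul_zero, pow_zero, one_mul]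
      simp only [map_mul, map_pow, map_intCast, Ord4_map_rescale]
      rw [hU', hV', hE', Ord4_map_map, Ord4_map_map, Ord4_map_map]
      have h1 : PowerSeries.rescale ((evalRingHom (0 : ℂ)) X) V = 1 := by
        rw [coe_evalRingHom, eval_X, PowerSeries.rescale_zero]
        simp [hV0]
      have h2 : (evalRingHom (0 : ℂ)) (C l₁ + C l₂ * X) = l₁ := by simp
      rw [h1, h2, one_pow, mul_one]
    · intro j _ hj
      split_ifs with hjj
      · have h1 : 2 * (j - j₀) ≠ 0 := by omega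
        simp only [map_mul, map_pow, hz, zero_pow h1, zero_mul, mul_zero]
      · exact map_zero _
    · intro h
      exact absurd (Finset.mem_range.2 hj₀) h
  intro h0
  rw [Ord4_frm, hgen] at h0
  have h1 : z ^ (2 * j₀) = PowerSeries.C ((X : ℂ[X]) ^ (2 * j₀)) * PowerSeries.X ^ (2 * j₀) := by
    simp only [z, mul_pow, map_pow]
  rw [h1, mul_assoc, PowerSeries.coeff_C_mul, PowerSeries.coeff_X_pow_mul] at h0
  have h2 : PowerSeries.coeff n H = 0 :=
    (mul_eq_zero.1 h0).resolve_left (pow_ne_zero _ X_ne_zero)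
  apply hn
  rw [← hH, PowerSeries.coeff_map, h2, map_zero]

private theorem Ord4_main {a b l₁ l₂ : ℂ} (h : Ind a b) (hl : l₁ ≠ 0) (L L' : ℕ)
    (p : ℕ → ℕ → ℕ → ℤ) (hp : ∃ i < L, ∃ j < L, ∃ k < L', p i j k ≠ 0) :
    ∃ n ≤ 2 * L + 400 * (L + L') ^ 2,
      frm (tay (iu a b)) (tay (iu a b)) (xs ℂ) l₁ l₂ L L' p n ≠ 0 := by
  classical
  have hU0 : PowerSeries.coeff 0 (tay (iu a b)) = 0 := by
    rw [Bs.iu_tay h]
    exact Bs.us_zero _ _
  have hU1 : PowerSeries.coeff 1 (tay (iu a b)) = 0 := by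
    rw [Bs.iu_tay h]
    exact Bs.us_one _ _
  have hU2 : PowerSeries.coeff 2 (tay (iu a b)) = 1 := by
    rw [Bs.iu_tay h]
    have h1 := Bs.us_rec (3 / 2 * G2 a b) (2 * G3 a b) 0
    have h2 : PowerSeries.coeff 0 (Bs.us (3 / 2 * G2 a b) (2 * G3 a b) ^ 2) = 0 := by
      rw [PowerSeries.coeff_zero_eq_constantCoeff, map_pow,
        ← PowerSeries.coeff_zero_eq_constantCoeff, Bs.us_zero]
      norm_num
    have h3 : PowerSeries.coeff 0 (Bs.us (3 / 2 * G2 a b) (2 * G3 a b) ^ 3) = 0 := by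
      rw [PowerSeries.coeff_zero_eq_constantCoeff, map_pow,
        ← PowerSeries.coeff_zero_eq_constantCoeff, Bs.us_zero]
      norm_num
    rw [h2, h3] at h1
    norm_num at h1
    exact h1
  have hex : ∃ j, j < L ∧ ∃ i < L, ∃ k < L', p i j k ≠ 0 := by
    obtain ⟨i, hi, j, hj, k, hk, hne⟩ := hp
    exact ⟨j, hj, i, hi, k, hk, hne⟩
  obtain ⟨hj₀, i₁, hi₁, k₁, hk₁, hne⟩ := Nat.find_spec hex
  have hmin : ∀ j < Nat.find hex, ∀ i < L, ∀ k < L', p i j k = 0 := by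
    intro j hj i hi k hk
    by_contra hcon
    exact Nat.find_min hex hj ⟨lt_trans hj hj₀, i, hi, k, hk, hcon⟩
  obtain ⟨n, hn, hcn⟩ := mult_exp_coeff h hl (fun i k => ((p i (Nat.find hex) k : ℤ) : ℂ)) L L'
    ⟨i₁, hi₁, k₁, hk₁, by exact_mod_cast hne⟩
  refine ⟨n + 2 * Nat.find hex, by omega, ?_⟩
  exact Ord4_case hU0 hU1 hU2 (xs ℂ) l₁ l₂ L L' p _ hj₀ hmin n hcn

theorem ord4 {a b l₁ l₂ : ℂ} (h : Ind a b) (hl : l₁ ≠ 0 ∨ l₂ ≠ 0) (L L' : ℕ)
    (p : ℕ → ℕ → ℕ → ℤ) (hp : ∃ i < L, ∃ j < L, ∃ k < L', p i j k ≠ 0) :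
    ∃ n ≤ 2 * L + 400 * (L + L') ^ 2,
      frm (tay (iu a b)) (tay (iu a b)) (xs ℂ) l₁ l₂ L L' p n ≠ 0 := by
  classical
  by_cases h1 : l₁ = 0
  · have h2 : l₂ ≠ 0 := hl.resolve_left (fun h => h h1)
    obtain ⟨i, hi, j, hj, k, hk, hne⟩ := hp
    obtain ⟨n, hn, hfn⟩ := Ord4_main (l₁ := l₂) (l₂ := l₁) h h2 L L' (fun i j k => p j i k)
      ⟨j, hj, i, hi, k, hk, hne⟩
    refine ⟨n, hn, fun h0 => ?_⟩
    have hfin : ((frm (tay (iu a b)) (tay (iu a b)) (xs ℂ) l₂ l₁ L L'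
        (fun i j k => p j i k) n).rootSet ℂ ∪ {0}).Finite :=
      (rootSet_finite _ _).union (Set.finite_singleton 0)
    obtain ⟨y, hy⟩ := hfin.infinite_compl.nonempty
    rw [Set.mem_compl_iff, Set.mem_union, not_or] at hy
    have hy0 : y ≠ 0 := hy.2
    have hy1 : eval y (frm (tay (iu a b)) (tay (iu a b)) (xs ℂ) l₂ l₁ L L'
        (fun i j k => p j i k) n) ≠ 0 := by
      intro h3
      apply hy.1
      rw [mem_rootSet]
      refine ⟨hfn, ?_⟩
      simpa using h3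
    have h4 := Ord4_swap (tay (iu a b)) (xs ℂ) l₁ l₂ L L' p n (inv_ne_zero hy0)
    rw [h0, eval_zero, inv_inv] at h4
    exact mul_ne_zero (pow_ne_zero _ (inv_ne_zero hy0)) hy1 h4.symm
  · exact Ord4_main h h1 L L' p hp

end Pool.Agent.LGO.U
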