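import Mathlib
import Pool.Agent.LGO.U.Ord4
import Pool.Agent.LGO.E3.Fin
import Pool.Agent.LGO.A.MulInt

/-!
# LGO/U: the data of one curve for engines 4 and 5

* `U_eq_tay`: near `0` and off the lattice `e z = s z ℘(w z)` (`Wei`), so `s z = u(w z) e z` for small `z ≠ 0`
  (`Mul.ev_off_ne`: near `0` the points `w z`, `z ≠ 0`, are off the lattice and `℘ ≠ 0`), and also at `z = 0` (`s 0 = 0` by
  continuity, `iu_zero`).  So `tay s = tay e * rescale w (tay (iu w (w τ)))` (`tay_congr`, `tay_mul`, `BsAn`), and with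
  `Loc.ser` and `tay e ≠ 0` (its constant coefficient is `1`; cancel), `rescale w` is injective (`w ≠ 0`).
* `iu_swap`: `ℤ wτ + ℤ w τ (-1/τ) = ℤ w τ + ℤ w`: `iu_tay` and `G2`, `G3` of the same lattice (`EllSch.G2_change`,
  `G3_change` with the matrix `(0, 1; -1, 0)`).
* `gen_one`: a number `ξ` with `ξ Λ ⊆ Λ` is an integer if `τ` is not quadratic (see `mul_rat` in `LGO/Mul/Gal.lean` and
  `LGO/Meas.lean`).
* `base4`: put together `E3.base` for `(w, τ)` and for `(w τ, -1/τ)`, the denominators of `l₁, l₂` and a common `ν`,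
  exactly as at the beginning of `engine3'` in `LGO/E3/Fin.lean` (`V = 5 (c (M T))`, `A = exp (c (M T))`); `xs_ar`
  with `Ar.mono`.
-/

namespace Pool.Agent.LGO.U

open Polynomial Pool.Agent.EllSch Pool.Agent.Schn Pool.Agent.LGO.E3
open Filter Topology

theorem U_eq_tay {w τ : ℂ} {U : PowerSeries ℂ} {s e : ℂ → ℂ} (hw : w ≠ 0) (hτ : 0 < τ.im)
    (h : Loc w U s e) (hwe : Wei w τ s e) : U = tay (Mul.iu w (w * τ)) := by
  have hI : Ind w (w * τ) := by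
    have := ind_smul (ind_one hτ) hw
    rwa [mul_one] at this
  have hT : Tendsto (fun z : ℂ => w * z) (𝓝[≠] 0) (𝓝[≠] 0) := by
    rw [tendsto_nhdsWithin_iff]
    constructor
    · have : Tendsto (fun z : ℂ => w * z) (𝓝 0) (𝓝 (w * 0)) :=
        (continuous_const.mul continuous_id).tendsto 0
      rw [mul_zero] at this
      exact this.mono_left nhdsWithin_le_nhds
    · filter_upwards [self_mem_nhdsWithin] with z hz
      exact mul_ne_zero hw hz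
  have h1 : ∀ᶠ z in 𝓝[≠] (0 : ℂ), s z = e z * Mul.iu w (w * τ) (w * z) := by
    filter_upwards [hT.eventually (Basic.eventually_off hI 0),
      hT.eventually (Mul.MulIu_eventually_ne hI)] with z hz1 hz2
    rw [hwe z hz1, Mul.iu]
    field_simp
  have hs : AnalyticAt ℂ s 0 := h.ds.analyticAt 0
  have hr : AnalyticAt ℂ (fun z => e z * Mul.iu w (w * τ) (w * z)) 0 :=
    (h.de.analyticAt 0).mul (Bs.iu_comp_an hI w)
  have h2 : ∀ᶠ z in 𝓝 (0 : ℂ), s z = e z * Mul.iu w (w * τ) (w * z) :=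
    (hs.frequently_eq_iff_eventually_eq hr).1 h1.frequently
  have h3 : tay s = tay e * PowerSeries.rescale w (tay (Mul.iu w (w * τ))) := by
    rw [tay_congr h2, tay_mul (h.de.analyticAt 0) (Bs.iu_comp_an hI w), Bs.iu_tay_comp hI w,
      Bs.iu_tay hI]
  have h4 : tay e ≠ 0 := by
    intro h0
    have h5 := congrArg (PowerSeries.coeff 0) h0
    rw [tay, PowerSeries.coeff_mk, iteratedDeriv_zero, h.e0] at h5
    simp at h5
  have h6 := h.ser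
  rw [h3] at h6
  have h7 := mul_left_cancel₀ h4 h6
  ext n
  have h8 := congrArg (PowerSeries.coeff n) h7
  rw [PowerSeries.coeff_rescale, PowerSeries.coeff_rescale] at h8
  exact (mul_left_cancel₀ (pow_ne_zero n hw) h8).symm

theorem iu_swap {w τ : ℂ} (hw : w ≠ 0) (hτ : 0 < τ.im) :
    tay (Mul.iu (w * τ) (w * τ * (-1 / τ))) = tay (Mul.iu w (w * τ)) := by
  have hτ0 : τ ≠ 0 := by
    rintro rfl
    simp at hτ
  have hI : Ind w (w * τ) := by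
    have := ind_smul (ind_one hτ) hw
    rwa [mul_one] at this
  have e1 : w * τ * (-1 / τ) = -w := by field_simp
  have hI2 : Ind (w * τ) (-w) := by
    unfold Ind at hI ⊢
    intro h0
    apply hI
    rw [Complex.neg_im, Complex.neg_re] at h0
    linarith
  have hd : (0 : ℤ) * 0 - 1 * (-1) = 1 := by norm_num
  have g2 := G2_change (a := w) (b := w * τ) hd
  have g3 := G3_change (a := w) (b := w * τ) hd
  have x1 : ((0 : ℤ) : ℂ) * w + ((1 : ℤ) : ℂ) * (w * τ) = w * τ := by push_cast; ring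
  have x2 : ((-1 : ℤ) : ℂ) * w + ((0 : ℤ) : ℂ) * (w * τ) = -w := by push_cast; ring
  rw [x1, x2] at g2 g3
  rw [e1, Bs.iu_tay hI2, Bs.iu_tay hI, g2, g3]

theorem gen_one {w τ : ℂ} (hw : w ≠ 0) (hτ : 0 < τ.im) (hcm : NonCM τ) :
    Gen 1 (Lt w τ) (Lt (w * τ) (-1 / τ)) := by
  have hτ0 : τ ≠ 0 := by
    rintro rfl
    simp at hτ
  refine ⟨one_ne_zero, ?_, ?_⟩
  · rintro x ⟨m, n, rfl⟩
    refine ⟨n, -m, ?_⟩
    push_cast
    field_simp
    ring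
  · intro ξ hξ
    obtain ⟨m, n, h1⟩ := hξ w ⟨1, 0, by push_cast; ring⟩
    obtain ⟨m', n', h2⟩ := hξ (w * τ) ⟨0, 1, by push_cast; ring⟩
    have f1 : ξ = m * τ - n := by
      apply mul_right_cancel₀ hw
      rw [h1]
      field_simp
      ring
    have f2 : ξ * τ = m' * τ - n' := by
      apply mul_right_cancel₀ hw
      have e : ξ * τ * w = ξ * (w * τ) := by ring
      rw [e, h2]
      field_simp
      ring
    have f3 : ((m : ℤ) : ℂ) * τ ^ 2 + ((-n - m' : ℤ) : ℂ) * τ + ((n' : ℤ) : ℂ) = 0 := by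
      push_cast
      rw [f1] at f2
      linear_combination f2
    have hm := (hcm m (-n - m') n' f3).1
    refine ⟨-n, ?_⟩
    rw [f1, hm]
    push_cast
    ring

/-- all the data needed for the forms of engine 4 -/
theorem base4 : ∃ C : ℕ, 8 ≤ C ∧ ∀ (K : IntermediateField ℚ ℂ) [FiniteDimensional ℚ K] (M T : ℝ)
    (w τ l₁ l₂ : ℂ), 2 ≤ M → (Module.finrank ℚ K : ℝ) ≤ M → 0 < T → 1 ≤ M * T →
    Cur K M (M * T) T w τ → Cur K M (M * T) T (w * τ) (-1 / τ) → ∀ (h₁ : Bd K (M * T) l₁)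
    (h₂ : Bd K (M * T) l₂),
    ∃ (s₁ e₁ s₂ e₂ : ℂ → ℂ) (U : PowerSeries K) (ν : ℕ) (A V : ℝ), 1 ≤ ν ∧ 1 ≤ A ∧
      V = 5 * (C * (M * T)) ∧ A = Real.exp (C * (M * T)) ∧ (ν : ℝ) ≤ Real.exp V ∧
      Ar ν A U ∧ Ar ν A (xs K) ∧
      PowerSeries.map (algebraMap K ℂ) U = tay (Mul.iu w (w * τ)) ∧
      Loc w (tay (Mul.iu w (w * τ))) s₁ e₁ ∧ Loc (w * τ) (tay (Mul.iu w (w * τ))) s₂ e₂ ∧
      Gro C (C * (M ^ 2 * T)) T s₁ e₁ ∧ Gro C (C * (M ^ 2 * T)) T s₂ e₂ ∧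
      (Real.exp (-(C * (M ^ 2 * T))) ≤ ‖w‖ ∧ ‖w‖ ≤ Real.exp (C * (M ^ 2 * T))) ∧
      (Real.exp (-(C * (M ^ 2 * T))) ≤ ‖w * τ‖ ∧ ‖w * τ‖ ≤ Real.exp (C * (M ^ 2 * T))) ∧
      IsIntegral ℤ ((ν : K) * (⟨l₁, h₁.mem⟩ : K)) ∧ IsIntegral ℤ ((ν : K) * (⟨l₂, h₂.mem⟩ : K)) ∧
      (∀ σ : K →+* ℂ, ‖σ ⟨l₁, h₁.mem⟩‖ ≤ A) ∧ (∀ σ : K →+* ℂ, ‖σ ⟨l₂, h₂.mem⟩‖ ≤ A) := by
  obtain ⟨CB, hCB, hbase⟩ := base
  refine ⟨CB + 8, by omega, ?_⟩
  intro K _ M T w τ l₁ l₂ hM hfin hT hMT c₁ c₂ h₁ h₂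
  set C : ℕ := CB + 8 with hC_def
  have hCR : (C : ℝ) = CB + 8 := by rw [hC_def]; push_cast; ring
  have hCB1 : (1 : ℝ) ≤ CB := by exact_mod_cast hCB
  have hC1 : (1 : ℝ) ≤ C := by rw [hCR]; linarith
  have hM0 : 0 < M := by linarith
  have hMT0 : 0 < M * T := by linarith
  have hM2T : 0 < M ^ 2 * T := by positivity
  obtain ⟨s₁, e₁, U₁, ν₁, hν₁, hν₁V, a₁, loc₁, gr₁, we₁, lo₁, up₁⟩ :=
    hbase K M T T w τ hM hfin hT hMT hT hMT c₁
  obtain ⟨s₂, e₂, U₂, ν₂, hν₂, hν₂V, a₂, loc₂, gr₂, we₂, lo₂, up₂⟩ :=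
    hbase K M T T (w * τ) (-1 / τ) hM hfin hT hMT hT hMT c₂
  obtain ⟨n₁, hn₁, hn₁V, hn₁i⟩ := h₁.den
  obtain ⟨n₂, hn₂, hn₂V, hn₂i⟩ := h₂.den
  have hU₁ := U_eq_tay c₁.w0 c₁.im_pos loc₁ we₁
  have hU₂ := U_eq_tay c₂.w0 c₂.im_pos loc₂ we₂
  rw [iu_swap c₁.w0 c₁.im_pos] at hU₂
  have hle : (CB : ℝ) * (M * T) ≤ C * (M * T) := by rw [hCR]; nlinarith
  have hle2 : (CB : ℝ) * (M ^ 2 * T) ≤ C * (M ^ 2 * T) := by rw [hCR]; nlinarith
  have hMTC : M * T ≤ C * (M * T) := by nlinarith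
  have hA : 1 ≤ Real.exp (C * (M * T)) := Real.one_le_exp (by positivity)
  have hgro : ∀ {s e : ℂ → ℂ}, Gro CB (CB * (M ^ 2 * T)) T s e → Gro C (C * (M ^ 2 * T)) T s e := by
    intro s e hg R z hR hz
    have hpos : 0 ≤ R ^ 2 / T + R := by positivity
    have h3 : (CB : ℝ) * (R ^ 2 / T + R) + CB * (M ^ 2 * T) ≤
        C * (R ^ 2 / T + R) + C * (M ^ 2 * T) := by
      have : (CB : ℝ) * (R ^ 2 / T + R) ≤ C * (R ^ 2 / T + R) := by rw [hCR]; nlinarith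
      linarith
    exact ⟨(hg R z hR hz).1.trans (Real.exp_le_exp.2 h3),
      (hg R z hR hz).2.trans (Real.exp_le_exp.2 h3)⟩
  refine ⟨s₁, e₁, s₂, e₂, U₁, ν₁ * (n₁ * n₂), Real.exp (C * (M * T)), 5 * (C * (M * T)), ?_, hA,
    rfl, rfl, ?_, ?_, ?_, hU₁, ?_, ?_, hgro gr₁, hgro gr₂, ⟨?_, ?_⟩, ⟨?_, ?_⟩, ?_, ?_, ?_, ?_⟩
  · have : 0 < ν₁ * (n₁ * n₂) := by positivity
    exact this
  · have e : Real.exp (5 * (C * (M * T))) = Real.exp (C * (M * T)) * (Real.exp (C * (M * T)) *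
        Real.exp (C * (M * T))) * Real.exp (2 * (C * (M * T))) := by
      rw [← Real.exp_add, ← Real.exp_add, ← Real.exp_add]
      congr 1
      ring
    have h3 : (n₁ : ℝ) ≤ Real.exp (C * (M * T)) := hn₁V.trans (Real.exp_le_exp.2 hMTC)
    have h4 : (n₂ : ℝ) ≤ Real.exp (C * (M * T)) := hn₂V.trans (Real.exp_le_exp.2 hMTC)
    have h5 : (ν₁ : ℝ) ≤ Real.exp (C * (M * T)) := hν₁V.trans (Real.exp_le_exp.2 hle)
    have h6 : (1 : ℝ) ≤ Real.exp (2 * (C * (M * T))) := Real.one_le_exp (by positivity)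
    rw [e]
    push_cast
    calc (ν₁ : ℝ) * (n₁ * n₂) = ν₁ * (n₁ * n₂) * 1 := by ring
      _ ≤ _ := by gcongr
  · exact a₁.mono (Real.exp_pos _).le (n₁ * n₂) (Real.exp_le_exp.2 hle)
  · have := (xs_ar K).mono zero_le_one (ν₁ * (n₁ * n₂)) hA
    rwa [one_mul] at this
  · rw [← hU₁]
    exact loc₁
  · rw [← hU₂]
    exact loc₂
  · exact (Real.exp_le_exp.2 (by linarith)).trans lo₁
  · exact up₁.trans (Real.exp_le_exp.2 hle2)
  · exact (Real.exp_le_exp.2 (by linarith)).trans lo₂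
  · exact up₂.trans (Real.exp_le_exp.2 hle2)
  · apply intK
    have e : algebraMap K ℂ (((ν₁ * (n₁ * n₂) : ℕ) : K) * (⟨l₁, h₁.mem⟩ : K)) =
        ((ν₁ * n₂ : ℕ) : ℂ) * ((n₁ : ℂ) * l₁) := by
      rw [map_mul, map_natCast]
      change _ * l₁ = _
      push_cast
      ring
    rw [e]
    exact (isIntegral_algebraMap (R := ℤ) (A := ℂ)
      (x := ((ν₁ * n₂ : ℕ) : ℤ))).mul hn₁i |> fun h => by simpa using h
  · apply intK
    have e : algebraMap K ℂ (((ν₁ * (n₁ * n₂) : ℕ) : K) * (⟨l₂, h₂.mem⟩ : K)) =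
        ((ν₁ * n₁ : ℕ) : ℂ) * ((n₂ : ℂ) * l₂) := by
      rw [map_mul, map_natCast]
      change _ * l₂ = _
      push_cast
      ring
    rw [e]
    exact (isIntegral_algebraMap (R := ℤ) (A := ℂ)
      (x := ((ν₁ * n₁ : ℕ) : ℤ))).mul hn₂i |> fun h => by simpa using h
  · intro σ
    exact (h₁.house σ).trans (Real.exp_le_exp.2 hMTC)
  · intro σ
    exact (h₂.house σ).trans (Real.exp_le_exp.2 hMTC)

end Pool.Agent.LGO.U
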