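import Mathlib

/-!
# LGO/U: numerical lemmas for engines 4 and 5

* `num_eps`: with `L = 4 m a²`, `a = m^k`, `m ≤ 2 M ≤ M²`, `O ≤ 2 L + 400 (2 L)² ≤ 1602 L²`, `S ≤ O`, `1 ≤ L`:
  the left side is at most `exp (C₀ L^6)` for an absolute constant `C₀` (`16^(S O) ≤ exp (3 O²) ≤ exp (3 (1602 L²)²)`, the
  other factors are at most `exp (O²)` up to constants), and `L ≤ M^(4 k + 4)` (see `fin_L'` in `LGO/E3/Fin.lean`), `M ≥ 2`.
* `num_two`: `2 S + 1 ≤ exp S`-type inequality: `κ (lo + m2 + Z) < S + 1` etc. contradict `Y ≤ Z`, as `fin_c` in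
  `LGO/E3/Fin.lean` with `5` instead of `4`.
* `num_liou`: final contradiction of engine 5.  From `hS` with `C₂ = 2`: `T (κ x / T)² = κ² x² / T` where `x = lo + M² T`,
  `x² ≥ 2 lo M² T` and `x² ≥ M⁴ T²`, so `κ x² / T` dominates `2 κ M² lo` and `κ M⁴ T ≥ κ M³`; with `κ = 4050 c`, `c ≥ 1`,
  `M ≥ 2`, `M T ≥ 1`, `T ≤ 1`, `V ≤ 5 c M`, `G ≤ c M²`: `S / 4 - 3 lo - 6 V - 7 G - 5 > 2 M (3 lo + 8 V + 4)`.
-/

namespace Pool.Agent.LGO.U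

private theorem Num4_L {M : ℝ} {m k : ℕ} (hM : 2 ≤ M) (hm : (m : ℝ) ≤ 2 * M) :
    4 * (m : ℝ) ^ (2 * k + 1) ≤ M ^ (4 * k + 4) := by
  have h3 : (m : ℝ) ≤ M ^ 2 := by nlinarith
  calc 4 * (m : ℝ) ^ (2 * k + 1) ≤ M ^ 2 * (M ^ 2) ^ (2 * k + 1) := by
        gcongr
        nlinarith
    _ = M ^ (4 * k + 4) := by
        rw [← pow_mul, ← pow_add]
        congr 1
        ring

theorem num_eps (k : ℕ) : ∃ C : ℕ, ∀ (M : ℝ) (m a L O S : ℕ), 2 ≤ M → (m : ℝ) ≤ 2 * M → 1 ≤ m →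
    a = m ^ k → L = 4 * m * a ^ 2 → O ≤ 2 * L + 400 * (L + L) ^ 2 → S ≤ O →
    8 * (S : ℝ) ^ 2 * L * Real.exp 14 * 16 ^ (S * O) ≤ Real.exp (M ^ C) := by
  refine ⟨16 * k + 40, ?_⟩
  intro M m a L O S hM hm hm1 ha hL hO hS
  have hL1 : 1 ≤ L := by
    rw [hL, ha]
    have : 0 < 4 * m * (m ^ k) ^ 2 := by positivity
    exact this
  have hLr : (1 : ℝ) ≤ L := by exact_mod_cast hL1
  have hLM : (L : ℝ) ≤ M ^ (4 * k + 4) := by
    have h := Num4_L (k := k) hM hm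
    have e : (L : ℝ) = 4 * (m : ℝ) ^ (2 * k + 1) := by
      rw [hL, ha]
      push_cast
      ring
    rw [e]
    exact h
  have hOr : (O : ℝ) ≤ 2 * L + 400 * ((L : ℝ) + L) ^ 2 := by exact_mod_cast hO
  have hSr : (S : ℝ) ≤ O := by exact_mod_cast hS
  have hO0 : (0 : ℝ) ≤ O := Nat.cast_nonneg _
  have hS0 : (0 : ℝ) ≤ S := Nat.cast_nonneg _
  have hO2 : (O : ℝ) ≤ 1602 * (L : ℝ) ^ 2 := by nlinarith
  have e1 : (1 : ℝ) + 1 ≤ Real.exp 1 := Real.add_one_le_exp 1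
  have e3 : (8 : ℝ) ≤ Real.exp 3 := by
    have : Real.exp 3 = Real.exp 1 ^ 3 := by
      rw [← Real.exp_nat_mul]; norm_num
    rw [this]
    calc (8 : ℝ) = (1 + 1) ^ 3 := by norm_num
      _ ≤ Real.exp 1 ^ 3 := by gcongr
  have e4 : (16 : ℝ) ≤ Real.exp 4 := by
    have : Real.exp 4 = Real.exp 1 ^ 4 := by
      rw [← Real.exp_nat_mul]; norm_num
    rw [this]
    calc (16 : ℝ) = (1 + 1) ^ 4 := by norm_num
      _ ≤ Real.exp 1 ^ 4 := by gcongr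
  have eS : (S : ℝ) ≤ Real.exp S := by
    have := Real.add_one_le_exp (S : ℝ)
    linarith
  have eL : (L : ℝ) ≤ Real.exp L := by
    have := Real.add_one_le_exp (L : ℝ)
    linarith
  have e16 : (16 : ℝ) ^ (S * O) ≤ Real.exp (4 * ((S : ℝ) * O)) := by
    calc (16 : ℝ) ^ (S * O) ≤ Real.exp 4 ^ (S * O) := by gcongr
      _ = Real.exp (4 * ((S : ℝ) * O)) := by
        rw [← Real.exp_nat_mul]
        congr 1
        push_cast
        ring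
  have hX : 3 + 2 * (S : ℝ) + L + 14 + 4 * ((S : ℝ) * O) ≤ M ^ (16 * k + 40) := by
    have hSO : (S : ℝ) * O ≤ (1602 * (L : ℝ) ^ 2) ^ 2 := by
      have : (S : ℝ) * O ≤ O * O := by gcongr
      nlinarith
    have hL2 : (1 : ℝ) ≤ (L : ℝ) ^ 2 := one_le_pow₀ hLr
    have hL4 : (L : ℝ) ^ 2 ≤ (L : ℝ) ^ 4 := pow_le_pow_right₀ hLr (by norm_num)
    have hL1' : (L : ℝ) ≤ (L : ℝ) ^ 4 := by
      calc (L : ℝ) = (L : ℝ) ^ 1 := (pow_one _).symm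
        _ ≤ (L : ℝ) ^ 4 := pow_le_pow_right₀ hLr (by norm_num)
    have h1 : 3 + 2 * (S : ℝ) + L + 14 + 4 * ((S : ℝ) * O) ≤ 2 ^ 24 * (L : ℝ) ^ 4 := by
      nlinarith
    have h2 : (L : ℝ) ^ 4 ≤ M ^ (16 * k + 16) := by
      calc (L : ℝ) ^ 4 ≤ (M ^ (4 * k + 4)) ^ 4 := by gcongr
        _ = M ^ (16 * k + 16) := by
          rw [← pow_mul]
          congr 1
          ring
    have h3 : (2 : ℝ) ^ 24 ≤ M ^ 24 := by gcongr
    have hM0 : (0 : ℝ) ≤ M := by linarith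
    calc 3 + 2 * (S : ℝ) + L + 14 + 4 * ((S : ℝ) * O) ≤ 2 ^ 24 * (L : ℝ) ^ 4 := h1
      _ ≤ M ^ 24 * M ^ (16 * k + 16) := by gcongr
      _ = M ^ (16 * k + 40) := by
        rw [← pow_add]
        congr 1
        ring
  calc 8 * (S : ℝ) ^ 2 * L * Real.exp 14 * 16 ^ (S * O)
      ≤ Real.exp 3 * Real.exp S ^ 2 * Real.exp L * Real.exp 14 *
          Real.exp (4 * ((S : ℝ) * O)) := by gcongr
    _ = Real.exp (3 + 2 * (S : ℝ) + L + 14 + 4 * ((S : ℝ) * O)) := by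
        rw [Real.exp_add, Real.exp_add, Real.exp_add, Real.exp_add, ← Real.exp_nat_mul]
        norm_num
    _ ≤ Real.exp (M ^ (16 * k + 40)) := Real.exp_le_exp.2 hX

theorem num_two {c κ lo m2 Z S V G Y : ℝ} (hc : 1 ≤ c) (hκ : κ = 4050 * c) (hlo : 0 ≤ lo)
    (hm : 1 ≤ m2) (hZ : 0 ≤ Z) (hV : 2 * V ≤ 5 * (c * m2)) (hG : G = c * m2)
    (hY : Y = S / 4 - 3 * lo - 6 * V - 7 * G - 5) (h1 : Y ≤ Z)
    (h2 : κ * (lo + m2 + Z) < S + 1) : False := by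
  have h3 : 4050 * lo ≤ κ * lo := by rw [hκ]; nlinarith
  have h4 : 4050 * Z ≤ κ * Z := by rw [hκ]; nlinarith
  have h5 : κ * m2 = 4050 * (c * m2) := by rw [hκ]; ring
  have h6 : 1 ≤ c * m2 := one_le_mul_of_one_le_of_one_le hc hm
  have h7 : κ * (lo + m2 + Z) = κ * lo + κ * m2 + κ * Z := by ring
  rw [h7] at h2
  linarith

theorem num_liou {c κ lo M T S V G : ℝ} (hc : 1 ≤ c) (hκ : κ = 4050 * c) (hlo : 0 ≤ lo)
    (hM : 2 ≤ M) (hT : 0 < T) (hT1 : T ≤ 1) (hMT : 1 ≤ M * T) (hV0 : 0 ≤ V) (hV : V ≤ 5 * (c * M))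
    (hG : G ≤ c * M ^ 2)
    (h2 : κ * (lo + M ^ 2 * T + T * (κ * ((lo + M ^ 2 * T) / T)) ^ 2) < S + 1) :
    2 * M * (3 * lo + 8 * V + 4) < S / 4 - 3 * lo - 6 * V - 7 * G - 5 := by
  have hκ1 : 4050 ≤ κ := by rw [hκ]; linarith
  have hM0 : 0 < M := by linarith
  have hM2 : 2 * M ≤ M ^ 2 := by nlinarith
  -- the quadratic term
  have hq : 2 * lo * M ^ 2 + M ^ 2 * M ≤ (lo + M ^ 2 * T) ^ 2 / T := by
    rw [le_div_iff₀ hT]
    have h1 : M ^ 2 * M * T ≤ (M ^ 2 * T) ^ 2 := by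
      have : (M ^ 2 * T) ^ 2 = M ^ 2 * M * T * (M * T) := by ring
      rw [this]
      have h0 : 0 ≤ M ^ 2 * M * T := by positivity
      nlinarith
    nlinarith [sq_nonneg lo]
  have he : T * (κ * ((lo + M ^ 2 * T) / T)) ^ 2 = κ ^ 2 * ((lo + M ^ 2 * T) ^ 2 / T) := by
    field_simp
  rw [he] at h2
  have hc2 : 1 ≤ c ^ 2 := one_le_pow₀ hc
  have hpos : 0 ≤ 2 * lo * M ^ 2 + M ^ 2 * M := by positivity
  have hk3 : 4050 * c * (2 * lo * M ^ 2 + M ^ 2 * M) ≤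
      κ * (κ ^ 2 * ((lo + M ^ 2 * T) ^ 2 / T)) := by
    have a1 : 1 ≤ κ ^ 2 := one_le_pow₀ (by linarith)
    have a2 : (2 * lo * M ^ 2 + M ^ 2 * M) ≤ κ ^ 2 * ((lo + M ^ 2 * T) ^ 2 / T) := by
      have : 0 ≤ (lo + M ^ 2 * T) ^ 2 / T := by positivity
      nlinarith
    rw [← hκ]
    exact mul_le_mul_of_nonneg_left a2 (by linarith)
  have h4 : 0 ≤ κ * (lo + M ^ 2 * T) := by
    have : 0 ≤ lo + M ^ 2 * T := by positivity
    nlinarith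
  have h5 : 4050 * c * (2 * lo * M ^ 2 + M ^ 2 * M) < S + 1 := by nlinarith
  have hcM : M ^ 2 ≤ c * M ^ 2 := by nlinarith [sq_nonneg M]
  have hM3 : 2 * M ^ 2 ≤ M ^ 2 * M := by nlinarith [sq_nonneg M]
  have h6 : 2 * (c * M ^ 2) ≤ c * (M ^ 2 * M) := by nlinarith
  have h7 : lo * M ≤ lo * M ^ 2 := by
    apply mul_le_mul_of_nonneg_left _ hlo; nlinarith
  have h7b : lo ≤ lo * M ^ 2 := by nlinarith
  have h7c : lo * M ^ 2 ≤ c * (lo * M ^ 2) := by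
    have : 0 ≤ lo * M ^ 2 := by positivity
    nlinarith
  have h8 : M * V ≤ 5 * (c * M ^ 2) := by
    calc M * V ≤ M * (5 * (c * M)) := mul_le_mul_of_nonneg_left hV hM0.le
      _ = 5 * (c * M ^ 2) := by ring
  have h9 : V ≤ 5 * (c * M ^ 2) := by
    have : V ≤ M * V := by nlinarith
    linarith
  have h10 : M ≤ c * M ^ 2 := by nlinarith
  have h11 : 1 ≤ c * M ^ 2 := by nlinarith
  have e1 : 4050 * c * (2 * lo * M ^ 2 + M ^ 2 * M) = 8100 * (c * (lo * M ^ 2)) +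
      4050 * (c * (M ^ 2 * M)) := by ring
  rw [e1] at h5
  have e2 : 2 * M * (3 * lo + 8 * V + 4) = 6 * (lo * M) + 16 * (M * V) + 8 * M := by ring
  rw [e2]
  nlinarith

end Pool.Agent.LGO.U
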