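import Mathlib
import Pool.Agent.LGO.U.Xs
import Pool.Agent.LGO.E3.Ser

/-!
# LGO/U: the auxiliary function with an exponential as third function

`Fn` of `LGO/E3/Defs.lean` with `s₃(z) = exp (w₃ z) - 1`, `e₃ = 1`, `U₃ = xs`; `w₃ = l₁ w₁ + l₂ w₂` exactly, and `w₃` is close
to `2 π i`, so `Fn` is only ALMOST periodic.

* `tay_Fn4`, `analytic_Fn4`: verbatim the proofs of `tay_Fn` and of the first part of `analytic_Fn` in
  `LGO/E3/Ser.lean`: they use only the fields `ds de e0 ser` of `Loc` (copy the private lemmas `ser_scale`,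
  `ser_an`, `ser_fac`, `ser_dir`, `ser_frm`).
* `shift_Fn4`: `s₁, e₁, s₂, e₂` are periodic (`Loc.ps`, `Loc.pe`, integers by induction), so
  `Fn(z + m, v) - Fn(z, v) = ∑ p a b c (s₁^a e₁^(L-1-a))(z) (s₂^b e₂^(L-1-b))(z+v) (X^c - Y^c)`, `X = s₃(z + m + κ v)`,
  `Y = s₃(z + κ v)`.  `‖z + κ v‖ ≤ 2`, so `‖X - Y‖ ≤ 2 (S ‖δ‖) exp 14` (`xs_shift`), and `‖X‖, ‖Y‖ ≤ exp (c (81 S²/t' + 9 S) + G)`
  (`xs_gro` with `R = 9 S`), `‖X^c - Y^c‖ ≤ c max(‖X‖, ‖Y‖)^(c-1) ‖X - Y‖`, `c < L'`.  The first two factors are bounded as in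
  `LGO/E3/Bnd.lean`.
-/

namespace Pool.Agent.LGO.U

open Polynomial Pool.Agent.Schn Pool.Agent.LGO.E3

private theorem Ser4_scale {f : ℂ → ℂ} (hf : Differentiable ℂ f) (α : ℂ) :
    tay (fun t => f (α * t)) = PowerSeries.rescale α (tay f) := by
  ext n
  rw [PowerSeries.coeff_rescale, tay, tay, PowerSeries.coeff_mk, PowerSeries.coeff_mk,
    iteratedDeriv_comp_const_mul hf.contDiff α]
  simp only [mul_zero]
  ring

private theorem Ser4_an {f : ℂ → ℂ} (hf : Differentiable ℂ f) (α : ℂ) (z : ℂ) :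
    AnalyticAt ℂ (fun t => f (α * t)) z :=
  (hf.comp (differentiable_id.const_mul α)).analyticAt z

private theorem Ser4_fac {w : ℂ} {U : PowerSeries ℂ} {s e : ℂ → ℂ} (h : LocW w U s e) (α : ℂ)
    {n L : ℕ} (hn : n < L) :
    tay (fun t => s (α * t) ^ n * e (α * t) ^ (L - 1 - n)) =
      PowerSeries.rescale α (tay e) ^ (L - 1) * PowerSeries.rescale (α * w) U ^ n := by
  have hp1 : AnalyticAt ℂ (fun t => s (α * t) ^ n) 0 := (Ser4_an h.ds α 0).pow n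
  have hp2 : AnalyticAt ℂ (fun t => e (α * t) ^ (L - 1 - n)) 0 := (Ser4_an h.de α 0).pow (L - 1 - n)
  rw [tay_mul hp1 hp2,
    tay_pow (Ser4_an h.ds α 0), tay_pow (Ser4_an h.de α 0), Ser4_scale h.ds, Ser4_scale h.de, h.ser,
    map_mul, PowerSeries.rescale_rescale, mul_comm w α]
  have h1 : L - 1 = n + (L - 1 - n) := by omega
  conv_rhs => rw [h1, pow_add]
  rw [mul_pow]
  ring

private theorem Ser4_dir (U₁ U₂ U₃ : PowerSeries ℂ) (l₁ l₂ x : ℂ) (a b c : ℕ) :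
    PowerSeries.map (evalRingHom x) (dirS U₁ U₂ U₃ l₁ l₂ a b c) =
      U₁ ^ a * PowerSeries.rescale x U₂ ^ b * PowerSeries.rescale (l₁ + l₂ * x) U₃ ^ c := by
  have hC : ∀ U : PowerSeries ℂ,
      PowerSeries.map (evalRingHom x) (PowerSeries.map (C : ℂ →+* ℂ[X]) U) = U := by
    intro U
    ext n
    simp
  have hR : ∀ (r : ℂ[X]) (U : PowerSeries ℂ),
      PowerSeries.map (evalRingHom x) (PowerSeries.rescale r (PowerSeries.map (C : ℂ →+* ℂ[X]) U)) =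
        PowerSeries.rescale (r.eval x) U := by
    intro r U
    ext n
    simp [PowerSeries.coeff_rescale]
  rw [dirS, map_mul, map_mul, map_pow, map_pow, map_pow, hC, hR, hR]
  simp

private theorem Ser4_frm (U₁ U₂ U₃ : PowerSeries ℂ) (l₁ l₂ x : ℂ) (L L' : ℕ)
    (p : ℕ → ℕ → ℕ → ℤ) :
    (PowerSeries.mk fun k => (frm U₁ U₂ U₃ l₁ l₂ L L' p k).eval x) =
      ∑ a ∈ Finset.range L, ∑ b ∈ Finset.range L, ∑ c ∈ Finset.range L',
        PowerSeries.C (p a b c : ℂ) *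
          (U₁ ^ a * PowerSeries.rescale x U₂ ^ b * PowerSeries.rescale (l₁ + l₂ * x) U₃ ^ c) := by
  ext k
  rw [PowerSeries.coeff_mk, frm, map_sum, eval_finsetSum]
  refine Finset.sum_congr rfl fun a _ => ?_
  rw [map_sum, eval_finsetSum]
  refine Finset.sum_congr rfl fun b _ => ?_
  rw [map_sum, eval_finsetSum]
  refine Finset.sum_congr rfl fun c _ => ?_
  rw [PowerSeries.coeff_C_mul, ← Ser4_dir, PowerSeries.coeff_map, eval_mul, coe_evalRingHom,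
    eval_intCast]

theorem tay_Fn4 {w₁ w₂ w₃ l₁ l₂ : ℂ} {U₁ U₂ U₃ : PowerSeries ℂ} {s₁ e₁ s₂ e₂ s₃ e₃ : ℂ → ℂ}
    (h₁ : LocW w₁ U₁ s₁ e₁) (h₂ : LocW w₂ U₂ s₂ e₂) (h₃ : LocW w₃ U₃ s₃ e₃) (hw₁ : w₁ ≠ 0)
    (hw₃ : w₃ ≠ 0) (hl : l₁ * w₁ + l₂ * w₂ = w₃) (L L' : ℕ) (p : ℕ → ℕ → ℕ → ℤ) (η : ℂ) :
    ∃ V : PowerSeries ℂ, PowerSeries.constantCoeff V = 1 ∧
      tay (fun t => Fn s₁ e₁ s₂ e₂ s₃ e₃ (l₂ * w₂ / w₃) L L' p (t, η * t)) =
        V * PowerSeries.rescale w₁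
          (PowerSeries.mk fun k => (frm U₁ U₂ U₃ l₁ l₂ L L' p k).eval (w₂ * (1 + η) / w₁)) := by
  set κ : ℂ := l₂ * w₂ / w₃ with hκ
  set x : ℂ := w₂ * (1 + η) / w₁ with hx
  have hx1 : x * w₁ = (1 + η) * w₂ := by rw [hx]; field_simp
  have hx2 : (l₁ + l₂ * x) * w₁ = (1 + κ * η) * w₃ := by
    have e1 : κ * w₃ = l₂ * w₂ := by rw [hκ]; field_simp
    calc (l₁ + l₂ * x) * w₁ = l₁ * w₁ + l₂ * (x * w₁) := by ring
      _ = (l₁ * w₁ + l₂ * w₂) + η * (l₂ * w₂) := by rw [hx1]; ring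
      _ = (1 + κ * η) * w₃ := by rw [hl, ← e1]; ring
  have hc0 : ∀ {e : ℂ → ℂ} (α : ℂ), e 0 = 1 →
      PowerSeries.constantCoeff (PowerSeries.rescale α (tay e)) = 1 := by
    intro e α he
    rw [← PowerSeries.coeff_zero_eq_constantCoeff_apply, PowerSeries.coeff_rescale, tay,
      PowerSeries.coeff_mk]
    simp [he]
  refine ⟨PowerSeries.rescale 1 (tay e₁) ^ (L - 1) * PowerSeries.rescale (1 + η) (tay e₂) ^ (L - 1) *
    PowerSeries.rescale (1 + κ * η) (tay e₃) ^ (L' - 1), ?_, ?_⟩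
  · rw [map_mul, map_mul, map_pow, map_pow, map_pow, hc0 _ h₁.e0, hc0 _ h₂.e0, hc0 _ h₃.e0]
    simp
  · have hA : ∀ {w : ℂ} {U : PowerSeries ℂ} {s e : ℂ → ℂ}, LocW w U s e → ∀ (α : ℂ) (m n : ℕ),
        AnalyticAt ℂ (fun t => s (α * t) ^ m * e (α * t) ^ n) 0 := fun h α m n =>
      ((Ser4_an h.ds α 0).pow m).mul ((Ser4_an h.de α 0).pow n)
    have hT : ∀ a b c : ℕ, AnalyticAt ℂ (fun t => (p a b c : ℂ) *
        (s₁ (1 * t) ^ a * e₁ (1 * t) ^ (L - 1 - a)) *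
        (s₂ ((1 + η) * t) ^ b * e₂ ((1 + η) * t) ^ (L - 1 - b)) *
        (s₃ ((1 + κ * η) * t) ^ c * e₃ ((1 + κ * η) * t) ^ (L' - 1 - c))) 0 := fun a b c =>
      ((analyticAt_const.mul (hA h₁ 1 _ _)).mul (hA h₂ _ _ _)).mul (hA h₃ _ _ _)
    have hF : (fun t => Fn s₁ e₁ s₂ e₂ s₃ e₃ κ L L' p (t, η * t)) = fun t =>
        ∑ a ∈ Finset.range L, ∑ b ∈ Finset.range L, ∑ c ∈ Finset.range L',
          ((p a b c : ℂ) * (s₁ (1 * t) ^ a * e₁ (1 * t) ^ (L - 1 - a)) *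
          (s₂ ((1 + η) * t) ^ b * e₂ ((1 + η) * t) ^ (L - 1 - b)) *
          (s₃ ((1 + κ * η) * t) ^ c * e₃ ((1 + κ * η) * t) ^ (L' - 1 - c))) := by
      funext t
      have e2 : t + η * t = (1 + η) * t := by ring
      have e3 : t + κ * (η * t) = (1 + κ * η) * t := by ring
      simp only [E3.Fn, e2, e3, one_mul]
    rw [hF, Ser4_frm, map_sum, Finset.mul_sum,
      tay_sum _ _ fun a _ => Finset.analyticAt_fun_sum _ fun b _ =>
        Finset.analyticAt_fun_sum _ fun c _ => hT a b c]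
    refine Finset.sum_congr rfl fun a ha => ?_
    rw [map_sum, Finset.mul_sum, tay_sum _ _ fun b _ =>
        Finset.analyticAt_fun_sum _ fun c _ => hT a b c]
    refine Finset.sum_congr rfl fun b hb => ?_
    rw [map_sum, Finset.mul_sum, tay_sum _ _ fun c _ => hT a b c]
    refine Finset.sum_congr rfl fun c hc => ?_
    have q1 := hA h₁ 1 a (L - 1 - a)
    have q2 := hA h₂ (1 + η) b (L - 1 - b)
    have q3 := hA h₃ (1 + κ * η) c (L' - 1 - c)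
    have q0 : AnalyticAt ℂ (fun _ : ℂ => (p a b c : ℂ)) 0 := analyticAt_const
    have q01 : AnalyticAt ℂ (fun t => (p a b c : ℂ) *
        (s₁ (1 * t) ^ a * e₁ (1 * t) ^ (L - 1 - a))) 0 := q0.mul q1
    have q012 : AnalyticAt ℂ (fun t => (p a b c : ℂ) *
        (s₁ (1 * t) ^ a * e₁ (1 * t) ^ (L - 1 - a)) *
        (s₂ ((1 + η) * t) ^ b * e₂ ((1 + η) * t) ^ (L - 1 - b))) 0 := q01.mul q2
    rw [tay_mul q012 q3, tay_mul q01 q2, tay_mul q0 q1, tay_const,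
      Ser4_fac h₁ 1 (Finset.mem_range.mp ha), Ser4_fac h₂ _ (Finset.mem_range.mp hb),
      Ser4_fac h₃ _ (Finset.mem_range.mp hc), map_mul, map_mul, map_mul, map_pow, map_pow, map_pow,
      PowerSeries.rescale_rescale, PowerSeries.rescale_rescale, hx1, hx2, one_mul]
    have hCr : PowerSeries.rescale w₁ (PowerSeries.C (p a b c : ℂ)) = PowerSeries.C (p a b c : ℂ) := by
      ext n
      rw [PowerSeries.coeff_rescale, PowerSeries.coeff_C]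
      by_cases hn : n = 0
      · simp [hn]
      · simp [hn]
    rw [hCr]
    ring

theorem analytic_Fn4 {w₁ w₂ w₃ : ℂ} {U₁ U₂ U₃ : PowerSeries ℂ} {s₁ e₁ s₂ e₂ s₃ e₃ : ℂ → ℂ}
    (h₁ : LocW w₁ U₁ s₁ e₁) (h₂ : LocW w₂ U₂ s₂ e₂) (h₃ : LocW w₃ U₃ s₃ e₃) (κ : ℂ)
    (L L' : ℕ) (p : ℕ → ℕ → ℕ → ℤ) (x : ℂ × ℂ) :
    AnalyticAt ℂ (Fn s₁ e₁ s₂ e₂ s₃ e₃ κ L L' p) x := by
  have hg : ∀ {f : ℂ → ℂ} {g : ℂ × ℂ → ℂ}, Differentiable ℂ f → AnalyticAt ℂ g x →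
      AnalyticAt ℂ (fun y => f (g y)) x := fun {f g} hf hg =>
    (hf.analyticAt (g x)).comp hg
  have e1 : AnalyticAt ℂ (fun y : ℂ × ℂ => y.1) x := analyticAt_fst
  have e2 : AnalyticAt ℂ (fun y : ℂ × ℂ => y.1 + y.2) x := analyticAt_fst.add analyticAt_snd
  have e3 : AnalyticAt ℂ (fun y : ℂ × ℂ => y.1 + κ * y.2) x :=
    analyticAt_fst.add (analyticAt_const.mul analyticAt_snd)
  have hF : Fn s₁ e₁ s₂ e₂ s₃ e₃ κ L L' p = fun y : ℂ × ℂ =>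
      ∑ a ∈ Finset.range L, ∑ b ∈ Finset.range L, ∑ c ∈ Finset.range L',
        (p a b c : ℂ) * (s₁ y.1 ^ a * e₁ y.1 ^ (L - 1 - a)) *
          (s₂ (y.1 + y.2) ^ b * e₂ (y.1 + y.2) ^ (L - 1 - b)) *
          (s₃ (y.1 + κ * y.2) ^ c * e₃ (y.1 + κ * y.2) ^ (L' - 1 - c)) := rfl
  rw [hF]
  refine Finset.analyticAt_fun_sum _ fun a _ => Finset.analyticAt_fun_sum _ fun b _ =>
    Finset.analyticAt_fun_sum _ fun c _ => ?_
  exact ((analyticAt_const.mul (((hg h₁.ds e1).pow a).mul ((hg h₁.de e1).pow (L - 1 - a)))).mul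
    (((hg h₂.ds e2).pow b).mul ((hg h₂.de e2).pow (L - 1 - b)))).mul
    (((hg h₃.ds e3).pow c).mul ((hg h₃.de e3).pow (L' - 1 - c)))

private lemma Ser4_pw {x y : ℂ} {X : ℝ} (hX : 0 ≤ X) (hx : ‖x‖ ≤ Real.exp X)
    (hy : ‖y‖ ≤ Real.exp X) {a L : ℕ} (ha : a < L) :
    ‖x ^ a * y ^ (L - 1 - a)‖ ≤ Real.exp (L * X) := by
  rw [norm_mul, norm_pow, norm_pow]
  calc ‖x‖ ^ a * ‖y‖ ^ (L - 1 - a) ≤ Real.exp X ^ a * Real.exp X ^ (L - 1 - a) := by gcongr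
    _ = Real.exp X ^ (L - 1) := by rw [← pow_add]; congr 1; omega
    _ = Real.exp (((L - 1 : ℕ) : ℝ) * X) := by rw [Real.exp_nat_mul]
    _ ≤ Real.exp (L * X) := by
      apply Real.exp_le_exp.2
      apply mul_le_mul_of_nonneg_right _ hX
      exact_mod_cast Nat.sub_le L 1

private lemma Ser4_gro {s e : ℂ → ℂ} {c G t : ℝ} (h : Gro c G t s e) {S : ℕ} (hS : 1 ≤ S) {z : ℂ}
    (hz : ‖z‖ ≤ 9 * S) : ‖s z‖ ≤ Real.exp (c * (81 * S ^ 2 / t + 9 * S) + G) ∧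
      ‖e z‖ ≤ Real.exp (c * (81 * S ^ 2 / t + 9 * S) + G) := by
  have hS' : (1 : ℝ) ≤ S := by exact_mod_cast hS
  have h1 := h (9 * S) z (by linarith) hz
  have h2 : (9 * (S : ℝ)) ^ 2 = 81 * S ^ 2 := by ring
  rwa [h2] at h1

private lemma Ser4_per {f : ℂ → ℂ} (h : ∀ z, f (z + 1) = f z) (m : ℤ) (z : ℂ) :
    f (z + m) = f z := by
  have hp : Function.Periodic f 1 := h
  have h1 := hp.int_mul m z
  simpa using h1

private lemma Ser4_sub {x y : ℂ} {X : ℝ} (hX : 0 ≤ X) (hx : ‖x‖ ≤ Real.exp X)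
    (hy : ‖y‖ ≤ Real.exp X) {c L : ℕ} (hc : c < L) :
    ‖x ^ c - y ^ c‖ ≤ L * Real.exp (L * X) * ‖x - y‖ := by
  rw [← geom_sum₂_mul, norm_mul]
  refine mul_le_mul_of_nonneg_right ?_ (norm_nonneg _)
  have h1 : ∀ i ∈ Finset.range c, ‖x ^ i * y ^ (c - 1 - i)‖ ≤ Real.exp (L * X) := fun i hi => by
    refine (Ser4_pw hX hx hy (Finset.mem_range.1 hi)).trans ?_
    refine Real.exp_le_exp.2 (mul_le_mul_of_nonneg_right ?_ hX)
    exact_mod_cast hc.le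
  refine (norm_sum_le_of_le _ h1).trans ?_
  rw [Finset.sum_const, Finset.card_range, nsmul_eq_mul]
  refine mul_le_mul_of_nonneg_right ?_ (Real.exp_pos _).le
  exact_mod_cast hc.le

theorem shift_Fn4 {w₁ w₂ w₃ : ℂ} {U₁ U₂ : PowerSeries ℂ} {s₁ e₁ s₂ e₂ : ℂ → ℂ}
    (h₁ : Loc w₁ U₁ s₁ e₁) (h₂ : Loc w₂ U₂ s₂ e₂) {c G t t' P : ℝ} (hc : 8 ≤ c) (hG : 0 ≤ G)
    (ht : 0 < t) (ht' : 0 < t') (g₁ : Gro c G t s₁ e₁) (g₂ : Gro c G t s₂ e₂) (hw₃ : ‖w₃‖ ≤ 7)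
    (κ : ℂ) (L L' : ℕ) (p : ℕ → ℕ → ℕ → ℤ) (hp : ∀ i j k, |(p i j k : ℝ)| ≤ P) (S : ℕ)
    (hS : 1 ≤ S) (hδ : S * ‖w₃ - 2 * Real.pi * Complex.I‖ ≤ 1) (m : ℤ) (hm : |m| ≤ S) (z v : ℂ)
    (hz : ‖z‖ ≤ 1) (hv : ‖v‖ ≤ 1 / (1 + ‖κ‖)) :
    ‖Fn s₁ e₁ s₂ e₂ (fun z => Complex.exp (w₃ * z) - 1) (fun _ => 1) κ L L' p (z + m, v) -
        Fn s₁ e₁ s₂ e₂ (fun z => Complex.exp (w₃ * z) - 1) (fun _ => 1) κ L L' p (z, v)‖ ≤
      L ^ 2 * L' * P * Real.exp (2 * L * (c * (81 * S ^ 2 / t + 9 * S) + G)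
        + L' * (c * (81 * S ^ 2 / t' + 9 * S) + G)) *
        (L' * (2 * (S * ‖w₃ - 2 * Real.pi * Complex.I‖)) * Real.exp 14) := by
  have hS' : (1 : ℝ) ≤ S := by exact_mod_cast hS
  have hP : 0 ≤ P := (abs_nonneg _).trans (hp 0 0 0)
  have hκ : 0 ≤ ‖κ‖ := norm_nonneg κ
  have hv1 : ‖v‖ ≤ 1 := hv.trans (by rw [div_le_one (by linarith)]; linarith)
  have hκv : ‖κ * v‖ ≤ 1 := by
    rw [norm_mul]
    calc ‖κ‖ * ‖v‖ ≤ ‖κ‖ * (1 / (1 + ‖κ‖)) := mul_le_mul_of_nonneg_left hv hκ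
      _ ≤ 1 := by rw [mul_one_div, div_le_one (by linarith)]; linarith
  have hmR : |(m : ℝ)| ≤ S := by exact_mod_cast hm
  have hz1 : ‖z‖ ≤ 9 * S := by linarith
  have hz2 : ‖z + v‖ ≤ 9 * S := (norm_add_le _ _).trans (by linarith)
  have hz' : ‖z + κ * v‖ ≤ 2 := (norm_add_le _ _).trans (by linarith)
  have hz3 : ‖z + κ * v‖ ≤ 9 * S := by linarith
  have hz4 : ‖z + κ * v + m‖ ≤ 9 * S := by
    refine (norm_add_le _ _).trans ?_
    rw [Complex.norm_intCast]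
    linarith
  have hc0 : 0 ≤ c := by linarith
  have hX : 0 ≤ c * (81 * (S : ℝ) ^ 2 / t + 9 * S) + G := by positivity
  have hX' : 0 ≤ c * (81 * (S : ℝ) ^ 2 / t' + 9 * S) + G := by positivity
  have q1 := Ser4_gro g₁ hS hz1
  have q2 := Ser4_gro g₂ hS hz2
  have g₃ := xs_gro hw₃ hc hG ht'
  have q3 := (Ser4_gro g₃ hS hz3).1
  have q4 := (Ser4_gro g₃ hS hz4).1
  have hδ0 : 0 ≤ ‖w₃ - 2 * Real.pi * Complex.I‖ := norm_nonneg _
  have hsh := xs_shift (w := w₃) m ((mul_le_mul_of_nonneg_right hmR hδ0).trans hδ) (z + κ * v)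
  have hsh2 : ‖(Complex.exp (w₃ * (z + κ * v + m)) - 1) - (Complex.exp (w₃ * (z + κ * v)) - 1)‖ ≤
      2 * (S * ‖w₃ - 2 * Real.pi * Complex.I‖) * Real.exp 14 := by
    refine hsh.trans ?_
    have k1 : |(m : ℝ)| * ‖w₃ - 2 * Real.pi * Complex.I‖ ≤
        S * ‖w₃ - 2 * Real.pi * Complex.I‖ := mul_le_mul_of_nonneg_right hmR hδ0
    have k2 : ‖w₃‖ * ‖z + κ * v‖ ≤ 14 := by
      calc ‖w₃‖ * ‖z + κ * v‖ ≤ 7 * 2 := by gcongr
        _ = 14 := by norm_num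
    have k3 := Real.exp_le_exp.2 k2
    have k4 : 0 ≤ S * ‖w₃ - 2 * Real.pi * Complex.I‖ := by positivity
    exact mul_le_mul (by linarith) k3 (Real.exp_pos _).le (by positivity)
  set X : ℝ := c * (81 * (S : ℝ) ^ 2 / t + 9 * S) + G with hXdef
  set X' : ℝ := c * (81 * (S : ℝ) ^ 2 / t' + 9 * S) + G with hXdef'
  set D : ℝ := 2 * (S * ‖w₃ - 2 * Real.pi * Complex.I‖) * Real.exp 14 with hD
  have hD0 : 0 ≤ D := by positivity
  have hterm : ∀ i ∈ Finset.range L, ∀ j ∈ Finset.range L, ∀ k ∈ Finset.range L',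
      ‖(p i j k : ℂ) * (s₁ z ^ i * e₁ z ^ (L - 1 - i)) *
        (s₂ (z + v) ^ j * e₂ (z + v) ^ (L - 1 - j)) *
        ((Complex.exp (w₃ * (z + κ * v + m)) - 1) ^ k -
          (Complex.exp (w₃ * (z + κ * v)) - 1) ^ k)‖ ≤
      P * Real.exp (2 * L * X + L' * X') * (L' * D) := by
    intro i hi j hj k hk
    rw [Finset.mem_range] at hi hj hk
    rw [norm_mul, norm_mul, norm_mul]
    have e0 : ‖(p i j k : ℂ)‖ ≤ P := by
      rw [Complex.norm_intCast]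
      exact hp i j k
    have e1 := Ser4_pw hX q1.1 q1.2 hi
    have e2 := Ser4_pw hX q2.1 q2.2 hj
    have e3 : ‖(Complex.exp (w₃ * (z + κ * v + m)) - 1) ^ k -
        (Complex.exp (w₃ * (z + κ * v)) - 1) ^ k‖ ≤ L' * Real.exp (L' * X') * D :=
      (Ser4_sub hX' q4 q3 hk).trans (mul_le_mul_of_nonneg_left hsh2 (by positivity))
    calc ‖(p i j k : ℂ)‖ * ‖s₁ z ^ i * e₁ z ^ (L - 1 - i)‖ *
          ‖s₂ (z + v) ^ j * e₂ (z + v) ^ (L - 1 - j)‖ *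
          ‖(Complex.exp (w₃ * (z + κ * v + m)) - 1) ^ k -
            (Complex.exp (w₃ * (z + κ * v)) - 1) ^ k‖
        ≤ P * Real.exp (L * X) * Real.exp (L * X) * (L' * Real.exp (L' * X') * D) := by
          gcongr
      _ = P * (Real.exp (L * X) * Real.exp (L * X) * Real.exp (L' * X')) * (L' * D) := by ring
      _ = P * Real.exp (2 * L * X + L' * X') * (L' * D) := by
          rw [← Real.exp_add, ← Real.exp_add]
          congr 3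
          ring
  have hdiff : Fn s₁ e₁ s₂ e₂ (fun z => Complex.exp (w₃ * z) - 1) (fun _ => 1) κ L L' p
        (z + m, v) -
      Fn s₁ e₁ s₂ e₂ (fun z => Complex.exp (w₃ * z) - 1) (fun _ => 1) κ L L' p (z, v) =
      ∑ i ∈ Finset.range L, ∑ j ∈ Finset.range L, ∑ k ∈ Finset.range L',
        (p i j k : ℂ) * (s₁ z ^ i * e₁ z ^ (L - 1 - i)) *
        (s₂ (z + v) ^ j * e₂ (z + v) ^ (L - 1 - j)) *
        ((Complex.exp (w₃ * (z + κ * v + m)) - 1) ^ k -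
          (Complex.exp (w₃ * (z + κ * v)) - 1) ^ k) := by
    have a1 : z + m + v = (z + v) + m := by ring
    have a2 : z + m + κ * v = (z + κ * v) + m := by ring
    have b1 := Ser4_per h₁.ps m z
    have b2 := Ser4_per h₁.pe m z
    have b3 := Ser4_per h₂.ps m (z + v)
    have b4 := Ser4_per h₂.pe m (z + v)
    simp only [E3.Fn, a1, a2, b1, b2, b3, b4, one_pow, mul_one]
    rw [← Finset.sum_sub_distrib]
    refine Finset.sum_congr rfl fun i _ => ?_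
    rw [← Finset.sum_sub_distrib]
    refine Finset.sum_congr rfl fun j _ => ?_
    rw [← Finset.sum_sub_distrib]
    refine Finset.sum_congr rfl fun k _ => ?_
    ring
  rw [hdiff]
  have hsum : ‖∑ i ∈ Finset.range L, ∑ j ∈ Finset.range L, ∑ k ∈ Finset.range L',
        (p i j k : ℂ) * (s₁ z ^ i * e₁ z ^ (L - 1 - i)) *
        (s₂ (z + v) ^ j * e₂ (z + v) ^ (L - 1 - j)) *
        ((Complex.exp (w₃ * (z + κ * v + m)) - 1) ^ k -
          (Complex.exp (w₃ * (z + κ * v)) - 1) ^ k)‖ ≤ ∑ _i ∈ Finset.range L,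
      ∑ _j ∈ Finset.range L, ∑ _k ∈ Finset.range L',
        P * Real.exp (2 * L * X + L' * X') * (L' * D) := by
    refine (norm_sum_le _ _).trans (Finset.sum_le_sum fun i hi => ?_)
    refine (norm_sum_le _ _).trans (Finset.sum_le_sum fun j hj => ?_)
    refine (norm_sum_le _ _).trans (Finset.sum_le_sum fun k hk => ?_)
    exact hterm i hi j hj k hk
  refine hsum.trans (le_of_eq ?_)
  rw [Finset.sum_const, Finset.sum_const, Finset.sum_const, Finset.card_range, Finset.card_range,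
    hD]
  simp only [nsmul_eq_mul]
  ring

end Pool.Agent.LGO.U
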