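import Mathlib
import Pool.Agent.LGO.E4.Two4

/-!
# LGO/U: Schwarz lemma in two variables for an almost periodic function

A form of `E4.schwarz4` (`LGO/E4/Two4.lean`): `4 ^ (S O) * 2 ^ O ≤ 8 ^ (S O)`.
-/

namespace Pool.Agent.LGO.U

open Pool.Agent.LGO.E3

theorem schwarz4 (F : ℂ × ℂ → ℂ) (hF : ∀ x, AnalyticAt ℂ F x) (O S : ℕ) (hS : 1 ≤ S) (q : ℕ → ℂ)
    (hloc : ∃ C₀ r : ℝ, 0 < r ∧ ∀ z v : ℂ, ‖z‖ ≤ r → ‖v‖ ≤ ‖z‖ →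
      ‖F (z, v) - ∑ i ∈ Finset.range (O + 1), q i * z ^ (O - i) * v ^ i‖ ≤ C₀ * ‖z‖ ^ (O + 1))
    (ρ B D : ℝ) (hρ : 0 < ρ) (hB : ∀ z v : ℂ, ‖z‖ ≤ 8 * S → ‖v‖ ≤ ρ → ‖F (z, v)‖ ≤ B)
    (hD : ∀ m : ℤ, |m| ≤ S → ∀ z v : ℂ, ‖z‖ ≤ 1 → ‖v‖ ≤ ρ → ‖F (z + m, v) - F (z, v)‖ ≤ D)
    (j : ℕ) (hj : 2 * j ≤ O) :
    ‖q j‖ ≤ B / ρ ^ j / 2 ^ (S * O) + 4 * S * 8 ^ (S * O) * (D / ρ ^ j) := by
  have h := E4.schwarz4 F hF O S hS q hloc ρ B D hρ hB (fun s hs z v hz hv => by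
    rw [add_comm]
    exact hD s hs z v (by linarith) hv) j hj
  refine h.trans (add_le_add le_rfl ?_)
  have hD0 : 0 ≤ D := by
    have h1 := hD 0 (by simp) 0 0 (by simp) (by simpa using hρ.le)
    exact (norm_nonneg _).trans h1
  have h1 : (4 : ℝ) ^ (S * O) * 2 ^ O ≤ 8 ^ (S * O) := by
    have h2 : (2 : ℝ) ^ O ≤ 2 ^ (S * O) :=
      pow_le_pow_right₀ (by norm_num) (Nat.le_mul_of_pos_left _ hS)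
    calc (4 : ℝ) ^ (S * O) * 2 ^ O ≤ 4 ^ (S * O) * 2 ^ (S * O) := by gcongr
      _ = 8 ^ (S * O) := by rw [← mul_pow]; norm_num
  have h3 : 0 ≤ D / ρ ^ j := by positivity
  calc 4 * (S : ℝ) * 4 ^ (S * O) * 2 ^ O * (D / ρ ^ j)
      = 4 * (S : ℝ) * (4 ^ (S * O) * 2 ^ O) * (D / ρ ^ j) := by ring
    _ ≤ 4 * (S : ℝ) * 8 ^ (S * O) * (D / ρ ^ j) := by gcongr

end Pool.Agent.LGO.U
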