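import Mathlib
import Pool.Agent.LGO.U.Ser4
import Pool.Agent.LGO.U.Two4
import Pool.Agent.LGO.E3.Unif
import Pool.Agent.LGO.E3.Bnd
import Pool.Agent.LGO.E3.Small

/-!
# LGO/U: the Taylor coefficients of the leading form are small (engine 4)

PROOF.  Verbatim `LGO/E3/Small.lean` (`small`) with `tay_Fn4`, `analytic_Fn4` instead of `tay_Fn`, `analytic_Fn`, and
`schwarz4` (with `D` from `shift_Fn4`, `ρ = 1 / (1 + ‖κ‖)`, `B` from `bnd` and `xs_gro`) instead of `schwarz2`: the factor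
`1 / 2^(S O)` is replaced by `1 / 2^(S O) + 4 S 8^(S O) (L' (2 S ‖δ‖) exp 14)`.
`w₃ = l₁ w₁ + l₂ w₂`, `‖w₃ - 2 π i‖ ≤ 1 / S ≤ 1`, so `5 ≤ ‖w₃‖ ≤ 7.3`; the upper bound `7` is a hypothesis here, the
bounds `exp (-G) ≤ ‖w₃‖ ≤ exp G` of `small` are only used for the lower bound of `‖w₃‖`, `exp (-G) ≤ 1 ≤ ‖w₃‖`.
-/

namespace Pool.Agent.LGO.U

open Polynomial Pool.Agent.Schn Pool.Agent.LGO.E3

theorem small4 {w₁ w₂ w₃ l₁ l₂ : ℂ} {U₁ U₂ : PowerSeries ℂ} {s₁ e₁ s₂ e₂ : ℂ → ℂ}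
    (h₁ : Loc w₁ U₁ s₁ e₁) (h₂ : Loc w₂ U₂ s₂ e₂) {c G t t' P : ℝ}
    (hc : 8 ≤ c) (hG : 0 ≤ G) (ht : 0 < t) (ht' : 0 < t') (g₁ : Gro c G t s₁ e₁)
    (g₂ : Gro c G t s₂ e₂)
    (hw₁ : Real.exp (-G) ≤ ‖w₁‖ ∧ ‖w₁‖ ≤ Real.exp G)
    (hw₂ : Real.exp (-G) ≤ ‖w₂‖ ∧ ‖w₂‖ ≤ Real.exp G)
    (hw₃ : ‖w₃‖ ≤ 7) (hl₂ : ‖l₂‖ ≤ Real.exp G)
    (hl : l₁ * w₁ + l₂ * w₂ = w₃) (L L' : ℕ) (p : ℕ → ℕ → ℕ → ℤ)
    (hp : ∀ i j k, |(p i j k : ℝ)| ≤ P) (O : ℕ)
    (hlow : ∀ k < O, frm U₁ U₂ (xs ℂ) l₁ l₂ L L' p k = 0)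
    (hdeg : (frm U₁ U₂ (xs ℂ) l₁ l₂ L L' p O).natDegree ≤ O) (S : ℕ) (hS : 1 ≤ S)
    (hδ : S * ‖w₃ - 2 * Real.pi * Complex.I‖ ≤ 1) (j : ℕ) (hj : 2 * j ≤ O) :
    ‖(taylor (w₂ / w₁) (frm U₁ U₂ (xs ℂ) l₁ l₂ L L' p O)).coeff j‖ ≤
      L ^ 2 * L' * P * Real.exp (2 * L * (c * (81 * S ^ 2 / t + 9 * S) + G)
        + L' * (c * (81 * S ^ 2 / t' + 9 * S) + G) + (4 * G + 1) * O) *
        (1 / 2 ^ (S * O) + 4 * S * 8 ^ (S * O) *
          (L' * (2 * (S * ‖w₃ - 2 * Real.pi * Complex.I‖)) * Real.exp 14)) := by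
  have hc0 : 0 ≤ c := by linarith
  have hS1 : (1 : ℝ) ≤ S := by exact_mod_cast hS
  have hδ0 : 0 ≤ ‖w₃ - 2 * Real.pi * Complex.I‖ := norm_nonneg _
  have hw3l : 1 ≤ ‖w₃‖ := by
    have h1 : ‖w₃ - 2 * Real.pi * Complex.I‖ ≤ 1 :=
      (le_mul_of_one_le_left hδ0 hS1).trans hδ
    have h2 : ‖(2 * Real.pi * Complex.I : ℂ)‖ = 2 * Real.pi := by
      rw [norm_mul, norm_mul, Complex.norm_I, mul_one, Complex.norm_real, Real.norm_eq_abs,
        abs_of_pos Real.pi_pos]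
      simp
    have h3 : ‖(2 * Real.pi * Complex.I : ℂ)‖ ≤ ‖w₃‖ + ‖w₃ - 2 * Real.pi * Complex.I‖ := by
      have h4 := norm_sub_le w₃ (w₃ - 2 * Real.pi * Complex.I)
      rw [sub_sub_cancel] at h4
      exact h4
    have h5 := Real.pi_gt_three
    rw [h2] at h3
    linarith
  have hw1n : 0 < ‖w₁‖ := (Real.exp_pos _).trans_le hw₁.1
  have hw2n : 0 < ‖w₂‖ := (Real.exp_pos _).trans_le hw₂.1
  have hw3n : 0 < ‖w₃‖ := by linarith
  have hw10 : w₁ ≠ 0 := norm_pos_iff.1 hw1n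
  have hw20 : w₂ ≠ 0 := norm_pos_iff.1 hw2n
  have hw30 : w₃ ≠ 0 := norm_pos_iff.1 hw3n
  have k₁ := LocW.of_loc h₁
  have k₂ := LocW.of_loc h₂
  have k₃ := xs_loc w₃
  have g₃ : Gro c G t' (fun z => Complex.exp (w₃ * z) - 1) (fun _ => 1) := xs_gro hw₃ hc hG ht'
  set f : ℂ[X] := frm U₁ U₂ (xs ℂ) l₁ l₂ L L' p O with hf
  set θ : ℂ := w₂ / w₁ with hθ
  set κ : ℂ := l₂ * w₂ / w₃ with hκ
  set q : ℕ → ℂ := fun i => w₁ ^ O * θ ^ i * (taylor θ f).coeff i with hq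
  have hF := analytic_Fn4 k₁ k₂ k₃ κ L L' p
  -- the coefficients along a line
  have hco : ∀ η : ℂ, (∀ k < O, PowerSeries.coeff k
      (tay fun t => Fn s₁ e₁ s₂ e₂ (fun z => Complex.exp (w₃ * z) - 1) (fun _ => 1) κ L L' p
        (t, η * t)) = 0) ∧
      PowerSeries.coeff O (tay fun t => Fn s₁ e₁ s₂ e₂ (fun z => Complex.exp (w₃ * z) - 1)
        (fun _ => 1) κ L L' p (t, η * t)) =
        ∑ i ∈ Finset.range (O + 1), q i * η ^ i := by
    intro η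
    obtain ⟨V, hV, hT⟩ := tay_Fn4 k₁ k₂ k₃ hw10 hw30 hl L L' p η
    have hz : ∀ k < O, PowerSeries.coeff k (PowerSeries.rescale w₁
        (PowerSeries.mk fun k =>
          (frm U₁ U₂ (xs ℂ) l₁ l₂ L L' p k).eval (w₂ * (1 + η) / w₁))) = 0 := by
      intro k hk
      rw [PowerSeries.coeff_rescale, PowerSeries.coeff_mk, hlow k hk, eval_zero, mul_zero]
    constructor
    · intro k hk
      rw [hT, PowerSeries.coeff_mul]
      refine Finset.sum_eq_zero fun x hx => ?_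
      have hx2 : x.1 + x.2 = k := Finset.HasAntidiagonal.mem_antidiagonal.1 hx
      rw [hz x.2 (by omega), mul_zero]
    · rw [hT, PowerSeries.coeff_mul, Finset.sum_eq_single ((0, O) : ℕ × ℕ)]
      · rw [PowerSeries.coeff_zero_eq_constantCoeff_apply, hV, one_mul, PowerSeries.coeff_rescale,
          PowerSeries.coeff_mk]
        have hx : w₂ * (1 + η) / w₁ = θ * η + θ := by rw [hθ]; ring
        have he : f.eval (w₂ * (1 + η) / w₁) = (taylor θ f).eval (θ * η) := by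
          rw [taylor_eval, hx]
        have hn : (taylor θ f).natDegree < O + 1 := by
          rw [natDegree_taylor]
          omega
        rw [← hf, he, eval_eq_sum_range' hn, Finset.mul_sum]
        refine Finset.sum_congr rfl fun i _ => ?_
        simp only [hq]
        rw [mul_pow]
        ring
      · intro x hx hne
        have hx2 : x.1 + x.2 = O := Finset.HasAntidiagonal.mem_antidiagonal.1 hx
        have hlt : x.2 < O := by
          rcases Nat.lt_or_ge x.2 O with h | h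
          · exact h
          · exact absurd (Prod.ext (by simp; omega) (by simp; omega)) hne
        rw [hz x.2 hlt, mul_zero]
      · intro h
        exact absurd (Finset.HasAntidiagonal.mem_antidiagonal.2 (Nat.zero_add O)) h
  have hloc := unif_taylor (Fn s₁ e₁ s₂ e₂ (fun z => Complex.exp (w₃ * z) - 1) (fun _ => 1) κ L L' p)
    hF O q (fun η _ k hk => (hco η).1 k hk) (fun η _ => (hco η).2)
  have hκ0 : 0 ≤ ‖κ‖ := norm_nonneg κ
  have h1κ : (0 : ℝ) < 1 + ‖κ‖ := by linarith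
  have hP : 0 ≤ P := (abs_nonneg _).trans (hp 0 0 0)
  set E : ℝ := 2 * L * (c * (81 * S ^ 2 / t + 9 * S) + G)
        + L' * (c * (81 * S ^ 2 / t' + 9 * S) + G) with hE
  set B : ℝ := L ^ 2 * L' * P * Real.exp E with hB
  have hB0 : 0 ≤ B := by positivity
  set d : ℝ := L' * (2 * (S * ‖w₃ - 2 * Real.pi * Complex.I‖)) * Real.exp 14 with hd
  have hd0 : 0 ≤ d := by positivity
  have hmain := schwarz4 (Fn s₁ e₁ s₂ e₂ (fun z => Complex.exp (w₃ * z) - 1) (fun _ => 1) κ L L' p)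
    hF O S hS q hloc (1 / (1 + ‖κ‖)) B (B * d) (by positivity)
    (fun z v hz hv => bnd hc0 hG ht ht' g₁ g₂ g₃ κ L L' p hp S hS z v hz hv)
    (fun m hm z v hz hv =>
      shift_Fn4 h₁ h₂ hc hG ht ht' g₁ g₂ hw₃ κ L L' p hp S hS hδ m hm z v hz hv) j hj
  -- lower bound for `q j`
  have hjO : j ≤ O := by omega
  have hlow2 : Real.exp (-G * O) * ‖(taylor θ f).coeff j‖ ≤ ‖q j‖ := by
    have h1 : ‖q j‖ = ‖w₁‖ ^ (O - j) * ‖w₂‖ ^ j * ‖(taylor θ f).coeff j‖ := by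
      simp only [hq]
      rw [norm_mul, norm_mul, norm_pow, norm_pow, hθ, norm_div, div_pow]
      congr 1
      have h2 : ‖w₁‖ ^ O = ‖w₁‖ ^ (O - j) * ‖w₁‖ ^ j := by
        rw [← pow_add]
        congr 1
        omega
      rw [h2]
      field_simp
    rw [h1]
    refine mul_le_mul_of_nonneg_right ?_ (norm_nonneg _)
    calc Real.exp (-G * O) = Real.exp (-G) ^ (O - j) * Real.exp (-G) ^ j := by
          rw [← pow_add, ← Real.exp_nat_mul]
          congr 1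
          have h3 : O - j + j = O := by omega
          rw [h3]
          ring
      _ ≤ ‖w₁‖ ^ (O - j) * ‖w₂‖ ^ j := by
          gcongr
          · exact hw₁.1
          · exact hw₂.1
  -- upper bound for `κ`
  have hw3G : Real.exp (-G) ≤ ‖w₃‖ := (Real.exp_le_one_iff.2 (by linarith)).trans hw3l
  have hκb : 1 + ‖κ‖ ≤ Real.exp (3 * G + 1) := by
    have h1 : ‖κ‖ ≤ Real.exp (3 * G) := by
      rw [hκ, norm_div, norm_mul, div_le_iff₀ hw3n]
      calc ‖l₂‖ * ‖w₂‖ ≤ Real.exp G * Real.exp G :=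
            mul_le_mul hl₂ hw₂.2 (norm_nonneg _) (Real.exp_pos _).le
        _ = Real.exp (3 * G) * Real.exp (-G) := by
            rw [← Real.exp_add, ← Real.exp_add]
            congr 1
            ring
        _ ≤ Real.exp (3 * G) * ‖w₃‖ := mul_le_mul_of_nonneg_left hw3G (Real.exp_pos _).le
    have h2 : (1 : ℝ) ≤ Real.exp (3 * G) := Real.one_le_exp (by linarith)
    have h3 : (2 : ℝ) ≤ Real.exp 1 := by
      have := Real.add_one_le_exp (1 : ℝ)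
      linarith
    rw [Real.exp_add]
    nlinarith [Real.exp_pos (3 * G)]
  have hκj : (1 + ‖κ‖) ^ j ≤ Real.exp ((3 * G + 1) * O) := by
    calc (1 + ‖κ‖) ^ j ≤ Real.exp (3 * G + 1) ^ j := pow_le_pow_left₀ h1κ.le hκb j
      _ = Real.exp (j * (3 * G + 1)) := by rw [Real.exp_nat_mul]
      _ ≤ Real.exp ((3 * G + 1) * O) := by
          apply Real.exp_le_exp.2
          have : (j : ℝ) ≤ O := by exact_mod_cast hjO
          nlinarith
  have hfac : (0 : ℝ) ≤ 1 / 2 ^ (S * O) + 4 * S * 8 ^ (S * O) * d := by positivity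
  have hq2 : ‖q j‖ ≤ B * Real.exp ((3 * G + 1) * O) *
      (1 / 2 ^ (S * O) + 4 * S * 8 ^ (S * O) * d) := by
    refine hmain.trans ?_
    have h1 : B / (1 / (1 + ‖κ‖)) ^ j / 2 ^ (S * O) +
        4 * S * 8 ^ (S * O) * (B * d / (1 / (1 + ‖κ‖)) ^ j) =
        B * (1 + ‖κ‖) ^ j * (1 / 2 ^ (S * O) + 4 * S * 8 ^ (S * O) * d) := by
      rw [one_div (1 + ‖κ‖), inv_pow, div_inv_eq_mul, div_inv_eq_mul]
      ring
    rw [h1]
    exact mul_le_mul_of_nonneg_right (mul_le_mul_of_nonneg_left hκj hB0) hfac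
  have hfin : ‖(taylor θ f).coeff j‖ ≤ Real.exp (G * O) * ‖q j‖ := by
    calc ‖(taylor θ f).coeff j‖
        = Real.exp (G * O) * (Real.exp (-G * O) * ‖(taylor θ f).coeff j‖) := by
          rw [← mul_assoc, ← Real.exp_add]
          have : G * (O : ℝ) + -G * O = 0 := by ring
          rw [this, Real.exp_zero, one_mul]
      _ ≤ Real.exp (G * O) * ‖q j‖ := mul_le_mul_of_nonneg_left hlow2 (Real.exp_pos _).le
  calc ‖(taylor θ f).coeff j‖ ≤ Real.exp (G * O) * ‖q j‖ := hfin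
    _ ≤ Real.exp (G * O) * (B * Real.exp ((3 * G + 1) * O) *
          (1 / 2 ^ (S * O) + 4 * S * 8 ^ (S * O) * d)) :=
        mul_le_mul_of_nonneg_left hq2 (Real.exp_pos _).le
    _ = L ^ 2 * L' * P * Real.exp (E + (4 * G + 1) * O) *
          (1 / 2 ^ (S * O) + 4 * S * 8 ^ (S * O) * d) := by
        have h1 : Real.exp (E + (4 * G + 1) * O) =
            Real.exp E * (Real.exp (G * O) * Real.exp ((3 * G + 1) * O)) := by
          rw [← Real.exp_add, ← Real.exp_add]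
          congr 1
          ring
        rw [h1, hB]
        ring

end Pool.Agent.LGO.U
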