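import Mathlib
import Pool.Agent.LGO.U.Base4
import Pool.Agent.LGO.U.Small4
import Pool.Agent.LGO.U.Num4
import Pool.Agent.LGO.E3.Num
import Pool.Agent.LGO.E3.NumB

/-!
# LGO/U: engine 4, a measure of linear independence of `w`, `w τ`, `2 π i` (no complex multiplication)

PROOF.  Adaptation of `engine3'` (`LGO/E3/Fin.lean`), with `t = 1` (`T ≤ 1`), `L = L' = 4 m a²` (write `4 * m * a ^ 2 * 1`
where the lemmas of `NumB`, `AuxP` need it), `N = 4 m a³`.  Let `c` = constant of `base4`, `κ = 4050 c`, `k` from `num C₂ κ`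
(`C₂` of `close_main`), `C₃` from `num_eps k`; the constant is `C = C₃ + 1` or so.  Suppose `‖δ‖ < exp (-M^C)`,
`δ = w₃ - 2 π i`, `w₃ = l₁ w + l₂ (w τ)`.  Then `‖w₃‖ ≤ 7` (`2 π < 6.3`), and `(l₁, l₂) ≠ 0`.
`exists_p` (`LGO/E3/AuxP.lean`) for `U, U, xs K` gives `p`; by `ord4` (over `ℂ`, `map_frm`, `xs_map`) some form of index
`≤ 2 L + 400 (L + L)²` is not zero; let `O` be the smallest such index, `O ≥ N`.
`S = ⌊O / (4050 c M (4 m a²))⌋` as in `engine3'` (`S ≤ O`).  `num_eps`: `S ‖δ‖ ≤ 1`, and the bracket of `small4` is at most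
`2 / 2^(S O)`: `4 S 8^(S O) L' 2 S ‖δ‖ exp 14 = (8 S² L' exp 14 16^(S O)) ‖δ‖ / 2^(S O) ≤ 1 / 2^(S O)`.
With `t' = 1 / M` in `small4` and `num_small` (which has exactly this right hand side, without the factor `2 ≤ exp O`):
`‖coeff j (taylor θ q)‖ ≤ exp (-(O Y))`, `Y = S / 4 - 3 log O - 6 V - 7 G - 5`.  Then `close_main` with `w₁ = w`, `τ₁ = τ`,
`w₂ = w τ`, `τ₂ = -1/τ`, `γ = 1` (`gen_one`; `w τ ≠ r w` because `Im τ > 0`; `Bd K (M T) 1`) gives `Y ≤ T X^C₂`, and `num_two`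
(with `Z = T (κ ((log O + M² T)/T))^C₂`, as in `engine3'`) gives the contradiction.
-/

namespace Pool.Agent.LGO.U

open Polynomial Pool.Agent.EllSch Pool.Agent.Schn Pool.Agent.LGO.E3

/-- upper bound for the period-like number -/
private theorem Fin4_w3 {x : ℂ} {e : ℝ} (he : e ≤ 1 / 2)
    (h : ‖x - 2 * Real.pi * Complex.I‖ < e) : ‖x‖ ≤ 7 ∧ x ≠ 0 := by
  have h2 : ‖(2 * Real.pi * Complex.I : ℂ)‖ = 2 * Real.pi := by
    rw [norm_mul, norm_mul, Complex.norm_I, mul_one, Complex.norm_real, Real.norm_eq_abs,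
      abs_of_pos Real.pi_pos]
    simp
  have hpi := Real.pi_lt_d2
  have hpi3 := Real.pi_gt_three
  constructor
  · have h3 : ‖x‖ ≤ ‖x - 2 * Real.pi * Complex.I‖ + ‖(2 * Real.pi * Complex.I : ℂ)‖ := by
      have h4 := norm_add_le (x - 2 * Real.pi * Complex.I) (2 * Real.pi * Complex.I)
      rw [sub_add_cancel] at h4
      exact h4
    rw [h2] at h3
    linarith
  · rintro rfl
    rw [zero_sub, norm_neg, h2] at h
    linarith

/-- `exp (-(M ^ (C + 1))) ≤ 1 / 2` -/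
private theorem Fin4_half {M : ℝ} (hM : 2 ≤ M) (C : ℕ) :
    Real.exp (-(M ^ (C + 1))) ≤ 1 / 2 := by
  have h1 : (1 : ℝ) ≤ M ^ (C + 1) := one_le_pow₀ (by linarith)
  have h2 : Real.exp (-(M ^ (C + 1))) ≤ Real.exp (-1) := Real.exp_le_exp.2 (by linarith)
  have h3 : Real.exp (-1) ≤ 1 / 2 := by
    rw [Real.exp_neg, one_div]
    apply inv_anti₀ (by norm_num)
    have := Real.add_one_le_exp (1 : ℝ)
    linarith
  exact h2.trans h3

/-- smallness of the perturbation -/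
private theorem Fin4_eps {M d : ℝ} {C S L N : ℕ} (hM : 2 ≤ M) (hS : 1 ≤ S) (hL : 1 ≤ L)
    (hd0 : 0 ≤ d) (hd : d < Real.exp (-(M ^ (C + 1))))
    (h : 8 * (S : ℝ) ^ 2 * L * Real.exp 14 * 16 ^ N ≤ Real.exp (M ^ C)) :
    S * d ≤ 1 ∧ 1 / 2 ^ N + 4 * S * 8 ^ N * (L * (2 * (S * d)) * Real.exp 14) ≤
      2 / (2 : ℝ) ^ N := by
  have hSr : (1 : ℝ) ≤ S := by exact_mod_cast hS
  have hLr : (1 : ℝ) ≤ L := by exact_mod_cast hL
  have h1 : M ^ C ≤ M ^ (C + 1) := pow_le_pow_right₀ (by linarith) (by omega)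
  have h2 : 8 * (S : ℝ) ^ 2 * L * Real.exp 14 * 16 ^ N * d ≤ 1 := by
    calc 8 * (S : ℝ) ^ 2 * L * Real.exp 14 * 16 ^ N * d
        ≤ Real.exp (M ^ C) * Real.exp (-(M ^ (C + 1))) :=
          mul_le_mul h hd.le hd0 (Real.exp_pos _).le
      _ = Real.exp (M ^ C - M ^ (C + 1)) := by rw [← Real.exp_add]; congr 1
      _ ≤ 1 := Real.exp_le_one_iff.2 (by linarith)
  have h14 : (1 : ℝ) ≤ Real.exp 14 := Real.one_le_exp (by norm_num)
  have h16 : (1 : ℝ) ≤ 16 ^ N := one_le_pow₀ (by norm_num)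
  constructor
  · refine le_trans ?_ h2
    apply mul_le_mul_of_nonneg_right _ hd0
    have g1 : (S : ℝ) ≤ 8 * (S : ℝ) ^ 2 := by nlinarith
    have g2 : (1 : ℝ) ≤ L * (Real.exp 14 * 16 ^ N) :=
      one_le_mul_of_one_le_of_one_le hLr (one_le_mul_of_one_le_of_one_le h14 h16)
    calc (S : ℝ) = S * 1 := (mul_one _).symm
      _ ≤ 8 * (S : ℝ) ^ 2 * (L * (Real.exp 14 * 16 ^ N)) :=
        mul_le_mul g1 g2 zero_le_one (by positivity)
      _ = 8 * (S : ℝ) ^ 2 * L * Real.exp 14 * 16 ^ N := by ring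
  · have h3 : (16 : ℝ) ^ N = 8 ^ N * 2 ^ N := by rw [← mul_pow]; norm_num
    have h20 : (0 : ℝ) < 2 ^ N := by positivity
    rw [le_div_iff₀ h20]
    have h4 : (1 / 2 ^ N + 4 * S * 8 ^ N * (L * (2 * (S * d)) * Real.exp 14)) * 2 ^ N =
        1 + 8 * (S : ℝ) ^ 2 * L * Real.exp 14 * 16 ^ N * d := by
      rw [h3]
      field_simp
      ring
    rw [h4]
    linarith

private theorem Fin4_bd1 {K : IntermediateField ℚ ℂ} {B : ℝ} (hB : 0 ≤ B) : Bd K B 1 where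
  mem := one_mem K
  den := ⟨1, one_pos, by
    rw [Nat.cast_one]
    exact Real.one_le_exp hB, by
    rw [Nat.cast_one, one_mul]
    exact isIntegral_one⟩
  house := fun σ => by
    have e : (⟨1, one_mem K⟩ : K) = 1 := rfl
    rw [e, map_one, norm_one]
    exact Real.one_le_exp hB

private theorem Fin4_rat {w τ : ℂ} (hw : w ≠ 0) (hτ : 0 < τ.im) (r : ℚ) :
    w * τ ≠ (r : ℂ) * 1 * w := by
  intro h
  have h1 : w * τ = w * (r : ℂ) := by rw [h]; ring
  have h2 : τ = (r : ℂ) := mul_left_cancel₀ hw h1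
  have h3 : τ.im = 0 := by
    rw [h2]
    exact Complex.ratCast_im r
  linarith

private theorem Fin4_S {c M : ℝ} {m a O : ℕ} (hc : 1 ≤ c) (hM : 2 ≤ M) (hm : 1 ≤ m) (ha : 1 ≤ a) :
    ⌊(O : ℝ) / (4050 * c * M * (4 * m * a ^ 2))⌋₊ ≤ O := by
  have hmr : (1 : ℝ) ≤ m := by exact_mod_cast hm
  have har : (1 : ℝ) ≤ a := by exact_mod_cast ha
  have h1 : (1 : ℝ) ≤ 4050 * c * M * (4 * m * a ^ 2) := by
    have h2 : (1 : ℝ) ≤ 4050 * c * M := by nlinarith
    have h3 : (1 : ℝ) ≤ 4 * m * a ^ 2 := by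
      have h4 : (1 : ℝ) ≤ (a : ℝ) ^ 2 := one_le_pow₀ har
      nlinarith
    exact one_le_mul_of_one_le_of_one_le h2 h3
  have h5 : (O : ℝ) / (4050 * c * M * (4 * m * a ^ 2)) ≤ O :=
    div_le_self (Nat.cast_nonneg _) h1
  calc ⌊(O : ℝ) / (4050 * c * M * (4 * m * a ^ 2))⌋₊ ≤ ⌊(O : ℝ)⌋₊ := Nat.floor_le_floor h5
    _ = O := Nat.floor_natCast O

theorem engine4 : ∃ C : ℕ, ∀ (K : IntermediateField ℚ ℂ) [FiniteDimensional ℚ K] (M T : ℝ)
    (w τ l₁ l₂ : ℂ), 2 ≤ M → (Module.finrank ℚ K : ℝ) ≤ M → 0 < T → T ≤ 1 → 1 ≤ M * T →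
    Cur K M (M * T) T w τ → Cur K M (M * T) T (w * τ) (-1 / τ) → NonCM τ →
    Bd K (M * T) l₁ → Bd K (M * T) l₂ →
    Real.exp (-(M ^ C)) ≤ ‖l₁ * w + l₂ * (w * τ) - 2 * Real.pi * Complex.I‖ := by
  obtain ⟨C₂, hclose⟩ := close_main
  obtain ⟨CB, hCB, hbase⟩ := base4
  set c : ℝ := (CB : ℝ) with hc_def
  have hc8 : 8 ≤ c := by rw [hc_def]; exact_mod_cast hCB
  have hc : 1 ≤ c := by linarith
  set κ : ℝ := 4050 * c with hκ_def
  have hκ : 1 ≤ κ := by rw [hκ_def]; linarith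
  obtain ⟨k, hk1, hnum⟩ := num C₂ κ hκ
  obtain ⟨C₃, heps⟩ := num_eps k
  refine ⟨C₃ + 1, ?_⟩
  intro K _ M T w τ l₁ l₂ hM hfin hT hT1 hMT c₁ c₂ hcm hl₁ hl₂
  by_contra hcon0
  push Not at hcon0
  have hM0 : 0 < M := by linarith
  obtain ⟨r1, r2, r3, r4, r5, r6⟩ := fin_r hc hM hT hMT
  obtain ⟨s₁, e₁, s₂, e₂, U, ν, A, V, hν, hA, hV_def, hA_def, hνV, arU, arX, hmU, loc₁, loc₂,
    gr₁, gr₂, hw₁b, hw₂b, i₁, i₂, bl₁, bl₂⟩ := hbase K M T w τ l₁ l₂ hM hfin hT hMT c₁ c₂ hl₁ hl₂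
  set l₁' : K := ⟨l₁, hl₁.mem⟩ with hl₁'
  set l₂' : K := ⟨l₂, hl₂.mem⟩ with hl₂'
  have hV : 0 ≤ V := by rw [hV_def]; linarith
  have hAV : A ≤ Real.exp V := by
    rw [hA_def, hV_def]
    exact Real.exp_le_exp.2 (by linarith)
  have hw₁ : w ≠ 0 := c₁.w0
  obtain ⟨hw₃7, hw₃0⟩ := Fin4_w3 (Fin4_half hM C₃) hcon0
  have hlne : l₁ ≠ 0 ∨ l₂ ≠ 0 := by
    by_contra hcon
    push Not at hcon
    apply hw₃0
    rw [hcon.1, hcon.2]
    ring
  -- parameters
  set m : ℕ := ⌈M⌉₊ with hm_def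
  have hmM : M ≤ m := Nat.le_ceil M
  have hm2M : (m : ℝ) ≤ 2 * M := by
    have := Nat.ceil_lt_add_one hM0.le
    rw [← hm_def] at this
    linarith
  have hm2 : 2 ≤ m := by
    have : (2 : ℝ) ≤ m := hM.trans hmM
    exact_mod_cast this
  have hmfin : Module.finrank ℚ K ≤ m := by
    have : (Module.finrank ℚ K : ℝ) ≤ m := hfin.trans hmM
    exact_mod_cast this
  set a : ℕ := m ^ k with ha_def
  have ha1 : 1 ≤ a := Nat.one_le_pow _ _ (by omega)
  obtain ⟨p, hpne, hplow, hpP⟩ := exists_p (siegel K) hν hA arU arU arX i₁ i₂ bl₁ bl₂ m a 1 hmfin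
    ha1 le_rfl
  set P : ℝ := 5 * (4 * m * a ^ 2 * (1 : ℕ)) ^ 2 * (4 * m * a ^ 2) *
        ((4 * m * a ^ 3 * 1).factorial * (ν : ℝ) ^ (2 * (4 * m * a ^ 3 * 1)) *
          (4 * A ^ 2) ^ (4 * m * a ^ 3 * 1)) with hP_def
  set L : ℕ := 4 * m * a ^ 2 * 1 with hL_def
  set L' : ℕ := 4 * m * a ^ 2 with hL'_def
  have hLL' : L = L' := by rw [hL_def, mul_one]
  have hL'1 : 1 ≤ L' := by
    rw [hL'_def]
    have h1 : 0 < m := by omega
    have h2 : 0 < a := ha1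
    have : 0 < 4 * m * a ^ 2 := by positivity
    exact this
  have hind : Ind w (w * τ) := Mul.ind_of_im hw₁ c₁.im_pos
  -- complex versions
  have hmap : ∀ j, (frm U U (xs K) l₁' l₂' L L' p j).map (algebraMap K ℂ) =
      frm (tay (Mul.iu w (w * τ))) (tay (Mul.iu w (w * τ))) (xs ℂ) l₁ l₂ L L' p j := fun j => by
    rw [map_frm, hmU, xs_map]
    rfl
  have hall : ∃ j, frm U U (xs K) l₁' l₂' L L' p j ≠ 0 := by
    obtain ⟨n, hn, hne⟩ := ord4 hind hlne L L' p hpne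
    refine ⟨n, fun h0 => hne ?_⟩
    rw [← hmap, h0, Polynomial.map_zero]
  classical
  set O : ℕ := Nat.find hall with hO_def
  have hO : frm U U (xs K) l₁' l₂' L L' p O ≠ 0 := Nat.find_spec hall
  have hlow : ∀ j < O, frm U U (xs K) l₁' l₂' L L' p j = 0 := fun j hj => by
    have := Nat.find_min hall hj
    push Not at this
    exact this
  have hOle : O ≤ 2 * L' + 400 * (L' + L') ^ 2 := by
    obtain ⟨n, hn, hne⟩ := ord4 hind hlne L L' p hpne
    rw [hLL'] at hn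
    refine le_trans (Nat.find_min' hall ?_) hn
    intro h0
    apply hne
    rw [← hmap, h0, Polynomial.map_zero]
  have hNO : 4 * m * a ^ 3 * 1 ≤ O := by
    by_contra hcon
    push Not at hcon
    exact hO (hplow O hcon)
  have ht1 : T ≤ ((1 : ℕ) : ℝ) := by rw [Nat.cast_one]; exact hT1
  have ht2 : ((1 : ℕ) : ℝ) ≤ T + 1 := by rw [Nat.cast_one]; linarith
  obtain ⟨hκa, hfinal⟩ := hnum M T m a 1 O hM hT hMT hmM hm2M ha_def le_rfl ht1 ht2 hNO
  have ha270 : 270 * c ≤ a := by rw [hκ_def] at hκa; linarith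
  have ha2 : 2 ≤ a := by
    have : (2 : ℝ) ≤ a := by linarith
    exact_mod_cast this
  have hO64 : 64 ≤ O := by
    refine le_trans ?_ hNO
    have h1 : 2 ^ 3 ≤ a ^ 3 := Nat.pow_le_pow_left ha2 3
    calc 64 = 4 * 2 * 2 ^ 3 * 1 := by norm_num
      _ ≤ 4 * m * a ^ 3 * 1 := by gcongr
  have hO0 : (0 : ℝ) < O := by
    have : (64 : ℝ) ≤ O := by exact_mod_cast hO64
    linarith
  set G : ℝ := c * (M ^ 2 * T) with hG_def
  have hG : 0 ≤ G := by rw [hG_def]; positivity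
  set S : ℕ := ⌊(O : ℝ) / (4050 * c * M * (4 * m * a ^ 2))⌋₊ with hS_def
  have hden : (0 : ℝ) < 4050 * c * M * (4 * m * a ^ 2) := by
    have : (0 : ℝ) < m := by exact_mod_cast (by omega : 0 < m)
    have : (0 : ℝ) < a := by exact_mod_cast (by omega : 0 < a)
    positivity
  have hS1 : (S : ℝ) ≤ O / (4050 * c * M * (4 * m * a ^ 2)) := Nat.floor_le (by positivity)
  have hS2 : O / (4050 * c * M * (4 * m * a ^ 2)) < S + 1 := Nat.lt_floor_add_one _
  have hSO : S ≤ O := Fin4_S hc hM (by omega) ha1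
  set Q : ℝ := (4 * m * a ^ 2 * (1 : ℕ) : ℝ) ^ 2 * (4 * m * a ^ 2) * P with hQ_def
  have hQ : Q ≤ Real.exp (O * (2 * Real.log O + 4 * V + 2)) :=
    num_P hm2 ha2 le_rfl hNO hν hV hνV hA hAV
  set X : ℝ := (8 * Real.log O + 44 * c * (M ^ 2 * T)) / T with hX_def
  have hXT : X * T = 8 * Real.log O + 44 * c * (M ^ 2 * T) := by
    rw [hX_def]; field_simp
  have hlogO : 0 ≤ Real.log O := Real.log_nonneg (by
    have : (64 : ℝ) ≤ O := by exact_mod_cast hO64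
    linarith)
  set Y : ℝ := S / 4 - 3 * Real.log O - 6 * V - 7 * G - 5 with hY_def
  -- the polynomial
  set f : K[X] := frm U U (xs K) l₁' l₂' L L' p O with hf_def
  set D : K := (O.factorial : K) * (ν : K) ^ (2 * O) with hD_def
  set q : ℂ[X] := (Polynomial.C D * f).map (algebraMap K ℂ) with hq_def
  have hDne : D ≠ 0 := by
    rw [hD_def]
    have h1 : (O.factorial : K) ≠ 0 := by exact_mod_cast O.factorial_ne_zero
    have h2 : (ν : K) ≠ 0 := by exact_mod_cast (by omega : ν ≠ 0)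
    exact mul_ne_zero h1 (pow_ne_zero _ h2)
  have hqc : ∀ i, q.coeff i = ((D * f.coeff i : K) : ℂ) := by
    intro i
    rw [hq_def, Polynomial.coeff_map, Polynomial.coeff_C_mul]
    rfl
  have hq0 : q ≠ 0 := by
    rw [hq_def, Ne, Polynomial.map_eq_zero_iff (algebraMap K ℂ).injective]
    exact mul_ne_zero (Polynomial.C_ne_zero.2 hDne) hO
  have hqdeg : q.natDegree ≤ O := by
    refine (Polynomial.natDegree_map_le).trans ?_
    refine (Polynomial.natDegree_C_mul_le _ _).trans ?_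
    exact natDegree_frm _ _ _ _ _ _ _ _ _
  have hmem : ∀ i, q.coeff i ∈ K := fun i => by rw [hqc]; exact (D * f.coeff i : K).2
  have hint : ∀ i, IsIntegral ℤ (q.coeff i) := fun i => by
    rw [hqc]
    have h1 := frm_int arU arU arX i₁ i₂ L L' p O i
    exact h1.algebraMap (B := ℂ)
  have hhouse : ∀ (i : ℕ) (σ : K →+* ℂ), ‖σ ⟨q.coeff i, hmem i⟩‖ ≤ Real.exp (O * (X * T)) := by
    intro i σ
    have e : (⟨q.coeff i, hmem i⟩ : K) = D * f.coeff i := Subtype.ext (hqc i)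
    rw [e, map_mul, norm_mul, hD_def, map_mul, map_pow, map_natCast, map_natCast, norm_mul,
      norm_pow, Complex.norm_natCast, Complex.norm_natCast]
    have h1 := frm_bd hA arU arU arX σ (bl₁ σ) (bl₂ σ) L L' p P hpP O i
    have h2 := num_house (O := O) (by omega) hν hV hνV hA hAV hQ
    have h3 : (L : ℝ) ^ 2 * L' * P = Q := by
      rw [hQ_def, hL_def, hL'_def]
      push_cast
      ring
    rw [h3] at h1
    calc (O.factorial : ℝ) * (ν : ℝ) ^ (2 * O) * ‖σ (f.coeff i)‖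
        ≤ O.factorial * (ν : ℝ) ^ (2 * O) * (Q * (4 * A ^ 2) ^ O) := by
          apply mul_le_mul_of_nonneg_left h1 (by positivity)
      _ ≤ _ := h2
      _ ≤ _ := by
          apply Real.exp_le_exp.2
          apply mul_le_mul_of_nonneg_left _ hO0.le
          rw [hXT, hV_def]
          linarith
  have hl₂G : ‖l₂‖ ≤ Real.exp G := by
    have h1 := hl₂.house (algebraMap K ℂ)
    change ‖l₂‖ ≤ _ at h1
    refine h1.trans (Real.exp_le_exp.2 ?_)
    rw [hG_def]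
    linarith
  have hSbig : κ * (Real.log O + M ^ 2 * T +
      T * (κ * ((Real.log O + M ^ 2 * T) / T)) ^ C₂) < S + 1 := hfinal.trans hS2
  have hZ : 0 ≤ T * (κ * ((Real.log O + M ^ 2 * T) / T)) ^ C₂ := by positivity
  have hSpos : 1 ≤ S := by
    have h1 : (1 : ℝ) * (0 + 1 + 0) ≤ κ * (Real.log O + M ^ 2 * T +
      T * (κ * ((Real.log O + M ^ 2 * T) / T)) ^ C₂) := by gcongr
    have h2 : (0 : ℝ) < S := by linarith
    exact_mod_cast h2
  obtain ⟨hδ1, hδ2⟩ := Fin4_eps (C := C₃) hM hSpos hL'1 (norm_nonneg _) hcon0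
    (heps M m a L' O S hM hm2M (by omega) ha_def hL'_def hOle hSO)
  have hsmall : ∀ j : ℕ, 4 * j ≤ O →
      ‖(taylor (w * τ / w) q).coeff j‖ ≤ Real.exp (-(O * Y)) := by
    intro j hj
    have h1 := small4 loc₁ loc₂ hc8 hG hT (by positivity : (0 : ℝ) < 1 / M) gr₁ gr₂
      hw₁b hw₂b hw₃7 hl₂G rfl L L' p hpP O
      (fun j hj => by rw [← hmap, hlow j hj, Polynomial.map_zero]) (natDegree_frm _ _ _ _ _ _ _ _ _)
      S hSpos hδ1 j (by omega)
    have h2 := num_small (S := S) (G := G) hM hT hMT hm2 ha2 le_rfl ht2 hNO hν hV hνV hc ha270 hG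
      hS1 hQ
    have h3 : (L : ℝ) ^ 2 * L' * P = Q := by
      rw [hQ_def, hL_def, hL'_def]
      push_cast
      ring
    have e1 : taylor (w * τ / w) q = Polynomial.C (algebraMap K ℂ D) *
        taylor (w * τ / w) (frm (tay (Mul.iu w (w * τ))) (tay (Mul.iu w (w * τ))) (xs ℂ)
          l₁ l₂ L L' p O) := by
      rw [hq_def, Polynomial.map_mul, Polynomial.map_C, taylor_mul, taylor_C, ← hmap]
    have e2 : ‖algebraMap K ℂ D‖ = O.factorial * (ν : ℝ) ^ (2 * O) := by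
      rw [hD_def, map_mul, map_pow, map_natCast, map_natCast, norm_mul, norm_pow,
        Complex.norm_natCast, Complex.norm_natCast]
    have hQ0 : 0 ≤ Q := by
      have hP0 : 0 ≤ P := (abs_nonneg _).trans (hpP 0 0 0)
      rw [hQ_def]
      positivity
    rw [h3] at h1
    rw [e1, Polynomial.coeff_C_mul, norm_mul, e2]
    refine le_trans (mul_le_mul_of_nonneg_left h1 (by positivity)) ?_
    have h4 : (O.factorial : ℝ) * (ν : ℝ) ^ (2 * O) * (Q * Real.exp (2 * L * (c * (81 * S ^ 2 / T +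
        9 * S) + G) + L' * (c * (81 * S ^ 2 / (1 / M) + 9 * S) + G) + (4 * G + 1) * O) *
        (1 / 2 ^ (S * O) + 4 * S * 8 ^ (S * O) *
          (L' * (2 * (S * ‖l₁ * w + l₂ * (w * τ) - 2 * Real.pi * Complex.I‖)) * Real.exp 14))) ≤
        (O.factorial : ℝ) * (ν : ℝ) ^ (2 * O) * (Q * Real.exp (2 * L * (c * (81 * S ^ 2 / T +
        9 * S) + G) + L' * (c * (81 * S ^ 2 / (1 / M) + 9 * S) + G) + (4 * G + 1) * O) *
        (2 / 2 ^ (S * O))) :=
      mul_le_mul_of_nonneg_left (mul_le_mul_of_nonneg_left hδ2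
        (mul_nonneg hQ0 (Real.exp_pos _).le)) (by positivity)
    refine h4.trans ?_
    have h5 : (O.factorial : ℝ) * (ν : ℝ) ^ (2 * O) * (Q * Real.exp (2 * L * (c * (81 * S ^ 2 / T +
        9 * S) + G) + L' * (c * (81 * S ^ 2 / (1 / M) + 9 * S) + G) + (4 * G + 1) * O) *
        (2 / 2 ^ (S * O))) = 2 * (O.factorial * (ν : ℝ) ^ (2 * O) * (Q * Real.exp (2 *
        (4 * m * a ^ 2 * (1 : ℕ)) *
      (c * (81 * S ^ 2 / T + 9 * S) + G) + (4 * m * a ^ 2) * (c * (81 * S ^ 2 / (1 / M) + 9 * S) + G)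
        + (4 * G + 1) * O) / 2 ^ (S * O))) := by
      rw [hL_def, hL'_def]
      push_cast
      ring
    rw [h5]
    have h6 : (2 : ℝ) ≤ Real.exp O := by
      have h7 := Real.add_one_le_exp (O : ℝ)
      have h8 : (64 : ℝ) ≤ O := by exact_mod_cast hO64
      linarith
    calc 2 * (O.factorial * (ν : ℝ) ^ (2 * O) * (Q * Real.exp (2 *
        (4 * m * a ^ 2 * (1 : ℕ)) *
      (c * (81 * S ^ 2 / T + 9 * S) + G) + (4 * m * a ^ 2) * (c * (81 * S ^ 2 / (1 / M) + 9 * S) + G)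
        + (4 * G + 1) * O) / 2 ^ (S * O)))
        ≤ Real.exp O * Real.exp (-(O * (S / 4 - 3 * Real.log O - 6 * V - 7 * G - 4))) := by
          apply mul_le_mul h6 h2 _ (Real.exp_pos _).le
          positivity
      _ = Real.exp (-(O * Y)) := by
          rw [← Real.exp_add, hY_def]
          congr 1
          ring
  have hfin2 := hclose K M T X Y w τ (w * τ) (-1 / τ) 1 q O hM hfin hT hMT c₁ c₂
    (gen_one hw₁ c₁.im_pos hcm) (Fin4_bd1 (by linarith)) (Fin4_rat hw₁ c₁.im_pos)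
    (by
      have h1 : M * T ≤ X * T := by rw [hXT]; linarith
      exact le_of_mul_le_mul_right h1 hT)
    (by
      rw [norm_div, hXT]
      have hpos : 0 < ‖w‖ := norm_pos_iff.2 hw₁
      rw [div_le_iff₀ hpos]
      calc ‖w * τ‖ ≤ Real.exp G := hw₂b.2
        _ = Real.exp (2 * G) * Real.exp (-G) := by rw [← Real.exp_add]; congr 1; ring
        _ ≤ Real.exp (8 * Real.log O + 44 * c * (M ^ 2 * T)) * ‖w‖ := by
            apply mul_le_mul _ hw₁b.1 (Real.exp_pos _).le (Real.exp_pos _).le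
            apply Real.exp_le_exp.2
            rw [hG_def]
            linarith)
    (by omega) (by rw [hXT]; linarith) hq0 hqdeg hmem hint hhouse hsmall
  have hX0 : 0 ≤ X := by rw [hX_def]; positivity
  have hXle : X ≤ κ * ((Real.log O + M ^ 2 * T) / T) := by
    rw [hX_def, ← mul_div_assoc]
    apply div_le_div_of_nonneg_right _ hT.le
    have h1 : 4050 * (Real.log O) ≤ κ * Real.log O := by
      rw [hκ_def]
      exact mul_le_mul_of_nonneg_right (by linarith) hlogO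
    have h2 : κ * (M ^ 2 * T) = 4050 * (c * (M ^ 2 * T)) := by rw [hκ_def]; ring
    rw [mul_add, h2]
    linarith
  have hZ2 : T * X ^ C₂ ≤ T * (κ * ((Real.log O + M ^ 2 * T) / T)) ^ C₂ :=
    mul_le_mul_of_nonneg_left (pow_le_pow_left₀ hX0 hXle C₂) hT.le
  exact num_two hc hκ_def hlogO r4 hZ (by rw [hV_def]; linarith) hG_def hY_def
    (hfin2.trans hZ2) hSbig

end Pool.Agent.LGO.U
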