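import Mathlib
import Pool.Agent.LGO.U.Xs
import Pool.Agent.LGO.E3.AuxP
import Pool.Agent.LGO.E3.FrmMap

/-!
# LGO/U: the auxiliary polynomial of engine 5 (one variable)

Same forms as in engines 3 and 4 with `l₂ = 0` and `p i j k = 0` for `j ≠ 0`; then every form is a constant
polynomial.

PROOF.  `L = 4 m a²`.  Unknowns `x_(i,k)`, `i, k < L`: `L²` of them; `p i 0 k = x_(i,k)`.  Equations: for `n < 4 m a³`
the constant coefficient of `frm .. n`, times `n! ν^(2n)`, is `0`; `4 [K : ℚ] 4 m a³ ≤ 16 m² a³ ≤ L²`.  `SiegelSt.fintype`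
(`LGO/E3/AuxP.lean`), `dirS_int`, `dirS_bd`, exactly as in the proof of `exists_p`.  The bound of Siegel's lemma is
`4 L² B + 1 ≤ 5 L² B ≤ 5 L² L B`.  `frm_const`: every term `U₁^i (..)^0 E((C l + C 0 X) t)^k` has coefficients in the
constants `C (..)` (the factor `(rescale X ..)^0 = 1`), and `p = 0` for `j ≠ 0`.
-/

namespace Pool.Agent.LGO.U

open Polynomial Pool.Agent.LGO.E3

lemma AuxP1_dirS {R : Type*} [CommRing R] (U₁ U₂ U₃ : PowerSeries R) (l : R) (a c : ℕ) :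
    dirS U₁ U₂ U₃ l 0 a 0 c =
      PowerSeries.map (C : R →+* R[X]) (U₁ ^ a * (PowerSeries.rescale l U₃) ^ c) := by
  unfold dirS
  rw [pow_zero, mul_one, map_mul, map_pow, map_pow, FrmMap_map_rescale]
  simp

theorem frm_const {R : Type*} [CommRing R] (U₁ U₂ U₃ : PowerSeries R) (l : R) (L L' : ℕ)
    (p : ℕ → ℕ → ℕ → ℤ) (hp : ∀ i j k, j ≠ 0 → p i j k = 0) (n : ℕ) :
    frm U₁ U₂ U₃ l 0 L L' p n = C ((frm U₁ U₂ U₃ l 0 L L' p n).coeff 0) := by
  have h : frm U₁ U₂ U₃ l 0 L L' p n ∈ (C : R →+* R[X]).range := by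
    unfold frm
    refine sum_mem fun a _ => sum_mem fun b _ => sum_mem fun c _ => ?_
    by_cases hb : b = 0
    · subst hb
      rw [AuxP1_dirS, PowerSeries.coeff_map, ← Polynomial.C_eq_intCast, ← map_mul]
      exact ⟨_, rfl⟩
    · rw [hp a b c hb, Int.cast_zero, zero_mul]
      exact zero_mem _
  obtain ⟨x, hx⟩ := h
  rw [← hx, coeff_C_zero]

theorem exists_p1 {K : IntermediateField ℚ ℂ} [FiniteDimensional ℚ K] (siegel : SiegelSt K)
    {ν : ℕ} (hν : 1 ≤ ν) {A : ℝ} (hA : 1 ≤ A) {U₁ U₂ U₃ : PowerSeries K} (h₁ : Ar ν A U₁)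
    (h₂ : Ar ν A U₂) (h₃ : Ar ν A U₃) {l : K} (hl : IsIntegral ℤ ((ν : K) * l))
    (bl : ∀ σ : K →+* ℂ, ‖σ l‖ ≤ A) (m a : ℕ) (hm : Module.finrank ℚ K ≤ m) (ha : 1 ≤ a) :
    ∃ p : ℕ → ℕ → ℕ → ℤ, (∀ i j k, j ≠ 0 → p i j k = 0) ∧
      (∃ i < 4 * m * a ^ 2 * 1, ∃ k < 4 * m * a ^ 2, p i 0 k ≠ 0) ∧
      (∀ n < 4 * m * a ^ 3 * 1,
        frm U₁ U₂ U₃ l 0 (4 * m * a ^ 2 * 1) (4 * m * a ^ 2) p n = 0) ∧
      ∀ i j k, |(p i j k : ℝ)| ≤ 5 * (4 * m * a ^ 2 * (1 : ℕ)) ^ 2 * (4 * m * a ^ 2) *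
        ((4 * m * a ^ 3 * 1).factorial * (ν : ℝ) ^ (2 * (4 * m * a ^ 3 * 1)) *
          (4 * A ^ 2) ^ (4 * m * a ^ 3 * 1)) := by
  classical
  have hKpos : 0 < Module.finrank ℚ K := Module.finrank_pos
  have hm1 : 1 ≤ m := le_trans hKpos hm
  obtain ⟨L, hL⟩ : ∃ L, L = 4 * m * a ^ 2 * 1 := ⟨_, rfl⟩
  obtain ⟨L', hL'⟩ : ∃ L', L' = 4 * m * a ^ 2 := ⟨_, rfl⟩
  obtain ⟨N, hN⟩ : ∃ N, N = 4 * m * a ^ 3 * 1 := ⟨_, rfl⟩
  obtain ⟨B, hB⟩ : ∃ B : ℝ, B = (N.factorial * (ν : ℝ) ^ (2 * N) * (4 * A ^ 2) ^ N) := ⟨_, rfl⟩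
  rw [← hL, ← hL', ← hN, ← hB]
  have hLpos : 0 < L := by rw [hL]; positivity
  have hLpos' : 0 < L' := by rw [hL']; positivity
  have hν' : (1 : ℝ) ≤ ν := by exact_mod_cast hν
  have hA2 : (1 : ℝ) ≤ 4 * A ^ 2 := by nlinarith
  have hf1 : (1 : ℝ) ≤ N.factorial := by exact_mod_cast N.factorial_pos
  have hB1 : 1 ≤ B := by
    have h1 : (1 : ℝ) ≤ (ν : ℝ) ^ (2 * N) := one_le_pow₀ hν'
    have h2 : (1 : ℝ) ≤ (4 * A ^ 2) ^ N := one_le_pow₀ hA2
    have h3 : (1 : ℝ) ≤ N.factorial * (ν : ℝ) ^ (2 * N) := one_le_mul_of_one_le_of_one_le hf1 h1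
    rw [hB]
    exact one_le_mul_of_one_le_of_one_le h3 h2
  have hcard : Fintype.card (Fin L × Fin L') = L * L' := by simp
  have hcard' : Fintype.card (Fin N) = N := by simp
  obtain ⟨x, ⟨j0, hj0⟩, hx, hxb⟩ := siegel.fintype (ι := Fin N)
    (κ := Fin L × Fin L') (B := B)
    (by rw [hcard]; positivity)
    (by
      rw [hcard, hcard']
      calc 4 * Module.finrank ℚ K * N ≤ 4 * m * N := by gcongr
        _ = 16 * m ^ 2 * a ^ 3 * 1 := by rw [hN]; ring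
        _ ≤ 16 * m ^ 2 * a ^ 3 * a := by gcongr
        _ = L * L' := by rw [hL, hL']; ring)
    hB1
    (fun i j => ((i : ℕ).factorial : K) * (ν : K) ^ (2 * (i : ℕ)) *
      (PowerSeries.coeff (i : ℕ) (dirS U₁ U₂ U₃ l 0 (j.1 : ℕ) 0 (j.2 : ℕ))).coeff 0)
    (fun i j => dirS_int h₁ h₂ h₃ hl (by rw [mul_zero]; exact isIntegral_zero) _ _ _ _ _)
    (fun i j σ => by
      have hk : (i : ℕ) ≤ N := i.2.le
      have hbd := dirS_bd hA h₁ h₂ h₃ σ (bl σ) (l₂ := 0)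
        (by rw [map_zero, norm_zero]; linarith) (j.1 : ℕ) 0 (j.2 : ℕ) (i : ℕ) 0
      rw [map_mul, map_mul, map_pow, map_natCast, map_natCast, norm_mul, norm_mul, norm_pow,
        Complex.norm_natCast, Complex.norm_natCast]
      have e1 : (((i : ℕ).factorial : ℕ) : ℝ) ≤ N.factorial := by
        exact_mod_cast Nat.factorial_le hk
      have e2 : (ν : ℝ) ^ (2 * (i : ℕ)) ≤ (ν : ℝ) ^ (2 * N) :=
        pow_le_pow_right₀ hν' (by omega)
      have e3 : (4 * A ^ 2) ^ (i : ℕ) ≤ (4 * A ^ 2) ^ N := pow_le_pow_right₀ hA2 hk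
      rw [hB]
      gcongr
      exact hbd.trans e3)
  have hfrm : ∀ k, k < N → ∀ p : ℕ → ℕ → ℕ → ℤ, (∀ i j k, j ≠ 0 → p i j k = 0) →
      (∀ j : Fin L × Fin L', p (j.1 : ℕ) 0 (j.2 : ℕ) = x j) →
      (frm U₁ U₂ U₃ l 0 L L' p k).coeff 0 = 0 := by
    intro k hk p hp0 hp
    have hc : (frm U₁ U₂ U₃ l 0 L L' p k).coeff 0 =
        ∑ j : Fin L × Fin L', (x j : K) *
          (PowerSeries.coeff k (dirS U₁ U₂ U₃ l 0 (j.1 : ℕ) 0 (j.2 : ℕ))).coeff 0 := by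
      rw [frm, Polynomial.finsetSum_coeff, Fintype.sum_prod_type, Finset.sum_range]
      refine Finset.sum_congr rfl fun a' _ => ?_
      rw [Polynomial.finsetSum_coeff, Finset.sum_eq_single 0]
      · rw [Polynomial.finsetSum_coeff, Finset.sum_range]
        refine Finset.sum_congr rfl fun c' _ => ?_
        have := hp (a', c')
        simp only at this
        rw [this, ← Polynomial.C_eq_intCast, Polynomial.coeff_C_mul]
      · intro b' _ hb'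
        rw [Polynomial.finsetSum_coeff]
        refine Finset.sum_eq_zero fun c' _ => ?_
        rw [hp0 _ _ _ hb', Int.cast_zero, zero_mul, Polynomial.coeff_zero]
      · intro h0
        exact absurd (Finset.mem_range.2 hLpos) h0
    have h := hx ⟨k, hk⟩
    simp only at h
    have h' : ((k.factorial : K) * (ν : K) ^ (2 * k)) *
        (frm U₁ U₂ U₃ l 0 L L' p k).coeff 0 = 0 := by
      rw [hc, Finset.mul_sum]
      refine Eq.trans (Finset.sum_congr rfl fun j _ => ?_) h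
      ring
    rcases mul_eq_zero.1 h' with h'' | h''
    · exfalso
      rcases mul_eq_zero.1 h'' with h3 | h3
      · exact (Nat.factorial_ne_zero k) (by exact_mod_cast h3)
      · have h5 : (ν : K) = 0 := by
          by_contra hne
          exact (pow_ne_zero _ hne) h3
        have : ν = 0 := by exact_mod_cast h5
        omega
    · exact h''
  let p : ℕ → ℕ → ℕ → ℤ := fun a' b' c' =>
    if h : b' = 0 ∧ a' < L ∧ c' < L' then x (⟨a', h.2.1⟩, ⟨c', h.2.2⟩) else 0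
  have hp : ∀ j : Fin L × Fin L', p (j.1 : ℕ) 0 (j.2 : ℕ) = x j := by
    intro j
    have h : (0 : ℕ) = 0 ∧ (j.1 : ℕ) < L ∧ (j.2 : ℕ) < L' := ⟨rfl, j.1.2, j.2.2⟩
    simp only [p, dif_pos h]
  have hp0 : ∀ i j k, j ≠ 0 → p i j k = 0 := by
    intro i j k hj
    have h : ¬ (j = 0 ∧ i < L ∧ k < L') := fun h => hj h.1
    simp only [p, dif_neg h]
  refine ⟨p, hp0, ⟨j0.1, j0.1.2, j0.2, j0.2.2, ?_⟩, ?_, ?_⟩
  · rw [hp j0]; exact hj0
  · intro k hk
    rw [frm_const U₁ U₂ U₃ l L L' p hp0 k, hfrm k hk p hp0 hp, map_zero]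
  · intro i j k
    have hLr : (1 : ℝ) ≤ L := by exact_mod_cast hLpos
    have hLr' : (1 : ℝ) ≤ L' := by exact_mod_cast hLpos'
    have hprod : (1 : ℝ) ≤ (L : ℝ) * L' * B :=
      one_le_mul_of_one_le_of_one_le (one_le_mul_of_one_le_of_one_le hLr hLr') hB1
    have hprod2 : (L : ℝ) * L' * B ≤ (L : ℝ) ^ 2 * L' * B := by
      have h0 : 0 ≤ (L : ℝ) * L' * B := by linarith
      have : (L : ℝ) ^ 2 * L' * B = L * ((L : ℝ) * L' * B) := by ring
      rw [this]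
      nlinarith
    have hgoal : (5 : ℝ) * (4 * m * a ^ 2 * (1 : ℕ)) ^ 2 * (4 * m * a ^ 2) * B =
        5 * ((L : ℝ) ^ 2 * L' * B) := by
      rw [hL, hL']; push_cast; ring
    rw [hgoal]
    by_cases h : j = 0 ∧ i < L ∧ k < L'
    · have h1 := hxb (⟨i, h.2.1⟩, ⟨k, h.2.2⟩)
      rw [hcard] at h1
      have h2 : p i j k = x (⟨i, h.2.1⟩, ⟨k, h.2.2⟩) := by simp only [p, dif_pos h]
      rw [h2]
      push_cast at h1
      refine h1.trans ?_
      have : (4 : ℝ) * ((L : ℝ) * L') * B = 4 * ((L : ℝ) * L' * B) := by ring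
      rw [this]
      linarith
    · have h2 : p i j k = 0 := by simp only [p, dif_neg h]
      rw [h2]
      simp only [Int.cast_zero, abs_zero]
      linarith

end Pool.Agent.LGO.U
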