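import Mathlib
import Pool.Agent.LGO.U.AuxP1
import Pool.Agent.LGO.U.Base4
import Pool.Agent.LGO.U.Small4
import Pool.Agent.LGO.U.Num4
import Pool.Agent.LGO.E3.Num
import Pool.Agent.LGO.E3.NumB

/-!
# LGO/U: engine 5, a measure for `l w - 2 π i` (any elliptic curve)

PROOF.  As `Fin4.lean` with one variable.  Let `c` = constant of `base4`, `κ = 4050 c`, `k` from `E3.num 2 κ` (`C₂ = 2`), `C₃` from
`num_eps k`.  Suppose `‖δ‖ < exp (-M^C)`, `δ = w₃ - 2 π i`, `w₃ = l w` (so `l ≠ 0`, `‖w₃‖ ≤ 7`).  `base4` with `l₁ = l`, `l₂ = 0`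
(`Bd.intCast 0`).  `exists_p1` for `U, U, xs K`; parameters `m = ⌈M⌉₊`, `a = m^k`, `t = 1`, `L = L' = 4 m a²`.  By
`mult_exp_coeff` (`c = l`, `p i k := p i 0 k`) some form is not zero with index `≤ 400 (L + L)²`: over `ℂ` the constant
coefficient of `frm .. n` is the `n`-th coefficient of `∑ p i 0 k U^i E(l t)^k` (compare `frm_const`, `ser_dir` in
`LGO/E3/Ser.lean`; evaluate at `X = 0`).  Let `O` be the smallest such index, `O ≥ 4 m a³`, `f = frm .. O = C α`, `α ∈ K`, `α ≠ 0`.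
Upper bound: `small4` with `w₁ = w₂ = w`, `s₂ = s₁`, `l₂ = 0`, `j = 0` (`taylor` of a constant is the constant), `num_small`
and `num_eps` as in `Fin4.lean`: `‖O! ν^(2 O) α‖ ≤ exp (-(O Y))`, `Y = S / 4 - 3 log O - 6 V - 7 G - 5`.
Lower bound (Liouville): `β = O! ν^(2 O) α` is integral (`frm_int`), nonzero, all conjugates are at most
`exp (O (3 log O + 8 V + 4))` (`frm_bd`, `num_house`), so `Bd K (O (3 log O + 8 V + 4)) β` and `Bd.lower` (`LGO/Mul/Ht.lean`, with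
`D = M`) gives `‖β‖ ≥ exp (-(2 M O (3 log O + 8 V + 4)))`.  `num_liou` (hypothesis from `E3.num 2 κ` and `S + 1 > O / (..)`) gives
the contradiction.
-/

namespace Pool.Agent.LGO.U

open Polynomial Pool.Agent.EllSch Pool.Agent.Schn Pool.Agent.LGO.E3

/-- the constant coefficient of a form in one variable -/
private theorem Fin5_coeff {R : Type*} [CommRing R] (U₁ U₂ U₃ : PowerSeries R) (l : R) (L L' : ℕ)
    (hL : 0 < L) (p : ℕ → ℕ → ℕ → ℤ) (hp : ∀ i j k, j ≠ 0 → p i j k = 0) (n : ℕ) :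
    (frm U₁ U₂ U₃ l 0 L L' p n).coeff 0 =
      PowerSeries.coeff n (∑ i ∈ Finset.range L, ∑ k ∈ Finset.range L',
        PowerSeries.C ((p i 0 k : ℤ) : R) * (U₁ ^ i * PowerSeries.rescale l U₃ ^ k)) := by
  rw [frm, Polynomial.finsetSum_coeff, map_sum]
  refine Finset.sum_congr rfl fun a _ => ?_
  rw [Polynomial.finsetSum_coeff, Finset.sum_eq_single 0]
  · rw [Polynomial.finsetSum_coeff, map_sum]
    refine Finset.sum_congr rfl fun c _ => ?_
    rw [AuxP1_dirS, PowerSeries.coeff_map, ← Polynomial.C_eq_intCast, Polynomial.coeff_C_mul,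
      Polynomial.coeff_C_zero, PowerSeries.coeff_C_mul]
  · intro b _ hb
    rw [Polynomial.finsetSum_coeff]
    refine Finset.sum_eq_zero fun c _ => ?_
    rw [hp _ _ _ hb, Int.cast_zero, zero_mul, Polynomial.coeff_zero]
  · intro h0
    exact absurd (Finset.mem_range.2 hL) h0

private theorem Fin5_zero (K : IntermediateField ℚ ℂ) {B : ℝ} (hB : 0 ≤ B) : Bd K B 0 where
  mem := K.zero_mem
  den := ⟨1, one_pos, by simpa using Real.one_le_exp hB, by simpa using isIntegral_zero⟩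
  house := fun σ => by
    have e : (⟨0, K.zero_mem⟩ : K) = 0 := rfl
    rw [e, map_zero, norm_zero]
    exact (Real.exp_pos _).le

private theorem Fin5_w3 {x : ℂ} (h : ‖x - 2 * Real.pi * Complex.I‖ ≤ Real.exp (-1)) :
    ‖x‖ ≤ 7 ∧ x ≠ 0 := by
  have h2 : ‖(2 * Real.pi * Complex.I : ℂ)‖ = 2 * Real.pi := by
    rw [norm_mul, norm_mul, Complex.norm_I, mul_one, Complex.norm_real, Real.norm_eq_abs,
      abs_of_pos Real.pi_pos]
    simp
  have he : Real.exp (-1) ≤ 1 / 2 := by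
    rw [Real.exp_neg, one_div]
    have := Real.add_one_le_exp (1 : ℝ)
    exact inv_anti₀ (by norm_num) (by linarith)
  have h5 := Real.pi_gt_three
  have h6 := Real.pi_lt_d2
  constructor
  · have h3 : ‖x‖ ≤ ‖x - 2 * Real.pi * Complex.I‖ + ‖(2 * Real.pi * Complex.I : ℂ)‖ := by
      have := norm_add_le (x - 2 * Real.pi * Complex.I) (2 * Real.pi * Complex.I)
      rwa [sub_add_cancel] at this
    rw [h2] at h3
    linarith
  · rintro rfl
    rw [zero_sub, norm_neg, h2] at h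
    linarith

/-- the bracket of `small4` -/
private theorem Fin5_br {S L' O : ℕ} {δ E : ℝ} (hS : 1 ≤ S) (hL : 1 ≤ L') (hδ0 : 0 ≤ δ)
    (hE : 8 * (S : ℝ) ^ 2 * L' * Real.exp 14 * 16 ^ (S * O) ≤ E) (hδ : δ * E ≤ 1) :
    S * δ ≤ 1 ∧ (1 / 2 ^ (S * O) + 4 * S * 8 ^ (S * O) *
      (L' * (2 * (S * δ)) * Real.exp 14) : ℝ) ≤ 2 / 2 ^ (S * O) := by
  have hS1 : (1 : ℝ) ≤ S := by exact_mod_cast hS
  have hL1 : (1 : ℝ) ≤ L' := by exact_mod_cast hL
  have h14 : (1 : ℝ) ≤ Real.exp 14 := Real.one_le_exp (by norm_num)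
  have h16 : (1 : ℝ) ≤ 16 ^ (S * O) := one_le_pow₀ (by norm_num)
  constructor
  · have h1 : (S : ℝ) ≤ 8 * (S : ℝ) ^ 2 * L' * Real.exp 14 * 16 ^ (S * O) := by
      calc (S : ℝ) = 1 * (1 * S) * 1 * 1 * 1 := by ring
        _ ≤ 8 * (S * S) * L' * Real.exp 14 * 16 ^ (S * O) := by gcongr; norm_num
        _ = _ := by ring
    calc S * δ ≤ E * δ := mul_le_mul_of_nonneg_right (h1.trans hE) hδ0
      _ = δ * E := mul_comm _ _
      _ ≤ 1 := hδ
  · have h2 : (0 : ℝ) < 2 ^ (S * O) := by positivity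
    have e1 : (4 * S * 8 ^ (S * O) * (L' * (2 * (S * δ)) * Real.exp 14) : ℝ) =
        (8 * (S : ℝ) ^ 2 * L' * Real.exp 14 * 16 ^ (S * O)) * δ / 2 ^ (S * O) := by
      have e2 : (16 : ℝ) ^ (S * O) = 8 ^ (S * O) * 2 ^ (S * O) := by
        rw [← mul_pow]; norm_num
      rw [e2, eq_div_iff h2.ne']
      ring
    rw [e1, ← add_div]
    apply div_le_div_of_nonneg_right _ h2.le
    have : (8 * (S : ℝ) ^ 2 * L' * Real.exp 14 * 16 ^ (S * O)) * δ ≤ E * δ :=
      mul_le_mul_of_nonneg_right hE hδ0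
    linarith

theorem engine5 : ∃ C : ℕ, ∀ (K : IntermediateField ℚ ℂ) [FiniteDimensional ℚ K] (M T : ℝ)
    (w τ l : ℂ), 2 ≤ M → (Module.finrank ℚ K : ℝ) ≤ M → 0 < T → T ≤ 1 → 1 ≤ M * T →
    Cur K M (M * T) T w τ → Cur K M (M * T) T (w * τ) (-1 / τ) → Bd K (M * T) l →
    Real.exp (-(M ^ C)) ≤ ‖l * w - 2 * Real.pi * Complex.I‖ := by
  obtain ⟨CB, hCB, hbase⟩ := base4
  set c : ℝ := (CB : ℝ) with hc_def
  have hc8 : 8 ≤ c := by rw [hc_def]; exact_mod_cast hCB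
  have hc : 1 ≤ c := by linarith
  set κ : ℝ := 4050 * c with hκ_def
  have hκ : 1 ≤ κ := by rw [hκ_def]; linarith
  obtain ⟨k, hk1, hnum⟩ := num 2 κ hκ
  obtain ⟨C₃, heps⟩ := num_eps k
  refine ⟨C₃, ?_⟩
  intro K _ M T w τ l hM hfin hT hT1 hMT c₁ c₂ hl
  by_contra hcon
  push Not at hcon
  have hM0 : 0 < M := by linarith
  obtain ⟨r1, r2, r3, r4, r5, r6⟩ := fin_r hc hM hT hMT
  have h0 : Bd K (M * T) 0 := Fin5_zero K (by linarith)
  obtain ⟨s₁, e₁, s₂, e₂, U, ν, A, V, hν, hA, hV_def, hA_def, hνV, bU, bx, hUmap, loc₁, loc₂,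
    gr₁, gr₂, lo₁, lo₂, i₁, i₂, bl₁, bl₂⟩ := hbase K M T w τ l 0 hM hfin hT hMT c₁ c₂ hl h0
  set l' : K := ⟨l, hl.mem⟩ with hl'
  set δ : ℝ := ‖l * w - 2 * Real.pi * Complex.I‖ with hδ_def
  have hδ0 : 0 ≤ δ := norm_nonneg _
  have hMC : (1 : ℝ) ≤ M ^ C₃ := one_le_pow₀ (by linarith)
  have hδ1 : δ ≤ Real.exp (-1) := hcon.le.trans (Real.exp_le_exp.2 (by linarith))
  have hδE : δ * Real.exp (M ^ C₃) ≤ 1 := by
    calc δ * Real.exp (M ^ C₃) ≤ Real.exp (-(M ^ C₃)) * Real.exp (M ^ C₃) :=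
          mul_le_mul_of_nonneg_right hcon.le (Real.exp_pos _).le
      _ = 1 := by rw [← Real.exp_add, neg_add_cancel, Real.exp_zero]
  obtain ⟨hw37, hw30⟩ := Fin5_w3 hδ1
  have hl0 : l ≠ 0 := fun h => hw30 (by rw [h, zero_mul])
  have hV : 0 ≤ V := by rw [hV_def]; linarith
  have hAV : A ≤ Real.exp V := by
    rw [hA_def, hV_def]
    exact Real.exp_le_exp.2 (by linarith)
  -- parameters
  set m : ℕ := ⌈M⌉₊ with hm_def
  have hmM : M ≤ m := Nat.le_ceil M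
  have hm2M : (m : ℝ) ≤ 2 * M := by
    have := Nat.ceil_lt_add_one hM0.le
    rw [← hm_def] at this
    linarith
  have hm2 : 2 ≤ m := by
    have : (2 : ℝ) ≤ m := hM.trans hmM
    exact_mod_cast this
  have hmfin : Module.finrank ℚ K ≤ m := by
    have : (Module.finrank ℚ K : ℝ) ≤ m := hfin.trans hmM
    exact_mod_cast this
  obtain ⟨a, ha_def⟩ : ∃ a : ℕ, a = m ^ k := ⟨_, rfl⟩
  have ha1 : 1 ≤ a := by rw [ha_def]; exact Nat.one_le_pow _ _ (by omega)
  obtain ⟨p, hp0, hpne, hplow, hpP⟩ := exists_p1 (siegel K) hν hA bU bU bx i₁ bl₁ m a hmfin ha1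
  set P : ℝ := 5 * (4 * m * a ^ 2 * (1 : ℕ)) ^ 2 * (4 * m * a ^ 2) *
        ((4 * m * a ^ 3 * 1).factorial * (ν : ℝ) ^ (2 * (4 * m * a ^ 3 * 1)) *
          (4 * A ^ 2) ^ (4 * m * a ^ 3 * 1)) with hP_def
  obtain ⟨L, hL_def⟩ : ∃ L : ℕ, L = 4 * m * a ^ 2 * 1 := ⟨_, rfl⟩
  obtain ⟨L', hL'_def⟩ : ∃ L' : ℕ, L' = 4 * m * a ^ 2 := ⟨_, rfl⟩
  have hLL : L = L' := by rw [hL_def, hL'_def, mul_one]
  rw [← hL_def, ← hL'_def] at hpne hplow
  have hL'1 : 1 ≤ L' := by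
    rw [hL'_def]
    have : 0 < 4 * m * a ^ 2 := by positivity
    exact this
  -- complex versions
  have hmap : ∀ j, (frm U U (xs K) l' 0 L L' p j).map (algebraMap K ℂ) =
      frm (tay (Mul.iu w (w * τ))) (tay (Mul.iu w (w * τ))) (xs ℂ) l 0 L L' p j := fun j => by
    rw [map_frm (algebraMap K ℂ), hUmap, xs_map, map_zero]
    rfl
  have hI : Ind w (w * τ) := by
    have := ind_smul (ind_one c₁.im_pos) c₁.w0
    rwa [mul_one] at this
  obtain ⟨n₀, hn₀, hn₀c⟩ := mult_exp_coeff hI hl0 (fun i k => ((p i 0 k : ℤ) : ℂ)) L L' (by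
    obtain ⟨i, hi, k', hk', hne⟩ := hpne
    exact ⟨i, hi, k', hk', by exact_mod_cast hne⟩)
  have hn₀f : frm U U (xs K) l' 0 L L' p n₀ ≠ 0 := by
    intro h
    apply hn₀c
    rw [← Fin5_coeff _ (tay (Mul.iu w (w * τ))) _ _ L L' (by omega) p hp0, ← hmap, h,
      Polynomial.map_zero, Polynomial.coeff_zero]
  have hall : ∃ j, frm U U (xs K) l' 0 L L' p j ≠ 0 := ⟨n₀, hn₀f⟩
  classical
  obtain ⟨O, hO_def⟩ : ∃ O : ℕ, O = Nat.find hall := ⟨_, rfl⟩
  have hO : frm U U (xs K) l' 0 L L' p O ≠ 0 := by rw [hO_def]; exact Nat.find_spec hall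
  have hlow : ∀ j < O, frm U U (xs K) l' 0 L L' p j = 0 := fun j hj => by
    rw [hO_def] at hj
    have := Nat.find_min hall hj
    push Not at this
    exact this
  have hOn : O ≤ 400 * (L + L') ^ 2 := by
    rw [hO_def]
    exact (Nat.find_min' hall hn₀f).trans hn₀
  have hNO : 4 * m * a ^ 3 * 1 ≤ O := by
    by_contra hcon'
    push Not at hcon'
    exact hO (hplow O hcon')
  obtain ⟨hκa, hfinal⟩ := hnum M T m a 1 O hM hT hMT hmM hm2M ha_def le_rfl
    (by simpa using hT1) (by push_cast; linarith) hNO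
  have ha270 : 270 * c ≤ a := by rw [hκ_def] at hκa; linarith
  have ha2 : 2 ≤ a := by
    have : (2 : ℝ) ≤ a := by linarith
    exact_mod_cast this
  have hO64 : 64 ≤ O := by
    refine le_trans ?_ hNO
    have h1 : 2 ^ 3 ≤ a ^ 3 := Nat.pow_le_pow_left ha2 3
    calc 64 = 4 * 2 * 2 ^ 3 * 1 := by norm_num
      _ ≤ 4 * m * a ^ 3 * 1 := by gcongr
  have hO64' : (64 : ℝ) ≤ O := by exact_mod_cast hO64
  have hO0 : (0 : ℝ) < O := by linarith
  obtain ⟨G, hG_def⟩ : ∃ G : ℝ, G = c * (M ^ 2 * T) := ⟨_, rfl⟩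
  have hG : 0 ≤ G := by rw [hG_def]; positivity
  rw [← hG_def] at gr₁ lo₁
  obtain ⟨S, hS_def⟩ : ∃ S : ℕ, S = ⌊(O : ℝ) / (4050 * c * M * (4 * m * a ^ 2))⌋₊ := ⟨_, rfl⟩
  have hden : (0 : ℝ) < 4050 * c * M * (4 * m * a ^ 2) := by
    have : (0 : ℝ) < m := by exact_mod_cast (by omega : 0 < m)
    have : (0 : ℝ) < a := by exact_mod_cast (by omega : 0 < a)
    positivity
  have hS1 : (S : ℝ) ≤ O / (4050 * c * M * (4 * m * a ^ 2)) := by
    rw [hS_def]; exact Nat.floor_le (by positivity)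
  have hS2 : O / (4050 * c * M * (4 * m * a ^ 2)) < S + 1 := by
    rw [hS_def]; exact Nat.lt_floor_add_one _
  have hSO : S ≤ O := by
    have h1 : (O : ℝ) / (4050 * c * M * (4 * m * a ^ 2)) ≤ O := by
      apply div_le_self hO0.le
      have hmr : (1 : ℝ) ≤ m := by linarith
      have har : (1 : ℝ) ≤ (a : ℝ) ^ 2 := one_le_pow₀ (by linarith)
      have h3 : (1 : ℝ) ≤ 4050 * c := by linarith
      have h4 : (1 : ℝ) ≤ 4050 * c * M := one_le_mul_of_one_le_of_one_le h3 (by linarith)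
      exact one_le_mul_of_one_le_of_one_le h4
        (one_le_mul_of_one_le_of_one_le (by linarith) har)
    exact_mod_cast hS1.trans h1
  obtain ⟨Q, hQ_def⟩ : ∃ Q : ℝ, Q = (4 * m * a ^ 2 * ((1 : ℕ) : ℝ)) ^ 2 * (4 * m * a ^ 2) * P :=
    ⟨_, rfl⟩
  have hQ : Q ≤ Real.exp (O * (2 * Real.log O + 4 * V + 2)) := by
    rw [hQ_def]
    exact num_P hm2 ha2 le_rfl hNO hν hV hνV hA hAV
  have hQ0 : (L : ℝ) ^ 2 * L' * P = Q := by
    rw [hQ_def, hL_def, hL'_def]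
    push_cast
    ring
  have hlogO : 0 ≤ Real.log O := Real.log_nonneg (by linarith)
  have hSbig : κ * (Real.log O + M ^ 2 * T +
      T * (κ * ((Real.log O + M ^ 2 * T) / T)) ^ 2) < S + 1 := hfinal.trans hS2
  have hSpos : 1 ≤ S := by
    have hZ : 0 ≤ T * (κ * ((Real.log O + M ^ 2 * T) / T)) ^ 2 := by positivity
    have h1 : (1 : ℝ) * (0 + 1 + 0) ≤ κ * (Real.log O + M ^ 2 * T +
      T * (κ * ((Real.log O + M ^ 2 * T) / T)) ^ 2) := by gcongr
    have h2 : (0 : ℝ) < S := by linarith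
    exact_mod_cast h2
  -- the number
  obtain ⟨α, hα⟩ : ∃ α : K, frm U U (xs K) l' 0 L L' p O = C α :=
    ⟨_, frm_const U U (xs K) l' L L' p hp0 O⟩
  have hα0 : α ≠ 0 := by
    rintro rfl
    exact hO (by rw [hα, map_zero])
  have hαc : (frm U U (xs K) l' 0 L L' p O).coeff 0 = α := by rw [hα, coeff_C_zero]
  obtain ⟨D, hD_def⟩ : ∃ D : K, D = (O.factorial : K) * (ν : K) ^ (2 * O) := ⟨_, rfl⟩
  have hDne : D ≠ 0 := by
    rw [hD_def]
    have h1 : (O.factorial : K) ≠ 0 := by exact_mod_cast O.factorial_ne_zero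
    have h2 : (ν : K) ≠ 0 := by exact_mod_cast (by omega : ν ≠ 0)
    exact mul_ne_zero h1 (pow_ne_zero _ h2)
  have hDn : ∀ σ : K →+* ℂ, ‖σ D‖ = O.factorial * (ν : ℝ) ^ (2 * O) := fun σ => by
    rw [hD_def, map_mul, map_pow, map_natCast, map_natCast, norm_mul, norm_pow,
      Complex.norm_natCast, Complex.norm_natCast]
  obtain ⟨H, hH_def⟩ : ∃ H : ℝ, H = O * (3 * Real.log O + 8 * V + 4) := ⟨_, rfl⟩
  have hH : 0 ≤ H := by rw [hH_def]; positivity
  have bl0 : ∀ σ : K →+* ℂ, ‖σ (0 : K)‖ ≤ A := fun σ => by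
    rw [map_zero, norm_zero]; linarith
  have i0 : IsIntegral ℤ ((ν : K) * (0 : K)) := by rw [mul_zero]; exact isIntegral_zero
  have hβ : Bd K H ((D * α : K) : ℂ) := by
    refine ⟨(D * α : K).2, ⟨1, one_pos, by simpa using Real.one_le_exp hH, ?_⟩, ?_⟩
    · rw [Nat.cast_one, one_mul]
      have h1 := frm_int bU bU bx i₁ i0 L L' p O 0
      rw [hαc, ← hD_def] at h1
      exact h1.algebraMap (B := ℂ)
    · intro σ
      have e : (⟨((D * α : K) : ℂ), (D * α : K).2⟩ : K) = D * α := rfl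
      rw [e, map_mul, norm_mul, hDn]
      have h1 := frm_bd hA bU bU bx σ (bl₁ σ) (bl0 σ) L L' p P hpP O 0
      have h2 := num_house (O := O) (by omega) hν hV hνV hA hAV hQ
      rw [hQ0, hαc] at h1
      rw [hH_def]
      exact (mul_le_mul_of_nonneg_left h1 (by positivity)).trans h2
  have hβ0 : ((D * α : K) : ℂ) ≠ 0 := by
    have h1 : (D * α : K) ≠ 0 := mul_ne_zero hDne hα0
    exact_mod_cast h1
  have hlower := hβ.lower hfin hH hβ0 (algebraMap K ℂ)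
  -- the upper bound
  have hbr := Fin5_br hSpos hL'1 hδ0 (heps M m a L' O S hM hm2M (by omega) ha_def hL'_def
    (by rw [hLL] at hOn; omega) hSO) hδE
  have hsm := small4 loc₁ loc₁ hc8 hG hT (by positivity : (0 : ℝ) < 1 / M) gr₁ gr₁ lo₁ lo₁ hw37
    (by rw [norm_zero]; exact (Real.exp_pos _).le : ‖(0 : ℂ)‖ ≤ Real.exp G)
    (by rw [zero_mul, add_zero] : l * w + 0 * w = l * w) L L' p hpP O
    (fun j hj => by rw [← hmap, hlow j hj, Polynomial.map_zero]) (natDegree_frm _ _ _ _ _ _ _ _ _)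
    S hSpos hbr.1 0 (by omega)
  have hfc : frm (tay (Mul.iu w (w * τ))) (tay (Mul.iu w (w * τ))) (xs ℂ) l 0 L L' p O =
      C (α : ℂ) := by
    rw [← hmap, hα, Polynomial.map_C]
    rfl
  rw [hfc, taylor_C, coeff_C_zero] at hsm
  have hns := num_small (S := S) (G := G) hM hT hMT hm2 ha2 (le_refl 1)
    (by push_cast; linarith) hNO hν hV hνV hc ha270 hG hS1 hQ
  have hup : ‖((D * α : K) : ℂ)‖ ≤
      Real.exp (-(O * (S / 4 - 3 * Real.log O - 6 * V - 7 * G - 5))) := by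
    have e0 : ((D * α : K) : ℂ) = (D : ℂ) * (α : ℂ) := by push_cast; ring
    have e1 : ‖(D : ℂ)‖ = O.factorial * (ν : ℝ) ^ (2 * O) := hDn (algebraMap K ℂ)
    rw [e0, norm_mul, e1]
    have h3 : (2 : ℝ) ≤ Real.exp O := by
      have := Real.add_one_le_exp (O : ℝ)
      linarith
    have hP0 : 0 ≤ P := (abs_nonneg _).trans (hpP 0 0 0)
    have hQ00 : 0 ≤ Q := by
      rw [← hQ0]
      exact mul_nonneg (by positivity) hP0
    calc O.factorial * (ν : ℝ) ^ (2 * O) * ‖(α : ℂ)‖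
        ≤ O.factorial * (ν : ℝ) ^ (2 * O) * ((L : ℝ) ^ 2 * L' * P *
          Real.exp (2 * L * (c * (81 * S ^ 2 / T + 9 * S) + G)
            + L' * (c * (81 * S ^ 2 / (1 / M) + 9 * S) + G) + (4 * G + 1) * O) *
            (2 / 2 ^ (S * O))) := by
          apply mul_le_mul_of_nonneg_left _ (by positivity)
          exact hsm.trans (mul_le_mul_of_nonneg_left hbr.2
            (mul_nonneg (mul_nonneg (by positivity) hP0) (Real.exp_pos _).le))
      _ = 2 * (O.factorial * (ν : ℝ) ^ (2 * O) * (Q * Real.exp (2 * (4 * m * a ^ 2 * (1 : ℕ)) *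
      (c * (81 * S ^ 2 / T + 9 * S) + G) + (4 * m * a ^ 2) * (c * (81 * S ^ 2 / (1 / M) + 9 * S) + G)
        + (4 * G + 1) * O) / 2 ^ (S * O))) := by
          rw [hQ0, hL_def, hL'_def]
          push_cast
          ring
      _ ≤ Real.exp O * Real.exp (-(O * (S / 4 - 3 * Real.log O - 6 * V - 7 * G - 4))) := by
          apply mul_le_mul h3 hns (by positivity) (Real.exp_pos _).le
      _ = Real.exp (-(O * (S / 4 - 3 * Real.log O - 6 * V - 7 * G - 5))) := by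
          rw [← Real.exp_add]
          congr 1
          ring
  have hfinb := Real.exp_le_exp.1 (hlower.trans hup)
  rw [hH_def] at hfinb
  have hcmp : S / 4 - 3 * Real.log O - 6 * V - 7 * G - 5 ≤
      2 * M * (3 * Real.log O + 8 * V + 4) := by
    have h1 : O * (S / 4 - 3 * Real.log O - 6 * V - 7 * G - 5) ≤
        O * (2 * M * (3 * Real.log O + 8 * V + 4)) := by linarith
    exact le_of_mul_le_mul_left h1 hO0
  have hMT' : M * T ≤ M := by nlinarith
  have hlio := num_liou (c := c) (κ := κ) (lo := Real.log O) (M := M) (T := T) (S := S) (V := V)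
    (G := G) hc hκ_def hlogO hM hT hT1 hMT hV (by rw [hV_def]; gcongr)
    (by rw [hG_def]; apply mul_le_mul_of_nonneg_left _ (by linarith); nlinarith) hSbig
  linarith

end Pool.Agent.LGO.U
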