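import Mathlib
import Pool.Agent.LGO.U.Fin4
import Pool.Agent.LGO.U.Fin5
import Pool.Agent.LGO.H.BdC
import Pool.Agent.LGO.Mul.Ht
import Pool.Agent.LGO.Mul.Main
import Pool.Agent.EllSch.JFun

/-!
# LGO/U: the measure for the periods of a fixed elliptic curve and `2 π i`

PROOF.  Fix `w, τ`.  If `ρ = 0`: `‖p w + q w τ‖ ≥ c₀ > 0` for all `(p, q) ≠ 0` (a lattice is discrete: `‖p + q τ‖ ≥ min(1, ..)`).
Let `ρ ≠ 0`.  `x = p + q τ`.

Common preparation: let `a₂ = G2 w (w τ)`, `a₃ = G3 w (w τ)` (algebraic), `K' = K ⊔ ℚ(a₂, a₃)` resp. `K ⊔ ℚ(a₂, a₃, τ)`; its degree is at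
most `d₀ [K : ℚ]`, `d₀` the degree of the fixed field (`IntermediateField.finrank_sup_le`).  For a fixed algebraic number `y` there
is `B_y` with `Bd F B_y y` for every field `F ∋ y`.  Let `M' = C₁ M²` and `T = 1 / (C₂)` with constants depending on `w, τ` only:
`Cur K' M' (M' T) T w τ` and `Cur K' M' (M' T) T (w τ) (-1/τ)` hold for `C₁` large (`Im τ ≥ T`, `Im (-1/τ) = Im τ / ‖τ‖² ≥ T`;
`sh`: nonzero elements of the lattice have norm `≥ c₀`).  By Liouville (`Bd.lower`, `D = M`) `‖σ ρ‖ ≥ exp (-(2 M²))` for all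
embeddings, and with the denominator `n` of `ρ`: `ρ⁻¹` has a denominator at most `‖Norm(n ρ)‖ ≤ exp (2 M²)` (`exists_dvd` in
`LGO/Mul/Main.lean`), so `Bd K (3 M²) ρ⁻¹`.

Case 1: `NonCM τ`.  `l₁ = p / ρ`, `l₂ = q / ρ`: `Bd K' (4 M²) l_i`; `p w + q w τ - 2 π i ρ = ρ (l₁ w + l₂ w τ - 2 π i)`, `‖ρ‖ ≥ exp (-(2 M²))`, and
`engine4` with `M'`.
Case 2: `τ` is quadratic: `a τ² + b τ + c = 0`, `(a, b, c) ≠ 0`, so `a ≠ 0` (`Im τ > 0`) and `τ` is algebraic.  `l = (p + q τ) / ρ`: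
`Bd K' (C M²) l` with `K' ∋ τ`; `p w + q w τ - 2 π i ρ = ρ (l w - 2 π i)`, `engine5`.
-/

namespace Pool.Agent.LGO.U

open Pool.Agent.EllSch

/-- an algebraic number is bounded in all fields which contain it -/
private lemma MeasG_alg {y : ℂ} (hy : IsAlgebraic ℚ y) :
    ∃ B : ℝ, 0 ≤ B ∧ ∀ K : IntermediateField ℚ ℂ, y ∈ K → Bd K B y := by
  -- denominator
  have hyZ : IsAlgebraic ℤ y := (IsFractionRing.isAlgebraic_iff ℤ ℚ ℂ).2 hy
  obtain ⟨n, hn0, hn⟩ := hyZ.exists_integral_multiple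
  -- conjugates
  obtain ⟨p, hp, hp0⟩ := hy
  have hfin : (p.rootSet ℂ).Finite := Polynomial.rootSet_finite p ℂ
  obtain ⟨B, hB⟩ := (hfin.image fun z => ‖z‖).bddAbove
  have hnabs : 0 < n.natAbs := Int.natAbs_pos.2 hn0
  have hn1 : (1 : ℝ) ≤ (n.natAbs : ℝ) := by exact_mod_cast hnabs
  refine ⟨(n.natAbs : ℝ) + max B 0, by positivity, fun K hK => ⟨hK, ?_, ?_⟩⟩
  · refine ⟨n.natAbs, hnabs, ?_, ?_⟩
    · have h1 := Real.add_one_le_exp ((n.natAbs : ℝ) + max B 0)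
      have h2 : 0 ≤ max B 0 := le_max_right _ _
      linarith
    · have e : n • y = (n : ℂ) * y := by rw [zsmul_eq_mul]
      rw [e] at hn
      rcases Int.natAbs_eq n with h | h
      · have e2 : ((n.natAbs : ℕ) : ℂ) = (n : ℂ) := by
          conv_rhs => rw [h]
          simp
        rw [e2]; exact hn
      · have e2 : ((n.natAbs : ℕ) : ℂ) = -(n : ℂ) := by
          conv_rhs => rw [h]
          simp
        rw [e2, neg_mul]; exact hn.neg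
  · intro σ
    have h1 : Polynomial.aeval (σ ⟨y, hK⟩) p = 0 := by
      have h2 := Polynomial.aeval_algHom_apply (RingHom.toRatAlgHom σ) (⟨y, hK⟩ : K) p
      have h3 : Polynomial.aeval (⟨y, hK⟩ : K) p = 0 := by
        have h4 := Polynomial.aeval_algebraMap_apply ℂ (⟨y, hK⟩ : K) p
        have h5 : algebraMap K ℂ (⟨y, hK⟩ : K) = y := rfl
        rw [h5, hp0] at h4
        exact (map_eq_zero_iff (algebraMap K ℂ) (algebraMap K ℂ).injective).1 h4.symm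
      rw [h3, map_zero] at h2
      exact h2
    have h3 : σ ⟨y, hK⟩ ∈ p.rootSet ℂ := by
      rw [Polynomial.mem_rootSet]
      exact ⟨hp, h1⟩
    have h4 : ‖σ ⟨y, hK⟩‖ ≤ B := hB ⟨_, h3, rfl⟩
    have h5 := Real.add_one_le_exp ((n.natAbs : ℝ) + max B 0)
    have h6 : B ≤ max B 0 := le_max_left _ _
    linarith

/-- the inverse -/
private lemma MeasG_inv {K : IntermediateField ℚ ℂ} [FiniteDimensional ℚ K] {M : ℝ} {ρ : ℂ}
    (hM : 2 ≤ M) (hD : (Module.finrank ℚ K : ℝ) ≤ M) (h : Bd K M ρ) (h0 : ρ ≠ 0) :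
    Bd K (2 * M ^ 2) ρ⁻¹ := by
  have hlow := fun σ => Bd.lower hD (by linarith) h h0 σ
  obtain ⟨n, hn, hnM, hint⟩ := h.den
  have hn0 : (n : ℂ) ≠ 0 := Nat.cast_ne_zero.2 hn.ne'
  have hxK : (n : ℂ) * ρ ∈ K := K.mul_mem (natCast_mem K n) h.mem
  obtain ⟨m, hm, hmle, hmi⟩ := MulMain.exists_dvd (M := 2 * M) hD (by linarith) hxK hint
    (mul_ne_zero hn0 h0) (by
      intro σ
      have e : (⟨(n : ℂ) * ρ, hxK⟩ : K) = (n : K) * ⟨ρ, h.mem⟩ := by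
        apply Subtype.ext; push_cast; rfl
      rw [e, map_mul, map_natCast, norm_mul, Complex.norm_natCast]
      calc (n : ℝ) * ‖σ ⟨ρ, h.mem⟩‖ ≤ Real.exp M * Real.exp M :=
            mul_le_mul hnM (h.house σ) (norm_nonneg _) (Real.exp_pos _).le
        _ = Real.exp (2 * M) := by rw [← Real.exp_add]; ring_nf)
  refine ⟨K.inv_mem h.mem, ⟨m, hm, ?_, ?_⟩, ?_⟩
  · refine hmle.trans (le_of_eq ?_)
    ring_nf
  · have e : (m : ℂ) * ρ⁻¹ = (n : ℂ) * ((m : ℂ) * ((n : ℂ) * ρ)⁻¹) := by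
      field_simp
    rw [e]
    exact isIntegral_natCast_mul n hmi
  · intro σ
    have e : (⟨ρ⁻¹, K.inv_mem h.mem⟩ : K) = (⟨ρ, h.mem⟩ : K)⁻¹ := by
      apply Subtype.ext; rfl
    have h1 := hlow σ
    rw [e, map_inv₀, norm_inv]
    have h2 : Real.exp (-(2 * M ^ 2)) ≤ ‖σ ⟨ρ, h.mem⟩‖ := by
      refine le_trans (le_of_eq ?_) h1
      ring_nf
    have h3 : 0 < Real.exp (-(2 * M ^ 2)) := Real.exp_pos _
    calc ‖σ ⟨ρ, h.mem⟩‖⁻¹ ≤ (Real.exp (-(2 * M ^ 2)))⁻¹ := inv_anti₀ h3 h2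
      _ = Real.exp (2 * M ^ 2) := by rw [Real.exp_neg, inv_inv]

/-- lattices are discrete -/
private lemma MeasG_disc {w τ : ℂ} (hw : w ≠ 0) (hτ : 0 < τ.im) :
    ∃ c : ℝ, 0 < c ∧ ∀ m n : ℤ, ¬ (m = 0 ∧ n = 0) → c ≤ ‖(m : ℂ) * w + n * (w * τ)‖ := by
  have hw' : 0 < ‖w‖ := norm_pos_iff.2 hw
  refine ⟨‖w‖ * min 1 τ.im, by positivity, fun m n hmn => ?_⟩
  have e : (m : ℂ) * w + n * (w * τ) = w * ((m : ℂ) + n * τ) := by ring
  rw [e, norm_mul]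
  refine mul_le_mul_of_nonneg_left ?_ hw'.le
  by_cases hn : n = 0
  · have hm : m ≠ 0 := fun h => hmn ⟨h, hn⟩
    rw [hn, Int.cast_zero, zero_mul, add_zero, Complex.norm_intCast]
    refine (min_le_left _ _).trans ?_
    exact_mod_cast Int.one_le_abs hm
  · refine (min_le_right _ _).trans ?_
    have h1 : |((m : ℂ) + n * τ).im| ≤ ‖(m : ℂ) + n * τ‖ := Complex.abs_im_le_norm _
    have h2 : ((m : ℂ) + n * τ).im = n * τ.im := by simp
    rw [h2, abs_mul, abs_of_pos hτ] at h1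
    have h3 : (1 : ℝ) ≤ |(n : ℝ)| := by exact_mod_cast Int.one_le_abs hn
    nlinarith

private lemma MeasG_nat (x : ℝ) : ∃ n : ℕ, 1 ≤ n ∧ x ≤ (n : ℝ) :=
  ⟨⌈x⌉₊ + 1, by omega, by
    have := Nat.le_ceil x
    push_cast
    linarith⟩

/-- the common preparation -/
private lemma MeasG_prep {w τ : ℂ} (hw : w ≠ 0) (hτ : 0 < τ.im) (F : IntermediateField ℚ ℂ)
    [FiniteDimensional ℚ F] (h2 : G2 w (w * τ) ∈ F) (h3 : G3 w (w * τ) ∈ F) (B₀ : ℝ) :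
    ∃ (T : ℝ) (C₁ : ℕ), 0 < T ∧ T ≤ 1 ∧ 1 ≤ C₁ ∧ B₀ + 1 ≤ C₁ * T ∧
      ∀ (K : IntermediateField ℚ ℂ) [FiniteDimensional ℚ K] (M : ℝ), 2 ≤ M →
        (Module.finrank ℚ K : ℝ) ≤ M →
        (Module.finrank ℚ (K ⊔ F : IntermediateField ℚ ℂ) : ℝ) ≤ C₁ * M ^ 2 ∧
        1 ≤ C₁ * M ^ 2 * T ∧
        Cur (K ⊔ F) (C₁ * M ^ 2) (C₁ * M ^ 2 * T) T w τ ∧
        Cur (K ⊔ F) (C₁ * M ^ 2) (C₁ * M ^ 2 * T) T (w * τ) (-1 / τ) := by
  have hτ0 : τ ≠ 0 := by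
    rintro rfl
    simp at hτ
  have halg : ∀ y ∈ F, IsAlgebraic ℚ y := by
    intro y hy
    have h1 : IsAlgebraic ℚ (⟨y, hy⟩ : F) := Algebra.IsAlgebraic.isAlgebraic _
    exact h1.algebraMap
  obtain ⟨B2, hB20, hB2⟩ := MeasG_alg (halg _ h2)
  obtain ⟨B3, hB30, hB3⟩ := MeasG_alg (halg _ h3)
  obtain ⟨c, hc, hdisc⟩ := MeasG_disc hw hτ
  have him : 0 < (-1 / τ).im := by
    have e : (-1 / τ).im = τ.im / Complex.normSq τ := by
      rw [neg_div, one_div, Complex.neg_im, Complex.inv_im, neg_div, neg_neg]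
    rw [e]
    have : 0 < Complex.normSq τ := Complex.normSq_pos.2 hτ0
    positivity
  set T : ℝ := min 1 (min τ.im (-1 / τ).im) with hT
  have hT0 : 0 < T := by
    rw [hT]; exact lt_min one_pos (lt_min hτ him)
  have hT1 : T ≤ 1 := min_le_left _ _
  obtain ⟨C₁, hC1, hC⟩ := MeasG_nat ((|B₀| + 1 + B2 + B3) / T + (Module.finrank ℚ F : ℝ) +
    ‖w‖ / c + ‖w * τ‖ / c)
  have hp1 : 0 ≤ (|B₀| + 1 + B2 + B3) / T := by positivity
  have hp2 : 0 ≤ (Module.finrank ℚ F : ℝ) := by positivity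
  have hp3 : 0 ≤ ‖w‖ / c := by positivity
  have hp4 : 0 ≤ ‖w * τ‖ / c := by positivity
  have hCT : |B₀| + 1 + B2 + B3 ≤ C₁ * T := by
    have h : (|B₀| + 1 + B2 + B3) / T ≤ C₁ := by linarith
    rwa [div_le_iff₀ hT0] at h
  have hCF : (Module.finrank ℚ F : ℝ) ≤ C₁ := by linarith
  have hCw : ‖w‖ ≤ C₁ * c := by
    have h : ‖w‖ / c ≤ C₁ := by linarith
    rwa [div_le_iff₀ hc] at h
  have hCw' : ‖w * τ‖ ≤ C₁ * c := by
    have h : ‖w * τ‖ / c ≤ C₁ := by linarith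
    rwa [div_le_iff₀ hc] at h
  have hC0 : (0 : ℝ) ≤ C₁ := by positivity
  refine ⟨T, C₁, hT0, hT1, hC1, ?_, ?_⟩
  · have := le_abs_self B₀
    linarith
  intro K _ M hM hD
  have hM1 : 1 ≤ M ^ 2 := by nlinarith
  have hMM : M ≤ M ^ 2 := by nlinarith
  have hbig : |B₀| + 1 + B2 + B3 ≤ C₁ * M ^ 2 * T := by
    have h0 : 0 ≤ C₁ * T := by positivity
    nlinarith
  have habs := abs_nonneg B₀
  have hb2 : Bd (K ⊔ F) (C₁ * M ^ 2 * T) (G2 w (w * τ)) :=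
    (hB2 (K ⊔ F) ((le_sup_right : F ≤ K ⊔ F) h2)).mono (by linarith)
  have hb3 : Bd (K ⊔ F) (C₁ * M ^ 2 * T) (G3 w (w * τ)) :=
    (hB3 (K ⊔ F) ((le_sup_right : F ≤ K ⊔ F) h3)).mono (by linarith)
  have hcC : ∀ m n : ℤ, ¬ (m = 0 ∧ n = 0) → C₁ * c ≤ C₁ * M ^ 2 * ‖(m : ℂ) * w + n * (w * τ)‖ := by
    intro m n hmn
    have h1 := hdisc m n hmn
    have h2 : 0 ≤ ‖(m : ℂ) * w + n * (w * τ)‖ := norm_nonneg _
    calc (C₁ : ℝ) * c ≤ C₁ * (M ^ 2 * ‖(m : ℂ) * w + n * (w * τ)‖) := by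
          refine mul_le_mul_of_nonneg_left ?_ hC0
          nlinarith
      _ = C₁ * M ^ 2 * ‖(m : ℂ) * w + n * (w * τ)‖ := by ring
  refine ⟨?_, ?_, ?_, ?_⟩
  · have h1 : (Module.finrank ℚ (K ⊔ F : IntermediateField ℚ ℂ) : ℝ) ≤
        (Module.finrank ℚ K : ℝ) * (Module.finrank ℚ F : ℝ) := by
      exact_mod_cast IntermediateField.finrank_sup_le K F
    have hK0 : (0 : ℝ) ≤ (Module.finrank ℚ K : ℝ) := by positivity
    calc (Module.finrank ℚ (K ⊔ F : IntermediateField ℚ ℂ) : ℝ)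
        ≤ (Module.finrank ℚ K : ℝ) * (Module.finrank ℚ F : ℝ) := h1
      _ ≤ M ^ 2 * C₁ := by
          refine mul_le_mul (by linarith) hCF hp2 (by positivity)
      _ = C₁ * M ^ 2 := by ring
  · linarith
  · refine ⟨hw, hτ, ?_, ?_, hb2, hb3⟩
    · exact (min_le_right _ _).trans (min_le_left _ _)
    · rintro v ⟨m, n, rfl⟩ hv
      have hmn : ¬ (m = 0 ∧ n = 0) := by
        rintro ⟨rfl, rfl⟩
        apply hv
        simp
      exact hCw.trans (hcC m n hmn)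
  · have hg2 : G2 (w * τ) (w * τ * (-1 / τ)) = G2 w (w * τ) := by
      have hwt : w * τ ≠ 0 := mul_ne_zero hw hτ0
      have e1 := G2_smul (a := 1) (b := -1 / τ) hwt
      rw [mul_one] at e1
      have e2 := G2_smul (a := 1) (b := τ) hw
      rw [mul_one] at e2
      rw [e1, e2, JFun.G2_S hτ0]
      field_simp
    have hg3 : G3 (w * τ) (w * τ * (-1 / τ)) = G3 w (w * τ) := by
      have hwt : w * τ ≠ 0 := mul_ne_zero hw hτ0
      have e1 := G3_smul (a := 1) (b := -1 / τ) hwt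
      rw [mul_one] at e1
      have e2 := G3_smul (a := 1) (b := τ) hw
      rw [mul_one] at e2
      rw [e1, e2, JFun.G3_S hτ0]
      field_simp
    refine ⟨mul_ne_zero hw hτ0, him, ?_, ?_, ?_, ?_⟩
    · exact (min_le_right _ _).trans (min_le_right _ _)
    · rintro v ⟨m, n, rfl⟩ hv
      have e : (m : ℂ) * (w * τ) + n * (w * τ * (-1 / τ)) = ((-n : ℤ) : ℂ) * w + (m : ℂ) * (w * τ) := by
        push_cast
        field_simp
        ring
      have hmn : ¬ (-n = 0 ∧ m = 0) := by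
        rintro ⟨h1, rfl⟩
        have h2 : n = 0 := by omega
        subst h2
        apply hv
        simp
      rw [e]
      exact hCw'.trans (hcC (-n) m hmn)
    · rw [hg2]; exact hb2
    · rw [hg3]; exact hb3

/-- the final estimate -/
private lemma MeasG_num (C₁ C c : ℕ) (hC1 : 1 ≤ C₁) : ∃ C' : ℕ, 1 ≤ C' ∧ c ≤ C' ∧ ∀ M : ℝ, 2 ≤ M →
    (C₁ * M ^ 2) ^ C + 2 * M ^ 2 ≤ (C' * M) ^ C' := by
  refine ⟨3 * C + 4 + C₁ + c, by omega, by omega, fun M hM => ?_⟩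
  set C' : ℕ := 3 * C + 4 + C₁ + c with hC'
  have hC'C : (C₁ : ℝ) ≤ C' := by
    rw [hC']; push_cast
    have : (0 : ℝ) ≤ (C : ℝ) := by positivity
    have : (0 : ℝ) ≤ (c : ℝ) := by positivity
    linarith
  have hC'1 : (1 : ℝ) ≤ C' := by
    have : (1 : ℝ) ≤ C₁ := by exact_mod_cast hC1
    linarith
  set x : ℝ := C' * M with hx
  have hxM : M ≤ x := by rw [hx]; nlinarith
  have hx2 : 2 ≤ x := by linarith
  have hxC : (C₁ : ℝ) ≤ x := by rw [hx]; nlinarith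
  have h1 : C₁ * M ^ 2 ≤ x ^ 3 := by
    calc (C₁ : ℝ) * M ^ 2 ≤ x * x ^ 2 := by
          refine mul_le_mul hxC (pow_le_pow_left₀ (by linarith) hxM 2) (by positivity) (by linarith)
      _ = x ^ 3 := by ring
  have h2 : 2 * M ^ 2 ≤ x ^ 3 := by
    calc 2 * M ^ 2 ≤ x * x ^ 2 := by
          refine mul_le_mul hx2 (pow_le_pow_left₀ (by linarith) hxM 2) (by positivity) (by linarith)
      _ = x ^ 3 := by ring
  have h3 : (C₁ * M ^ 2) ^ C ≤ x ^ (3 * C + 3) := by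
    calc (C₁ * M ^ 2) ^ C ≤ (x ^ 3) ^ C := pow_le_pow_left₀ (by positivity) h1 C
      _ = x ^ (3 * C) := by rw [← pow_mul]
      _ ≤ x ^ (3 * C + 3) := pow_le_pow_right₀ (by linarith) (by omega)
  have h4 : x ^ 3 ≤ x ^ (3 * C + 3) := pow_le_pow_right₀ (by linarith) (by omega)
  calc (C₁ * M ^ 2) ^ C + 2 * M ^ 2 ≤ x ^ (3 * C + 3) + x ^ (3 * C + 3) := by linarith
    _ = 2 * x ^ (3 * C + 3) := by ring
    _ ≤ x * x ^ (3 * C + 3) := mul_le_mul_of_nonneg_right hx2 (by positivity)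
    _ = x ^ (3 * C + 4) := by ring
    _ ≤ x ^ C' := pow_le_pow_right₀ (by linarith) (by omega)

/-- from the engine for the divided relation -/
private lemma MeasG_fin {K : IntermediateField ℚ ℂ} [FiniteDimensional ℚ K] {M : ℝ} {ρ Y Z : ℂ}
    (hM : 2 ≤ M) (hD : (Module.finrank ℚ K : ℝ) ≤ M) (h : Bd K M ρ) (h0 : ρ ≠ 0) (hY : Y = ρ * Z)
    {C₁ C C' : ℕ} (hZ : Real.exp (-((C₁ * M ^ 2) ^ C)) ≤ ‖Z‖)
    (hC' : (C₁ * M ^ 2) ^ C + 2 * M ^ 2 ≤ (C' * M) ^ C') : Real.exp (-((C' * M) ^ C')) ≤ ‖Y‖ := by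
  have h1 := Bd.lower hD (by linarith) h h0 (algebraMap K ℂ)
  have e : (algebraMap K ℂ) ⟨ρ, h.mem⟩ = ρ := rfl
  rw [e] at h1
  rw [hY, norm_mul]
  calc Real.exp (-((C' * M) ^ C')) ≤ Real.exp (-((C₁ * M ^ 2) ^ C + 2 * M ^ 2)) :=
        Real.exp_le_exp.2 (by linarith)
    _ = Real.exp (-(2 * M * M)) * Real.exp (-((C₁ * M ^ 2) ^ C)) := by
        rw [← Real.exp_add]; ring_nf
    _ ≤ ‖ρ‖ * ‖Z‖ := mul_le_mul h1 hZ (Real.exp_pos _).le (norm_nonneg _)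

theorem measG {w τ : ℂ} (hw : w ≠ 0) (hτ : 0 < τ.im) (h2 : IsAlgebraic ℚ (G2 w (w * τ)))
    (h3 : IsAlgebraic ℚ (G3 w (w * τ))) :
    ∃ C : ℕ, 1 ≤ C ∧ ∀ (K : IntermediateField ℚ ℂ) [FiniteDimensional ℚ K] (M : ℝ) (p q : ℤ)
      (ρ : ℂ), 2 ≤ M → (Module.finrank ℚ K : ℝ) ≤ M → |(p : ℝ)| ≤ Real.exp M →
      |(q : ℝ)| ≤ Real.exp M → ¬ (p = 0 ∧ q = 0) → Bd K M ρ →
      Real.exp (-((C * M) ^ C)) ≤ ‖(p : ℂ) * w + q * (w * τ) - 2 * Real.pi * Complex.I * ρ‖ := by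
  obtain ⟨c, hc, hdisc⟩ := MeasG_disc hw hτ
  obtain ⟨c', hc'1, hc'⟩ := MeasG_nat (-Real.log c)
  -- the case ρ = 0
  have hzero : ∀ (C : ℕ) (M : ℝ) (p q : ℤ), 1 ≤ C → c' ≤ C → 2 ≤ M → ¬ (p = 0 ∧ q = 0) →
      Real.exp (-((C * M) ^ C)) ≤ ‖(p : ℂ) * w + q * (w * τ) - 2 * Real.pi * Complex.I * 0‖ := by
    intro C M p q hC1 hcC hM hpq
    rw [mul_zero, sub_zero]
    refine le_trans ?_ (hdisc p q hpq)
    rw [← Real.le_log_iff_exp_le hc]
    have h1 : (1 : ℝ) ≤ C := by exact_mod_cast hC1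
    have h4 : (c' : ℝ) ≤ C := by exact_mod_cast hcC
    have h5 : (C : ℝ) ≤ C * M := by nlinarith
    have h6 : (C : ℝ) * M ≤ (C * M) ^ C := by
      calc (C : ℝ) * M = (C * M) ^ 1 := (pow_one _).symm
        _ ≤ (C * M) ^ C := pow_le_pow_right₀ (by linarith) hC1
    linarith
  have hreg : ∀ M : ℝ, 2 ≤ M → M ≤ M ^ 2 ∧ 1 ≤ M ^ 2 := fun M hM => ⟨by nlinarith, by nlinarith⟩
  by_cases hcm : NonCM τ
  · -- no complex multiplication
    set F : IntermediateField ℚ ℂ := IntermediateField.adjoin ℚ {G2 w (w * τ), G3 w (w * τ)} with hF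
    have : FiniteDimensional ℚ F := by
      rw [hF]
      refine IntermediateField.finiteDimensional_adjoin ?_
      rintro x (rfl | rfl)
      · exact h2.isIntegral
      · exact h3.isIntegral
    have hF2 : G2 w (w * τ) ∈ F := IntermediateField.subset_adjoin ℚ _ (by simp)
    have hF3 : G3 w (w * τ) ∈ F := IntermediateField.subset_adjoin ℚ _ (by simp)
    obtain ⟨T, C₁, hT0, hT1, hC1, hBT, hprep⟩ := MeasG_prep hw hτ F hF2 hF3 6
    obtain ⟨C, hC⟩ := engine4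
    obtain ⟨C', hC'1, hcC', hnum⟩ := MeasG_num C₁ C c' hC1
    refine ⟨C', hC'1, ?_⟩
    intro K _ M p q ρ hM hD hp hq hpq hρ
    by_cases h0 : ρ = 0
    · rw [h0]; exact hzero C' M p q hC'1 hcC' hM hpq
    obtain ⟨hfr, h1T, hcur1, hcur2⟩ := hprep K M hM hD
    obtain ⟨hMM, hM1⟩ := hreg M hM
    have hCT : (7 : ℝ) * M ^ 2 ≤ C₁ * M ^ 2 * T := by
      have : (7 : ℝ) ≤ C₁ * T := by linarith
      nlinarith
    have hinv : Bd (K ⊔ F) (2 * M ^ 2) ρ⁻¹ := (MeasG_inv hM hD hρ h0).le le_sup_left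
    have hbd : ∀ r : ℤ, |(r : ℝ)| ≤ Real.exp M → Bd (K ⊔ F) (C₁ * M ^ 2 * T) ((r : ℂ) * ρ⁻¹) := by
      intro r hr
      exact ((Bd.intCast r hr (by linarith)).mul hinv).mono (by linarith)
    have hC1' : (1 : ℝ) ≤ C₁ := by exact_mod_cast hC1
    have heng := hC (K ⊔ F) (C₁ * M ^ 2) T w τ ((p : ℂ) * ρ⁻¹) ((q : ℂ) * ρ⁻¹)
      (by nlinarith) hfr hT0 hT1 h1T hcur1 hcur2 hcm (hbd p hp) (hbd q hq)
    refine MeasG_fin hM hD hρ h0 ?_ heng (hnum M hM)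
    field_simp
  · -- complex multiplication
    have hτalg : IsAlgebraic ℚ τ := by
      unfold NonCM at hcm
      push Not at hcm
      obtain ⟨a, b, d, habc, hne⟩ := hcm
      refine ⟨Polynomial.C (a : ℚ) * Polynomial.X ^ 2 + Polynomial.C (b : ℚ) * Polynomial.X +
        Polynomial.C (d : ℚ), ?_, ?_⟩
      · intro hz
        have hz2 := congrArg (fun P => Polynomial.coeff P 2) hz
        have hz1 := congrArg (fun P => Polynomial.coeff P 1) hz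
        have hz0 := congrArg (fun P => Polynomial.coeff P 0) hz
        simp only [Polynomial.coeff_add, Polynomial.coeff_C_mul, Polynomial.coeff_X_pow,
          Polynomial.coeff_X, Polynomial.coeff_C, Polynomial.coeff_zero] at hz2 hz1 hz0
        norm_num at hz2 hz1 hz0
        exact hne hz2 hz1 hz0
      · simp only [map_add, map_mul, Polynomial.aeval_C, map_pow, Polynomial.aeval_X]
        simpa using habc
    obtain ⟨Bτ, hBτ0, hBτ⟩ := MeasG_alg hτalg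
    set F : IntermediateField ℚ ℂ :=
      IntermediateField.adjoin ℚ {G2 w (w * τ), G3 w (w * τ), τ} with hF
    have : FiniteDimensional ℚ F := by
      rw [hF]
      refine IntermediateField.finiteDimensional_adjoin ?_
      rintro x (rfl | rfl | rfl)
      · exact h2.isIntegral
      · exact h3.isIntegral
      · exact hτalg.isIntegral
    have hF2 : G2 w (w * τ) ∈ F := IntermediateField.subset_adjoin ℚ _ (by simp)
    have hF3 : G3 w (w * τ) ∈ F := IntermediateField.subset_adjoin ℚ _ (by simp)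
    have hFτ : τ ∈ F := IntermediateField.subset_adjoin ℚ _ (by simp)
    obtain ⟨T, C₁, hT0, hT1, hC1, hBT, hprep⟩ := MeasG_prep hw hτ F hF2 hF3 (Bτ + 6)
    obtain ⟨C, hC⟩ := engine5
    obtain ⟨C', hC'1, hcC', hnum⟩ := MeasG_num C₁ C c' hC1
    refine ⟨C', hC'1, ?_⟩
    intro K _ M p q ρ hM hD hp hq hpq hρ
    by_cases h0 : ρ = 0
    · rw [h0]; exact hzero C' M p q hC'1 hcC' hM hpq
    obtain ⟨hfr, h1T, hcur1, hcur2⟩ := hprep K M hM hD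
    obtain ⟨hMM, hM1⟩ := hreg M hM
    have hCT : (Bτ + 7 : ℝ) * M ^ 2 ≤ C₁ * M ^ 2 * T := by
      have : (Bτ + 7 : ℝ) ≤ C₁ * T := by linarith
      nlinarith
    have hinv : Bd (K ⊔ F) (2 * M ^ 2) ρ⁻¹ := (MeasG_inv hM hD hρ h0).le le_sup_left
    have hbτ : Bd (K ⊔ F) Bτ τ := hBτ (K ⊔ F) ((le_sup_right : F ≤ K ⊔ F) hFτ)
    have hl : Bd (K ⊔ F) (C₁ * M ^ 2 * T) (((p : ℂ) + (q : ℂ) * τ) * ρ⁻¹) := by
      have h5 := (((Bd.intCast (K := K ⊔ F) p hp (by linarith)).add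
        ((Bd.intCast q hq (by linarith)).mul hbτ)).mul hinv)
      refine h5.mono ?_
      have h6 : Bτ ≤ Bτ * M ^ 2 := by nlinarith
      nlinarith
    have hC1' : (1 : ℝ) ≤ C₁ := by exact_mod_cast hC1
    have heng := hC (K ⊔ F) (C₁ * M ^ 2) T w τ (((p : ℂ) + (q : ℂ) * τ) * ρ⁻¹)
      (by nlinarith) hfr hT0 hT1 h1T hcur1 hcur2 hl
    refine MeasG_fin hM hD hρ h0 ?_ heng (hnum M hM)
    field_simp

end Pool.Agent.LGO.U
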