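import Mathlib
import Pool.Agent.LGO.U.BDef
import Pool.Agent.LGO.H.JSize

/-!
# LGO/U: the number `B` near the cusp

PROOF.  `E4_cusp`: `j(τ) Δ(τ) = E₄(τ) ^ 3` (definition of `jInv`, `ModularForm.discriminant_ne_zero`), and `‖E₄(τ) - 1‖ ≤ C ‖q‖` for
`‖q‖ ≤ exp (-π √3)` (`q`-expansion `E₄ = 1 + 240 Σ σ₃(n) q^n`; `jInv` is `q⁻¹ J(q)` with `J` good, `J 0 = 1` (`exists_J`), and a
similar statement for `Δ` or `E₄` is in `Pool/Agent/Hhelper14/ZP/`; one can also use that `E₄` is given by a function which is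
holomorphic in `q` on the unit disc with value `1` at `0`, e.g. `SlashInvariantFormClass.eq_cuspFunction` /
`ModularFormClass.differentiableAt_cuspFunction`, `cuspFunction_apply_zero`, so `‖f(q) - f(0)‖ ≤ C ‖q‖` on the compact disc
`‖q‖ ≤ exp (-π √3)`); `‖q‖ = exp (-2 π Im τ)`, and `‖j(τ)‖ ≤ C exp (2 π Im τ)` (`norm_j_le`) gives `‖q‖ * ‖j(τ)‖ ≤ C`.
`B_cusp`: multiply `B Δ(τ') = (g₁₀ τ + g₁₁) ^ 12 Δ(τ)` (`IsB.maps`) by `j(τ')`: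
`(g₁₀ τ + g₁₁) ^ 12 Δ(τ) j(τ') - B = B (j(τ') Δ(τ') - 1)`.
-/

namespace Pool.Agent.LGO.U

open UpperHalfPlane Pool.Agent.Hhelper14.ZP Pool.Agent.LGO

theorem BCusp_cube : ∃ G : ℂ → ℂ, Good OO G ∧ ∀ τ : ℍ,
    ModularForm.E₄ τ ^ 3 - 1 =
      Function.Periodic.qParam 1 (τ : ℂ) * G (Function.Periodic.qParam 1 (τ : ℂ)) := by
  have h240 : (240 : ℂ) ∈ OO := by exact_mod_cast natCast_mem_OO 240
  have hE : Good OO (fun z => (1 + 240 * serA z) ^ 3 - 1) :=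
    (((Good.const OO.one_mem).add (good_serA.const_mul h240)).pow 3).sub (Good.const OO.one_mem)
  obtain ⟨G, hG, hz⟩ := hE.div_id (by simp [serA_zero])
  refine ⟨G, hG, fun τ => ?_⟩
  rw [E4_eq]
  exact hz _ (norm_qParam_lt τ)

theorem E4_cusp : ∃ C : ℝ, 1 ≤ C ∧ ∀ τ : ℍ, Red (τ : ℂ) →
    ‖jInv τ * ModularForm.discriminant τ - 1‖ * ‖jInv τ‖ ≤ C := by
  obtain ⟨G, hG, hc⟩ := BCusp_cube
  obtain ⟨J, hJ, -, hj⟩ := exists_J
  obtain ⟨A, hA, hA'⟩ := JSize_bdd hG (Real.exp_pos _).le JSize_lt_one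
  obtain ⟨B, hB, hB'⟩ := JSize_bdd hJ (Real.exp_pos _).le JSize_lt_one
  refine ⟨max 1 (A * B), le_max_left _ _, fun τ hτ => ?_⟩
  have h1 : jInv τ * ModularForm.discriminant τ = ModularForm.E₄ τ ^ 3 := by
    rw [jInv, div_mul_cancel₀ _ (ModularForm.discriminant_ne_zero τ)]
  have hq := JSize_q_le hτ
  have h2 := hA' _ hq
  have h3 := hB' _ hq
  rw [← hj τ, norm_mul] at h3
  rw [h1, hc, norm_mul]
  refine le_trans ?_ (le_max_right _ _)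
  calc ‖Function.Periodic.qParam 1 (τ : ℂ)‖ * ‖G (Function.Periodic.qParam 1 (τ : ℂ))‖ * ‖jInv τ‖ =
        ‖G (Function.Periodic.qParam 1 (τ : ℂ))‖ *
          (‖jInv τ‖ * ‖Function.Periodic.qParam 1 (τ : ℂ)‖) := by ring
    _ ≤ A * B := mul_le_mul h2 h3 (by positivity) hA.le

theorem B_cusp : ∃ C : ℝ, 1 ≤ C ∧ ∀ (τ τ' : ℍ) (g : Matrix (Fin 2) (Fin 2) ℤ) (B : ℂ),
    NCM (jInv τ) → Red (τ' : ℂ) → Prim g → 0 < g.det → Maps g (τ : ℂ) (τ' : ℂ) →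
    IsB (jInv τ) (jInv τ') B →
      ‖((g 1 0 : ℂ) * (τ : ℂ) + (g 1 1 : ℂ)) ^ 12 * ModularForm.discriminant τ * jInv τ' - B‖ *
        ‖jInv τ'‖ ≤ C * ‖B‖ := by
  obtain ⟨C, hC, h⟩ := E4_cusp
  refine ⟨C, hC, fun τ τ' g B hx hτ' hp hg hm hB => ?_⟩
  have h1 := hB.maps hx rfl rfl hp hg hm
  have h2 : ((g 1 0 : ℂ) * (τ : ℂ) + (g 1 1 : ℂ)) ^ 12 * ModularForm.discriminant τ * jInv τ' - B =
      B * (jInv τ' * ModularForm.discriminant τ' - 1) := by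
    rw [← h1]
    ring
  rw [h2, norm_mul, mul_assoc, mul_comm C]
  exact mul_le_mul_of_nonneg_left (h τ' hτ') (norm_nonneg B)

end Pool.Agent.LGO.U
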