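import Mathlib
import Pool.Agent.LGO.H.Defs
import Pool.Agent.LGO.Gal.JEq
import Pool.Agent.LGO.Mul.Unif

/-!
# LGO/U: roots, lattices with algebraic invariants

PROOFS.  `root12`: `a ^ 12 - b ^ 12 = ∏_ζ (a - ζ b)`, `ζ` the 12-th roots of unity (`IsPrimitiveRoot.pow_sub_pow_eq_prod_sub_mul` or
`X ^ 12 - b ^ 12` splits).  The smallest of the twelve factors `‖a - ζ b‖` has 12-th power at most the product.
`alg_lat`: `β ≠ 0, 1728`: `g₂ = 3 β (β - 1728)`, `g₃ = β (β - 1728) ^ 2`, `g₂ ^ 3 - 27 g₃ ^ 2 = 27 * 1728 β ^ 2 (β - 1728) ^ 3`; `β = 0`: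
`g₂ = 0`, `g₃ = 1`; `β = 1728`: `g₂ = 1`, `g₃ = 0`.  In all cases `1728 g₂ ^ 3 = β (g₂ ^ 3 - 27 g₃ ^ 2)`, the discriminant is not `0`, and
`g₂`, `g₃` are algebraic.  `exists_lat` (`LGO/Mul/Unif.lean`) and `jInv_mul_w` (`LGO/Gal/JEq.lean`).
-/

namespace Pool.Agent.LGO.U

open UpperHalfPlane Pool.Agent.Hhelper14.ZP Pool.Agent.EllSch Pool.Agent.LGO

theorem root12 (a b : ℂ) : ∃ ζ : ℂ, ζ ^ 12 = 1 ∧ ‖a - ζ * b‖ ^ 12 ≤ ‖a ^ 12 - b ^ 12‖ := by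
  have hprim : IsPrimitiveRoot (Complex.exp (2 * Real.pi * Complex.I / (12 : ℕ))) 12 :=
    Complex.isPrimitiveRoot_exp 12 (by norm_num)
  have hprod : a ^ 12 - b ^ 12 =
      ∏ ζ ∈ Polynomial.nthRootsFinset 12 (1 : ℂ), (a - ζ * b) :=
    hprim.pow_sub_pow_eq_prod_sub_mul a b (by norm_num)
  have hcard : (Polynomial.nthRootsFinset 12 (1 : ℂ)).card = 12 := hprim.card_nthRootsFinset
  have hne : (Polynomial.nthRootsFinset 12 (1 : ℂ)).Nonempty := by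
    rw [← Finset.card_pos, hcard]; norm_num
  obtain ⟨ζ, hζ, hmin⟩ := Finset.exists_min_image _ (fun ζ : ℂ => ‖a - ζ * b‖) hne
  refine ⟨ζ, (Polynomial.mem_nthRootsFinset (by norm_num) 1).1 hζ, ?_⟩
  rw [hprod, norm_prod]
  calc ‖a - ζ * b‖ ^ 12 = ∏ _ζ' ∈ Polynomial.nthRootsFinset 12 (1 : ℂ), ‖a - ζ * b‖ := by
        rw [Finset.prod_const, hcard]
    _ ≤ ∏ ζ' ∈ Polynomial.nthRootsFinset 12 (1 : ℂ), ‖a - ζ' * b‖ :=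
        Finset.prod_le_prod (fun _ _ => norm_nonneg _) fun ζ' h' => hmin ζ' h'

private lemma RRoot_lat {β g2 g3 : ℂ} (hd : g2 ^ 3 - 27 * g3 ^ 2 ≠ 0)
    (hj : β * (g2 ^ 3 - 27 * g3 ^ 2) = 1728 * g2 ^ 3) (h2 : IsAlgebraic ℚ g2)
    (h3 : IsAlgebraic ℚ g3) : ∃ (w : ℂ) (τ : ℍ), w ≠ 0 ∧ Red (τ : ℂ) ∧
    jInv τ = β ∧ IsAlgebraic ℚ (G2 w (w * τ)) ∧ IsAlgebraic ℚ (G3 w (w * τ)) := by
  obtain ⟨w, τ, hw, hred, e2, e3⟩ := exists_lat hd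
  have hj2 := jInv_mul_w (⟨τ, hred.im_pos⟩ : ℍ) hw
  have ec : ((⟨τ, hred.im_pos⟩ : ℍ) : ℂ) = τ := rfl
  refine ⟨w, ⟨τ, hred.im_pos⟩, hw, ?_, ?_, ?_, ?_⟩
  · rw [ec]; exact hred
  · rw [ec, e2, e3, ← hj] at hj2
    exact mul_right_cancel₀ hd hj2
  · rw [ec, e2]; exact h2
  · rw [ec, e3]; exact h3

theorem alg_lat {β : ℂ} (hβ : IsAlgebraic ℚ β) : ∃ (w : ℂ) (τ : ℍ), w ≠ 0 ∧ Red (τ : ℂ) ∧
    jInv τ = β ∧ IsAlgebraic ℚ (G2 w (w * τ)) ∧ IsAlgebraic ℚ (G3 w (w * τ)) := by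
  have hnat : ∀ n : ℕ, IsAlgebraic ℚ (n : ℂ) := fun n => isAlgebraic_natCast n
  by_cases h0 : β = 0
  · subst h0
    refine RRoot_lat (g2 := 0) (g3 := 1) (by norm_num) (by norm_num) ?_ ?_
    · exact isAlgebraic_zero
    · exact isAlgebraic_one
  by_cases h1 : β = 1728
  · subst h1
    refine RRoot_lat (g2 := 1) (g3 := 0) (by norm_num) (by norm_num) ?_ ?_
    · exact isAlgebraic_one
    · exact isAlgebraic_zero
  have h2 : β - 1728 ≠ 0 := sub_ne_zero.2 h1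
  have hb : IsAlgebraic ℚ (β - 1728) := hβ.sub (by exact_mod_cast hnat 1728)
  refine RRoot_lat (g2 := 3 * β * (β - 1728)) (g3 := β * (β - 1728) ^ 2) ?_ ?_ ?_ ?_
  · have e : (3 * β * (β - 1728)) ^ 3 - 27 * (β * (β - 1728) ^ 2) ^ 2 =
        27 * 1728 * β ^ 2 * (β - 1728) ^ 3 := by ring
    rw [e]
    have h3 : β ^ 2 ≠ 0 := pow_ne_zero _ h0
    have h4 : (β - 1728) ^ 3 ≠ 0 := pow_ne_zero _ h2
    exact mul_ne_zero (mul_ne_zero (by norm_num) h3) h4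
  · ring
  · exact ((by exact_mod_cast hnat 3 : IsAlgebraic ℚ (3 : ℂ)).mul hβ).mul hb
  · exact hβ.mul (hb.pow 2)

end Pool.Agent.LGO.U
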