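import Mathlib
import Pool.Agent.LGO.U.BCusp
import Pool.Agent.LGO.U.RRoot
import Pool.Agent.LGO.Q.Loc
import Pool.Agent.LGO.Q.Ent
import Pool.Agent.LGO.Mul.Disc

/-!
# LGO/U: the local identity at `t → ∞`

PROOF of `loc_id`.  Constants depend on the polynomials, `w` and `τ₀` only.  `a = coeff Aa n ≠ 0`, `b = coeff Bb n ≠ 0`,
`β = coeff Ab n / b = j(τ₀)`.
(1) For `‖t‖ ≥ C`: `‖Bb(t)‖ ≥ c ‖t‖ ^ n > 0`, `‖v - β‖ ≤ C / ‖t‖` (`v - β = (Ab - β Bb)(t) / Bb(t)`, the numerator has degree `< n`),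
`‖b Aa(t) - a Bb(t)‖ ≤ C ‖Bb(t)‖ / ‖t‖`, `‖Aa(t)‖ ≤ C ‖Bb(t)‖`, and `‖u‖ ≥ c ‖t‖` (`deg Ba < n`, `‖Aa(t)‖ ≥ c ‖t‖ ^ n`).
(2) `j_local` (`LGO/Q/Loc.lean`) at `τ₀`: `τ` with `j(τ) = v`, `‖τ - τ₀‖ ^ m ≤ C ‖v - β‖ ≤ C / ‖t‖`, so for `‖t‖` large `τ` lies in the compact disc of radius
`Im τ₀ / 2` around `τ₀`.  `Unif_exists_red` (`Mul/Unif.lean`): `τ'` reduced with `j(τ') = u`.  `exists_prim_mdeg`: `g` primitive,
`det g = N = mdeg v u > 0`, `Maps g τ τ'` (`IsB.isog`).  `p = g₁₁`, `q = g₁₀`: not both `0` (`det g ≠ 0`).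
`‖q τ + p‖ ^ 2 Im τ' = N Im τ` (`norm_sq_denom`), `Im τ' ≥ √3 / 2`: `‖q τ + p‖ ^ 2 ≤ C N`; `|q| Im τ ≤ ‖q τ + p‖` and
`|p| ≤ ‖q τ + p‖ + |q| ‖τ‖`, so `|p|, |q| ≤ C √N ≤ C N`.
(3) `B_cusp`: `‖(q τ + p) ^ 12 Δ(τ) u - B‖ ‖u‖ ≤ C ‖B‖`.  Multiply by `Ba(t) / Bb(t)`: `u Ba(t) = Aa(t)`, `B Ba(t) = Ξ Bb(t)`:
`‖(q τ + p) ^ 12 Δ(τ) Aa(t) / Bb(t) - Ξ‖ ≤ C ‖Ξ‖ / ‖u‖ ≤ C ‖Ξ‖ / ‖t‖`.
(4) `Δ` is Lipschitz and bounded on the disc (`Δ` is holomorphic: `ModularForm.discriminant`, or by `disc_eq`), so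
`‖(q τ + p) ^ 12 Δ(τ) - (q τ₀ + p) ^ 12 Δ(τ₀)‖ ≤ C N ^ 12 ‖τ - τ₀‖`.
(5) With (1): `‖a (q τ₀ + p) ^ 12 Δ(τ₀) - b Ξ‖ ≤ C (N ^ 12 + ‖Ξ‖) (‖τ - τ₀‖ + 1 / ‖t‖)`, and the `m`-th power of the last factor times
`‖t‖` is bounded (`(x + y) ^ m ≤ 2 ^ m (x ^ m + y ^ m)`, `m ≥ 1`, `‖t‖ ≥ 1`).
(6) `G2 w (w τ₀) ^ 3 - 27 G3 w (w τ₀) ^ 2 = w ^ (-12) (2 π) ^ 12 Δ(τ₀)` (`disc_eq`, `G2_scale`, `G3_scale`), so
`a Δ₀ (p w + q (w τ₀)) ^ 12 - (2 π) ^ 12 b Ξ = (2 π) ^ 12 (a (q τ₀ + p) ^ 12 Δ(τ₀) - b Ξ)`, `Δ₀` the discriminant.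

PROOF of `loc_form`.  Choose `ρ₀` with `a Δ₀ ρ₀ ^ 12 = b Ξ` (`a Δ₀ ≠ 0`, `disc_ne_zero_w` in `Gal/JEq.lean`).  By `loc_id` and
`root12` for `p w + q (w τ₀)` and `2 π i ρ₀` (`i ^ 12 = 1`) there is `ζ`; `ρ = ζ ρ₀`.
-/

namespace Pool.Agent.LGO.U

open UpperHalfPlane Polynomial Pool.Agent.Hhelper14.ZP Pool.Agent.EllSch Pool.Agent.LGO

private theorem RLoc_le (P : ℂ[X]) {k : ℕ} (h : P.natDegree ≤ k) :
    ∃ C : ℝ, 1 ≤ C ∧ ∀ t : ℂ, 1 ≤ ‖t‖ → ‖P.eval t‖ ≤ C * ‖t‖ ^ k := by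
  have h0 : 0 ≤ ∑ i ∈ Finset.range (k + 1), ‖P.coeff i‖ :=
    Finset.sum_nonneg fun _ _ => norm_nonneg _
  refine ⟨1 + ∑ i ∈ Finset.range (k + 1), ‖P.coeff i‖, by linarith, fun t ht => ?_⟩
  rw [Polynomial.eval_eq_sum_range' (Nat.lt_succ_of_le h)]
  calc ‖∑ i ∈ Finset.range (k + 1), P.coeff i * t ^ i‖ ≤
        ∑ i ∈ Finset.range (k + 1), ‖P.coeff i * t ^ i‖ := norm_sum_le _ _
    _ ≤ ∑ i ∈ Finset.range (k + 1), ‖P.coeff i‖ * ‖t‖ ^ k := by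
        apply Finset.sum_le_sum
        intro i hi
        rw [norm_mul, norm_pow]
        have h1 : i ≤ k := Nat.lt_succ_iff.mp (Finset.mem_range.mp hi)
        have h2 : ‖t‖ ^ i ≤ ‖t‖ ^ k := pow_le_pow_right₀ ht h1
        gcongr
    _ = (∑ i ∈ Finset.range (k + 1), ‖P.coeff i‖) * ‖t‖ ^ k := by rw [Finset.sum_mul]
    _ ≤ _ := by
        have h1 : 0 ≤ ‖t‖ ^ k := by positivity
        nlinarith

private theorem RLoc_lt (P : ℂ[X]) {n : ℕ} (h : P.natDegree < n) :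
    ∃ C : ℝ, 1 ≤ C ∧ ∀ t : ℂ, 1 ≤ ‖t‖ → ‖P.eval t‖ * ‖t‖ ≤ C * ‖t‖ ^ n := by
  obtain ⟨k, rfl⟩ : ∃ k, n = k + 1 := ⟨n - 1, by omega⟩
  obtain ⟨C, hC, h1⟩ := RLoc_le P (Nat.lt_succ_iff.mp h)
  refine ⟨C, hC, fun t ht => ?_⟩
  rw [pow_succ, ← mul_assoc]
  exact mul_le_mul_of_nonneg_right (h1 t ht) (norm_nonneg t)

private theorem RLoc_ge (P : ℂ[X]) {n : ℕ} (hn : 0 < n) (h : P.natDegree = n) :
    ∃ C : ℝ, 1 ≤ C ∧ ∀ t : ℂ, C ≤ ‖t‖ → ‖t‖ ^ n ≤ C * ‖P.eval t‖ := by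
  have hP : P ≠ 0 := by
    rintro rfl
    simp at h
    omega
  have ha : P.leadingCoeff ≠ 0 := Polynomial.leadingCoeff_ne_zero.mpr hP
  have ha' : 0 < ‖P.leadingCoeff‖ := norm_pos_iff.mpr ha
  have hlt : P.eraseLead.natDegree < n := by
    have := Polynomial.eraseLead_natDegree_le P
    omega
  obtain ⟨C, hC, h1⟩ := RLoc_lt P.eraseLead hlt
  refine ⟨max 1 (max (2 / ‖P.leadingCoeff‖) (2 * C / ‖P.leadingCoeff‖)), le_max_left _ _,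
    fun t ht => ?_⟩
  have ht1 : 1 ≤ ‖t‖ := (le_max_left _ _).trans ht
  have ht2 : 2 * C / ‖P.leadingCoeff‖ ≤ ‖t‖ :=
    (le_max_right _ _).trans ((le_max_right _ _).trans ht)
  rw [div_le_iff₀ ha'] at ht2
  have h2 := h1 t ht1
  have h3 : P.eval t = P.eraseLead.eval t + P.leadingCoeff * t ^ n := by
    conv_lhs => rw [← Polynomial.eraseLead_add_monomial_natDegree_leadingCoeff P]
    rw [h, Polynomial.eval_add, Polynomial.eval_monomial]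
  have h4 : ‖P.leadingCoeff‖ * ‖t‖ ^ n ≤ ‖P.eval t‖ + ‖P.eraseLead.eval t‖ := by
    have h5 : P.leadingCoeff * t ^ n = P.eval t - P.eraseLead.eval t := by rw [h3]; ring
    rw [← norm_pow, ← norm_mul, h5]
    exact norm_sub_le _ _
  have h6 : ‖P.eraseLead.eval t‖ ≤ ‖P.leadingCoeff‖ / 2 * ‖t‖ ^ n := by
    have h7 : ‖P.eraseLead.eval t‖ * ‖t‖ ≤ (‖P.leadingCoeff‖ / 2 * ‖t‖ ^ n) * ‖t‖ := by
      refine h2.trans ?_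
      have h8 : 0 ≤ ‖t‖ ^ n := by positivity
      nlinarith
    exact le_of_mul_le_mul_right h7 (by linarith)
  have h9 : ‖t‖ ^ n ≤ 2 / ‖P.leadingCoeff‖ * ‖P.eval t‖ := by
    rw [div_mul_eq_mul_div, le_div_iff₀ ha']
    linarith
  refine h9.trans (mul_le_mul_of_nonneg_right ?_ (norm_nonneg _))
  exact (le_max_left _ _).trans (le_max_right _ _)

private theorem RLoc_deg {P : ℂ[X]} {n : ℕ} (hn : 0 < n) (h : P.natDegree ≤ n)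
    (h0 : P.coeff n = 0) : P.natDegree < n := by
  rcases h.lt_or_eq with h1 | h1
  · exact h1
  · exfalso
    have h2 : P.leadingCoeff = 0 := by rw [Polynomial.leadingCoeff, h1, h0]
    rw [Polynomial.leadingCoeff_eq_zero] at h2
    subst h2
    simp at h1
    omega

private theorem RLoc_pow12 {x y : ℂ} {M : ℝ} (hx : ‖x‖ ≤ M) (hy : ‖y‖ ≤ M) :
    ‖x ^ 12 - y ^ 12‖ ≤ 12 * M ^ 11 * ‖x - y‖ := by
  have hM : 0 ≤ M := (norm_nonneg x).trans hx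
  rw [← (Commute.all x y).mul_geom_sum₂ 12, norm_mul, mul_comm]
  refine mul_le_mul_of_nonneg_right ?_ (norm_nonneg _)
  calc ‖∑ i ∈ Finset.range 12, x ^ i * y ^ (12 - 1 - i)‖ ≤
        ∑ i ∈ Finset.range 12, ‖x ^ i * y ^ (12 - 1 - i)‖ := norm_sum_le _ _
    _ ≤ ∑ i ∈ Finset.range 12, M ^ 11 := by
        apply Finset.sum_le_sum
        intro i hi
        have hi' : i < 12 := Finset.mem_range.mp hi
        rw [norm_mul, norm_pow, norm_pow]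
        calc ‖x‖ ^ i * ‖y‖ ^ (12 - 1 - i) ≤ M ^ i * M ^ (12 - 1 - i) := by gcongr
          _ = M ^ 11 := by rw [← pow_add]; congr 1; omega
    _ = 12 * M ^ 11 := by simp

/-- the discriminant is Lipschitz at `τ₀` -/
private theorem RLoc_lip (τ₀ : ℍ) : ∃ (C r : ℝ), 1 ≤ C ∧ 0 < r ∧ r ≤ (τ₀ : ℂ).im / 2 ∧
    ∀ τ : ℍ, ‖(τ : ℂ) - (τ₀ : ℂ)‖ ≤ r →
      ‖ModularForm.discriminant τ - ModularForm.discriminant τ₀‖ ≤ C * ‖(τ : ℂ) - (τ₀ : ℂ)‖ := by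
  have h1 : DifferentiableOn ℂ (fun z : ℂ => ModularForm.discriminant (ofComplex z))
      {z : ℂ | 0 < z.im} :=
    (UpperHalfPlane.mdifferentiable_iff).mp (CuspForm.discriminant.holo')
  have h2 : DifferentiableAt ℂ (fun z : ℂ => ModularForm.discriminant (ofComplex z)) (τ₀ : ℂ) :=
    h1.differentiableAt (isOpen_uhp.mem_nhds τ₀.im_pos)
  obtain ⟨C, hC⟩ := (DifferentiableAt.isBigO_sub h2).bound
  obtain ⟨ε, hε, hb⟩ := Metric.eventually_nhds_iff.mp hC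
  refine ⟨max 1 C, min (ε / 2) ((τ₀ : ℂ).im / 2), le_max_left _ _, ?_, min_le_right _ _,
    fun τ hτ => ?_⟩
  · have := τ₀.im_pos
    exact lt_min (by linarith) (by simpa using this)
  · have h3 : dist (τ : ℂ) (τ₀ : ℂ) < ε := by
      rw [dist_eq_norm]
      have := hτ.trans (min_le_left _ _)
      linarith
    have h4 := hb h3
    simp only [ofComplex_apply] at h4
    refine h4.trans (mul_le_mul_of_nonneg_right (le_max_right _ _) (norm_nonneg _))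


private theorem RLoc_comb {a b A B X X₀ Ξ : ℂ} {M d s K1 K2 K3 K4 : ℝ} (hB : B ≠ 0) (hs : 0 < s)
    (hM : 0 ≤ M) (hd : 0 ≤ d) (hK1 : 0 ≤ K1) (hK2 : 0 ≤ K2) (hK3 : 0 ≤ K3) (hK4 : 0 ≤ K4)
    (h1 : ‖X - X₀‖ ≤ K1 * M * d) (h2 : ‖X‖ ≤ K2 * M) (h3 : ‖a * B - b * A‖ * s ≤ K3 * ‖B‖)
    (h4 : ‖X * A - Ξ * B‖ * s ≤ K4 * ‖Ξ‖ * ‖B‖) :
    ‖a * X₀ - b * Ξ‖ ≤ (‖a‖ * K1 + K2 * K3 + ‖b‖ * K4) * (M + ‖Ξ‖) * (d + 1 / s) := by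
  have hB' : 0 < ‖B‖ := norm_pos_iff.mpr hB
  have e : (a * X₀ - b * Ξ) * B = a * B * (X₀ - X) + X * (a * B - b * A) + b * (X * A - Ξ * B) := by
    ring
  have h3' : ‖a * B - b * A‖ ≤ K3 * ‖B‖ / s := by rwa [le_div_iff₀ hs]
  have h4' : ‖X * A - Ξ * B‖ ≤ K4 * ‖Ξ‖ * ‖B‖ / s := by rwa [le_div_iff₀ hs]
  have h5 : ‖(a * X₀ - b * Ξ) * B‖ ≤ ‖a‖ * ‖B‖ * (K1 * M * d) + K2 * M * (K3 * ‖B‖ / s) +
      ‖b‖ * (K4 * ‖Ξ‖ * ‖B‖ / s) := by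
    rw [e]
    refine (norm_add_le _ _).trans (add_le_add ((norm_add_le _ _).trans (add_le_add ?_ ?_)) ?_)
    · rw [norm_mul, norm_mul, norm_sub_rev]
      gcongr
    · rw [norm_mul]
      gcongr
    · rw [norm_mul]
      gcongr
  have h6 : ‖a * X₀ - b * Ξ‖ * ‖B‖ ≤
      (‖a‖ * K1 * M * d + K2 * K3 * M * (1 / s) + ‖b‖ * K4 * ‖Ξ‖ * (1 / s)) * ‖B‖ := by
    rw [← norm_mul]
    refine h5.trans (le_of_eq ?_)
    field_simp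
  have h7 := le_of_mul_le_mul_right h6 hB'
  refine h7.trans ?_
  have p1 : 0 ≤ 1 / s := by positivity
  have p2 : 0 ≤ ‖Ξ‖ := norm_nonneg _
  have q1 : 0 ≤ ‖a‖ * K1 := by positivity
  have q2 : 0 ≤ K2 * K3 := by positivity
  have q3 : 0 ≤ ‖b‖ * K4 := by positivity
  have r1 : ‖a‖ * K1 * M * d ≤ ‖a‖ * K1 * ((M + ‖Ξ‖) * (d + 1 / s)) := by
    rw [mul_assoc (‖a‖ * K1)]
    refine mul_le_mul_of_nonneg_left ?_ q1
    exact mul_le_mul (by linarith) (by linarith) hd (by linarith)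
  have r2 : K2 * K3 * M * (1 / s) ≤ K2 * K3 * ((M + ‖Ξ‖) * (d + 1 / s)) := by
    rw [mul_assoc (K2 * K3)]
    refine mul_le_mul_of_nonneg_left ?_ q2
    exact mul_le_mul (by linarith) (by linarith) p1 (by linarith)
  have r3 : ‖b‖ * K4 * ‖Ξ‖ * (1 / s) ≤ ‖b‖ * K4 * ((M + ‖Ξ‖) * (d + 1 / s)) := by
    rw [mul_assoc (‖b‖ * K4)]
    refine mul_le_mul_of_nonneg_left ?_ q3
    exact mul_le_mul (by linarith) (by linarith) p1 (by linarith)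
  nlinarith [r1, r2, r3]

private theorem RLoc_pw {E K M d s c : ℝ} {m : ℕ} (hm : 0 < m) (hE : 0 ≤ E) (hK : 0 ≤ K)
    (hM : 0 ≤ M) (hd : 0 ≤ d) (hs : 1 ≤ s) (h : E ≤ K * M * (d + 1 / s)) (hc : d ^ m * s ≤ c) :
    E ^ m * s ≤ (2 * K) ^ m * (c + 1) * M ^ m := by
  have hs0 : 0 < s := by linarith
  have p1 : 0 ≤ 1 / s := by positivity
  have h1 : (d + 1 / s) ^ m ≤ 2 ^ (m - 1) * (d ^ m + (1 / s) ^ m) := add_pow_le hd p1 m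
  have h2 : (1 / s) ^ m * s ≤ 1 := by
    obtain ⟨k, rfl⟩ : ∃ k, m = k + 1 := ⟨m - 1, by omega⟩
    rw [pow_succ, mul_assoc, one_div, inv_mul_cancel₀ hs0.ne', mul_one]
    exact pow_le_one₀ (by positivity) (inv_le_one_of_one_le₀ hs)
  have h3 : (2 : ℝ) ^ (m - 1) ≤ 2 ^ m := pow_le_pow_right₀ (by norm_num) (by omega)
  have h4 : 0 ≤ d ^ m + (1 / s) ^ m := by positivity
  calc E ^ m * s ≤ (K * M * (d + 1 / s)) ^ m * s := by gcongr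
    _ = (K * M) ^ m * ((d + 1 / s) ^ m * s) := by rw [mul_pow]; ring
    _ ≤ (K * M) ^ m * ((2 ^ m * (d ^ m + (1 / s) ^ m)) * s) := by
        gcongr
        exact h1.trans (mul_le_mul_of_nonneg_right h3 h4)
    _ = (K * M) ^ m * (2 ^ m * (d ^ m * s + (1 / s) ^ m * s)) := by ring
    _ ≤ (K * M) ^ m * (2 ^ m * (c + 1)) := by gcongr
    _ = (2 * K) ^ m * (c + 1) * M ^ m := by rw [mul_pow, mul_pow]; ring

private theorem RLoc_n1 {x y r : ℝ} (h1 : 1 ≤ r) (h2 : |x| ≤ 1 / 2) (h3 : 0 < y)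
    (h4 : r ^ 2 = x * x + y * y) : 1 / 2 ≤ y := by
  have h5 : x * x ≤ 1 / 4 := by
    have h6 := abs_le.mp h2
    nlinarith [h6.1, h6.2]
  by_contra h7
  rw [not_le] at h7
  nlinarith

private theorem RLoc_n2 {E N L y : ℝ} (hN : 1 ≤ N) (hy : 0 < y) (hL : L = 3 * y + 1)
    (h : E ^ 2 * (1 / 2) ≤ N * (3 / 2 * y)) : E ^ 2 ≤ (L * N) ^ 2 := by
  have h4 : N * (3 * y) ≤ L * N := by nlinarith
  have h5 : 1 ≤ L * N := by nlinarith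
  nlinarith

theorem loc_id (Aa Ba Ab Bb : ℂ[X]) (n : ℕ) (hAa : Aa.natDegree = n) (hBb : Bb.natDegree = n)
    (hBa : Ba.natDegree < n) (hAb : Ab.natDegree ≤ n) {w : ℂ} (hw : w ≠ 0) {τ₀ : ℍ}
    (hτ₀ : jInv τ₀ * Bb.coeff n = Ab.coeff n) :
    ∃ (C : ℝ) (m : ℕ), 1 ≤ C ∧ 0 < m ∧ ∀ t u v B Ξ : ℂ, C ≤ ‖t‖ →
      Aa.eval t = u * Ba.eval t → Ba.eval t ≠ 0 → Ab.eval t = v * Bb.eval t → Bb.eval t ≠ 0 →
      NCM v → IsB v u B → Ξ * Bb.eval t = B * Ba.eval t →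
        ∃ p q : ℤ, ¬ (p = 0 ∧ q = 0) ∧ |(p : ℝ)| ≤ C * mdeg v u ∧ |(q : ℝ)| ≤ C * mdeg v u ∧
          ‖Aa.coeff n * (G2 w (w * τ₀) ^ 3 - 27 * G3 w (w * τ₀) ^ 2) *
              ((p : ℂ) * w + q * (w * τ₀)) ^ 12 - (2 * Real.pi) ^ 12 * (Bb.coeff n * Ξ)‖ ^ m *
            ‖t‖ ≤ C * ((mdeg v u : ℝ) ^ 12 + ‖Ξ‖) ^ m := by
  have hn : 0 < n := by omega
  set a := Aa.coeff n with ha
  set b := Bb.coeff n with hb
  obtain ⟨c1, hc1, hBbge⟩ := RLoc_ge Bb hn hBb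
  obtain ⟨c2, hc2, hAage⟩ := RLoc_ge Aa hn hAa
  obtain ⟨c4, hc4, hBalt⟩ := RLoc_lt Ba hBa
  have hdeg1 : (Ab - C (jInv τ₀) * Bb).natDegree < n := by
    refine RLoc_deg hn ?_ ?_
    · exact (Polynomial.natDegree_sub_le _ _).trans (max_le hAb
        ((Polynomial.natDegree_C_mul_le _ _).trans hBb.le))
    · rw [Polynomial.coeff_sub, Polynomial.coeff_C_mul, hτ₀, sub_self]
  have hdeg2 : (C a * Bb - C b * Aa).natDegree < n := by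
    refine RLoc_deg hn ?_ ?_
    · exact (Polynomial.natDegree_sub_le _ _).trans (max_le
        ((Polynomial.natDegree_C_mul_le _ _).trans hBb.le)
        ((Polynomial.natDegree_C_mul_le _ _).trans hAa.le))
    · rw [Polynomial.coeff_sub, Polynomial.coeff_C_mul, Polynomial.coeff_C_mul, ← ha, ← hb]
      ring
  obtain ⟨c5, hc5, hD1⟩ := RLoc_lt _ hdeg1
  obtain ⟨c6, hc6, hD2⟩ := RLoc_lt _ hdeg2
  obtain ⟨CL, r, hCL, hr, hr2, hlip⟩ := RLoc_lip τ₀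
  obtain ⟨CB, hCB, hcusp⟩ := B_cusp
  obtain ⟨CJ, m, ε, hCJ, hm, hε, hJ⟩ := j_local τ₀
  set y : ℝ := (τ₀ : ℂ).im with hy
  have hy0 : 0 < y := τ₀.im_pos
  set T : ℝ := ‖(τ₀ : ℂ)‖ + y with hT
  have hT0 : 0 < T := by have := norm_nonneg (τ₀ : ℂ); linarith
  set L : ℝ := 3 * y + 1 with hL
  have hL0 : 0 < L := by linarith
  set Kq : ℝ := 2 * L / y with hKq
  have hKq0 : 0 < Kq := by positivity
  set Kp : ℝ := L + Kq * T with hKp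
  have hKp0 : 0 < Kp := by positivity
  set K0 : ℝ := Kq * T + Kp with hK0
  have hK00 : 0 < K0 := by positivity
  set D0 : ℝ := ‖ModularForm.discriminant τ₀‖ with hD0
  have hD00 : 0 ≤ D0 := norm_nonneg _
  set K1 : ℝ := K0 ^ 12 * CL + 12 * K0 ^ 11 * Kq * D0 with hK1
  set K2 : ℝ := K0 ^ 12 * (D0 + CL * y) with hK2
  have hK10 : 0 ≤ K1 := by positivity
  have hK20 : 0 ≤ K2 := by positivity
  set K : ℝ := ‖a‖ * K1 + K2 * (c6 * c1) + ‖b‖ * (c4 * c2 * CB) with hK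
  have hKnn : 0 ≤ K := by positivity
  set F : ℝ := (2 * Real.pi) ^ (12 * m) * ((2 * K) ^ m * (CJ * (c5 * c1) + 1)) with hF
  have hF0 : 0 ≤ F := by positivity
  clear_value F K K2 K1 D0 K0 Kp Kq L T y b a
  obtain ⟨S, hS1, hS2, hS3, hS4, hS5, hS6, hS7, hS8⟩ : ∃ S : ℝ, 1 ≤ S ∧ c1 ≤ S ∧ c2 ≤ S ∧
      2 * (c5 * c1) / ε ≤ S ∧ CJ * (c5 * c1) / r ^ m ≤ S ∧ Kp ≤ S ∧ Kq ≤ S ∧ F ≤ S := by
    have e1 : 0 ≤ 2 * (c5 * c1) / ε := by positivity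
    have e2 : 0 ≤ CJ * (c5 * c1) / r ^ m := by positivity
    refine ⟨1 + c1 + c2 + 2 * (c5 * c1) / ε + CJ * (c5 * c1) / r ^ m + Kp + Kq + F,
      ?_, ?_, ?_, ?_, ?_, ?_, ?_, ?_⟩ <;> linarith
  refine ⟨S, m, hS1, hm, fun t u v B Ξ hSt hu hBa0 hv hBb0 hnc hisB hΞ => ?_⟩
  have hs1 : 1 ≤ ‖t‖ := hS1.trans hSt
  have hs0 : 0 < ‖t‖ := by linarith
  have hBbpos : 0 < ‖Bb.eval t‖ := norm_pos_iff.mpr hBb0
  have hBapos : 0 < ‖Ba.eval t‖ := norm_pos_iff.mpr hBa0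
  have g1 : ‖t‖ ^ n ≤ c1 * ‖Bb.eval t‖ := hBbge t (hS2.trans hSt)
  have g2 : ‖t‖ ^ n ≤ c2 * ‖Aa.eval t‖ := hAage t (hS3.trans hSt)
  -- `v` is near `β`
  have g3 : ‖v - jInv τ₀‖ * ‖t‖ ≤ c5 * c1 := by
    have h1 := hD1 t hs1
    have h2 : (Ab - C (jInv τ₀) * Bb).eval t = (v - jInv τ₀) * Bb.eval t := by
      rw [Polynomial.eval_sub, Polynomial.eval_mul, Polynomial.eval_C, hv]
      ring
    rw [h2, norm_mul] at h1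
    have h3 : (‖v - jInv τ₀‖ * ‖t‖) * ‖Bb.eval t‖ ≤ (c5 * c1) * ‖Bb.eval t‖ := by
      calc (‖v - jInv τ₀‖ * ‖t‖) * ‖Bb.eval t‖ = ‖v - jInv τ₀‖ * ‖Bb.eval t‖ * ‖t‖ := by ring
        _ ≤ c5 * ‖t‖ ^ n := h1
        _ ≤ c5 * (c1 * ‖Bb.eval t‖) := by gcongr
        _ = _ := by ring
    exact le_of_mul_le_mul_right h3 hBbpos
  have g4 : ‖v - jInv τ₀‖ < ε := by
    have h1 : 2 * (c5 * c1) / ε ≤ ‖t‖ := hS4.trans hSt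
    rw [div_le_iff₀ hε] at h1
    have h2 : 0 < c5 * c1 := by positivity
    by_contra h3
    rw [not_lt] at h3
    have h4 : ε * ‖t‖ ≤ ‖v - jInv τ₀‖ * ‖t‖ := by gcongr
    rw [mul_comm] at h1
    linarith
  obtain ⟨τ, hτv, hτ⟩ := hJ v g4
  set d : ℝ := ‖(τ : ℂ) - (τ₀ : ℂ)‖ with hd
  have hd0 : 0 ≤ d := norm_nonneg _
  have g5 : d ^ m * ‖t‖ ≤ CJ * (c5 * c1) := by
    calc d ^ m * ‖t‖ ≤ CJ * ‖v - jInv τ₀‖ * ‖t‖ := by gcongr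
      _ = CJ * (‖v - jInv τ₀‖ * ‖t‖) := by ring
      _ ≤ CJ * (c5 * c1) := by gcongr
  have g6 : d ≤ r := by
    have h1 : CJ * (c5 * c1) / r ^ m ≤ ‖t‖ := hS5.trans hSt
    have hrm : 0 < r ^ m := by positivity
    rw [div_le_iff₀ hrm] at h1
    have h2 : d ^ m ≤ r ^ m := by
      have h3 : d ^ m * ‖t‖ ≤ r ^ m * ‖t‖ := by rw [mul_comm (r ^ m)]; exact g5.trans h1
      exact le_of_mul_le_mul_right h3 hs0
    exact le_of_pow_le_pow_left₀ hm.ne' hr.le h2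
  have g7 : |(τ : ℂ).im - y| ≤ y / 2 := by
    have h1 := Complex.abs_im_le_norm ((τ : ℂ) - (τ₀ : ℂ))
    rw [Complex.sub_im, ← hy] at h1
    exact h1.trans (g6.trans hr2)
  have g8 := abs_le.mp g7
  have hτT : ‖(τ : ℂ)‖ ≤ T := by
    have h1 : ‖(τ : ℂ)‖ ≤ ‖(τ₀ : ℂ)‖ + d := by
      have h2 := norm_add_le (τ₀ : ℂ) ((τ : ℂ) - (τ₀ : ℂ))
      rwa [add_sub_cancel] at h2
    linarith
  have hτ₀T : ‖(τ₀ : ℂ)‖ ≤ T := by linarith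
  -- `τ'` and `g`
  obtain ⟨τ', hred, hτ'⟩ := Unif_exists_red u
  obtain ⟨g, hgdet, hgpos, hgprim, hgmaps⟩ : ∃ g : Matrix (Fin 2) (Fin 2) ℤ,
      g.det = mdeg v u ∧ 0 < g.det ∧ Prim g ∧ Maps g (τ : ℂ) (τ' : ℂ) := by
    have h1 := hisB.isog
    rw [← hτv, ← hτ'] at h1
    have h2 := exists_prim_mdeg h1
    rwa [hτv, hτ'] at h2
  set N : ℝ := (mdeg v u : ℝ) with hN
  have hdetN : (g.det : ℝ) = N := by rw [hgdet, hN]; simp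
  have hN1 : 1 ≤ N := by
    rw [← hdetN]
    exact_mod_cast hgpos
  have hN0 : 0 < N := by linarith
  set p : ℤ := g 1 1 with hp
  set q : ℤ := g 1 0 with hq
  clear_value N
  have him' : 1 / 2 ≤ (τ' : ℂ).im := by
    refine RLoc_n1 hred.one_le hred.re_le hred.im_pos ?_
    rw [Complex.sq_norm, Complex.normSq_apply]
  have k1 : ‖(q : ℂ) * (τ : ℂ) + (p : ℂ)‖ ≤ L * N := by
    have h1 := norm_sq_denom hgmaps
    rw [hdetN] at h1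
    have h2 : ‖(q : ℂ) * (τ : ℂ) + (p : ℂ)‖ ^ 2 * (1 / 2) ≤ N * (3 / 2 * y) := by
      calc ‖(q : ℂ) * (τ : ℂ) + (p : ℂ)‖ ^ 2 * (1 / 2) ≤
            ‖(q : ℂ) * (τ : ℂ) + (p : ℂ)‖ ^ 2 * (τ' : ℂ).im := by gcongr
        _ = N * (τ : ℂ).im := h1
        _ ≤ N * (3 / 2 * y) := by
            refine mul_le_mul_of_nonneg_left ?_ hN0.le
            linarith [g8.2]
    have h3 : ‖(q : ℂ) * (τ : ℂ) + (p : ℂ)‖ ^ 2 ≤ (L * N) ^ 2 := RLoc_n2 hN1 hy0 hL h2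
    exact (abs_le_of_sq_le_sq' h3 (by positivity)).2
  have hqn : ‖(q : ℂ)‖ = |(q : ℝ)| := by
    rw [← Complex.ofReal_intCast, Complex.norm_real, Real.norm_eq_abs]
  have hpn : ‖(p : ℂ)‖ = |(p : ℝ)| := by
    rw [← Complex.ofReal_intCast, Complex.norm_real, Real.norm_eq_abs]
  have k2 : |(q : ℝ)| ≤ Kq * N := by
    have h1 : |(q : ℝ) * (τ : ℂ).im| ≤ L * N := by
      have e2 := (Complex.abs_im_le_norm ((q : ℂ) * (τ : ℂ) + (p : ℂ))).trans k1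
      have e3 : ((q : ℂ) * (τ : ℂ) + (p : ℂ)).im = (q : ℝ) * (τ : ℂ).im := by
        simp [Complex.mul_im]
      rwa [e3] at e2
    rw [abs_mul, abs_of_pos (show 0 < (τ : ℂ).im from τ.im_pos)] at h1
    have h2 : |(q : ℝ)| * (y / 2) ≤ L * N := by
      refine le_trans (mul_le_mul_of_nonneg_left ?_ (abs_nonneg _)) h1
      have := g8.1
      change y / 2 ≤ (τ : ℂ).im
      linarith
    rw [hKq, div_mul_eq_mul_div, le_div_iff₀ hy0]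
    linarith
  have k3 : |(p : ℝ)| ≤ Kp * N := by
    rw [← hpn]
    calc ‖(p : ℂ)‖ = ‖((q : ℂ) * (τ : ℂ) + (p : ℂ)) - (q : ℂ) * (τ : ℂ)‖ := by congr 1; ring
      _ ≤ ‖(q : ℂ) * (τ : ℂ) + (p : ℂ)‖ + ‖(q : ℂ) * (τ : ℂ)‖ := norm_sub_le _ _
      _ = ‖(q : ℂ) * (τ : ℂ) + (p : ℂ)‖ + |(q : ℝ)| * ‖(τ : ℂ)‖ := by rw [norm_mul, hqn]
      _ ≤ L * N + Kq * N * T := by gcongr
      _ = Kp * N := by rw [hKp]; ring
  have k4 : ∀ z : ℂ, ‖z‖ ≤ T → ‖(q : ℂ) * z + (p : ℂ)‖ ≤ K0 * N := by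
    intro z hz
    calc ‖(q : ℂ) * z + (p : ℂ)‖ ≤ ‖(q : ℂ) * z‖ + ‖(p : ℂ)‖ := norm_add_le _ _
      _ = |(q : ℝ)| * ‖z‖ + |(p : ℝ)| := by rw [norm_mul, hqn, hpn]
      _ ≤ Kq * N * T + Kp * N := by gcongr
      _ = K0 * N := by rw [hK0]; ring
  have hzτ := k4 _ hτT
  have hzτ₀ := k4 _ hτ₀T
  set z : ℂ := (q : ℂ) * (τ : ℂ) + (p : ℂ) with hz
  set z₀ : ℂ := (q : ℂ) * (τ₀ : ℂ) + (p : ℂ) with hz₀
  clear_value z z₀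
  have k5 : ‖z ^ 12 - z₀ ^ 12‖ ≤ 12 * K0 ^ 11 * Kq * N ^ 12 * d := by
    have h1 := RLoc_pow12 hzτ hzτ₀
    have h2 : z - z₀ = (q : ℂ) * ((τ : ℂ) - (τ₀ : ℂ)) := by rw [hz, hz₀]; ring
    rw [h2, norm_mul, hqn] at h1
    calc ‖z ^ 12 - z₀ ^ 12‖ ≤ 12 * (K0 * N) ^ 11 * (|(q : ℝ)| * d) := h1
      _ ≤ 12 * (K0 * N) ^ 11 * (Kq * N * d) := by gcongr
      _ = _ := by ring
  have k6 := hlip τ g6
  set Dτ := ModularForm.discriminant τ with hDτ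
  clear_value Dτ
  have k7 : ‖Dτ‖ ≤ D0 + CL * y := by
    have h1 : ‖Dτ‖ ≤ ‖ModularForm.discriminant τ₀‖ + ‖Dτ - ModularForm.discriminant τ₀‖ := by
      have h2 := norm_add_le (ModularForm.discriminant τ₀) (Dτ - ModularForm.discriminant τ₀)
      rwa [add_sub_cancel] at h2
    have h3 : CL * d ≤ CL * y := by
      refine mul_le_mul_of_nonneg_left ?_ (by linarith)
      linarith
    linarith
  have k8 : ‖z ^ 12 * Dτ - z₀ ^ 12 * ModularForm.discriminant τ₀‖ ≤ K1 * N ^ 12 * d := by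
    have h1 : z ^ 12 * Dτ - z₀ ^ 12 * ModularForm.discriminant τ₀ =
        z ^ 12 * (Dτ - ModularForm.discriminant τ₀) +
          (z ^ 12 - z₀ ^ 12) * ModularForm.discriminant τ₀ := by ring
    rw [h1]
    calc ‖z ^ 12 * (Dτ - ModularForm.discriminant τ₀) +
          (z ^ 12 - z₀ ^ 12) * ModularForm.discriminant τ₀‖ ≤
          ‖z ^ 12 * (Dτ - ModularForm.discriminant τ₀)‖ +
            ‖(z ^ 12 - z₀ ^ 12) * ModularForm.discriminant τ₀‖ := norm_add_le _ _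
      _ = ‖z‖ ^ 12 * ‖Dτ - ModularForm.discriminant τ₀‖ + ‖z ^ 12 - z₀ ^ 12‖ * D0 := by
          rw [norm_mul, norm_mul, norm_pow, hD0]
      _ ≤ (K0 * N) ^ 12 * (CL * d) + (12 * K0 ^ 11 * Kq * N ^ 12 * d) * D0 := by gcongr
      _ = K1 * N ^ 12 * d := by rw [hK1]; ring
  have k9 : ‖z ^ 12 * Dτ‖ ≤ K2 * N ^ 12 := by
    rw [norm_mul, norm_pow]
    calc ‖z‖ ^ 12 * ‖Dτ‖ ≤ (K0 * N) ^ 12 * (D0 + CL * y) := by gcongr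
      _ = K2 * N ^ 12 := by rw [hK2]; ring
  have k10 : ‖a * Bb.eval t - b * Aa.eval t‖ * ‖t‖ ≤ c6 * c1 * ‖Bb.eval t‖ := by
    have h1 := hD2 t hs1
    rw [Polynomial.eval_sub, Polynomial.eval_mul, Polynomial.eval_C, Polynomial.eval_mul,
      Polynomial.eval_C] at h1
    calc ‖a * Bb.eval t - b * Aa.eval t‖ * ‖t‖ ≤ c6 * ‖t‖ ^ n := h1
      _ ≤ c6 * (c1 * ‖Bb.eval t‖) := by gcongr
      _ = _ := by ring
  have k11 : ‖t‖ ≤ c4 * c2 * ‖u‖ := by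
    have h1 := hBalt t hs1
    have h2 : ‖t‖ * ‖Ba.eval t‖ ≤ (c4 * c2 * ‖u‖) * ‖Ba.eval t‖ := by
      calc ‖t‖ * ‖Ba.eval t‖ = ‖Ba.eval t‖ * ‖t‖ := by ring
        _ ≤ c4 * ‖t‖ ^ n := h1
        _ ≤ c4 * (c2 * ‖Aa.eval t‖) := by gcongr
        _ = _ := by rw [hu, norm_mul]; ring
    exact le_of_mul_le_mul_right h2 hBapos
  have k12 : ‖z ^ 12 * Dτ * Aa.eval t - Ξ * Bb.eval t‖ * ‖t‖ ≤
      c4 * c2 * CB * ‖Ξ‖ * ‖Bb.eval t‖ := by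
    have h1 := hcusp τ τ' g B (by rw [hτv]; exact hnc) hred hgprim hgpos hgmaps
      (by rw [hτv, hτ']; exact hisB)
    rw [hτ', ← hp, ← hq, ← hz, ← hDτ] at h1
    have h2 : z ^ 12 * Dτ * Aa.eval t - Ξ * Bb.eval t =
        (z ^ 12 * Dτ * u - B) * Ba.eval t := by rw [hΞ, hu]; ring
    rw [h2, norm_mul]
    calc ‖z ^ 12 * Dτ * u - B‖ * ‖Ba.eval t‖ * ‖t‖ ≤
          ‖z ^ 12 * Dτ * u - B‖ * ‖Ba.eval t‖ * (c4 * c2 * ‖u‖) := by gcongr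
      _ = c4 * c2 * (‖z ^ 12 * Dτ * u - B‖ * ‖u‖) * ‖Ba.eval t‖ := by ring
      _ ≤ c4 * c2 * (CB * ‖B‖) * ‖Ba.eval t‖ := by gcongr
      _ = c4 * c2 * CB * (‖B‖ * ‖Ba.eval t‖) := by ring
      _ = c4 * c2 * CB * (‖Ξ‖ * ‖Bb.eval t‖) := by rw [← norm_mul, ← hΞ, norm_mul]
      _ = _ := by ring
  have k13 := RLoc_comb hBb0 hs0 (pow_nonneg hN0.le 12) hd0 hK10 hK20
    (by positivity : 0 ≤ c6 * c1) (by positivity : 0 ≤ c4 * c2 * CB) k8 k9 k10 k12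
  rw [← hK] at k13
  have k14 := RLoc_pw hm (norm_nonneg _) hKnn
    (by positivity : 0 ≤ N ^ 12 + ‖Ξ‖) hd0 hs1 k13 g5
  refine ⟨p, q, ?_, ?_, ?_, ?_⟩
  · rintro ⟨h1, h2⟩
    have h3 : g.det = 0 := by
      rw [Matrix.det_fin_two, ← hp, ← hq, h1, h2]
      ring
    omega
  · exact k3.trans (mul_le_mul_of_nonneg_right hS6 hN0.le)
  · exact k2.trans (mul_le_mul_of_nonneg_right hS7 hN0.le)
  · have h1 : a * (G2 w (w * τ₀) ^ 3 - 27 * G3 w (w * τ₀) ^ 2) *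
        ((p : ℂ) * w + q * (w * τ₀)) ^ 12 - (2 * Real.pi) ^ 12 * (b * Ξ) =
        (2 * Real.pi : ℂ) ^ 12 * (a * (z₀ ^ 12 * ModularForm.discriminant τ₀) - b * Ξ) := by
      have h2 := disc_eq τ₀
      have h3 : (G2 w (w * τ₀) ^ 3 - 27 * G3 w (w * τ₀) ^ 2) * w ^ 12 =
          (2 * Real.pi : ℂ) ^ 12 * ModularForm.discriminant τ₀ := by
        rw [G2_scale hw, G3_scale hw, ← h2]
        field_simp
      have h4 : ((p : ℂ) * w + q * (w * τ₀)) ^ 12 = w ^ 12 * z₀ ^ 12 := by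
        rw [← mul_pow, hz₀]
        congr 1
        ring
      rw [h4]
      linear_combination a * z₀ ^ 12 * h3
    rw [h1, norm_mul, mul_pow]
    have h5 : ‖(2 * Real.pi : ℂ) ^ 12‖ ^ m = (2 * Real.pi) ^ (12 * m) := by
      rw [norm_pow, ← pow_mul]
      congr 1
      rw [norm_mul, Complex.norm_real, Real.norm_eq_abs, abs_of_pos Real.pi_pos]
      simp
    rw [h5]
    calc (2 * Real.pi) ^ (12 * m) *
          ‖a * (z₀ ^ 12 * ModularForm.discriminant τ₀) - b * Ξ‖ ^ m * ‖t‖ =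
          (2 * Real.pi) ^ (12 * m) *
            (‖a * (z₀ ^ 12 * ModularForm.discriminant τ₀) - b * Ξ‖ ^ m * ‖t‖) := by ring
      _ ≤ (2 * Real.pi) ^ (12 * m) *
            ((2 * K) ^ m * (CJ * (c5 * c1) + 1) * (N ^ 12 + ‖Ξ‖) ^ m) := by gcongr
      _ = F * (N ^ 12 + ‖Ξ‖) ^ m := by rw [hF]; ring
      _ ≤ S * (N ^ 12 + ‖Ξ‖) ^ m := by gcongr

theorem loc_form (Aa Ba Ab Bb : ℂ[X]) (n : ℕ) (hAa : Aa.natDegree = n) (hBb : Bb.natDegree = n)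
    (hBa : Ba.natDegree < n) (hAb : Ab.natDegree ≤ n) {w : ℂ} (hw : w ≠ 0) {τ₀ : ℍ}
    (hτ₀ : jInv τ₀ * Bb.coeff n = Ab.coeff n) :
    ∃ (C : ℝ) (m : ℕ), 1 ≤ C ∧ 0 < m ∧ ∀ t u v B Ξ : ℂ, C ≤ ‖t‖ →
      Aa.eval t = u * Ba.eval t → Ba.eval t ≠ 0 → Ab.eval t = v * Bb.eval t → Bb.eval t ≠ 0 →
      NCM v → IsB v u B → Ξ * Bb.eval t = B * Ba.eval t →
        ∃ (p q : ℤ) (ρ : ℂ), ¬ (p = 0 ∧ q = 0) ∧ |(p : ℝ)| ≤ C * mdeg v u ∧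
          |(q : ℝ)| ≤ C * mdeg v u ∧
          Aa.coeff n * (G2 w (w * τ₀) ^ 3 - 27 * G3 w (w * τ₀) ^ 2) * ρ ^ 12 =
            Bb.coeff n * Ξ ∧
          ‖(p : ℂ) * w + q * (w * τ₀) - 2 * Real.pi * Complex.I * ρ‖ ^ (12 * m) * ‖t‖ ≤
            C * ((mdeg v u : ℝ) ^ 12 + ‖Ξ‖) ^ m := by
  have hn : 0 < n := by omega
  have ha : Aa.coeff n ≠ 0 := by
    intro h
    have := RLoc_deg hn hAa.le h
    omega
  obtain ⟨C, m, hC, hm, h⟩ := loc_id Aa Ba Ab Bb n hAa hBb hBa hAb hw hτ₀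
  have hD : Aa.coeff n * (G2 w (w * τ₀) ^ 3 - 27 * G3 w (w * τ₀) ^ 2) ≠ 0 :=
    mul_ne_zero ha (disc_ne_zero_w τ₀ hw)
  set D := Aa.coeff n * (G2 w (w * τ₀) ^ 3 - 27 * G3 w (w * τ₀) ^ 2) with hDdef
  have hD' : 0 < ‖D‖ := norm_pos_iff.mpr hD
  refine ⟨max C (C / ‖D‖ ^ m), m, hC.trans (le_max_left _ _), hm,
    fun t u v B Ξ ht hu hBa0 hv hBb0 hnc hB hΞ => ?_⟩
  obtain ⟨p, q, hpq, hp, hq, hE⟩ := h t u v B Ξ ((le_max_left _ _).trans ht) hu hBa0 hv hBb0 hnc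
    hB hΞ
  obtain ⟨ρ₀, hρ₀⟩ := IsAlgClosed.exists_pow_nat_eq (Bb.coeff n * Ξ / D) (n := 12) (by norm_num)
  have hρ₁ : D * ρ₀ ^ 12 = Bb.coeff n * Ξ := by
    rw [hρ₀]
    field_simp
  obtain ⟨ζ, hζ, hroot⟩ := root12 ((p : ℂ) * w + q * (w * τ₀)) (2 * Real.pi * Complex.I * ρ₀)
  have hI : Complex.I ^ 12 = 1 := by
    rw [show 12 = 4 * 3 from rfl, pow_mul, Complex.I_pow_four, one_pow]
  have hmd : (0 : ℝ) ≤ (mdeg v u : ℝ) := Nat.cast_nonneg _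
  refine ⟨p, q, ζ * ρ₀, hpq, hp.trans (mul_le_mul_of_nonneg_right (le_max_left _ _) hmd),
    hq.trans (mul_le_mul_of_nonneg_right (le_max_left _ _) hmd), ?_, ?_⟩
  · rw [mul_pow, hζ, one_mul, hρ₁]
  · have h1 : (p : ℂ) * w + q * (w * τ₀) - 2 * Real.pi * Complex.I * (ζ * ρ₀) =
        (p : ℂ) * w + q * (w * τ₀) - ζ * (2 * Real.pi * Complex.I * ρ₀) := by ring
    have h2 : D * ((p : ℂ) * w + q * (w * τ₀)) ^ 12 - (2 * Real.pi) ^ 12 * (Bb.coeff n * Ξ) =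
        D * (((p : ℂ) * w + q * (w * τ₀)) ^ 12 - (2 * Real.pi * Complex.I * ρ₀) ^ 12) := by
      rw [← hρ₁, mul_pow (2 * (Real.pi : ℂ) * Complex.I), mul_pow _ Complex.I, hI]
      ring
    rw [h2, norm_mul, mul_pow] at hE
    have h3 : 0 ≤ (mdeg v u : ℝ) ^ 12 + ‖Ξ‖ := by positivity
    rw [h1, pow_mul]
    calc (‖(p : ℂ) * w + q * (w * τ₀) - ζ * (2 * Real.pi * Complex.I * ρ₀)‖ ^ 12) ^ m * ‖t‖ ≤
          ‖((p : ℂ) * w + q * (w * τ₀)) ^ 12 - (2 * Real.pi * Complex.I * ρ₀) ^ 12‖ ^ m * ‖t‖ := by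
          gcongr
      _ ≤ C / ‖D‖ ^ m * ((mdeg v u : ℝ) ^ 12 + ‖Ξ‖) ^ m := by
          rw [div_mul_eq_mul_div, le_div_iff₀ (by positivity)]
          calc _ = ‖D‖ ^ m * ‖((p : ℂ) * w + q * (w * τ₀)) ^ 12 -
                (2 * Real.pi * Complex.I * ρ₀) ^ 12‖ ^ m * ‖t‖ := by ring
            _ ≤ _ := hE
      _ ≤ _ := by
          refine mul_le_mul_of_nonneg_right (le_max_right _ _) (by positivity)

end Pool.Agent.LGO.U
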