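import Mathlib
import Pool.Agent.LGO.U.RLoc
import Pool.Agent.LGO.U.RFld
import Pool.Agent.LGO.U.MeasG
import Pool.Agent.LGO.Q.Quad

/-!
# LGO/U: an upper bound for `‖t‖` from the measure

PROOF.  `β = coeff Ab n / coeff Bb n` is algebraic; `alg_lat`: `w, τ₀` with `j(τ₀) = β` and algebraic `g₂`, `g₃`; `loc_form` gives
`C₁, m`; `measG` for `w, τ₀` gives `C₂`.  Constants depend on these data.  Let `‖t‖ ≥ C₁` (otherwise the bound is clear for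
`C` large: `C₁ ≤ exp ((C M) ^ C)`).  `p, q, ρ` from `loc_form`, `ρ ^ 12 = η = κ Ξ` with `κ = coeff Bb n / (coeff Aa n Δ₀)`, an algebraic number
which depends on the data only: `K₀ = ℚ(κ)`, `K₁ = K ⊔ K₀`, `[K₁ : ℚ] ≤ d₀ M`, `Bd K₁ B₀ κ` (`Quad_bd_alg` in `LGO/Q/Quad.lean`), so
`Bd K₁ (M + B₀) η` (`Bd.le`, `Bd.mul`); `fld_root` for `X ^ 12 - η`: `K₂ ∋ ρ` with `[K₂ : ℚ] ≤ 12 d₀ M`; `bd_root`: `Bd K₂ (M + B₀) ρ`.
With `M' = C₃ M` (`≥ 2`, `≥ [K₂ : ℚ]`, `≥ M + B₀`, `C₁ N ≤ exp M'`): `measG`: `exp (-((C₂ M') ^ C₂)) ≤ ‖p w + q (w τ₀) - 2 π i ρ‖`.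
`‖Ξ‖ ≤ exp M` (`Bd.aut` for the identity).  So `‖t‖ ≤ C₁ (exp (12 M) + exp M) ^ m exp (12 m (C₂ M') ^ C₂) ≤ exp ((C M) ^ C)`.
-/

namespace Pool.Agent.LGO.U

open UpperHalfPlane Polynomial Pool.Agent.Hhelper14.ZP Pool.Agent.EllSch Pool.Agent.LGO

private theorem RMeas_num {C₁ : ℝ} (hC₁ : 1 ≤ C₁) {m C₂ C₃ C₄ : ℕ} (hC₂ : 1 ≤ C₂) (hC₃ : 1 ≤ C₃)
    (hC₄ : C₁ + 25 * m ≤ C₄) {M : ℝ} (hM : 2 ≤ M) :
    C₁ + 13 * m * M + 12 * m * ((C₂ : ℝ) * (C₃ * M)) ^ C₂ ≤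
      (((C₄ * C₂ * C₃ : ℕ) : ℝ) * M) ^ (C₄ * C₂ * C₃) := by
  have h2 : (1 : ℝ) ≤ C₂ := by exact_mod_cast hC₂
  have h3 : (1 : ℝ) ≤ C₃ := by exact_mod_cast hC₃
  have hm0 : (0 : ℝ) ≤ m := Nat.cast_nonneg m
  have h4 : (1 : ℝ) ≤ C₄ := by nlinarith
  have h4' : 1 ≤ C₄ := by exact_mod_cast h4
  have hM1 : (1 : ℝ) ≤ M := by linarith
  set X : ℝ := ((C₂ : ℝ) * (C₃ * M)) ^ C₂ with hX
  have hb : M ≤ (C₂ : ℝ) * (C₃ * M) := by
    have h5 : M ≤ C₃ * M := le_mul_of_one_le_left (by linarith) h3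
    exact h5.trans (le_mul_of_one_le_left (by linarith) h2)
  have hXM : M ≤ X := by
    refine hb.trans ?_
    exact le_self_pow₀ (by linarith) (by omega)
  have hX1 : 1 ≤ X := hM1.trans hXM
  have h6 : C₁ + 13 * m * M + 12 * m * X ≤ C₄ * X := by
    have h7 : C₁ ≤ C₁ * X := le_mul_of_one_le_right (by linarith) hX1
    have h8 : 13 * m * M ≤ 13 * m * X := mul_le_mul_of_nonneg_left hXM (by positivity)
    have h9 : (C₁ + 25 * m) * X ≤ C₄ * X := mul_le_mul_of_nonneg_right hC₄ (by linarith)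
    nlinarith
  refine h6.trans ?_
  have hbase : (1 : ℝ) ≤ ((C₄ * C₂ * C₃ : ℕ) : ℝ) * M := by
    have h10 : (1 : ℝ) ≤ ((C₄ * C₂ * C₃ : ℕ) : ℝ) := by
      have : 1 ≤ C₄ * C₂ * C₃ := Nat.mul_pos (Nat.mul_pos h4' hC₂) hC₃
      exact_mod_cast this
    nlinarith
  have hexp : C₂ ≤ C₄ * C₂ * C₃ := by
    calc C₂ = 1 * C₂ * 1 := by ring
      _ ≤ C₄ * C₂ * C₃ := Nat.mul_le_mul (Nat.mul_le_mul h4' le_rfl) hC₃
  calc (C₄ : ℝ) * X ≤ (C₄ : ℝ) ^ C₂ * X :=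
        mul_le_mul_of_nonneg_right (le_self_pow₀ h4 (by omega)) (by linarith)
    _ = (((C₄ * C₂ * C₃ : ℕ) : ℝ) * M) ^ C₂ := by
        rw [hX, ← mul_pow]
        congr 1
        push_cast
        ring
    _ ≤ (((C₄ * C₂ * C₃ : ℕ) : ℝ) * M) ^ (C₄ * C₂ * C₃) := pow_le_pow_right₀ hbase hexp

theorem meas_one (Aa Ba Ab Bb : ℂ[X]) (n : ℕ) (hAa : Aa.natDegree = n) (hBb : Bb.natDegree = n)
    (hBa : Ba.natDegree < n) (hAb : Ab.natDegree ≤ n)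
    (ga : IsAlgebraic ℚ (Aa.coeff n)) (gb : IsAlgebraic ℚ (Bb.coeff n))
    (gc : IsAlgebraic ℚ (Ab.coeff n)) :
    ∃ C : ℕ, 1 ≤ C ∧ ∀ (K : IntermediateField ℚ ℂ) [FiniteDimensional ℚ K] (M : ℝ)
      (t u v B Ξ : ℂ), 2 ≤ M → (Module.finrank ℚ K : ℝ) ≤ M → (mdeg v u : ℝ) ≤ Real.exp M →
      Aa.eval t = u * Ba.eval t → Ba.eval t ≠ 0 → Ab.eval t = v * Bb.eval t → Bb.eval t ≠ 0 →
      NCM v → IsB v u B → Ξ * Bb.eval t = B * Ba.eval t → Bd K M Ξ →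
        ‖t‖ ≤ Real.exp ((C * M) ^ C) := by
  classical
  have hn : 0 < n := by omega
  have ha0 : Aa.coeff n ≠ 0 := by
    rw [← hAa, coeff_natDegree, Ne, leadingCoeff_eq_zero]
    rintro rfl
    simp at hAa
    omega
  have hb0 : Bb.coeff n ≠ 0 := by
    rw [← hBb, coeff_natDegree, Ne, leadingCoeff_eq_zero]
    rintro rfl
    simp at hBb
    omega
  obtain ⟨w, τ₀, hw, -, hj, h2, h3⟩ := alg_lat (gc.mul gb.inv)
  have hτ₀ : jInv τ₀ * Bb.coeff n = Ab.coeff n := by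
    rw [hj, inv_mul_cancel_right₀ hb0]
  obtain ⟨C₁, m, hC₁, hm, hloc⟩ := loc_form Aa Ba Ab Bb n hAa hBb hBa hAb hw hτ₀
  obtain ⟨C₂, hC₂, hmeas⟩ := measG hw τ₀.im_pos h2 h3
  set D₀ : ℂ := G2 w (w * τ₀) ^ 3 - 27 * G3 w (w * τ₀) ^ 2 with hD₀
  have hD0 : D₀ ≠ 0 := disc_ne_zero_w τ₀ hw
  have hDalg : IsAlgebraic ℚ D₀ := by
    have h27 : IsAlgebraic ℚ (27 : ℂ) := isAlgebraic_algebraMap (27 : ℚ)
    exact (h2.pow 3).sub (h27.mul (h3.pow 2))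
  set κ : ℂ := Bb.coeff n * (Aa.coeff n * D₀)⁻¹ with hκ
  have hκalg : IsAlgebraic ℚ κ := gb.mul (ga.mul hDalg).inv
  obtain ⟨B₀, hB₀, hBκ⟩ := Quad_bd_alg hκalg
  have hfin₀ : FiniteDimensional ℚ (IntermediateField.adjoin ℚ {κ}) :=
    IntermediateField.adjoin.finiteDimensional hκalg.isIntegral
  set d₀ : ℕ := Module.finrank ℚ (IntermediateField.adjoin ℚ {κ}) with hd₀
  set C₃ : ℕ := 12 * d₀ + ⌈C₁⌉₊ + ⌈B₀⌉₊ + 1 with hC₃
  set C₄ : ℕ := ⌈C₁⌉₊ + 25 * m + 1 with hC₄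
  have h13 : 1 ≤ C₃ := by omega
  have hC₄' : C₁ + 25 * m ≤ (C₄ : ℝ) := by
    have := Nat.le_ceil C₁
    rw [hC₄]
    push_cast
    linarith
  have hC₄1 : 1 ≤ C₄ := by omega
  refine ⟨C₄ * C₂ * C₃, Nat.mul_pos (Nat.mul_pos hC₄1 hC₂) h13, ?_⟩
  intro K hK M t u v B Ξ hM hdeg hN hAt hBt hAbt hBbt hncm hB hΞ hBd
  have hnum := RMeas_num hC₁ (m := m) hC₂ h13 hC₄' hM
  have hM1 : (1 : ℝ) ≤ M := by linarith
  have hm0 : (0 : ℝ) ≤ m := Nat.cast_nonneg m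
  by_cases ht : ‖t‖ ≤ C₁
  · refine ht.trans ?_
    have h5 : C₁ ≤ C₁ + 13 * m * M + 12 * m * ((C₂ : ℝ) * (C₃ * M)) ^ C₂ := by
      have h6 : 0 ≤ 13 * m * M := by positivity
      have h7 : 0 ≤ 12 * m * ((C₂ : ℝ) * (C₃ * M)) ^ C₂ := by positivity
      linarith
    have h8 := h5.trans hnum
    have h9 := Real.add_one_le_exp ((((C₄ * C₂ * C₃ : ℕ) : ℝ) * M) ^ (C₄ * C₂ * C₃))
    linarith
  · rw [not_le] at ht
    obtain ⟨p, q, ρ, hpq, hp, hq, hρ, hδ⟩ := hloc t u v B Ξ ht.le hAt hBt hAbt hBbt hncm hB hΞ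
    -- the fields
    set K₁ : IntermediateField ℚ ℂ := K ⊔ IntermediateField.adjoin ℚ {κ} with hK₁
    have hfin₁ : FiniteDimensional ℚ K₁ := IntermediateField.finiteDimensional_sup K _
    have hκ₁ : κ ∈ K₁ :=
      (le_sup_right : IntermediateField.adjoin ℚ {κ} ≤ K ⊔ IntermediateField.adjoin ℚ {κ})
        (IntermediateField.mem_adjoin_simple_self ℚ κ)
    have hdeg₁ : Module.finrank ℚ K₁ ≤ Module.finrank ℚ K * d₀ :=
      IntermediateField.finrank_sup_le K _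
    have hη : Bd K₁ (B₀ + M) (κ * Ξ) := (hBκ K₁ hκ₁).mul (hBd.le le_sup_left)
    have hρη : ρ ^ 12 = κ * Ξ := by
      have h5 : Aa.coeff n * D₀ ≠ 0 := mul_ne_zero ha0 hD0
      have h6 : (Aa.coeff n * D₀) * ρ ^ 12 = (Aa.coeff n * D₀) * (κ * Ξ) := by
        rw [hρ, hκ]
        field_simp
      exact mul_left_cancel₀ h5 h6
    obtain ⟨K₂, hK₁₂, hfin₂, hdeg₂, hρ₂⟩ := fld_root 12 K₁ (X ^ 12 - C (κ * Ξ))
      (X_pow_sub_C_ne_zero (by norm_num) _) (by rw [natDegree_X_pow_sub_C])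
      (by
        intro i
        rw [coeff_sub, coeff_X_pow, coeff_C]
        refine K₁.sub_mem ?_ ?_
        · split_ifs
          · exact K₁.one_mem
          · exact K₁.zero_mem
        · split_ifs
          · exact hη.mem
          · exact K₁.zero_mem) ρ (by rw [eval_sub, eval_pow, eval_X, eval_C, hρη, sub_self])
    have hBρ : Bd K₂ (B₀ + M) ρ := by
      refine bd_root 12 (by norm_num) hρ₂ ?_
      rw [hρη]
      exact hη.le hK₁₂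
    -- the measure
    have hC₁3 : C₁ + 1 ≤ (C₃ : ℝ) := by
      have h5 := Nat.le_ceil C₁
      have h6 : ((⌈C₁⌉₊ : ℕ) : ℝ) + 1 ≤ (C₃ : ℝ) := by
        have : ⌈C₁⌉₊ + 1 ≤ C₃ := by omega
        exact_mod_cast this
      linarith
    have hB₀3 : B₀ + 1 ≤ (C₃ : ℝ) := by
      have h5 := Nat.le_ceil B₀
      have h6 : ((⌈B₀⌉₊ : ℕ) : ℝ) + 1 ≤ (C₃ : ℝ) := by
        have : ⌈B₀⌉₊ + 1 ≤ C₃ := by omega
        exact_mod_cast this
      linarith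
    have hM'2 : 2 ≤ (C₃ : ℝ) * M := by nlinarith
    have hdegM : (Module.finrank ℚ K₂ : ℝ) ≤ (C₃ : ℝ) * M := by
      have h5 : Module.finrank ℚ K₂ ≤ (12 * d₀) * Module.finrank ℚ K := by
        calc Module.finrank ℚ K₂ ≤ 12 * Module.finrank ℚ K₁ := hdeg₂
          _ ≤ 12 * (Module.finrank ℚ K * d₀) := Nat.mul_le_mul_left _ hdeg₁
          _ = (12 * d₀) * Module.finrank ℚ K := by ring
      have h6 : (Module.finrank ℚ K₂ : ℝ) ≤ ((12 * d₀ : ℕ) : ℝ) * (Module.finrank ℚ K : ℝ) := by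
        exact_mod_cast h5
      have h7 : ((12 * d₀ : ℕ) : ℝ) ≤ (C₃ : ℝ) := by
        have : 12 * d₀ ≤ C₃ := by omega
        exact_mod_cast this
      calc (Module.finrank ℚ K₂ : ℝ) ≤ ((12 * d₀ : ℕ) : ℝ) * (Module.finrank ℚ K : ℝ) := h6
        _ ≤ (C₃ : ℝ) * M := mul_le_mul h7 hdeg (Nat.cast_nonneg _) (Nat.cast_nonneg _)
    have hBM : B₀ + M ≤ (C₃ : ℝ) * M := by nlinarith
    have hCN : C₁ * (mdeg v u : ℝ) ≤ Real.exp ((C₃ : ℝ) * M) := by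
      have h5 : C₁ ≤ Real.exp C₁ := by
        have := Real.add_one_le_exp C₁
        linarith
      calc C₁ * (mdeg v u : ℝ) ≤ Real.exp C₁ * Real.exp M :=
            mul_le_mul h5 hN (Nat.cast_nonneg _) (Real.exp_pos _).le
        _ = Real.exp (C₁ + M) := (Real.exp_add _ _).symm
        _ ≤ Real.exp ((C₃ : ℝ) * M) := by
            apply Real.exp_le_exp.2
            nlinarith
    have hlow := hmeas K₂ ((C₃ : ℝ) * M) p q ρ hM'2 hdegM (hp.trans hCN) (hq.trans hCN) hpq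
      (hBρ.mono hBM)
    set δ : ℝ := ‖(p : ℂ) * w + q * (w * τ₀) - 2 * Real.pi * Complex.I * ρ‖ with hδd
    set Y : ℝ := ((C₂ : ℝ) * ((C₃ : ℝ) * M)) ^ C₂ with hY
    have hδ1 : Real.exp (-(12 * m * Y)) ≤ δ ^ (12 * m) := by
      have h5 : Real.exp (-(12 * m * Y)) = Real.exp (-Y) ^ (12 * m) := by
        rw [← Real.exp_nat_mul]
        congr 1
        push_cast
        ring
      rw [h5]
      exact pow_le_pow_left₀ (Real.exp_pos _).le hlow _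
    have hΞn : ‖Ξ‖ ≤ Real.exp M := hBd.aut (RingEquiv.refl ℂ)
    have hsum : (mdeg v u : ℝ) ^ 12 + ‖Ξ‖ ≤ Real.exp (13 * M) := by
      have h5 : (mdeg v u : ℝ) ^ 12 ≤ Real.exp (12 * M) := by
        have h6 : Real.exp (12 * M) = Real.exp M ^ 12 := by
          rw [← Real.exp_nat_mul]
          norm_num
        rw [h6]
        exact pow_le_pow_left₀ (Nat.cast_nonneg _) hN _
      have h7 : Real.exp M ≤ Real.exp (12 * M) := Real.exp_le_exp.2 (by linarith)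
      have h8 : (2 : ℝ) ≤ Real.exp M := by
        have := Real.add_one_le_exp M
        linarith
      have h9 : Real.exp (13 * M) = Real.exp M * Real.exp (12 * M) := by
        rw [← Real.exp_add]
        congr 1
        ring
      have h10 := Real.exp_pos (12 * M)
      rw [h9]
      nlinarith
    have hsumm : ((mdeg v u : ℝ) ^ 12 + ‖Ξ‖) ^ m ≤ Real.exp (13 * m * M) := by
      have h5 : Real.exp (13 * m * M) = Real.exp (13 * M) ^ m := by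
        rw [← Real.exp_nat_mul]
        congr 1
        ring
      rw [h5]
      exact pow_le_pow_left₀ (by positivity) hsum _
    have hfinal : Real.exp (-(12 * m * Y)) * ‖t‖ ≤ Real.exp (C₁ + 13 * m * M) := by
      calc Real.exp (-(12 * m * Y)) * ‖t‖ ≤ δ ^ (12 * m) * ‖t‖ :=
            mul_le_mul_of_nonneg_right hδ1 (norm_nonneg _)
        _ ≤ C₁ * ((mdeg v u : ℝ) ^ 12 + ‖Ξ‖) ^ m := hδ
        _ ≤ Real.exp C₁ * Real.exp (13 * m * M) := by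
            refine mul_le_mul ?_ hsumm (by positivity) (Real.exp_pos _).le
            have := Real.add_one_le_exp C₁
            linarith
        _ = Real.exp (C₁ + 13 * m * M) := (Real.exp_add _ _).symm
    have h5 : ‖t‖ ≤ Real.exp (C₁ + 13 * m * M + 12 * m * Y) := by
      have h6 : Real.exp (12 * m * Y) * (Real.exp (-(12 * m * Y)) * ‖t‖) = ‖t‖ := by
        rw [← mul_assoc, ← Real.exp_add, add_neg_cancel, Real.exp_zero, one_mul]
      calc ‖t‖ = Real.exp (12 * m * Y) * (Real.exp (-(12 * m * Y)) * ‖t‖) := h6.symm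
        _ ≤ Real.exp (12 * m * Y) * Real.exp (C₁ + 13 * m * M) :=
            mul_le_mul_of_nonneg_left hfinal (Real.exp_pos _).le
        _ = Real.exp (C₁ + 13 * m * M + 12 * m * Y) := by
            rw [← Real.exp_add]
            congr 1
            ring
    exact h5.trans (Real.exp_le_exp.2 hnum)

end Pool.Agent.LGO.U
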