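import Mathlib
import Pool.Agent.LGO.U.BDef
import Pool.Agent.LGO.H.JSize
import Pool.Agent.LGO.Q.Ent
import Pool.Agent.LGO.Mul.Vol

/-!
# LGO/U: the absolute value of `B`

PROOF.  `disc_size`: on the fundamental domain `c exp (-2 π Im τ) ≤ ‖Δ(τ)‖ ≤ C exp (-2 π Im τ)` (`Vol_disc` in `LGO/Mul/Vol.lean` with
`disc_eq`, or `Δ = q ∏ (1 - q^n)^24` with `‖q‖ ≤ exp (-π √3)`), `‖j(τ)‖ ≤ C exp (2 π Im τ)` (`norm_j_le`),
`exp (2 π Im τ) ≤ C (1 + ‖j(τ)‖) ≤ 2 C max 1 ‖j(τ)‖` (`exp_im_le`) and `1 ≤ exp (2 π Im τ)`.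
`B_arch`: `Unif_exists_red`: `τ, τ'` reduced with invariants `x, y`; `exists_prim_mdeg` (with `IsB.isog`): `g` with
`det g = N = mdeg x y`; `IsB.maps`; `‖g₁₀ τ + g₁₁‖ ^ 2 Im τ' = N Im τ` (`norm_sq_denom`), so
`‖B‖ (Im τ') ^ 6 ‖Δ(τ')‖ = N ^ 6 (Im τ) ^ 6 ‖Δ(τ)‖`.  Multiply by `max 1 ‖x‖ * max 1 ‖y‖` and use `disc_size`:
`‖B‖ max 1 ‖x‖ (Im τ') ^ 6 ≤ C² N ^ 6 (Im τ) ^ 6 max 1 ‖y‖` and conversely; `√3 / 2 ≤ Im τ, Im τ'` (`Red.half_le`) and
`Im τ, Im τ' ≤ C H`: `exp (2 π Im τ) ≤ C (1 + ‖x‖) ≤ 2 C exp H`, `H ≥ 1`.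
-/

namespace Pool.Agent.LGO.U

open UpperHalfPlane Pool.Agent.Hhelper14.ZP Pool.Agent.EllSch Pool.Agent.LGO

private lemma BArch_P_ne {q : ℂ} (hq : ‖q‖ < 1) : ∏' n : ℕ, (1 - q ^ (n + 1)) ^ 24 ≠ 0 := by
  by_cases h0 : q = 0
  · subst h0
    simp
  · have him := Function.Periodic.im_invQParam_pos_of_norm_lt_one one_pos hq h0
    have h1 := ModularForm.discriminant_ne_zero ⟨_, him⟩
    rw [ModularForm.discriminant_eq_q_prod] at h1
    have h2 := right_ne_zero_of_mul h1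
    have h3 : Function.Periodic.qParam 1 (Function.Periodic.invQParam 1 q) = q :=
      Function.Periodic.qParam_right_inv one_ne_zero h0
    simpa [ModularForm.eta_q, h3] using h2

private lemma BArch_q (τ : UpperHalfPlane) :
    ‖Function.Periodic.qParam 1 (τ : ℂ)‖ = Real.exp (-(2 * Real.pi * τ.im)) := by
  simp [Function.Periodic.qParam, Complex.norm_exp]

private lemma BArch_disc : ∃ c C : ℝ, 0 < c ∧ 0 < C ∧ ∀ τ : UpperHalfPlane, 1 / 2 ≤ τ.im →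
    c * Real.exp (-(2 * Real.pi * τ.im)) ≤ ‖ModularForm.discriminant τ‖ ∧
      ‖ModularForm.discriminant τ‖ ≤ C * Real.exp (-(2 * Real.pi * τ.im)) := by
  have hr : Real.exp (-Real.pi) < 1 := by
    rw [Real.exp_lt_one_iff]
    linarith [Real.pi_pos]
  have hK : IsCompact (Metric.closedBall (0 : ℂ) (Real.exp (-Real.pi))) :=
    isCompact_closedBall _ _
  have hsub : Metric.closedBall (0 : ℂ) (Real.exp (-Real.pi)) ⊆ Metric.ball 0 1 :=
    Metric.closedBall_subset_ball hr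
  have hcont : ContinuousOn (fun q : ℂ => ‖∏' n : ℕ, (1 - q ^ (n + 1)) ^ 24‖)
      (Metric.closedBall (0 : ℂ) (Real.exp (-Real.pi))) :=
    ((ModularForm.differentiableOn_tprod_one_sub_pow_pow 24).continuousOn.mono hsub).norm
  have hne : (Metric.closedBall (0 : ℂ) (Real.exp (-Real.pi))).Nonempty :=
    ⟨0, Metric.mem_closedBall_self (Real.exp_pos _).le⟩
  obtain ⟨q₁, hq₁, hmin⟩ := hK.exists_isMinOn hne hcont
  obtain ⟨q₂, hq₂, hmax⟩ := hK.exists_isMaxOn hne hcont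
  have hp1 : 0 < ‖∏' n : ℕ, (1 - q₁ ^ (n + 1)) ^ 24‖ := by
    rw [norm_pos_iff]
    exact BArch_P_ne (by simpa using hsub hq₁)
  have hp2 : 0 < ‖∏' n : ℕ, (1 - q₂ ^ (n + 1)) ^ 24‖ := by
    rw [norm_pos_iff]
    exact BArch_P_ne (by simpa using hsub hq₂)
  refine ⟨_, _, hp1, hp2, ?_⟩
  intro τ hτ
  have hq : Function.Periodic.qParam 1 (τ : ℂ) ∈
      Metric.closedBall (0 : ℂ) (Real.exp (-Real.pi)) := by
    rw [mem_closedBall_zero_iff, BArch_q, Real.exp_le_exp]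
    nlinarith [Real.pi_pos]
  have e : ‖ModularForm.discriminant τ‖ = Real.exp (-(2 * Real.pi * τ.im)) *
      ‖∏' n : ℕ, (1 - Function.Periodic.qParam 1 (τ : ℂ) ^ (n + 1)) ^ 24‖ := by
    rw [ModularForm.discriminant_eq_q_prod, norm_mul, BArch_q]
  rw [e]
  have h1 := hmin hq
  have h2 := hmax hq
  have h3 := Real.exp_pos (-(2 * Real.pi * τ.im))
  constructor
  · rw [mul_comm]
    exact mul_le_mul_of_nonneg_left h1 h3.le
  · rw [mul_comm _ (Real.exp _)]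
    exact mul_le_mul_of_nonneg_left h2 h3.le

private lemma BArch_half {τ : ℍ} (h : Red (τ : ℂ)) : √3 / 2 ≤ τ.im := h.half_le

private lemma BArch_sqrt : (3 : ℝ) / 2 ≤ √3 := by
  apply Real.le_sqrt_of_sq_le
  norm_num

theorem disc_size : ∃ C : ℝ, 1 ≤ C ∧ ∀ τ : ℍ, Red (τ : ℂ) →
    ‖ModularForm.discriminant τ‖ * max 1 ‖jInv τ‖ ≤ C ∧
      1 ≤ C * (‖ModularForm.discriminant τ‖ * max 1 ‖jInv τ‖) := by
  obtain ⟨c, C, hc, hC, hd⟩ := BArch_disc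
  obtain ⟨C1, hC1, hj⟩ := norm_j_le
  obtain ⟨C2, hC2, he⟩ := exp_im_le
  have hk1 : 0 ≤ C * (1 + C1) := by positivity
  have hk2 : 0 ≤ 2 * C2 / c := by positivity
  refine ⟨1 + C * (1 + C1) + 2 * C2 / c, by linarith, fun τ hτ => ?_⟩
  have him : 1 / 2 ≤ τ.im := by
    have h1 := BArch_half hτ
    have h2 := BArch_sqrt
    linarith
  obtain ⟨hd1, hd2⟩ := hd τ him
  have hj1 := hj τ hτ
  have he1 := he τ hτ
  set e : ℝ := Real.exp (-(2 * Real.pi * τ.im)) with he0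
  set E : ℝ := Real.exp (2 * Real.pi * τ.im) with hE0
  have heE : e * E = 1 := by rw [he0, hE0, ← Real.exp_add, neg_add_cancel, Real.exp_zero]
  have hepos : 0 < e := Real.exp_pos _
  have hEpos : 0 < E := Real.exp_pos _
  have hE1 : 1 ≤ E := by
    rw [hE0, Real.one_le_exp_iff]
    have := Real.pi_pos
    positivity
  have he1' : e ≤ 1 := by nlinarith
  have hm1 : (1 : ℝ) ≤ max 1 ‖jInv τ‖ := le_max_left _ _
  have hm2 : ‖jInv τ‖ ≤ max 1 ‖jInv τ‖ := le_max_right _ _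
  have hm3 : max 1 ‖jInv τ‖ ≤ 1 + C1 * E := by
    refine max_le ?_ ?_
    · have : 0 ≤ C1 * E := by positivity
      linarith
    · linarith
  have hD0 : 0 ≤ ‖ModularForm.discriminant τ‖ := norm_nonneg _
  constructor
  · have h1 : ‖ModularForm.discriminant τ‖ * max 1 ‖jInv τ‖ ≤ (C * e) * (1 + C1 * E) :=
      mul_le_mul hd2 hm3 (by linarith) (by positivity)
    have h2 : (C * e) * (1 + C1 * E) = C * e + C * C1 * (e * E) := by ring
    rw [h2, heE] at h1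
    have h3 : C * e ≤ C * 1 := mul_le_mul_of_nonneg_left he1' hC.le
    linarith
  · have h1 : c * e * (E / (2 * C2)) ≤ ‖ModularForm.discriminant τ‖ * max 1 ‖jInv τ‖ := by
      refine mul_le_mul hd1 ?_ (by positivity) hD0
      rw [div_le_iff₀ (by positivity)]
      nlinarith
    have h2 : c * e * (E / (2 * C2)) = c / (2 * C2) := by
      have : c * e * (E / (2 * C2)) = c * (e * E) / (2 * C2) := by ring
      rw [this, heE, mul_one]
    rw [h2] at h1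
    have hm0 : 0 ≤ ‖ModularForm.discriminant τ‖ * max 1 ‖jInv τ‖ := by positivity
    have h3 : 1 ≤ (2 * C2 / c) * (‖ModularForm.discriminant τ‖ * max 1 ‖jInv τ‖) := by
      calc (1 : ℝ) = (2 * C2 / c) * (c / (2 * C2)) := by field_simp
        _ ≤ _ := mul_le_mul_of_nonneg_left h1 hk2
    nlinarith

private lemma BArch_im {C2 : ℝ} (hC2 : 0 < C2) {τ : ℍ}
    (he : Real.exp (2 * Real.pi * τ.im) ≤ C2 * (1 + ‖jInv τ‖)) {H : ℝ} (hH : 1 ≤ H)
    (hx : ‖jInv τ‖ ≤ Real.exp H) : τ.im ≤ (1 + |Real.log (2 * C2)|) * H := by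
  have h1 : Real.exp (2 * Real.pi * τ.im) ≤ Real.exp (Real.log (2 * C2) + H) := by
    rw [Real.exp_add, Real.exp_log (by positivity)]
    have h2 : (1 : ℝ) ≤ Real.exp H := Real.one_le_exp (by linarith)
    nlinarith
  rw [Real.exp_le_exp] at h1
  have h3 : τ.im ≤ 2 * Real.pi * τ.im := by
    have := Real.pi_gt_three
    have h4 := τ.im_pos
    nlinarith
  have h5 := le_abs_self (Real.log (2 * C2))
  have h6 := abs_nonneg (Real.log (2 * C2))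
  nlinarith

theorem B_arch : ∃ C : ℝ, 1 ≤ C ∧ ∀ x y B : ℂ, IsB x y B → NCM x → ∀ H : ℝ, 1 ≤ H →
    ‖x‖ ≤ Real.exp H → ‖y‖ ≤ Real.exp H →
      ‖B‖ * max 1 ‖x‖ ≤ C * (mdeg x y : ℝ) ^ 6 * H ^ 6 * max 1 ‖y‖ ∧
      (mdeg x y : ℝ) ^ 6 * max 1 ‖y‖ ≤ C * H ^ 6 * (‖B‖ * max 1 ‖x‖) := by
  obtain ⟨C, hC, hds⟩ := disc_size
  obtain ⟨C2, hC2, he⟩ := exp_im_le
  set A : ℝ := 1 + |Real.log (2 * C2)| with hA
  have hA1 : 1 ≤ A := by have := abs_nonneg (Real.log (2 * C2)); linarith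
  have hA6 : 1 ≤ A ^ 6 := one_le_pow₀ hA1
  have hCC : 1 ≤ C ^ 2 := one_le_pow₀ hC
  refine ⟨64 * (C ^ 2 * A ^ 6), by nlinarith, ?_⟩
  intro x y B hB hx H hH hxH hyH
  obtain ⟨τ, hτ, rfl⟩ := Unif_exists_red x
  obtain ⟨τ', hτ', rfl⟩ := Unif_exists_red y
  obtain ⟨g, hg, hg0, hp, hm⟩ := exists_prim_mdeg hB.isog
  have hEq := hB.maps hx rfl rfl hp hg0 hm
  have hn := congrArg norm hEq
  rw [norm_mul, norm_mul, norm_pow] at hn
  have hsq := norm_sq_denom hm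
  rw [hg] at hsq
  push_cast at hsq
  set N : ℝ := (mdeg (jInv τ) (jInv τ') : ℝ) with hN
  have hN0 : 0 ≤ N := Nat.cast_nonneg _
  set J : ℝ := ‖(g 1 0 : ℂ) * (τ : ℂ) + (g 1 1 : ℂ)‖ with hJ
  have hJ0 : 0 ≤ J := norm_nonneg _
  obtain ⟨d1, d2⟩ := hds τ hτ
  obtain ⟨d3, d4⟩ := hds τ' hτ'
  have i1 := BArch_im hC2 (he τ hτ) hH hxH
  have i2 := BArch_im hC2 (he τ' hτ') hH hyH
  rw [← hA] at i1 i2
  have e1 : (τ : ℂ).im = τ.im := rfl
  have e2 : (τ' : ℂ).im = τ'.im := rfl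
  rw [e1, e2] at hsq
  set t : ℝ := τ.im with ht
  set t' : ℝ := τ'.im with ht'
  have hs3 := BArch_sqrt
  have ht1 : 1 / 2 ≤ t := by have := BArch_half hτ; linarith
  have ht1' : 1 / 2 ≤ t' := by have := BArch_half hτ'; linarith
  have ht6 : 1 / 64 ≤ t ^ 6 := by
    calc (1 / 64 : ℝ) = (1 / 2) ^ 6 := by norm_num
      _ ≤ t ^ 6 := pow_le_pow_left₀ (by norm_num) ht1 6
  have ht6' : 1 / 64 ≤ t' ^ 6 := by
    calc (1 / 64 : ℝ) = (1 / 2) ^ 6 := by norm_num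
      _ ≤ t' ^ 6 := pow_le_pow_left₀ (by norm_num) ht1' 6
  have hu6 : t ^ 6 ≤ A ^ 6 * H ^ 6 := by
    rw [← mul_pow]; exact pow_le_pow_left₀ (by linarith) i1 6
  have hu6' : t' ^ 6 ≤ A ^ 6 * H ^ 6 := by
    rw [← mul_pow]; exact pow_le_pow_left₀ (by linarith) i2 6
  set b : ℝ := ‖B‖ with hb
  have hb0 : 0 ≤ b := norm_nonneg _
  set D : ℝ := ‖ModularForm.discriminant τ‖ with hD
  set D' : ℝ := ‖ModularForm.discriminant τ'‖ with hD'
  have hD0 : 0 ≤ D := norm_nonneg _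
  have hD0' : 0 ≤ D' := norm_nonneg _
  set mx : ℝ := max 1 ‖jInv τ‖ with hmx
  set my : ℝ := max 1 ‖jInv τ'‖ with hmy
  have hmx1 : 1 ≤ mx := le_max_left _ _
  have hmy1 : 1 ≤ my := le_max_left _ _
  have key : b * D' * t' ^ 6 = N ^ 6 * t ^ 6 * D := by
    have h1 : (J ^ 2 * t') ^ 6 = (N * t) ^ 6 := by rw [hsq]
    calc b * D' * t' ^ 6 = J ^ 12 * D * t' ^ 6 := by rw [hn]
      _ = (J ^ 2 * t') ^ 6 * D := by ring
      _ = (N * t) ^ 6 * D := by rw [h1]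
      _ = N ^ 6 * t ^ 6 * D := by ring
  have hH6 : 0 < H ^ 6 := by positivity
  have hN6 : 0 ≤ N ^ 6 := by positivity
  constructor
  · have h1 : b * mx * t' ^ 6 ≤ C ^ 2 * (N ^ 6 * (A ^ 6 * H ^ 6) * my) := by
      calc b * mx * t' ^ 6 = (b * mx * t' ^ 6) * 1 := by ring
        _ ≤ (b * mx * t' ^ 6) * (C * (D' * my)) :=
            mul_le_mul_of_nonneg_left d4 (by positivity)
        _ = C * my * mx * (b * D' * t' ^ 6) := by ring
        _ = C * my * (N ^ 6 * t ^ 6) * (D * mx) := by rw [key]; ring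
        _ ≤ C * my * (N ^ 6 * t ^ 6) * C := mul_le_mul_of_nonneg_left d1 (by positivity)
        _ ≤ C * my * (N ^ 6 * (A ^ 6 * H ^ 6)) * C := by gcongr
        _ = _ := by ring
    have h2 : b * mx * (1 / 64) ≤ b * mx * t' ^ 6 := mul_le_mul_of_nonneg_left ht6' (by positivity)
    calc b * mx = 64 * (b * mx * (1 / 64)) := by ring
      _ ≤ 64 * (C ^ 2 * (N ^ 6 * (A ^ 6 * H ^ 6) * my)) := by linarith
      _ = _ := by ring
  · have h1 : N ^ 6 * my * t ^ 6 ≤ C ^ 2 * ((A ^ 6 * H ^ 6) * (b * mx)) := by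
      calc N ^ 6 * my * t ^ 6 = (N ^ 6 * my * t ^ 6) * 1 := by ring
        _ ≤ (N ^ 6 * my * t ^ 6) * (C * (D * mx)) :=
            mul_le_mul_of_nonneg_left d2 (by positivity)
        _ = C * my * mx * (N ^ 6 * t ^ 6 * D) := by ring
        _ = C * mx * (b * t' ^ 6) * (D' * my) := by rw [← key]; ring
        _ ≤ C * mx * (b * t' ^ 6) * C := mul_le_mul_of_nonneg_left d3 (by positivity)
        _ ≤ C * mx * (b * (A ^ 6 * H ^ 6)) * C := by gcongr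
        _ = _ := by ring
    have h2 : N ^ 6 * my * (1 / 64) ≤ N ^ 6 * my * t ^ 6 :=
      mul_le_mul_of_nonneg_left ht6 (by positivity)
    calc N ^ 6 * my = 64 * (N ^ 6 * my * (1 / 64)) := by ring
      _ ≤ 64 * (C ^ 2 * ((A ^ 6 * H ^ 6) * (b * mx))) := by linarith
      _ = _ := by ring

end Pool.Agent.LGO.U
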