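import Mathlib
import Pool.Agent.LGO.U.BDef
import Pool.Agent.LGO.Mul.Main
import Pool.Agent.LGO.Gal.JEq
import Pool.Agent.LGO.Q.Ent

/-!
# LGO/U: automorphisms of `ℂ` and the number `B`

PROOF of `IsB.map`.  `x = j(τ)`, `y = j(τ')`, `g` the matrix of `IsB.lat` with `w = w' = 1`, `N = det g`, `β = g₁₀ τ + g₁₁ ≠ 0`.
As in `mul_sq_maps` (`LGO/Mul/Main.lean`): multiplication by `β` maps `Λ' = ℤ + ℤ τ'` into `Λ = ℤ + ℤ τ` and `N Λ ⊆ β Λ'`, so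
`exists_sol` (`LGO/Mul/Ex.lean`) gives `A, Q` with `Sol A Q (G2 1 τ') (G3 1 τ') (G2 1 τ) (G3 1 τ) (β ^ 2)`.
Apply `Sol.map s`.  The conjugate discriminants are nonzero; `exists_lat` (`LGO/Mul/Unif.lean`): `w₁, τ₁` and `w₁', τ₁'`
(`Red`, so in the upper half plane) with `G2 w₁ (w₁ τ₁) = s (G2 1 τ)`, `G3 w₁ (w₁ τ₁) = s (G3 1 τ)` and the same with primes;
`j(τ₁) = s x`, `j(τ₁') = s y` (`jInv_mul_w` and `jInv_mul`: `j disc = 1728 G2 ^ 3`).  Choose `b` with `b ^ 2 = s (β ^ 2)`.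
`Sol.latMap`: `LatMap b w₁' (w₁' τ₁') w₁ (w₁ τ₁)`.  So there is an integral matrix `M` with `b w₁' = w₁ (M₁₀ τ₁ + M₁₁)` and
`b w₁' τ₁' = w₁ (M₀₀ τ₁ + M₀₁)`, hence `Maps M τ₁ τ₁'` and `b = w₁ (M₁₀ τ₁ + M₁₁) / w₁'`.  `b ≠ 0`, so `(M₁₀, M₁₁) ≠ 0`, and
`‖M₁₀ τ₁ + M₁₁‖ ^ 2 Im τ₁' = det M Im τ₁` (`norm_sq_denom` in `LGO/Q/Ent.lean`), so `det M > 0`.
`exists_prim` (`Gal/Basic.lean`): `M = k g₁`, `k ≥ 1`, `g₁` primitive, and `det g₁ > 0`, `Maps g₁ τ₁ τ₁'` (`Maps.smul_iff`).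
CLAIM: `k = 1`.  Multiplication by `b / k = w₁ ((g₁)₁₀ τ₁ + (g₁)₁₁) / w₁'` maps `Λ₁'` into `Λ₁` and
`det g₁ Λ₁ ⊆ (b / k) Λ₁'` (adjugate matrix), so again `exists_sol`, `Sol.map s.symm`: a `Sol` with the original invariants
`G2 1 τ'`, .., and `(s⁻¹ (b / k)) ^ 2 = β ^ 2 / k ^ 2`; `Sol.latMap`: multiplication by `β / k` maps `Λ'` into `Λ`
(`(β / k) ^ 2` is the only data, so use `Sol.latMap` with `β := β / k`).  So `β / k = (g₁₀ / k) τ + g₁₁ / k` and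
`(β / k) τ' = (g₀₀ / k) τ + g₀₁ / k` lie in `ℤ + ℤ τ`; `1, τ` are linearly independent over the reals, so `k` divides all
entries of `g`, and `k = 1` because `g` is primitive.
Then `M = g₁`, and applying `s` to `B disc' = (β ^ 2) ^ 6 disc` (the equation of `IsB.lat`):
`s B disc(w₁', w₁' τ₁') = (b ^ 2) ^ 6 disc(w₁, w₁ τ₁) = (w₁ ((g₁)₁₀ τ₁ + (g₁)₁₁) / w₁') ^ 12 disc(w₁, w₁ τ₁)`.  `isB_of_lat`.
-/

namespace Pool.Agent.LGO.U

open UpperHalfPlane Pool.Agent.Hhelper14.ZP Pool.Agent.EllSch Pool.Agent.LGO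

/-- multiplication by `w (g₁₀ τ + g₁₁) / w'` -/
private theorem BGal_lat {w w' τ τ' : ℂ} {g : Matrix (Fin 2) (Fin 2) ℤ} {N : ℕ} (hw : w ≠ 0)
    (hw' : w' ≠ 0) (hN : 0 < N) (hdet : g.det = N) (hmap : Maps g τ τ') :
    w * ((g 1 0 : ℂ) * τ + (g 1 1 : ℂ)) / w' ≠ 0 ∧
    LatMap (w * ((g 1 0 : ℂ) * τ + (g 1 1 : ℂ)) / w') w' (w' * τ') w (w * τ) ∧
    ∀ y : ℤ × ℤ, ∃ x : ℤ × ℤ, (N : ℂ) * lat w (w * τ) y =
      w * ((g 1 0 : ℂ) * τ + (g 1 1 : ℂ)) / w' * lat w' (w' * τ') x := by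
  have hdet' : (g 0 0 : ℂ) * (g 1 1 : ℂ) - (g 0 1 : ℂ) * (g 1 0 : ℂ) = N := by
    rw [Matrix.det_fin_two] at hdet
    exact_mod_cast congrArg (Int.cast (R := ℂ)) hdet
  have hNC : (N : ℂ) ≠ 0 := by exact_mod_cast hN.ne'
  have hmap' := hmap
  rw [Maps] at hmap'
  have hprod : ((g 1 0 : ℂ) * τ + (g 1 1 : ℂ)) * ((g 0 0 : ℂ) - (g 1 0 : ℂ) * τ') = N := by
    linear_combination hdet' - (g 1 0 : ℂ) * hmap'
  have hne : (g 1 0 : ℂ) * τ + (g 1 1 : ℂ) ≠ 0 := by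
    intro h0; rw [h0, zero_mul] at hprod; exact hNC hprod.symm
  refine ⟨div_ne_zero (mul_ne_zero hw hne) hw', ?_, ?_⟩
  · intro x
    refine ⟨(x.1 * g 1 1 + x.2 * g 0 1, x.1 * g 1 0 + x.2 * g 0 0), ?_⟩
    simp only [lat]
    push_cast
    field_simp
    linear_combination (x.2 : ℂ) * hmap'
  · intro y
    refine ⟨(y.1 * g 0 0 - y.2 * g 0 1, -(y.1 * g 1 0) + y.2 * g 1 1), ?_⟩
    simp only [lat]
    push_cast
    field_simp
    linear_combination -(-((y.1 : ℂ) * g 1 0) + (y.2 : ℂ) * g 1 1) * hmap' -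
      ((y.1 : ℂ) + (y.2 : ℂ) * τ) * hdet'

private theorem BGal_indep {τ : ℂ} (hτ : 0 < τ.im) {a b c d : ℤ}
    (h : (a : ℂ) * τ + (b : ℂ) = (c : ℂ) * τ + (d : ℂ)) : a = c ∧ b = d := by
  have him := congrArg Complex.im h
  have hre := congrArg Complex.re h
  simp only [Complex.mul_re, Complex.mul_im, Complex.add_re, Complex.add_im, Complex.intCast_re,
    Complex.intCast_im, zero_mul, sub_zero, add_zero] at hre him
  have h1 : (a : ℝ) = c := mul_right_cancel₀ hτ.ne' him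
  have h2 : (b : ℝ) = d := by rw [h1] at hre; linarith
  exact ⟨by exact_mod_cast h1, by exact_mod_cast h2⟩

private theorem BGal_j {τ : ℍ} {T : ℍ} {w : ℂ} (hw : w ≠ 0) (s : ℂ ≃+* ℂ)
    (h2 : G2 w (w * T) = s (G2 1 (1 * τ))) (h3 : G3 w (w * T) = s (G3 1 (1 * τ))) :
    jInv T = s (jInv τ) := by
  have e1 := jInv_mul_w T hw
  have e2 := jInv_mul_w τ one_ne_zero
  have e3 := congrArg s e2
  rw [map_mul, map_sub, map_mul, map_mul, map_pow, map_pow, map_ofNat, map_ofNat, ← h2, ← h3] at e3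
  rw [← e1] at e3
  exact (mul_right_cancel₀ (disc_ne_zero_w T hw) e3).symm

theorem IsB.map {x y B : ℂ} (h : IsB x y B) (hx : NCM x) (s : ℂ ≃+* ℂ) :
    IsB (s x) (s y) (s B) := by
  obtain ⟨τ, τ', -, hjx, hjy, -⟩ := id h
  obtain ⟨g, -, hg, hp, hm, hB⟩ := h.lat hx hjx hjy one_ne_zero one_ne_zero
  obtain ⟨N, hNg⟩ : ∃ N : ℕ, (N : ℤ) = g.det := ⟨g.det.toNat, Int.toNat_of_nonneg hg.le⟩
  have hN : 0 < N := by omega
  have hi : Ind 1 (1 * (τ : ℂ)) := by rw [one_mul]; exact ind_one τ.im_pos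
  have hi' : Ind 1 (1 * (τ' : ℂ)) := by rw [one_mul]; exact ind_one τ'.im_pos
  obtain ⟨hβ, hl, hl'⟩ := BGal_lat (w := 1) (w' := 1) one_ne_zero one_ne_zero hN hNg.symm hm
  set β : ℂ := 1 * ((g 1 0 : ℂ) * (τ : ℂ) + (g 1 1 : ℂ)) / 1 with hβdef
  clear_value β
  obtain ⟨A, Q, hS, -, -⟩ := exists_sol hi' hi hβ hN hl hl'
  have hS1 := hS.map s
  have d0 : s (G2 1 (1 * (τ : ℂ))) ^ 3 - 27 * s (G3 1 (1 * (τ : ℂ))) ^ 2 ≠ 0 := by
    have e : s (G2 1 (1 * (τ : ℂ))) ^ 3 - 27 * s (G3 1 (1 * (τ : ℂ))) ^ 2 =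
        s (G2 1 (1 * (τ : ℂ)) ^ 3 - 27 * G3 1 (1 * (τ : ℂ)) ^ 2) := by
      rw [map_sub, map_mul, map_pow, map_pow, map_ofNat]
    rw [e]
    exact (map_ne_zero_iff s s.injective).2 (disc_ne_zero hi)
  have d0' : s (G2 1 (1 * (τ' : ℂ))) ^ 3 - 27 * s (G3 1 (1 * (τ' : ℂ))) ^ 2 ≠ 0 := by
    have e : s (G2 1 (1 * (τ' : ℂ))) ^ 3 - 27 * s (G3 1 (1 * (τ' : ℂ))) ^ 2 =
        s (G2 1 (1 * (τ' : ℂ)) ^ 3 - 27 * G3 1 (1 * (τ' : ℂ)) ^ 2) := by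
      rw [map_sub, map_mul, map_pow, map_pow, map_ofNat]
    rw [e]
    exact (map_ne_zero_iff s s.injective).2 (disc_ne_zero hi')
  obtain ⟨w, t, hw, ht, g2, g3⟩ := exists_lat d0
  obtain ⟨w', t', hw', ht', g2', g3'⟩ := exists_lat d0'
  obtain ⟨b, hb⟩ := IsAlgClosed.exists_pow_nat_eq (s (β ^ 2)) (n := 2) (by norm_num)
  rw [← g2, ← g3, ← g2', ← g3', ← hb] at hS1
  set T : ℍ := ⟨t, ht.im_pos⟩ with hT
  set T' : ℍ := ⟨t', ht'.im_pos⟩ with hT'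
  have hTt : (T : ℂ) = t := rfl
  have hTt' : (T' : ℂ) = t' := rfl
  have hL := hS1.latMap (MulMain.ind_w hw' ht') (MulMain.ind_w hw ht)
  have hj : jInv T = s x := by
    rw [← hjx]
    exact BGal_j hw s g2 g3
  have hj' : jInv T' = s y := by
    rw [← hjy]
    exact BGal_j hw' s g2' g3'
  have hb0 : b ≠ 0 := by
    rintro rfl
    rw [zero_pow two_ne_zero] at hb
    exact (map_ne_zero_iff s s.injective).2 (pow_ne_zero 2 hβ) hb.symm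
  obtain ⟨y1, e1⟩ := hL (1, 0)
  obtain ⟨z1, e2⟩ := hL (0, 1)
  simp only [EllSch.lat, Int.cast_one, Int.cast_zero, one_mul, zero_mul, add_zero, zero_add] at e1 e2
  set M : Matrix (Fin 2) (Fin 2) ℤ := !![z1.2, z1.1; y1.2, y1.1] with hM
  have hbM : b = w * ((M 1 0 : ℂ) * (T : ℂ) + (M 1 1 : ℂ)) / w' := by
    rw [eq_div_iff hw', e1]
    simp only [hM, Matrix.of_apply, Matrix.cons_val', Matrix.cons_val_zero, Matrix.cons_val_one,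
      Matrix.cons_val_fin_one, hTt]
    ring
  have hMaps : Maps M (T : ℂ) (T' : ℂ) := by
    rw [Maps]
    apply mul_left_cancel₀ hw
    simp only [hM, Matrix.of_apply, Matrix.cons_val', Matrix.cons_val_zero, Matrix.cons_val_one,
      Matrix.cons_val_fin_one, hTt, hTt']
    linear_combination e2 - t' * e1
  have hJ : (M 1 0 : ℂ) * (T : ℂ) + (M 1 1 : ℂ) ≠ 0 := by
    intro h0
    rw [h0, mul_zero, zero_div] at hbM
    exact hb0 hbM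
  have hMdet : 0 < M.det := by
    have h1 := norm_sq_denom hMaps
    have h2 : 0 < ‖(M 1 0 : ℂ) * (T : ℂ) + (M 1 1 : ℂ)‖ ^ 2 * (T' : ℂ).im :=
      mul_pos (pow_pos (norm_pos_iff.2 hJ) 2) T'.im_pos
    rw [h1] at h2
    have h3 : (0 : ℝ) < (M.det : ℝ) := by
      by_contra hc
      have := mul_nonpos_of_nonpos_of_nonneg (not_lt.1 hc) (T.im_pos.le)
      exact absurd h2 (not_lt.2 this)
    exact_mod_cast h3
  obtain ⟨k, g₁, hk, hMk, hp₁⟩ := exists_prim hMdet.ne'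
  have hkZ : (k : ℤ) ≠ 0 := by exact_mod_cast hk.ne'
  have hkC : (k : ℂ) ≠ 0 := by exact_mod_cast hk.ne'
  have hm₁ : Maps g₁ (T : ℂ) (T' : ℂ) := by
    rw [hMk] at hMaps
    exact (Maps.smul_iff hkZ).1 hMaps
  have hdet₁ : 0 < g₁.det := by
    have h1 : M.det = (k : ℤ) ^ 2 * g₁.det := by
      rw [hMk, Matrix.det_smul, Fintype.card_fin]
    rw [h1] at hMdet
    exact pos_of_mul_pos_right hMdet (by positivity)
  obtain ⟨N₁, hN₁g⟩ : ∃ N : ℕ, (N : ℤ) = g₁.det := ⟨g₁.det.toNat, Int.toNat_of_nonneg hdet₁.le⟩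
  have hN₁ : 0 < N₁ := by omega
  obtain ⟨hβ₁, hl₁, hl₁'⟩ := BGal_lat (w := w) (w' := w') hw hw' hN₁ hN₁g.symm hm₁
  obtain ⟨A₁, Q₁, hS₁, -, -⟩ :=
    exists_sol (MulMain.ind_w hw' ht') (MulMain.ind_w hw ht) hβ₁ hN₁ hl₁ hl₁'
  have hS2 := hS₁.map s.symm
  have hb1 : w * ((g₁ 1 0 : ℂ) * (T : ℂ) + (g₁ 1 1 : ℂ)) / w' = b / k := by
    rw [hbM, hMk]
    simp only [Matrix.smul_apply, smul_eq_mul]
    push_cast
    field_simp
  have hsq : s.symm ((w * ((g₁ 1 0 : ℂ) * (T : ℂ) + (g₁ 1 1 : ℂ)) / w') ^ 2) = (β / k) ^ 2 := by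
    rw [hb1, div_pow, hb, map_div₀, RingEquiv.symm_apply_apply, map_pow, map_natCast, div_pow]
  rw [hsq, g2, g3, g2', g3'] at hS2
  simp only [RingEquiv.symm_apply_apply] at hS2
  have hL2 := hS2.latMap hi' hi
  obtain ⟨u, f1⟩ := hL2 (1, 0)
  obtain ⟨v, f2⟩ := hL2 (0, 1)
  simp only [EllSch.lat, Int.cast_one, Int.cast_zero, one_mul, zero_mul, add_zero, zero_add, mul_one]
    at f1 f2
  have q1 : (g 1 0 : ℂ) * (τ : ℂ) + (g 1 1 : ℂ) = ((k * u.2 : ℤ) : ℂ) * τ + ((k * u.1 : ℤ) : ℂ) := by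
    rw [hβdef, one_mul, div_one, div_eq_iff hkC] at f1
    push_cast
    linear_combination f1
  have q2 : (g 0 0 : ℂ) * (τ : ℂ) + (g 0 1 : ℂ) = ((k * v.2 : ℤ) : ℂ) * τ + ((k * v.1 : ℤ) : ℂ) := by
    have hm2 := hm
    rw [Maps] at hm2
    rw [hβdef, one_mul, div_one, div_mul_eq_mul_div, div_eq_iff hkC] at f2
    push_cast
    linear_combination f2 - hm2
  obtain ⟨r1, r2⟩ := BGal_indep τ.im_pos q1
  obtain ⟨r3, r4⟩ := BGal_indep τ.im_pos q2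
  have hk1 : k = 1 := by
    apply hp k
    intro i j
    fin_cases i <;> fin_cases j
    · exact ⟨_, r3⟩
    · exact ⟨_, r4⟩
    · exact ⟨_, r1⟩
    · exact ⟨_, r2⟩
  have hpM : Prim M := by
    rw [hMk, hk1, Nat.cast_one, one_smul]
    exact hp₁
  rw [← hj, ← hj']
  refine isB_of_lat hpM hMdet hMaps hw hw' ?_
  rw [← hbM, hTt, hTt', g2, g3, g2', g3']
  have h1 := congrArg s hB
  have hb12 : s (β ^ 12) = b ^ 12 := by
    have : β ^ 12 = (β ^ 2) ^ 6 := by ring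
    rw [this, map_pow, ← hb]; ring
  rw [map_mul, map_mul, map_sub, map_sub, map_mul, map_mul, hb12] at h1
  simp only [map_pow, map_ofNat] at h1
  exact h1

end Pool.Agent.LGO.U
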