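import Mathlib
import Pool.Agent.LGO.U.BDef
import Pool.Agent.LGO.Mul.Main

/-!
# LGO/U: `B` and `N ^ 12 / B` are integral up to a constant

PROOF.  Choose `a, b, a', b'` with `a ^ 3 = x`, `b ^ 2 = x - 1728`, `a' ^ 3 = y`, `b' ^ 2 = y - 1728`: algebraic integers.
`g₂ = 108 a`, `g₃ = 216 b`: `g₂ ^ 3 - 27 g₃ ^ 2 = 108 ^ 3 x - 27 * 216 ^ 2 (x - 1728) = 1259712 * 1728 = 6 ^ 12 ≠ 0`.  `exists_lat`: `w ≠ 0`, `τ`
reduced, with these invariants; `j(τ) 6 ^ 12 = 1728 g₂ ^ 3 = 1728 * 108 ^ 3 x = 6 ^ 12 x`, so `j(τ) = x` (`jInv_mul_w` in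
`Gal/JEq.lean`).  The same with `y`: `w', τ'`.  `IsB.lat`: `g` with `det g = N = mdeg x y`, `β = w (g₁₀ τ + g₁₁) / w'`,
`B 6 ^ 12 = β ^ 12 6 ^ 12`, so `B = β ^ 12`.
As in `mul_sq_maps` (`LGO/Mul/Main.lean`) multiplication by `β` maps `Λ' = (w', w' τ')` into `Λ = (w, w τ)` and `N Λ ⊆ β Λ'`, so
`exists_sol` (`LGO/Mul/Ex.lean`) gives `Sol A Q (G2 Λ') (G3 Λ') (G2 Λ) (G3 Λ) (β ^ 2)` and `Sol.isIntegral'` (`LGO/Mul/Int.lean`):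
`4 * 6 ^ 12 * β ^ 2` is integral; its 6-th power is `(4 * 6 ^ 12) ^ 6 B`.
The dual: multiplication by `N / β` maps `Λ` into `Λ'` and `N Λ' ⊆ (N / β) Λ` (see `mul_sq`), so `4 * 6 ^ 12 * (N / β) ^ 2` is
integral; its 6-th power is `(4 * 6 ^ 12) ^ 6 N ^ 12 / B`.
-/

namespace Pool.Agent.LGO.U

open UpperHalfPlane Pool.Agent.Hhelper14.ZP Pool.Agent.EllSch Pool.Agent.LGO

theorem BInt_model {x : ℂ} (ix : IsIntegral ℤ x) : ∃ (w : ℂ) (τ : ℍ), w ≠ 0 ∧ Red (τ : ℂ) ∧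
    jInv τ = x ∧ IsIntegral ℤ (G2 w (w * τ)) ∧ IsIntegral ℤ (G3 w (w * τ)) ∧
    G2 w (w * τ) ^ 3 - 27 * G3 w (w * τ) ^ 2 = 6 ^ 12 := by
  obtain ⟨a, ha⟩ := IsAlgClosed.exists_pow_nat_eq x (n := 3) (by norm_num)
  obtain ⟨b, hb⟩ := IsAlgClosed.exists_pow_nat_eq (x - 1728) (n := 2) (by norm_num)
  have ia : IsIntegral ℤ a := by
    refine IsIntegral.of_pow (n := 3) (by norm_num) ?_
    rw [ha]
    exact ix
  have hn : ∀ n : ℕ, IsIntegral ℤ (n : ℂ) := MulMain.natCast_isIntegral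
  have ib : IsIntegral ℤ b := by
    refine IsIntegral.of_pow (n := 2) (by norm_num) ?_
    rw [hb]
    exact ix.sub (by simpa using hn 1728)
  have hd : (108 * a) ^ 3 - 27 * (216 * b) ^ 2 = (6 : ℂ) ^ 12 := by
    linear_combination (1259712 : ℂ) * ha - (1259712 : ℂ) * hb
  have h6 : (6 : ℂ) ^ 12 ≠ 0 := by norm_num
  obtain ⟨w, τ, hw, hred, h2, h3⟩ := exists_lat (g2 := 108 * a) (g3 := 216 * b) (by rw [hd]; exact h6)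
  refine ⟨w, ⟨τ, hred.im_pos⟩, hw, hred, ?_, ?_, ?_, ?_⟩
  · have hj := jInv_mul_w ⟨τ, hred.im_pos⟩ hw
    change jInv _ * (G2 w (w * τ) ^ 3 - 27 * G3 w (w * τ) ^ 2) = 1728 * G2 w (w * τ) ^ 3 at hj
    rw [h2, h3, hd] at hj
    apply mul_right_cancel₀ h6
    rw [hj]
    linear_combination (1728 * 1259712 : ℂ) * ha
  · change IsIntegral ℤ (G2 w (w * τ))
    rw [h2]
    exact (by simpa using hn 108 : IsIntegral ℤ (108 : ℂ)).mul ia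
  · change IsIntegral ℤ (G3 w (w * τ))
    rw [h3]
    exact (by simpa using hn 216 : IsIntegral ℤ (216 : ℂ)).mul ib
  · change G2 w (w * τ) ^ 3 - 27 * G3 w (w * τ) ^ 2 = 6 ^ 12
    rw [h2, h3, hd]

theorem BInt_core {w w' τ τ' β : ℂ} {N : ℕ} (hw : w ≠ 0) (hw' : w' ≠ 0) (hτ : Red τ)
    (hτ' : Red τ') (i2 : IsIntegral ℤ (G2 w (w * τ))) (i3 : IsIntegral ℤ (G3 w (w * τ)))
    (j2 : IsIntegral ℤ (G2 w' (w' * τ'))) (j3 : IsIntegral ℤ (G3 w' (w' * τ')))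
    (hd : G2 w' (w' * τ') ^ 3 - 27 * G3 w' (w' * τ') ^ 2 = 6 ^ 12) (hβ : β ≠ 0) (hN : 0 < N)
    (hm : LatMap β w (w * τ) w' (w' * τ'))
    (hm' : ∀ y : ℤ × ℤ, ∃ x : ℤ × ℤ, (N : ℂ) * lat w' (w' * τ') y = β * lat w (w * τ) x) :
    IsIntegral ℤ ((4 * 6 ^ 12) ^ 6 * β ^ 12) := by
  obtain ⟨A, Q, hS, -, -⟩ := exists_sol (MulMain.ind_w hw hτ) (MulMain.ind_w hw' hτ') hβ hN hm hm'
  have h := hS.isIntegral' i2 i3 j2 j3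
  rw [hd] at h
  have e : (4 * 6 ^ 12) ^ 6 * β ^ 12 = (4 * 6 ^ 12 * β ^ 2) ^ 6 := by ring
  rw [e]
  exact h.pow 6

theorem BInt_maps {w w' τ τ' : ℂ} {g : Matrix (Fin 2) (Fin 2) ℤ} {N : ℕ} (hw' : w' ≠ 0)
    (hdet : g.det = N) (hmap : Maps g τ τ') :
    LatMap (w * ((g 1 0 : ℂ) * τ + (g 1 1 : ℂ)) / w') w' (w' * τ') w (w * τ) ∧
    ∀ y : ℤ × ℤ, ∃ x : ℤ × ℤ, (N : ℂ) * lat w (w * τ) y =
      w * ((g 1 0 : ℂ) * τ + (g 1 1 : ℂ)) / w' * lat w' (w' * τ') x := by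
  have hdet' : (g 0 0 : ℂ) * (g 1 1 : ℂ) - (g 0 1 : ℂ) * (g 1 0 : ℂ) = N := by
    rw [Matrix.det_fin_two] at hdet
    exact_mod_cast congrArg (Int.cast (R := ℂ)) hdet
  have hmap' := hmap
  rw [Maps] at hmap'
  constructor
  · intro x
    refine ⟨(x.1 * g 1 1 + x.2 * g 0 1, x.1 * g 1 0 + x.2 * g 0 0), ?_⟩
    simp only [lat]
    push_cast
    field_simp
    linear_combination w * (x.2 : ℂ) * hmap'
  · intro y
    refine ⟨(y.1 * g 0 0 - y.2 * g 0 1, -(y.1 * g 1 0) + y.2 * g 1 1), ?_⟩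
    simp only [lat]
    push_cast
    have e : w * ((g 1 0 : ℂ) * τ + (g 1 1 : ℂ)) / w' *
        (((y.1 : ℂ) * (g 0 0 : ℂ) - (y.2 : ℂ) * (g 0 1 : ℂ)) * w' +
          (-((y.1 : ℂ) * (g 1 0 : ℂ)) + (y.2 : ℂ) * (g 1 1 : ℂ)) * (w' * τ')) =
        w * ((g 1 0 : ℂ) * τ + (g 1 1 : ℂ)) *
        (((y.1 : ℂ) * (g 0 0 : ℂ) - (y.2 : ℂ) * (g 0 1 : ℂ)) +
          (-((y.1 : ℂ) * (g 1 0 : ℂ)) + (y.2 : ℂ) * (g 1 1 : ℂ)) * τ') := by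
      field_simp
    rw [e]
    linear_combination w * (-(-((y.1 : ℂ) * g 1 0) + (y.2 : ℂ) * g 1 1) * hmap' -
      ((y.1 : ℂ) + (y.2 : ℂ) * τ) * hdet')

theorem IsB.integral {x y B : ℂ} (h : IsB x y B) (hx : NCM x) (ix : IsIntegral ℤ x)
    (iy : IsIntegral ℤ y) : IsIntegral ℤ ((4 * 6 ^ 12) ^ 6 * B) ∧
      IsIntegral ℤ ((4 * 6 ^ 12) ^ 6 * (mdeg x y : ℂ) ^ 12 * B⁻¹) := by
  obtain ⟨w, τ, hw, hτ, hj, i2, i3, hd⟩ := BInt_model ix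
  obtain ⟨w', τ', hw', hτ', hj', j2, j3, hd'⟩ := BInt_model iy
  obtain ⟨g, hdet, hpos, hp, hmap, hB⟩ := h.lat hx hj hj' hw hw'
  have h6 : (6 : ℂ) ^ 12 ≠ 0 := by norm_num
  set N : ℕ := mdeg x y with hNdef
  have hN : 0 < N := by
    have : (0 : ℤ) < (N : ℤ) := by rw [← hdet]; exact hpos
    exact_mod_cast this
  have hNC : (N : ℂ) ≠ 0 := by exact_mod_cast hN.ne'
  have hne : (g 1 0 : ℂ) * (τ : ℂ) + (g 1 1 : ℂ) ≠ 0 := Gal.den_ne_zero hpos.ne' τ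
  set β : ℂ := w * ((g 1 0 : ℂ) * (τ : ℂ) + (g 1 1 : ℂ)) / w' with hβdef
  have hβ : β ≠ 0 := div_ne_zero (mul_ne_zero hw hne) hw'
  have hBβ : B = β ^ 12 := by
    rw [hd, hd'] at hB
    exact mul_right_cancel₀ h6 hB
  obtain ⟨hm, hm'⟩ := BInt_maps (w := w) (w' := w') hw' hdet hmap
  rw [← hβdef] at hm
  simp only [← hβdef] at hm'
  have dm : LatMap ((N : ℂ) / β) w (w * τ) w' (w' * τ') := by
    intro y
    obtain ⟨x, hx⟩ := hm' y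
    refine ⟨x, ?_⟩
    rw [div_mul_eq_mul_div, hx]
    field_simp
  have dm' : ∀ x : ℤ × ℤ, ∃ y : ℤ × ℤ, (N : ℂ) * Pool.Agent.EllSch.lat w' (w' * τ') x =
      (N : ℂ) / β * Pool.Agent.EllSch.lat w (w * τ) y := by
    intro x
    obtain ⟨y, hy⟩ := hm x
    refine ⟨y, ?_⟩
    rw [← hy]
    field_simp
  have c1 := BInt_core hw' hw hτ' hτ j2 j3 i2 i3 hd hβ hN hm hm'
  have c2 := BInt_core hw hw' hτ hτ' i2 i3 j2 j3 hd' (div_ne_zero hNC hβ) hN dm dm'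
  constructor
  · rw [hBβ]
    exact c1
  · have e : (4 * 6 ^ 12) ^ 6 * (N : ℂ) ^ 12 * B⁻¹ = (4 * 6 ^ 12) ^ 6 * ((N : ℂ) / β) ^ 12 := by
      rw [hBβ]
      generalize β = b
      ring
    rw [e]
    exact c2

/-- `BInt_model` for `m x` integral: `a ^ 3 = m x`, `b ^ 2 = m (x - 1728)` -/
theorem BInt_model_m {m : ℕ} (hm : 0 < m) {x : ℂ} (ix : IsIntegral ℤ ((m : ℂ) * x)) :
    ∃ (w : ℂ) (τ : ℍ), w ≠ 0 ∧ Red (τ : ℂ) ∧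
    jInv τ = x ∧ IsIntegral ℤ (G2 w (w * τ)) ∧ IsIntegral ℤ (G3 w (w * τ)) ∧
    G2 w (w * τ) ^ 3 - 27 * G3 w (w * τ) ^ 2 = m * 6 ^ 12 := by
  obtain ⟨a, ha⟩ := IsAlgClosed.exists_pow_nat_eq ((m : ℂ) * x) (n := 3) (by norm_num)
  obtain ⟨b, hb⟩ := IsAlgClosed.exists_pow_nat_eq ((m : ℂ) * (x - 1728)) (n := 2) (by norm_num)
  have hm0 : (m : ℂ) ≠ 0 := by exact_mod_cast hm.ne'
  have ia : IsIntegral ℤ a := by
    refine IsIntegral.of_pow (n := 3) (by norm_num) ?_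
    rw [ha]
    exact ix
  have hn : ∀ n : ℕ, IsIntegral ℤ (n : ℂ) := MulMain.natCast_isIntegral
  have ib : IsIntegral ℤ b := by
    refine IsIntegral.of_pow (n := 2) (by norm_num) ?_
    rw [hb, mul_sub]
    exact ix.sub ((hn m).mul (by simpa using hn 1728))
  have hd : (108 * a) ^ 3 - 27 * (216 * b) ^ 2 = (m : ℂ) * (6 : ℂ) ^ 12 := by
    linear_combination (1259712 : ℂ) * ha - (1259712 : ℂ) * hb
  have h6 : (m : ℂ) * (6 : ℂ) ^ 12 ≠ 0 := mul_ne_zero hm0 (by norm_num)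
  obtain ⟨w, τ, hw, hred, h2, h3⟩ := exists_lat (g2 := 108 * a) (g3 := 216 * b) (by rw [hd]; exact h6)
  refine ⟨w, ⟨τ, hred.im_pos⟩, hw, hred, ?_, ?_, ?_, ?_⟩
  · have hj := jInv_mul_w ⟨τ, hred.im_pos⟩ hw
    change jInv _ * (G2 w (w * τ) ^ 3 - 27 * G3 w (w * τ) ^ 2) = 1728 * G2 w (w * τ) ^ 3 at hj
    rw [h2, h3, hd] at hj
    apply mul_right_cancel₀ h6
    rw [hj]
    linear_combination (1728 * 1259712 : ℂ) * ha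
  · change IsIntegral ℤ (G2 w (w * τ))
    rw [h2]
    exact (by simpa using hn 108 : IsIntegral ℤ (108 : ℂ)).mul ia
  · change IsIntegral ℤ (G3 w (w * τ))
    rw [h3]
    exact (by simpa using hn 216 : IsIntegral ℤ (216 : ℂ)).mul ib
  · change G2 w (w * τ) ^ 3 - 27 * G3 w (w * τ) ^ 2 = m * 6 ^ 12
    rw [h2, h3, hd]

theorem BInt_core_m {m : ℕ} {w w' τ τ' β : ℂ} {N : ℕ} (hw : w ≠ 0) (hw' : w' ≠ 0) (hτ : Red τ)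
    (hτ' : Red τ') (i2 : IsIntegral ℤ (G2 w (w * τ))) (i3 : IsIntegral ℤ (G3 w (w * τ)))
    (j2 : IsIntegral ℤ (G2 w' (w' * τ'))) (j3 : IsIntegral ℤ (G3 w' (w' * τ')))
    (hd : G2 w' (w' * τ') ^ 3 - 27 * G3 w' (w' * τ') ^ 2 = m * 6 ^ 12) (hβ : β ≠ 0) (hN : 0 < N)
    (hm : LatMap β w (w * τ) w' (w' * τ'))
    (hm' : ∀ y : ℤ × ℤ, ∃ x : ℤ × ℤ, (N : ℂ) * lat w' (w' * τ') y = β * lat w (w * τ) x) :
    IsIntegral ℤ ((4 * (m * 6 ^ 12)) ^ 6 * β ^ 12) := by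
  obtain ⟨A, Q, hS, -, -⟩ := exists_sol (MulMain.ind_w hw hτ) (MulMain.ind_w hw' hτ') hβ hN hm hm'
  have h := hS.isIntegral' i2 i3 j2 j3
  rw [hd] at h
  have e : (4 * (m * 6 ^ 12)) ^ 6 * β ^ 12 = (4 * ((m : ℂ) * 6 ^ 12) * β ^ 2) ^ 6 := by ring
  rw [e]
  exact h.pow 6

/-- `IsB.integral` for `m x`, `m y` integral -/
theorem IsB.integral_m {x y B : ℂ} (h : IsB x y B) (hx : NCM x) (m : ℕ) (hm0 : 0 < m)
    (ix : IsIntegral ℤ ((m : ℂ) * x)) (iy : IsIntegral ℤ ((m : ℂ) * y)) :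
    IsIntegral ℤ ((4 * (m * 6 ^ 12)) ^ 6 * B) ∧
      IsIntegral ℤ ((4 * (m * 6 ^ 12)) ^ 6 * (mdeg x y : ℂ) ^ 12 * B⁻¹) := by
  obtain ⟨w, τ, hw, hτ, hj, i2, i3, hd⟩ := BInt_model_m hm0 ix
  obtain ⟨w', τ', hw', hτ', hj', j2, j3, hd'⟩ := BInt_model_m hm0 iy
  obtain ⟨g, hdet, hpos, hp, hmap, hB⟩ := h.lat hx hj hj' hw hw'
  have hmC : (m : ℂ) ≠ 0 := by exact_mod_cast hm0.ne'
  have h6 : (m : ℂ) * (6 : ℂ) ^ 12 ≠ 0 := mul_ne_zero hmC (by norm_num)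
  set N : ℕ := mdeg x y with hNdef
  have hN : 0 < N := by
    have : (0 : ℤ) < (N : ℤ) := by rw [← hdet]; exact hpos
    exact_mod_cast this
  have hNC : (N : ℂ) ≠ 0 := by exact_mod_cast hN.ne'
  have hne : (g 1 0 : ℂ) * (τ : ℂ) + (g 1 1 : ℂ) ≠ 0 := Gal.den_ne_zero hpos.ne' τ
  set β : ℂ := w * ((g 1 0 : ℂ) * (τ : ℂ) + (g 1 1 : ℂ)) / w' with hβdef
  have hβ : β ≠ 0 := div_ne_zero (mul_ne_zero hw hne) hw'
  have hBβ : B = β ^ 12 := by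
    rw [hd, hd'] at hB
    exact mul_right_cancel₀ h6 hB
  obtain ⟨hm, hm'⟩ := BInt_maps (w := w) (w' := w') hw' hdet hmap
  rw [← hβdef] at hm
  simp only [← hβdef] at hm'
  have dm : LatMap ((N : ℂ) / β) w (w * τ) w' (w' * τ') := by
    intro y
    obtain ⟨x, hx⟩ := hm' y
    refine ⟨x, ?_⟩
    rw [div_mul_eq_mul_div, hx]
    field_simp
  have dm' : ∀ x : ℤ × ℤ, ∃ y : ℤ × ℤ, (N : ℂ) * Pool.Agent.EllSch.lat w' (w' * τ') x =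
      (N : ℂ) / β * Pool.Agent.EllSch.lat w (w * τ) y := by
    intro x
    obtain ⟨y, hy⟩ := hm x
    refine ⟨y, ?_⟩
    rw [← hy]
    field_simp
  have c1 := BInt_core_m hw' hw hτ' hτ j2 j3 i2 i3 hd hβ hN hm hm'
  have c2 := BInt_core_m hw hw' hτ hτ' i2 i3 j2 j3 hd' (div_ne_zero hNC hβ) hN dm dm'
  constructor
  · rw [hBβ]
    exact c1
  · have e : (4 * ((m : ℂ) * 6 ^ 12)) ^ 6 * (N : ℂ) ^ 12 * B⁻¹ =
        (4 * ((m : ℂ) * 6 ^ 12)) ^ 6 * ((N : ℂ) / β) ^ 12 := by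
      rw [hBβ]
      generalize β = b
      ring
    rw [e]
    exact c2

end Pool.Agent.LGO.U
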