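import Mathlib
import Pool.Agent.LGO.U.BDef
import Pool.Agent.LGO.Mul.Main

/-!
# LGO/U: the field of definition of `B`

PROOF.  `x ≠ 0, 1728` (`NCM.ne_zero`, `NCM.ne_1728`), and the same for `y` (`NCM.of_isog`, `IsB.isog`).  `g₂ = 3 x (x - 1728)`,
`g₃ = x (x - 1728) ^ 2` lie in `K`, `g₂ ^ 3 - 27 g₃ ^ 2 = 27 * 1728 * x ^ 2 * (x - 1728) ^ 3 ≠ 0`: `exists_lat` gives `w ≠ 0`, `τ` reduced
with these invariants, and `j(τ) = x` (`jInv_mul_w` in `Gal/JEq.lean`; the same construction is in `exists_model`,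
`H/Model.lean`).  The same for `y`: `w', τ'`.  `IsB.lat`: `g`, and `β = w (g₁₀ τ + g₁₁) / w'`,
`B disc(w', τ') = β ^ 12 disc(w, τ)`, `disc(w', τ') ≠ 0` and both discriminants lie in `K`.  `β ^ 2 ∈ K` by `mul_mem`
(`LGO/Mul/Gal.lean`), used as in `mul_sq_maps` (`LGO/Mul/Main.lean`): the lattice `(w', w' τ')` is mapped into
`(w, w τ)` by `β`; `NonCM τ`.
-/

namespace Pool.Agent.LGO.U

open UpperHalfPlane Pool.Agent.Hhelper14.ZP Pool.Agent.EllSch Pool.Agent.LGO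

/-- the curve with invariant `x` over `K` -/
theorem BMem_model {K : IntermediateField ℚ ℂ} {x : ℂ} (hxK : x ∈ K) (hx0 : x ≠ 0)
    (hx1 : x ≠ 1728) : ∃ (w : ℂ) (τ : ℍ), w ≠ 0 ∧ Red (τ : ℂ) ∧ jInv τ = x ∧
      G2 w (w * τ) ∈ K ∧ G3 w (w * τ) ∈ K := by
  have hx1' : x - 1728 ≠ 0 := sub_ne_zero.2 hx1
  have hdisc : (3 * x * (x - 1728)) ^ 3 - 27 * (x * (x - 1728) ^ 2) ^ 2 ≠ 0 := by
    have h1 : (3 * x * (x - 1728)) ^ 3 - 27 * (x * (x - 1728) ^ 2) ^ 2 =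
        27 * 1728 * x ^ 2 * (x - 1728) ^ 3 := by ring
    rw [h1]
    exact mul_ne_zero (mul_ne_zero (by norm_num) (pow_ne_zero _ hx0)) (pow_ne_zero _ hx1')
  obtain ⟨w, τ, hw, hred, h2, h3⟩ := exists_lat hdisc
  have hxm : x - 1728 ∈ K := K.sub_mem hxK (by
    have := natCast_mem K 1728
    simpa using this)
  have h3K : (3 : ℂ) ∈ K := by
    have := natCast_mem K 3
    simpa using this
  refine ⟨w, ⟨τ, hred.im_pos⟩, hw, hred, ?_, ?_, ?_⟩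
  · have hm := jInv_mul_w ⟨τ, hred.im_pos⟩ hw
    change jInv ⟨τ, hred.im_pos⟩ * (G2 w (w * τ) ^ 3 - 27 * G3 w (w * τ) ^ 2) =
      1728 * G2 w (w * τ) ^ 3 at hm
    rw [h2, h3] at hm
    have hne : 27 * 1728 * x ^ 2 * (x - 1728) ^ 3 ≠ 0 :=
      mul_ne_zero (mul_ne_zero (by norm_num) (pow_ne_zero _ hx0)) (pow_ne_zero _ hx1')
    refine mul_right_cancel₀ hne ?_
    linear_combination hm
  · show G2 w (w * τ) ∈ K
    rw [h2]
    exact K.mul_mem (K.mul_mem h3K hxK) hxm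
  · show G3 w (w * τ) ∈ K
    rw [h3]
    exact K.mul_mem hxK (pow_mem hxm 2)

theorem IsB.mem {x y B : ℂ} (h : IsB x y B) (hx : NCM x) (K : IntermediateField ℚ ℂ)
    [FiniteDimensional ℚ K] (hxK : x ∈ K) (hyK : y ∈ K) : B ∈ K := by
  obtain ⟨n, hn, hiso⟩ := h.isog
  have hy : NCM y := NCM.of_isog hn hiso hx
  obtain ⟨w, τ, hw, hred, hτ, k2, k3⟩ := BMem_model hxK hx.ne_zero hx.ne_1728
  obtain ⟨w', τ', hw', hred', hτ', l2, l3⟩ := BMem_model hyK hy.ne_zero hy.ne_1728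
  obtain ⟨g, hg, hg0, -, hmap, hB⟩ := h.lat hx hτ hτ' hw hw'
  have hN : 0 < mdeg x y := mdeg_pos ⟨n, hn, hiso⟩
  have hcm : NonCM (τ : ℂ) := by
    apply (ncm_jInv τ).1
    rw [hτ]
    exact hx
  have hdet' : (g 0 0 : ℂ) * (g 1 1 : ℂ) - (g 0 1 : ℂ) * (g 1 0 : ℂ) = (mdeg x y : ℕ) := by
    rw [Matrix.det_fin_two] at hg
    exact_mod_cast congrArg (Int.cast (R := ℂ)) hg
  have hNC : ((mdeg x y : ℕ) : ℂ) ≠ 0 := by exact_mod_cast hN.ne'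
  have hmap' := hmap
  rw [Maps] at hmap'
  have hprod : ((g 1 0 : ℂ) * τ + (g 1 1 : ℂ)) * ((g 0 0 : ℂ) - (g 1 0 : ℂ) * τ') =
      (mdeg x y : ℕ) := by
    linear_combination hdet' - (g 1 0 : ℂ) * hmap'
  have hne : (g 1 0 : ℂ) * τ + (g 1 1 : ℂ) ≠ 0 := by
    intro h0
    rw [h0, zero_mul] at hprod
    exact hNC hprod.symm
  have hβ : w * ((g 1 0 : ℂ) * τ + (g 1 1 : ℂ)) / w' ≠ 0 :=
    div_ne_zero (mul_ne_zero hw hne) hw'
  have hsq : (w * ((g 1 0 : ℂ) * τ + (g 1 1 : ℂ)) / w') ^ 2 ∈ K := by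
    refine mul_mem K (MulMain.ind_w hw' hred') (MulMain.ind_w hw hred) hcm hw hβ hN ?_ ?_
      l2 l3 k2 k3
    · intro z
      refine ⟨(z.1 * g 1 1 + z.2 * g 0 1, z.1 * g 1 0 + z.2 * g 0 0), ?_⟩
      simp only [EllSch.lat]
      push_cast
      field_simp
      linear_combination (z.2 : ℂ) * hmap'
    · intro z
      refine ⟨(z.1 * g 0 0 - z.2 * g 0 1, -(z.1 * g 1 0) + z.2 * g 1 1), ?_⟩
      simp only [EllSch.lat]
      push_cast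
      field_simp
      linear_combination -(-((z.1 : ℂ) * g 1 0) + (z.2 : ℂ) * g 1 1) * hmap' -
        ((z.1 : ℂ) + (z.2 : ℂ) * τ) * hdet'
  have h27 : (27 : ℂ) ∈ K := by
    have := natCast_mem K 27
    simpa using this
  have hd : G2 w (w * τ) ^ 3 - 27 * G3 w (w * τ) ^ 2 ∈ K :=
    K.sub_mem (pow_mem k2 3) (K.mul_mem h27 (pow_mem k3 2))
  have hd' : G2 w' (w' * τ') ^ 3 - 27 * G3 w' (w' * τ') ^ 2 ∈ K :=
    K.sub_mem (pow_mem l2 3) (K.mul_mem h27 (pow_mem l3 2))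
  have hd0 : G2 w' (w' * τ') ^ 3 - 27 * G3 w' (w' * τ') ^ 2 ≠ 0 := disc_ne_zero_w τ' hw'
  have hBeq : B = ((w * ((g 1 0 : ℂ) * τ + (g 1 1 : ℂ)) / w') ^ 2) ^ 6 *
      (G2 w (w * τ) ^ 3 - 27 * G3 w (w * τ) ^ 2) /
        (G2 w' (w' * τ') ^ 3 - 27 * G3 w' (w' * τ') ^ 2) := by
    rw [eq_div_iff hd0, hB, ← pow_mul]
  rw [hBeq]
  exact K.div_mem (K.mul_mem (pow_mem hsq 6) hd) hd'

end Pool.Agent.LGO.U
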