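import Mathlib
import Pool.Agent.LGO.U.RComp
import Pool.Agent.LGO.U.RInt
import Pool.Agent.LGO.U.RFld
import Pool.Agent.LGO.U.BGal
import Pool.Agent.LGO.U.BMem
import Pool.Agent.LGO.U.BInt
import Pool.Agent.LGO.U.BArch

/-!
# LGO/U: the number `Ξ = B ^ p B_a(t) ^ p / B_b(t) ^ q`

`Par Aa Ba Ab Bb u v t B`: `u = Aa(t) / Ba(t)`, `v = Ab(t) / Bb(t)`, and `B` is the number of the pair `(v, u)`.

PROOFS.  `n_a = rdeg Aa Ba`, `n_b = rdeg Ab Bb`, `p n_a = q n_b`, `N = mdeg v u ≥ 1`.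
`xi_size`: Fix `s` and put `M_u = max 1 ‖s u‖`, `M_v = max 1 ‖s v‖`, `T = max 1 ‖s t‖`.  `IsB (s v) (s u) (s B)` (`IsB.map`), `NCM (s v)`
(`NCM.map`), `mdeg (s v) (s u) = N` (`mdeg_map`).  `B_arch`: `‖s B‖ M_v ≤ C N ^ 6 H ^ 6 M_u`, `N ^ 6 M_u ≤ C H ^ 6 ‖s B‖ M_v`.
`comp_x`: `‖s Ba(t)‖ M_u ≤ C T ^ n_a ≤ C² ‖s Ba(t)‖ M_u` and `‖s Bb(t)‖ M_v ≤ C T ^ n_b ≤ C² ‖s Bb(t)‖ M_v`.
Upper bound: `‖s Ξ‖ M_v ^ p = (‖s B‖ M_v) ^ p ‖s Ba(t)‖ ^ p / ‖s Bb(t)‖ ^ q ≤ (C N ^ 6 H ^ 6) ^ p (M_u ‖s Ba(t)‖) ^ p / ‖s Bb(t)‖ ^ q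
≤ (C² N ^ 6 H ^ 6) ^ p T ^ (p n_a) / ‖s Bb(t)‖ ^ q` and `T ^ (p n_a) = (T ^ n_b) ^ q ≤ (C ‖s Bb(t)‖ M_v) ^ q`.
Lower bound: `M_v ^ q ≤ (C T ^ n_b / ‖s Bb(t)‖) ^ q = C ^ q T ^ (p n_a) / ‖s Bb(t)‖ ^ q ≤ C ^ q (C ‖s Ba(t)‖ M_u) ^ p / ‖s Bb(t)‖ ^ q`
and `M_u ≤ C H ^ 6 ‖s B‖ M_v`.
`xi_int`: `int_t` for `Aa`, `Ba` (`hd`): `r₀ t` is integral; `IsB.integral` and `int_B` for both pairs: `c B`, `c N ^ 12 / B`, `r₁ Ba(t)`, `r₁ / Ba(t)`, `r₂ Bb(t)`, `r₂ / Bb(t)` are integral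
(`c = (4 * 6 ^ 12) ^ 6`), take the products of powers.
`xi_mem`: `IsB.mem`, `mem_aeval`.
-/

namespace Pool.Agent.LGO.U

open Polynomial Pool.Agent.Hhelper14.ZPL Pool.Agent.LGO

/-- `u = Aa(t) / Ba(t)`, `v = Ab(t) / Bb(t)` are the invariants of isogenous elliptic curves without complex multiplication,
with the number `B` -/
structure Par (Aa Ba Ab Bb : Polynomial Qb) (u v t B : ℂ) : Prop where
  eqa : (aeval t Aa : ℂ) = u * aeval t Ba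
  nea : (aeval t Ba : ℂ) ≠ 0
  eqb : (aeval t Ab : ℂ) = v * aeval t Bb
  neb : (aeval t Bb : ℂ) ≠ 0
  ncm : NCM v
  isB : IsB v u B

/-- the number `Ξ` -/
noncomputable def Xi (Ba Bb : Polynomial Qb) (p q : ℕ) (t B : ℂ) : ℂ :=
  B ^ p * (aeval t Ba : ℂ) ^ p / (aeval t Bb : ℂ) ^ q

theorem Par.xi_ne {Aa Ba Ab Bb : Polynomial Qb} {u v t B : ℂ} (h : Par Aa Ba Ab Bb u v t B)
    (p q : ℕ) : Xi Ba Bb p q t B ≠ 0 := by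
  have h1 := h.isB.ne_zero
  have h2 := h.nea
  have h3 := h.neb
  rw [Xi]
  positivity

private theorem RXi_pow_le {p q na nb : ℕ} (hpq : p * na = q * nb) (T : ℝ) :
    (T ^ na) ^ p = (T ^ nb) ^ q := by
  rw [← pow_mul, ← pow_mul, mul_comm na, mul_comm nb, hpq]

/-- the real inequalities behind `xi_size` -/
theorem RXi_real {p q : ℕ} {a b β Mu Mv Ta Tb C1 C2 C3 N H : ℝ} (ha : 0 ≤ a) (hb : 0 < b)
    (hβ : 0 ≤ β) (hMu : 1 ≤ Mu) (hMv : 1 ≤ Mv) (hTa : 0 ≤ Ta) (hTb : 0 ≤ Tb) (hC1 : 1 ≤ C1)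
    (hC2 : 1 ≤ C2) (hC3 : 1 ≤ C3) (hN : 1 ≤ N) (hH : 1 ≤ H)
    (h1 : β * Mv ≤ C1 * N ^ 6 * H ^ 6 * Mu) (h2 : N ^ 6 * Mu ≤ C1 * H ^ 6 * (β * Mv))
    (h3 : a * Mu ≤ C2 * Ta) (h4 : Ta ≤ C2 * (a * Mu)) (h5 : b * Mv ≤ C3 * Tb)
    (h6 : Tb ≤ C3 * (b * Mv)) (hT : Ta ^ p = Tb ^ q) :
    β ^ p * a ^ p / b ^ q * Mv ^ p ≤ (C1 * C2 * N ^ 6 * H ^ 6) ^ p * C3 ^ q * Mv ^ q ∧
      Mv ^ q ≤ (C1 * C2 * N ^ 6 * H ^ 6) ^ p * C3 ^ q * (β ^ p * a ^ p / b ^ q * Mv ^ p) := by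
  have hbq : 0 < b ^ q := pow_pos hb q
  constructor
  · have e1 : β ^ p * a ^ p / b ^ q * Mv ^ p = (β * Mv) ^ p * a ^ p / b ^ q := by
      rw [mul_pow]; ring
    rw [e1, div_le_iff₀ hbq]
    calc (β * Mv) ^ p * a ^ p ≤ (C1 * N ^ 6 * H ^ 6 * Mu) ^ p * a ^ p := by gcongr
      _ = (C1 * N ^ 6 * H ^ 6) ^ p * (a * Mu) ^ p := by rw [mul_pow _ Mu, mul_pow a]; ring
      _ ≤ (C1 * N ^ 6 * H ^ 6) ^ p * (C2 * Ta) ^ p := by gcongr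
      _ = (C1 * C2 * N ^ 6 * H ^ 6) ^ p * Ta ^ p := by
          rw [mul_pow C2, ← mul_assoc, ← mul_pow]; ring_nf
      _ = (C1 * C2 * N ^ 6 * H ^ 6) ^ p * Tb ^ q := by rw [hT]
      _ ≤ (C1 * C2 * N ^ 6 * H ^ 6) ^ p * (C3 * (b * Mv)) ^ q := by gcongr
      _ = (C1 * C2 * N ^ 6 * H ^ 6) ^ p * C3 ^ q * Mv ^ q * b ^ q := by
          rw [mul_pow C3, mul_pow b]; ring
  · have hNu : Mu ≤ N ^ 6 * Mu := le_mul_of_one_le_left (by linarith) (one_le_pow₀ hN)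
    have hMu' : Mu ≤ C1 * H ^ 6 * (β * Mv) := hNu.trans h2
    have e2 : (C1 * C2 * N ^ 6 * H ^ 6) ^ p * C3 ^ q * (β ^ p * a ^ p / b ^ q * Mv ^ p) =
        (C1 * C2 * N ^ 6 * H ^ 6) ^ p * C3 ^ q * (β * Mv) ^ p * a ^ p / b ^ q := by
      rw [mul_pow β]; ring
    rw [e2, le_div_iff₀ hbq]
    have h7 : C1 * C2 * H ^ 6 ≤ C1 * C2 * N ^ 6 * H ^ 6 := by
      have : C1 * C2 * H ^ 6 * 1 ≤ C1 * C2 * H ^ 6 * N ^ 6 := by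
        gcongr
        exact one_le_pow₀ hN
      calc C1 * C2 * H ^ 6 = C1 * C2 * H ^ 6 * 1 := by ring
        _ ≤ C1 * C2 * H ^ 6 * N ^ 6 := this
        _ = _ := by ring
    calc Mv ^ q * b ^ q = (b * Mv) ^ q := by rw [mul_pow]; ring
      _ ≤ (C3 * Tb) ^ q := by gcongr
      _ = C3 ^ q * Ta ^ p := by rw [mul_pow, hT]
      _ ≤ C3 ^ q * (C2 * (a * Mu)) ^ p := by gcongr
      _ ≤ C3 ^ q * (C2 * (a * (C1 * H ^ 6 * (β * Mv)))) ^ p := by gcongr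
      _ = C3 ^ q * ((C1 * C2 * H ^ 6) ^ p * (β * Mv) ^ p * a ^ p) := by
          rw [← mul_pow, ← mul_pow]; ring_nf
      _ ≤ C3 ^ q * ((C1 * C2 * N ^ 6 * H ^ 6) ^ p * (β * Mv) ^ p * a ^ p) := by gcongr
      _ = _ := by ring

theorem RXi_const (p q : ℕ) (C1 C2 C3 : ℝ) :
    ∃ C : ℕ, 1 ≤ C ∧ ∀ N H : ℝ, 1 ≤ N → 1 ≤ H →
      (C1 * C2 * N ^ 6 * H ^ 6) ^ p * C3 ^ q ≤ (C * N * H) ^ C := by
  obtain ⟨c, hc⟩ := exists_nat_ge ((C1 * C2) ^ p * C3 ^ q)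
  refine ⟨max (max c 1) (6 * p), (le_max_right _ _).trans (le_max_left _ _), fun N H hN hH => ?_⟩
  set C : ℕ := max (max c 1) (6 * p) with hC
  have h1 : c ≤ C := (le_max_left _ _).trans (le_max_left _ _)
  have h2 : 1 ≤ C := (le_max_right _ _).trans (le_max_left _ _)
  have h3 : 6 * p ≤ C := le_max_right _ _
  have hC1' : (1 : ℝ) ≤ C := by exact_mod_cast h2
  have hNH : 1 ≤ N * H := one_le_mul_of_one_le_of_one_le hN hH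
  have e1 : (C1 * C2 * N ^ 6 * H ^ 6) ^ p * C3 ^ q = (C1 * C2) ^ p * C3 ^ q * (N * H) ^ (6 * p) := by
    rw [pow_mul, mul_pow N, mul_assoc (C1 * C2), mul_pow (C1 * C2)]; ring
  rw [e1]
  calc (C1 * C2) ^ p * C3 ^ q * (N * H) ^ (6 * p) ≤ (C : ℝ) * (N * H) ^ C := by
        refine mul_le_mul (hc.trans (by exact_mod_cast h1)) (pow_le_pow_right₀ hNH h3)
          (by positivity) (by positivity)
    _ ≤ (C : ℝ) ^ C * (N * H) ^ C := by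
        gcongr
        exact le_self_pow₀ hC1' (by omega)
    _ = (C * N * H) ^ C := by rw [← mul_pow]; ring_nf

theorem xi_size {Aa Ba Ab Bb : Polynomial Qb} (ca : IsCoprime Aa Ba) (cb : IsCoprime Ab Bb)
    {p q : ℕ} (hpq : p * rdeg Aa Ba = q * rdeg Ab Bb) :
    ∃ C : ℕ, 1 ≤ C ∧ ∀ (s : ℂ ≃+* ℂ) (u v t B : ℂ), Par Aa Ba Ab Bb u v t B → ∀ H : ℝ, 1 ≤ H →
      ‖s u‖ ≤ Real.exp H → ‖s v‖ ≤ Real.exp H →
        ‖s (Xi Ba Bb p q t B)‖ * max 1 ‖s v‖ ^ p ≤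
          (C * mdeg v u * H) ^ C * max 1 ‖s v‖ ^ q ∧
        max 1 ‖s v‖ ^ q ≤
          (C * mdeg v u * H) ^ C * (‖s (Xi Ba Bb p q t B)‖ * max 1 ‖s v‖ ^ p) := by
  obtain ⟨C1, hC1, h1⟩ := B_arch
  obtain ⟨C2, hC2, h2⟩ := comp_x ca
  obtain ⟨C3, hC3, h3⟩ := comp_x cb
  obtain ⟨C, hC, hCC⟩ := RXi_const p q C1 C2 C3
  refine ⟨C, hC, fun s u v t B h H hH hu hv => ?_⟩
  have hN : 0 < mdeg v u := mdeg_pos h.isB.isog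
  have hN1 : (1 : ℝ) ≤ mdeg v u := by exact_mod_cast hN
  have hm := h1 (s v) (s u) (s B) (h.isB.map h.ncm s) (h.ncm.map s) H hH hv hu
  rw [mdeg_map] at hm
  have ha := h2 s t u h.eqa
  have hb := h3 s t v h.eqb
  have hne : s (aeval t Bb : ℂ) ≠ 0 := by
    rw [Ne, map_eq_zero]
    exact h.neb
  have key := RXi_real (p := p) (q := q) (norm_nonneg (s (aeval t Ba : ℂ))) (norm_pos_iff.2 hne)
    (norm_nonneg (s B)) (le_max_left 1 ‖s u‖) (le_max_left 1 ‖s v‖)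
    (by positivity : 0 ≤ max 1 ‖s t‖ ^ rdeg Aa Ba) (by positivity : 0 ≤ max 1 ‖s t‖ ^ rdeg Ab Bb)
    hC1 hC2 hC3 hN1 hH hm.1 hm.2 ha.1 ha.2 hb.1 hb.2 (RXi_pow_le hpq _)
  have hX : ‖s (Xi Ba Bb p q t B)‖ =
      ‖s B‖ ^ p * ‖s (aeval t Ba : ℂ)‖ ^ p / ‖s (aeval t Bb : ℂ)‖ ^ q := by
    rw [Xi, map_div₀, map_mul, map_pow, map_pow, map_pow, norm_div, norm_mul, norm_pow, norm_pow,
      norm_pow]
  rw [hX]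
  have hc := hCC (mdeg v u) H hN1 hH
  refine ⟨key.1.trans ?_, key.2.trans ?_⟩
  · gcongr
  · gcongr

/-- products of powers of integral numbers -/
theorem RXi_prod (c r₁ r₂ p q : ℕ) {B a b M : ℂ} (h1 : IsIntegral ℤ ((c : ℂ) * B))
    (h2 : IsIntegral ℤ ((c : ℂ) * M * B⁻¹)) (h3 : IsIntegral ℤ ((r₁ : ℂ) * a))
    (h4 : IsIntegral ℤ ((r₁ : ℂ) * a⁻¹)) (h5 : IsIntegral ℤ ((r₂ : ℂ) * b))
    (h6 : IsIntegral ℤ ((r₂ : ℂ) * b⁻¹)) :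
    IsIntegral ℤ (((c ^ p * r₁ ^ p * r₂ ^ q : ℕ) : ℂ) * (B ^ p * a ^ p / b ^ q)) ∧
      IsIntegral ℤ (((c ^ p * r₁ ^ p * r₂ ^ q : ℕ) : ℂ) * M ^ p * (B ^ p * a ^ p / b ^ q)⁻¹) := by
  constructor
  · have e : ((c ^ p * r₁ ^ p * r₂ ^ q : ℕ) : ℂ) * (B ^ p * a ^ p / b ^ q) =
        ((c : ℂ) * B) ^ p * ((r₁ : ℂ) * a) ^ p * ((r₂ : ℂ) * b⁻¹) ^ q := by
      push_cast
      rw [mul_pow, mul_pow, mul_pow, inv_pow]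
      ring
    rw [e]
    exact ((h1.pow p).mul (h3.pow p)).mul (h6.pow q)
  · have e : ((c ^ p * r₁ ^ p * r₂ ^ q : ℕ) : ℂ) * M ^ p * (B ^ p * a ^ p / b ^ q)⁻¹ =
        ((c : ℂ) * M * B⁻¹) ^ p * ((r₁ : ℂ) * a⁻¹) ^ p * ((r₂ : ℂ) * b) ^ q := by
      push_cast
      rw [mul_pow, mul_pow, mul_pow, mul_pow, inv_pow, inv_pow, inv_div, div_eq_mul_inv, mul_inv]
      ring
    rw [e]
    exact ((h2.pow p).mul (h4.pow p)).mul (h5.pow q)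

/-- `xi_int` for numbers `u`, `v` with `m u`, `m v` integral, from the corresponding property of the number of the pair -/
theorem RXi_int_core (m : ℕ) (hm : 0 < m) {Aa Ba Ab Bb : Polynomial Qb} (ca : IsCoprime Aa Ba)
    (cb : IsCoprime Ab Bb) (hd : Ba.natDegree < Aa.natDegree) (p q : ℕ) (c : ℕ) (hc : 0 < c)
    (hB : ∀ x y B : ℂ, IsB x y B → NCM x → IsIntegral ℤ ((m : ℂ) * x) →
      IsIntegral ℤ ((m : ℂ) * y) → IsIntegral ℤ ((c : ℂ) * B) ∧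
        IsIntegral ℤ ((c : ℂ) * (mdeg x y : ℂ) ^ 12 * B⁻¹)) :
    ∃ r : ℕ, 0 < r ∧ ∀ u v t B : ℂ, Par Aa Ba Ab Bb u v t B → IsIntegral ℤ ((m : ℂ) * u) →
      IsIntegral ℤ ((m : ℂ) * v) →
      IsIntegral ℤ ((r : ℂ) * Xi Ba Bb p q t B) ∧
        IsIntegral ℤ ((r : ℂ) * (mdeg v u : ℂ) ^ (12 * p) * (Xi Ba Bb p q t B)⁻¹) := by
  obtain ⟨r₀, hr₀, h0⟩ := int_t_m Aa Ba hd m hm
  obtain ⟨r₁, hr₁, h1⟩ := int_B_m ca m hm r₀ hr₀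
  obtain ⟨r₂, hr₂, h2⟩ := int_B_m cb m hm r₀ hr₀
  refine ⟨c ^ p * r₁ ^ p * r₂ ^ q, by positivity, fun u v t B h iu iv => ?_⟩
  have it := h0 u t iu h.eqa
  obtain ⟨i1, i2⟩ := h1 u t iu it h.eqa h.nea
  obtain ⟨i3, i4⟩ := h2 v t iv it h.eqb h.neb
  obtain ⟨i5, i6⟩ := hB v u B h.isB h.ncm iv iu
  have key := RXi_prod c r₁ r₂ p q i5 i6 i1 i2 i3 i4
  rw [← pow_mul] at key
  exact key

theorem xi_int {Aa Ba Ab Bb : Polynomial Qb} (ca : IsCoprime Aa Ba) (cb : IsCoprime Ab Bb)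
    (hd : Ba.natDegree < Aa.natDegree) (p q : ℕ) :
    ∃ r : ℕ, 0 < r ∧ ∀ u v t B : ℂ, Par Aa Ba Ab Bb u v t B → IsIntegral ℤ u → IsIntegral ℤ v →
      IsIntegral ℤ ((r : ℂ) * Xi Ba Bb p q t B) ∧
        IsIntegral ℤ ((r : ℂ) * (mdeg v u : ℂ) ^ (12 * p) * (Xi Ba Bb p q t B)⁻¹) := by
  obtain ⟨r, hr, h⟩ := RXi_int_core 1 one_pos ca cb hd p q ((4 * 6 ^ 12) ^ 6) (by positivity)
    (fun x y B hB hx ix iy => by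
      rw [Nat.cast_one, one_mul] at ix iy
      have hc : (((4 * 6 ^ 12) ^ 6 : ℕ) : ℂ) = (4 * 6 ^ 12) ^ 6 := by norm_num
      rw [hc]
      exact hB.integral hx ix iy)
  refine ⟨r, hr, fun u v t B hp iu iv => h u v t B hp ?_ ?_⟩
  · rwa [Nat.cast_one, one_mul]
  · rwa [Nat.cast_one, one_mul]

/-- `xi_int` for numbers `u`, `v` with `m u`, `m v` integral -/
theorem xi_int_m {Aa Ba Ab Bb : Polynomial Qb} (ca : IsCoprime Aa Ba) (cb : IsCoprime Ab Bb)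
    (hd : Ba.natDegree < Aa.natDegree) (p q : ℕ) (m : ℕ) (hm : 0 < m) :
    ∃ r : ℕ, 0 < r ∧ ∀ u v t B : ℂ, Par Aa Ba Ab Bb u v t B → IsIntegral ℤ ((m : ℂ) * u) →
      IsIntegral ℤ ((m : ℂ) * v) →
      IsIntegral ℤ ((r : ℂ) * Xi Ba Bb p q t B) ∧
        IsIntegral ℤ ((r : ℂ) * (mdeg v u : ℂ) ^ (12 * p) * (Xi Ba Bb p q t B)⁻¹) :=
  RXi_int_core m hm ca cb hd p q ((4 * (m * 6 ^ 12)) ^ 6) (by positivity)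
    (fun x y B hB hx ix iy => by
      have hc : (((4 * (m * 6 ^ 12)) ^ 6 : ℕ) : ℂ) = (4 * ((m : ℂ) * 6 ^ 12)) ^ 6 := by
        push_cast
        ring
      rw [hc]
      exact hB.integral_m hx m hm ix iy)

theorem xi_mem {Aa Ba Ab Bb : Polynomial Qb} {u v t B : ℂ} (h : Par Aa Ba Ab Bb u v t B)
    (K : IntermediateField ℚ ℂ) [FiniteDimensional ℚ K] (hu : u ∈ K) (hv : v ∈ K) (ht : t ∈ K)
    (ha : ∀ i, ((Ba.coeff i : Qb) : ℂ) ∈ K) (hb : ∀ i, ((Bb.coeff i : Qb) : ℂ) ∈ K) (p q : ℕ) :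
    Xi Ba Bb p q t B ∈ K := by
  rw [Xi]
  exact K.div_mem (K.mul_mem (pow_mem (h.isB.mem h.ncm K hv hu) p) (pow_mem (mem_aeval ht ha) p))
    (pow_mem (mem_aeval ht hb) q)

end Pool.Agent.LGO.U
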