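import Mathlib
import Pool.Agent.LGO.U.RMeas
import Pool.Agent.LGO.U.RXi

/-!
# LGO/U: `RMeas` for all conjugates

PROOF.  For an automorphism `s` and `P ∈ Qb[X]` let `P^s = (P.map (algebraMap Qb ℂ)).map s`; `P^s(s t) = s (P(t))`, the same degree,
coefficients `s(p_i)`, algebraic.  There are only finitely many quadruples `(Aa^s, Ba^s, Ab^s, Bb^s)` (the coefficients are roots
of the minimal polynomials of the coefficients); let `C` be the maximum of the constants of `meas_one` for them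
(`(C M) ^ C` is increasing in `C` because `C M ≥ 1`), `n = deg Aa`.  For `s` apply `meas_one` to the field `KS s K`
(`finrank_KS`, `Bd.map`, in `H/BdC.lean`) and `s t, s u, s v, s B, s Ξ`: `mdeg (s v) (s u) = mdeg v u` (`mdeg_map`), `NCM.map`, `IsB.map`,
and the equations are mapped by `s`.  `Ξ = Xi Ba Bb 1 1 t B`: `Ξ Bb(t) = B Ba(t)`.
-/

namespace Pool.Agent.LGO.U

open Polynomial Pool.Agent.Hhelper14.ZPL Pool.Agent.LGO

/-- the conjugate polynomial -/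
noncomputable def RAll_conj (s : ℂ ≃+* ℂ) (P : Polynomial Qb) : ℂ[X] :=
  (P.map (algebraMap Qb ℂ)).map (s : ℂ →+* ℂ)

theorem RAll_natDegree (s : ℂ ≃+* ℂ) (P : Polynomial Qb) :
    (RAll_conj s P).natDegree = P.natDegree := by
  have h1 : Function.Injective (s : ℂ →+* ℂ) := s.injective
  have h2 : Function.Injective (algebraMap Qb ℂ) := (algebraMap Qb ℂ).injective
  rw [RAll_conj, natDegree_map_eq_of_injective h1, natDegree_map_eq_of_injective h2]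

theorem RAll_eval (s : ℂ ≃+* ℂ) (P : Polynomial Qb) (t : ℂ) :
    (RAll_conj s P).eval (s t) = s (aeval t P : ℂ) := by
  rw [RAll_conj, eval_map]
  have h1 := eval₂_at_apply (p := P.map (algebraMap Qb ℂ)) (s : ℂ →+* ℂ) t
  have h2 : (s : ℂ →+* ℂ) t = s t := rfl
  rw [h2] at h1
  rw [h1, aeval_def, eval₂_eq_eval_map]
  rfl

theorem RAll_coeff (s : ℂ ≃+* ℂ) (P : Polynomial Qb) (i : ℕ) :
    (RAll_conj s P).coeff i = s ((P.coeff i : Qb) : ℂ) := by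
  rw [RAll_conj, coeff_map, coeff_map]
  rfl

theorem RAll_root (s : ℂ ≃+* ℂ) (P : Polynomial Qb) (i : ℕ) :
    (RAll_conj s P).coeff i ∈ (minpoly ℚ ((P.coeff i : Qb) : ℂ)).rootSet ℂ := by
  have halg : IsAlgebraic ℚ ((P.coeff i : Qb) : ℂ) := mem_algebraicClosure_iff.1 (P.coeff i).2
  rw [RAll_coeff, mem_rootSet]
  refine ⟨minpoly.ne_zero halg.isIntegral, ?_⟩
  have h1 := aeval_algHom_apply (RingHom.toRatAlgHom (s : ℂ →+* ℂ)) ((P.coeff i : Qb) : ℂ)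
    (minpoly ℚ ((P.coeff i : Qb) : ℂ))
  rw [minpoly.aeval, map_zero] at h1
  exact h1

theorem RAll_alg (s : ℂ ≃+* ℂ) (P : Polynomial Qb) (i : ℕ) :
    IsAlgebraic ℚ ((RAll_conj s P).coeff i) := by
  have halg : IsAlgebraic ℚ ((P.coeff i : Qb) : ℂ) := mem_algebraicClosure_iff.1 (P.coeff i).2
  have h := RAll_root s P i
  rw [mem_rootSet] at h
  exact ⟨_, h.1, h.2⟩

theorem RAll_finite (P : Polynomial Qb) : (Set.range fun s : ℂ ≃+* ℂ => RAll_conj s P).Finite := by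
  have hf : (Set.pi Set.univ fun i : Fin (P.natDegree + 1) =>
      (minpoly ℚ ((P.coeff i : Qb) : ℂ)).rootSet ℂ).Finite :=
    Set.Finite.pi fun i => rootSet_finite _ _
  refine Set.Finite.of_finite_image (f := fun Q : ℂ[X] => fun i : Fin (P.natDegree + 1) =>
    Q.coeff i) (hf.subset ?_) ?_
  · rintro _ ⟨_, ⟨s, rfl⟩, rfl⟩
    intro i _
    exact RAll_root s P i
  · rintro _ ⟨s, rfl⟩ _ ⟨s', rfl⟩ h
    ext i
    by_cases hi : i < P.natDegree + 1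
    · exact congrFun h ⟨i, hi⟩
    · change (RAll_conj s P).coeff i = (RAll_conj s' P).coeff i
      rw [coeff_eq_zero_of_natDegree_lt (by rw [RAll_natDegree]; omega),
        coeff_eq_zero_of_natDegree_lt (by rw [RAll_natDegree]; omega)]

/-- uniformity over a finite set -/
theorem RAll_unif {α : Type} {F : Set α} (hF : F.Finite) (R : α → ℕ → Prop)
    (hR : ∀ a C C', 1 ≤ C → C ≤ C' → R a C → R a C') (h : ∀ a ∈ F, ∃ C, 1 ≤ C ∧ R a C) :
    ∃ C, 1 ≤ C ∧ ∀ a ∈ F, R a C := by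
  classical
  choose! f hf using h
  refine ⟨hF.toFinset.sup f + 1, by omega, fun a ha => ?_⟩
  refine hR a (f a) _ (hf a ha).1 ?_ (hf a ha).2
  have : f a ≤ hF.toFinset.sup f := Finset.le_sup (f := f) (hF.mem_toFinset.2 ha)
  omega

theorem meas_all (Aa Ba Ab Bb : Polynomial Qb) (hBb : Bb.natDegree = Aa.natDegree)
    (hBa : Ba.natDegree < Aa.natDegree) (hAb : Ab.natDegree ≤ Aa.natDegree) :
    ∃ C : ℕ, 1 ≤ C ∧ ∀ (K : IntermediateField ℚ ℂ) [FiniteDimensional ℚ K] (M : ℝ)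
      (u v t B : ℂ), 2 ≤ M → (Module.finrank ℚ K : ℝ) ≤ M → (mdeg v u : ℝ) ≤ Real.exp M →
      Par Aa Ba Ab Bb u v t B → Bd K M (Xi Ba Bb 1 1 t B) →
        ∀ s : ℂ ≃+* ℂ, ‖s t‖ ≤ Real.exp ((C * M) ^ C) := by
  set F : Set (ℂ[X] × ℂ[X] × ℂ[X] × ℂ[X]) := Set.range fun s : ℂ ≃+* ℂ =>
    (RAll_conj s Aa, RAll_conj s Ba, RAll_conj s Ab, RAll_conj s Bb) with hFdef
  have hF : F.Finite := by
    refine Set.Finite.subset ((RAll_finite Aa).prod ((RAll_finite Ba).prod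
      ((RAll_finite Ab).prod (RAll_finite Bb)))) ?_
    rintro _ ⟨s, rfl⟩
    exact ⟨⟨s, rfl⟩, ⟨s, rfl⟩, ⟨s, rfl⟩, ⟨s, rfl⟩⟩
  obtain ⟨C, hC, H⟩ := RAll_unif hF (fun (Q : ℂ[X] × ℂ[X] × ℂ[X] × ℂ[X]) (C : ℕ) =>
    ∀ (K : IntermediateField ℚ ℂ) [FiniteDimensional ℚ K] (M : ℝ)
      (t u v B Ξ : ℂ), 2 ≤ M → (Module.finrank ℚ K : ℝ) ≤ M → (mdeg v u : ℝ) ≤ Real.exp M →
      Q.1.eval t = u * Q.2.1.eval t → Q.2.1.eval t ≠ 0 →
      Q.2.2.1.eval t = v * Q.2.2.2.eval t → Q.2.2.2.eval t ≠ 0 →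
      NCM v → IsB v u B → Ξ * Q.2.2.2.eval t = B * Q.2.1.eval t → Bd K M Ξ →
        ‖t‖ ≤ Real.exp ((C * M) ^ C)) (by
      intro Q C C' hC hCC' h K _ M t u v B Ξ hM h1 h2 h3 h4 h5 h6 h7 h8 h9 h10
      refine (h K M t u v B Ξ hM h1 h2 h3 h4 h5 h6 h7 h8 h9 h10).trans (Real.exp_le_exp.2 ?_)
      have hC1 : (1 : ℝ) ≤ C := by exact_mod_cast hC
      have hCC : (C : ℝ) ≤ C' := by exact_mod_cast hCC'
      calc ((C : ℝ) * M) ^ C ≤ ((C' : ℝ) * M) ^ C := by gcongr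
        _ ≤ ((C' : ℝ) * M) ^ C' := pow_le_pow_right₀ (by nlinarith) hCC') (by
      rintro _ ⟨s, rfl⟩
      obtain ⟨C, hC, h⟩ := meas_one (RAll_conj s Aa) (RAll_conj s Ba) (RAll_conj s Ab)
        (RAll_conj s Bb) Aa.natDegree (RAll_natDegree s Aa)
        ((RAll_natDegree s Bb).trans hBb) (by rw [RAll_natDegree]; exact hBa)
        (by rw [RAll_natDegree]; exact hAb) (RAll_alg s Aa _) (RAll_alg s Bb _)
        (RAll_alg s Ab _)
      exact ⟨C, hC, h⟩)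
  refine ⟨C, hC, ?_⟩
  intro K _ M u v t B hM hK hN hP hB s
  refine H (RAll_conj s Aa, RAll_conj s Ba, RAll_conj s Ab, RAll_conj s Bb) ⟨s, rfl⟩ (KS s K) M
    (s t) (s u) (s v) (s B) (s (Xi Ba Bb 1 1 t B)) hM ?_ ?_ ?_ ?_ ?_ ?_ (hP.ncm.map s)
    (hP.isB.map hP.ncm s) ?_ (hB.map s)
  · rwa [finrank_KS]
  · rwa [mdeg_map]
  · simp only [RAll_eval]
    rw [hP.eqa, map_mul]
  · simp only [RAll_eval]
    exact (map_ne_zero_iff s s.injective).2 hP.nea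
  · simp only [RAll_eval]
    rw [hP.eqb, map_mul]
  · simp only [RAll_eval]
    exact (map_ne_zero_iff s s.injective).2 hP.neb
  · simp only [RAll_eval]
    rw [← map_mul, ← map_mul]
    congr 1
    rw [Xi, pow_one, pow_one, pow_one]
    have := hP.neb
    field_simp

end Pool.Agent.LGO.U
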