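import Mathlib
import Pool.Agent.LGO.U.RXi
import Pool.Agent.LGO.Mul.Ht

/-!
# LGO/U: unequal degrees

PROOF of `neq_v`.  `n_a = rdeg Aa Ba`, `n_b = rdeg Ab Bb`, `p = n_b`, `q = n_a`, `Ξ = Xi Ba Bb p q t B ∈ K`, `N = mdeg v u ≥ 1`,
`D = [K : ℚ]`, `E = (C N H) ^ C ≥ 1` from `xi_size`, `r` from `xi_int`.  For an embedding `σ` of `K` extended to `s` (`exists_aut`) let
`M_σ = max 1 ‖s v‖ ≥ 1`.  `∏_σ ‖σ y‖ = |Norm y|` for `y ∈ K` (`Algebra.norm_eq_prod_embeddings`), and `|Norm y| ≥ 1` if `y ≠ 0` is integral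
(the norm is a nonzero rational number integral over `ℤ`).
Case `q > p`: `M_σ ^ (q - p) ≤ E ‖σ Ξ‖`.  `y = r N ^ (12 p) Ξ⁻¹` is integral, so `∏_σ ‖σ Ξ‖ ≤ (r N ^ (12 p)) ^ D`.  So
`∏_σ M_σ ≤ ∏_σ M_σ ^ (q - p) ≤ (E r N ^ (12 p)) ^ D`, and all factors are `≥ 1`: `M_σ ≤ (E r N ^ (12 p)) ^ D`.
Case `q < p`: `M_σ ^ (p - q) ≤ E / ‖σ Ξ‖` (the first inequality of `xi_size` divided by `M_σ ^ q`), `y = r Ξ` is integral, so
`∏_σ ‖σ Ξ‖ ≥ r ^ (-D)`, `∏_σ M_σ ≤ (E r) ^ D`.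
Finally `log (E r N ^ (12 p)) ≤ C' (1 + log N + log H)`.
-/

namespace Pool.Agent.LGO.U

open Polynomial Pool.Agent.Hhelper14.ZPL Pool.Agent.LGO

/-- the norm of a nonzero algebraic integer is at least `1` in absolute value -/
private theorem RNeq_norm (K : IntermediateField ℚ ℂ) [FiniteDimensional ℚ K] {y : ℂ}
    (hy : y ∈ K) (hy0 : y ≠ 0) (hi : IsIntegral ℤ y) :
    1 ≤ ∏ τ : K →ₐ[ℚ] ℂ, ‖τ ⟨y, hy⟩‖ := by
  classical
  set w : K := ⟨y, hy⟩ with hw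
  have hwn : w ≠ 0 := by
    intro e
    apply hy0
    have := congrArg (fun z : K => (z : ℂ)) e
    simpa [hw] using this
  have hwint : IsIntegral ℤ w := by
    have h1 : IsIntegral ℤ ((algebraMap K ℂ) w) := hi
    exact (isIntegral_algebraMap_iff (algebraMap K ℂ).injective).1 h1
  have hN : IsIntegral ℤ (Algebra.norm ℚ w) := Algebra.isIntegral_norm ℚ hwint
  obtain ⟨z, hz⟩ := IsIntegrallyClosed.isIntegral_iff.1 hN
  have hz0 : z ≠ 0 := by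
    intro e
    rw [e, map_zero] at hz
    exact hwn (Algebra.norm_eq_zero_iff.1 hz.symm)
  have hprod := Algebra.norm_eq_prod_embeddings ℚ ℂ w
  rw [← norm_prod, ← hprod, ← hz]
  have e : (algebraMap ℚ ℂ) ((algebraMap ℤ ℚ) z) = (z : ℂ) := by simp
  rw [e, Complex.norm_intCast]
  exact_mod_cast Int.one_le_abs hz0

private theorem RNeq_key (K : IntermediateField ℚ ℂ) [FiniteDimensional ℚ K] {y v : ℂ}
    (hy : y ∈ K) (hv : v ∈ K) (hy0 : y ≠ 0) (hi : IsIntegral ℤ y) (F : ℝ)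
    (h : ∀ s : ℂ ≃+* ℂ, max 1 ‖s v‖ * ‖s y‖ ≤ F) (s : ℂ ≃+* ℂ) :
    ‖s v‖ ≤ F ^ Module.finrank ℚ K := by
  classical
  have h1 := RNeq_norm K hy hy0 hi
  set σ₀ : K →ₐ[ℚ] ℂ :=
    RingHom.toRatAlgHom ((s : ℂ →+* ℂ).comp (algebraMap K ℂ)) with hσ₀
  have e0 : ‖s v‖ = ‖σ₀ ⟨v, hv⟩‖ := rfl
  have h2 : max 1 ‖σ₀ ⟨v, hv⟩‖ ≤ ∏ τ : K →ₐ[ℚ] ℂ, max 1 ‖τ ⟨v, hv⟩‖ := by
    rw [← Finset.mul_prod_erase Finset.univ _ (Finset.mem_univ σ₀)]
    have h3 : (1 : ℝ) ≤ ∏ τ ∈ Finset.univ.erase σ₀, max 1 ‖τ ⟨v, hv⟩‖ := by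
      have h4 : ∏ τ ∈ Finset.univ.erase σ₀, (1 : ℝ) ≤
          ∏ τ ∈ Finset.univ.erase σ₀, max 1 ‖τ ⟨v, hv⟩‖ :=
        Finset.prod_le_prod (fun _ _ => zero_le_one) fun _ _ => le_max_left _ _
      simpa using h4
    have h5 : (0 : ℝ) ≤ max 1 ‖σ₀ ⟨v, hv⟩‖ := zero_le_one.trans (le_max_left _ _)
    nlinarith
  have h6 : ∀ τ : K →ₐ[ℚ] ℂ, max 1 ‖τ ⟨v, hv⟩‖ * ‖τ ⟨y, hy⟩‖ ≤ F := by
    intro τ
    obtain ⟨t, ht⟩ := exists_aut K (τ : K →+* ℂ)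
    have h7 := h t
    have e1 : t v = τ ⟨v, hv⟩ := ht ⟨v, hv⟩
    have e2 : t y = τ ⟨y, hy⟩ := ht ⟨y, hy⟩
    rwa [e1, e2] at h7
  have h8 : ∏ τ : K →ₐ[ℚ] ℂ, (max 1 ‖τ ⟨v, hv⟩‖ * ‖τ ⟨y, hy⟩‖) ≤
      F ^ Module.finrank ℚ K := by
    have hcard : Fintype.card (K →ₐ[ℚ] ℂ) = Module.finrank ℚ K := AlgHom.card ℚ K ℂ
    rw [← hcard, ← Finset.card_univ, ← Finset.prod_const]
    exact Finset.prod_le_prod (fun τ _ => by positivity) fun τ _ => h6 τ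
  rw [Finset.prod_mul_distrib] at h8
  have h9 : (0 : ℝ) ≤ ∏ τ : K →ₐ[ℚ] ℂ, max 1 ‖τ ⟨v, hv⟩‖ :=
    Finset.prod_nonneg fun τ _ => zero_le_one.trans (le_max_left _ _)
  rw [e0]
  calc ‖σ₀ ⟨v, hv⟩‖ ≤ max 1 ‖σ₀ ⟨v, hv⟩‖ := le_max_right _ _
    _ ≤ ∏ τ : K →ₐ[ℚ] ℂ, max 1 ‖τ ⟨v, hv⟩‖ := h2
    _ ≤ (∏ τ : K →ₐ[ℚ] ℂ, max 1 ‖τ ⟨v, hv⟩‖) * ∏ τ : K →ₐ[ℚ] ℂ, ‖τ ⟨y, hy⟩‖ :=
        le_mul_of_one_le_right h9 h1
    _ ≤ F ^ Module.finrank ℚ K := h8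

/-- the case `q > p` -/
private theorem RNeq_gt {p q : ℕ} (hpq : p < q) {M X E R : ℝ} (hM : 1 ≤ M) (hX : 0 < X)
    (hR : 0 ≤ R) (h : M ^ q ≤ E * (X * M ^ p)) : M * (R * X⁻¹) ≤ E * R := by
  obtain ⟨k, rfl⟩ := Nat.exists_eq_add_of_lt hpq
  have hM0 : 0 < M := by linarith
  have h1 : M ^ (k + 1) ≤ E * X := by
    have h2 : M ^ p * M ^ (k + 1) ≤ M ^ p * (E * X) := by
      calc M ^ p * M ^ (k + 1) = M ^ (p + k + 1) := by ring
        _ ≤ E * (X * M ^ p) := h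
        _ = M ^ p * (E * X) := by ring
    exact le_of_mul_le_mul_left h2 (by positivity)
  have h3 : M ≤ E * X := by
    refine le_trans ?_ h1
    calc M = 1 * M := (one_mul M).symm
      _ ≤ M ^ k * M := mul_le_mul_of_nonneg_right (one_le_pow₀ hM) hM0.le
      _ = M ^ (k + 1) := (pow_succ M k).symm
  calc M * (R * X⁻¹) ≤ (E * X) * (R * X⁻¹) := mul_le_mul_of_nonneg_right h3 (by positivity)
    _ = E * R * (X * X⁻¹) := by ring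
    _ = E * R := by rw [mul_inv_cancel₀ hX.ne', mul_one]

/-- the case `q < p` -/
private theorem RNeq_lt {p q : ℕ} (hpq : q < p) {M X E R : ℝ} (hM : 1 ≤ M) (hX : 0 < X)
    (hR : 0 ≤ R) (h : X * M ^ p ≤ E * M ^ q) : M * (R * X) ≤ E * R := by
  obtain ⟨k, rfl⟩ := Nat.exists_eq_add_of_lt hpq
  have hM0 : 0 < M := by linarith
  have h1 : X * M ^ (k + 1) ≤ E := by
    have h2 : M ^ q * (X * M ^ (k + 1)) ≤ M ^ q * E := by
      calc M ^ q * (X * M ^ (k + 1)) = X * M ^ (q + k + 1) := by ring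
        _ ≤ E * M ^ q := h
        _ = M ^ q * E := by ring
    exact le_of_mul_le_mul_left h2 (by positivity)
  have h3 : X * M ≤ E := by
    refine le_trans ?_ h1
    have h4 : M ≤ M ^ (k + 1) := by
      calc M = 1 * M := (one_mul M).symm
        _ ≤ M ^ k * M := mul_le_mul_of_nonneg_right (one_le_pow₀ hM) hM0.le
        _ = M ^ (k + 1) := (pow_succ M k).symm
    exact mul_le_mul_of_nonneg_left h4 hX.le
  calc M * (R * X) = (X * M) * R := by ring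
    _ ≤ E * R := mul_le_mul_of_nonneg_right h3 hR

/-- the final estimate -/
private theorem RNeq_fin {C r p N : ℕ} (hC : 1 ≤ C) (hr : 0 < r) (hN : 1 ≤ N) {H : ℝ}
    (hH : 1 ≤ H) :
    ((C : ℝ) * N * H) ^ C * (r * (N : ℝ) ^ (12 * p)) ≤
      Real.exp ((C * Real.log C + C + Real.log r + 12 * p + 1) *
        (1 + Real.log N + Real.log H)) := by
  have hC1 : (1 : ℝ) ≤ C := by exact_mod_cast hC
  have hr1 : (1 : ℝ) ≤ r := by exact_mod_cast hr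
  have hN1 : (1 : ℝ) ≤ N := by exact_mod_cast hN
  have hC0 : (0 : ℝ) < C := by linarith
  have hr0 : (0 : ℝ) < r := by linarith
  have hN0 : (0 : ℝ) < N := by linarith
  have hH0 : (0 : ℝ) < H := by linarith
  have lC : 0 ≤ Real.log C := Real.log_nonneg hC1
  have lr : 0 ≤ Real.log r := Real.log_nonneg hr1
  have lN : 0 ≤ Real.log N := Real.log_nonneg hN1
  have lH : 0 ≤ Real.log H := Real.log_nonneg hH
  have hpos : 0 < ((C : ℝ) * N * H) ^ C * (r * (N : ℝ) ^ (12 * p)) := by positivity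
  rw [← Real.log_le_iff_le_exp hpos, Real.log_mul (by positivity) (by positivity),
    Real.log_pow, Real.log_mul (by positivity) (by positivity),
    Real.log_mul (by positivity) (by positivity), Real.log_mul (by positivity) (by positivity),
    Real.log_pow]
  push_cast
  have a1 : 0 ≤ (C : ℝ) * Real.log C * (Real.log N + Real.log H) := by positivity
  have a2 : 0 ≤ Real.log r * (Real.log N + Real.log H) := by positivity
  have a3 : 0 ≤ (12 * p : ℝ) * (1 + Real.log H) := by positivity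
  nlinarith

private theorem RNeq_core {Aa Ba Ab Bb : Polynomial Qb} (ca : IsCoprime Aa Ba)
    (cb : IsCoprime Ab Bb) (hne : rdeg Aa Ba ≠ rdeg Ab Bb) (P : ℂ → Prop) {r : ℕ} (hr : 0 < r)
    (hin : ∀ u v t B : ℂ, Par Aa Ba Ab Bb u v t B → P u → P v →
      IsIntegral ℤ ((r : ℂ) * Xi Ba Bb (rdeg Ab Bb) (rdeg Aa Ba) t B) ∧
        IsIntegral ℤ ((r : ℂ) * (mdeg v u : ℂ) ^ (12 * rdeg Ab Bb) *
          (Xi Ba Bb (rdeg Ab Bb) (rdeg Aa Ba) t B)⁻¹)) :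
    ∃ C : ℝ, 1 ≤ C ∧ ∀ (K : IntermediateField ℚ ℂ) [FiniteDimensional ℚ K] (u v t B : ℂ),
      Par Aa Ba Ab Bb u v t B → P u → P v → u ∈ K → v ∈ K → t ∈ K →
      (∀ i, ((Ba.coeff i : Qb) : ℂ) ∈ K) → (∀ i, ((Bb.coeff i : Qb) : ℂ) ∈ K) →
      ∀ H : ℝ, 1 ≤ H → (∀ s : ℂ ≃+* ℂ, ‖s u‖ ≤ Real.exp H) →
        (∀ s : ℂ ≃+* ℂ, ‖s v‖ ≤ Real.exp H) →
          ∀ s : ℂ ≃+* ℂ, ‖s v‖ ≤ Real.exp (C * Module.finrank ℚ K *
            (1 + Real.log (mdeg v u) + Real.log H)) := by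
  obtain ⟨C, hC, hsz⟩ := xi_size ca cb (p := rdeg Ab Bb) (q := rdeg Aa Ba)
    (mul_comm (rdeg Ab Bb) (rdeg Aa Ba))
  generalize hp : rdeg Ab Bb = p at *
  generalize hq : rdeg Aa Ba = q at *
  have hC1 : (1 : ℝ) ≤ C := by exact_mod_cast hC
  have hr1 : (1 : ℝ) ≤ r := by exact_mod_cast hr
  refine ⟨C * Real.log C + C + Real.log r + 12 * p + 1, ?_, ?_⟩
  · have lC : 0 ≤ Real.log C := Real.log_nonneg hC1
    have lr : 0 ≤ Real.log r := Real.log_nonneg hr1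
    have : 0 ≤ (C : ℝ) * Real.log C + C + Real.log r + 12 * p := by positivity
    linarith
  intro K _ u v t B hP iu iv hu hv ht ha hb H hH hsu hsv s
  set N : ℕ := mdeg v u with hN
  have hN1 : 1 ≤ N := mdeg_pos hP.isB.isog
  have hN1' : (1 : ℝ) ≤ N := by exact_mod_cast hN1
  set X : ℂ := Xi Ba Bb p q t B with hX
  have hX0 : X ≠ 0 := hP.xi_ne p q
  have hXK : X ∈ K := xi_mem hP K hu hv ht ha hb p q
  obtain ⟨i1, i2⟩ := hin u v t B hP iu iv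
  have hr0 : (r : ℂ) ≠ 0 := by exact_mod_cast hr.ne'
  have hN0 : (N : ℂ) ≠ 0 := by exact_mod_cast (by omega : N ≠ 0)
  have hEpos : 0 ≤ ((C : ℝ) * N * H) ^ C := by positivity
  have hNp : (1 : ℝ) ≤ (N : ℝ) ^ (12 * p) := one_le_pow₀ hN1'
  have hF : ‖s v‖ ≤
      (((C : ℝ) * N * H) ^ C * (r * (N : ℝ) ^ (12 * p))) ^ Module.finrank ℚ K := by
    rcases lt_or_gt_of_ne hne with hlt | hgt
    · -- `q < p`
      refine RNeq_key K (y := (r : ℂ) * X) (K.mul_mem (natCast_mem K r) hXK) hv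
        (mul_ne_zero hr0 hX0) i1 _ (fun s => ?_) s
      have h1 := (hsz s u v t B hP H hH (hsu s) (hsv s)).1
      have hX' : 0 < ‖s X‖ := norm_pos_iff.2 ((map_ne_zero s).2 hX0)
      have h2 := RNeq_lt (R := (r : ℝ)) hlt (le_max_left 1 ‖s v‖) hX' (by positivity) h1
      have e : ‖s ((r : ℂ) * X)‖ = (r : ℝ) * ‖s X‖ := by
        rw [map_mul, map_natCast, norm_mul, Complex.norm_natCast]
      rw [e]
      refine h2.trans (mul_le_mul_of_nonneg_left ?_ hEpos)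
      exact le_mul_of_one_le_right (by positivity) hNp
    · -- `p < q`
      refine RNeq_key K (y := (r : ℂ) * (N : ℂ) ^ (12 * p) * X⁻¹)
        (K.mul_mem (K.mul_mem (natCast_mem K r) (pow_mem (natCast_mem K N) (12 * p))) (K.inv_mem hXK)) hv
        (mul_ne_zero (mul_ne_zero hr0 (pow_ne_zero _ hN0)) (inv_ne_zero hX0)) i2 _
        (fun s => ?_) s
      have h1 := (hsz s u v t B hP H hH (hsu s) (hsv s)).2
      have hX' : 0 < ‖s X‖ := norm_pos_iff.2 ((map_ne_zero s).2 hX0)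
      have h2 := RNeq_gt (R := (r : ℝ) * (N : ℝ) ^ (12 * p)) hgt (le_max_left 1 ‖s v‖) hX'
        (by positivity) h1
      have e : ‖s ((r : ℂ) * (N : ℂ) ^ (12 * p) * X⁻¹)‖ =
          (r : ℝ) * (N : ℝ) ^ (12 * p) * ‖s X‖⁻¹ := by
        rw [map_mul, map_mul, map_pow, map_natCast, map_natCast, map_inv₀, norm_mul, norm_mul,
          norm_pow, norm_inv, Complex.norm_natCast, Complex.norm_natCast]
      rw [e]
      exact h2
  refine hF.trans ?_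
  have hfin := RNeq_fin (p := p) hC hr hN1 hH
  calc (((C : ℝ) * N * H) ^ C * (r * (N : ℝ) ^ (12 * p))) ^ Module.finrank ℚ K
      ≤ (Real.exp ((C * Real.log C + C + Real.log r + 12 * p + 1) *
        (1 + Real.log N + Real.log H))) ^ Module.finrank ℚ K :=
        pow_le_pow_left₀ (by positivity) hfin _
    _ = Real.exp ((C * Real.log C + C + Real.log r + 12 * p + 1) * Module.finrank ℚ K *
        (1 + Real.log N + Real.log H)) := by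
        rw [← Real.exp_nat_mul]
        congr 1
        ring

theorem neq_v {Aa Ba Ab Bb : Polynomial Qb} (ca : IsCoprime Aa Ba) (cb : IsCoprime Ab Bb)
    (hd : Ba.natDegree < Aa.natDegree) (hne : rdeg Aa Ba ≠ rdeg Ab Bb) :
    ∃ C : ℝ, 1 ≤ C ∧ ∀ (K : IntermediateField ℚ ℂ) [FiniteDimensional ℚ K] (u v t B : ℂ),
      Par Aa Ba Ab Bb u v t B → IsIntegral ℤ u → IsIntegral ℤ v → u ∈ K → v ∈ K → t ∈ K →
      (∀ i, ((Ba.coeff i : Qb) : ℂ) ∈ K) → (∀ i, ((Bb.coeff i : Qb) : ℂ) ∈ K) →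
      ∀ H : ℝ, 1 ≤ H → (∀ s : ℂ ≃+* ℂ, ‖s u‖ ≤ Real.exp H) →
        (∀ s : ℂ ≃+* ℂ, ‖s v‖ ≤ Real.exp H) →
          ∀ s : ℂ ≃+* ℂ, ‖s v‖ ≤ Real.exp (C * Module.finrank ℚ K *
            (1 + Real.log (mdeg v u) + Real.log H)) := by
  obtain ⟨r, hr, hin⟩ := xi_int ca cb hd (rdeg Ab Bb) (rdeg Aa Ba)
  exact RNeq_core ca cb hne (fun x => IsIntegral ℤ x) hr hin

/-- `neq_v` for numbers `u`, `v` with `m u`, `m v` integral -/
theorem neq_v_m {Aa Ba Ab Bb : Polynomial Qb} (ca : IsCoprime Aa Ba) (cb : IsCoprime Ab Bb)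
    (hd : Ba.natDegree < Aa.natDegree) (hne : rdeg Aa Ba ≠ rdeg Ab Bb) (m : ℕ) (hm : 0 < m) :
    ∃ C : ℝ, 1 ≤ C ∧ ∀ (K : IntermediateField ℚ ℂ) [FiniteDimensional ℚ K] (u v t B : ℂ),
      Par Aa Ba Ab Bb u v t B → IsIntegral ℤ ((m : ℂ) * u) → IsIntegral ℤ ((m : ℂ) * v) →
      u ∈ K → v ∈ K → t ∈ K →
      (∀ i, ((Ba.coeff i : Qb) : ℂ) ∈ K) → (∀ i, ((Bb.coeff i : Qb) : ℂ) ∈ K) →
      ∀ H : ℝ, 1 ≤ H → (∀ s : ℂ ≃+* ℂ, ‖s u‖ ≤ Real.exp H) →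
        (∀ s : ℂ ≃+* ℂ, ‖s v‖ ≤ Real.exp H) →
          ∀ s : ℂ ≃+* ℂ, ‖s v‖ ≤ Real.exp (C * Module.finrank ℚ K *
            (1 + Real.log (mdeg v u) + Real.log H)) := by
  obtain ⟨r, hr, hin⟩ := xi_int_m ca cb hd (rdeg Ab Bb) (rdeg Aa Ba) m hm
  exact RNeq_core ca cb hne (fun x => IsIntegral ℤ ((m : ℂ) * x)) hr hin

end Pool.Agent.LGO.U
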