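import Mathlib
import Pool.Agent.LGO.U.RComp
import Pool.Agent.LGO.U.RFld
import Pool.Agent.LGO.Mul.Ht

/-!
# LGO/U: a bound for the parameter

PROOF of `tb`.  `n = rdeg A B`, `a = coeff A n`, `b = coeff B n`, `y = a - v b ≠ 0`; so `n ≥ 1` (if `n = 0` then `A = a`, `B = b` are
constants and `a = v b`).  The coefficients of `A - v B` of index `> n` vanish, and `(A - v B)(t) = 0`:
`y t ^ n = - Σ_{i < n} (a_i - v b_i) t ^ i`.  For an automorphism `s` with `‖s t‖ ≥ 1`: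
`‖s y‖ ‖s t‖ ^ n ≤ n C₁ max 1 ‖s v‖ ‖s t‖ ^ (n - 1)` (`C₁` bounds the conjugates of all coefficients, doubled), so
`‖s t‖ ≤ n C₁ exp G / ‖s y‖`.  `K₀` (`fld_fix` for `A`, `B`) contains `a, b`; `y ∈ K ⊔ K₀`, of degree `≤ d₀ D`
(`IntermediateField.finrank_sup_le`), and `Bd (K ⊔ K₀) (C₂ G) y` (`m y` is integral for a fixed `m`, conjugates at most
`C₁ + C₁ exp G ≤ exp (C₂ G)`, `G ≥ 1`).  `Bd.lower`: `‖s y‖ ≥ exp (-(2 d₀ D C₂ G))`.
-/

namespace Pool.Agent.LGO.U

open Polynomial Pool.Agent.Hhelper14.ZPL Pool.Agent.LGO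

/-- the conjugates of an algebraic number are bounded -/
private theorem RTb_conj (q : Qb) : ∃ B : ℝ, 0 ≤ B ∧ ∀ s : ℂ ≃+* ℂ, ‖s (q : ℂ)‖ ≤ B := by
  have h : IsAlgebraic ℚ (q : ℂ) := mem_algebraicClosure_iff.1 q.2
  obtain ⟨p, hp, hp0⟩ := h
  have hfin : (p.rootSet ℂ).Finite := Polynomial.rootSet_finite p ℂ
  obtain ⟨B, hB⟩ := (hfin.image fun z => ‖z‖).bddAbove
  refine ⟨max B 0, le_max_right _ _, fun s => ?_⟩
  have h1 : Polynomial.aeval (s q) p = 0 := by
    have h2 := Polynomial.aeval_algHom_apply (RingHom.toRatAlgHom (s : ℂ →+* ℂ)) (q : ℂ) p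
    rw [hp0, map_zero] at h2
    exact h2
  have h3 : s q ∈ p.rootSet ℂ := by
    rw [Polynomial.mem_rootSet]
    exact ⟨hp, h1⟩
  exact (hB ⟨s q, h3, rfl⟩).trans (le_max_left _ _)

/-- all coefficients of a polynomial -/
private theorem RTb_coef (A : Polynomial Qb) : ∃ B : ℝ, 0 ≤ B ∧ ∀ (s : ℂ ≃+* ℂ) (i : ℕ),
    ‖s ((A.coeff i : Qb) : ℂ)‖ ≤ B := by
  classical
  choose f hf0 hf using RTb_conj
  refine ⟨∑ i ∈ Finset.range (A.natDegree + 1), f (A.coeff i),
    Finset.sum_nonneg fun i _ => hf0 _, fun s i => ?_⟩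
  by_cases hi : i ∈ Finset.range (A.natDegree + 1)
  · exact (hf _ s).trans (Finset.single_le_sum (f := fun i => f (A.coeff i))
      (fun i _ => hf0 _) hi)
  · rw [Finset.mem_range, not_lt] at hi
    rw [Polynomial.coeff_eq_zero_of_natDegree_lt (by omega)]
    simp only [ZeroMemClass.coe_zero, map_zero, norm_zero]
    exact Finset.sum_nonneg fun i _ => hf0 _

/-- a denominator -/
private theorem RTb_den (q : Qb) : ∃ m : ℕ, 0 < m ∧ IsIntegral ℤ ((m : ℂ) * q) := by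
  have h : IsAlgebraic ℚ (q : ℂ) := mem_algebraicClosure_iff.1 q.2
  have h' : IsAlgebraic ℤ (q : ℂ) := (IsFractionRing.isAlgebraic_iff ℤ ℚ ℂ).2 h
  obtain ⟨y, hy0, hy⟩ := h'.exists_integral_multiple
  refine ⟨y.natAbs, Int.natAbs_pos.2 hy0, ?_⟩
  rw [zsmul_eq_mul] at hy
  rcases Int.natAbs_eq y with e | e
  · rw [e] at hy
    simpa using hy
  · rw [e] at hy
    have h2 := hy.neg
    simpa using h2

private theorem RTb_nat_mul {z : ℂ} (n : ℕ) (h : IsIntegral ℤ z) :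
    IsIntegral ℤ ((n : ℂ) * z) := by
  have h1 := (isIntegral_algebraMap (R := ℤ) (A := ℂ) (x := (n : ℤ))).mul h
  simpa using h1

theorem tb (A B : Polynomial Qb) : ∃ C : ℝ, 1 ≤ C ∧ ∀ (K : IntermediateField ℚ ℂ)
    [FiniteDimensional ℚ K] (v t : ℂ), v ∈ K → IsIntegral ℤ v →
      (aeval t A : ℂ) = v * aeval t B →
      ((A.coeff (rdeg A B) : Qb) : ℂ) ≠ v * ((B.coeff (rdeg A B) : Qb) : ℂ) →
      ∀ G : ℝ, 1 ≤ G → (∀ s : ℂ ≃+* ℂ, ‖s v‖ ≤ Real.exp G) →
        ∀ s : ℂ ≃+* ℂ, ‖s t‖ ≤ Real.exp (C * Module.finrank ℚ K * G) := by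
  classical
  set n : ℕ := rdeg A B with hn
  obtain ⟨BA, hBA0, hBA⟩ := RTb_coef A
  obtain ⟨BB, hBB0, hBB⟩ := RTb_coef B
  obtain ⟨K₀, hK₀fin, hK₀⟩ := fld_fix {A, B}
  obtain ⟨ma, hma, hia⟩ := RTb_den (A.coeff n)
  obtain ⟨mb, hmb, hib⟩ := RTb_den (B.coeff n)
  set a : ℂ := ((A.coeff n : Qb) : ℂ) with ha
  set b : ℂ := ((B.coeff n : Qb) : ℂ) with hb
  -- constants
  set c0 : ℝ := 1 + BA + BB with hc0
  have hc01 : 1 ≤ c0 := by rw [hc0]; linarith
  set d0 : ℝ := (Module.finrank ℚ K₀ : ℝ) with hd0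
  have hd01 : 1 ≤ d0 := by
    have : 1 ≤ Module.finrank ℚ K₀ := Module.finrank_pos
    rw [hd0]
    exact_mod_cast this
  set C2 : ℝ := 1 + Real.log c0 + Real.log (ma * mb : ℕ) with hC2
  have hm1 : (1 : ℝ) ≤ ((ma * mb : ℕ) : ℝ) := by
    exact_mod_cast Nat.mul_pos hma hmb
  have hlc0 : 0 ≤ Real.log c0 := Real.log_nonneg hc01
  have hlm : 0 ≤ Real.log ((ma * mb : ℕ) : ℝ) := Real.log_nonneg hm1
  have hC21 : 1 ≤ C2 := by rw [hC2]; linarith
  set C3 : ℝ := Real.log ((n + 1 : ℝ) * c0) with hC3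
  have hn1 : (1 : ℝ) ≤ (n + 1 : ℝ) * c0 := by
    have h1 : (1 : ℝ) ≤ (n + 1 : ℝ) := by
      have : (0 : ℝ) ≤ n := Nat.cast_nonneg n
      linarith
    calc (1 : ℝ) = 1 * 1 := by ring
      _ ≤ (n + 1 : ℝ) * c0 := mul_le_mul h1 hc01 zero_le_one (by linarith)
  have hC30 : 0 ≤ C3 := Real.log_nonneg hn1
  refine ⟨C3 + 1 + 2 * d0 * C2, by nlinarith, ?_⟩
  intro K hK v t hvK hvi heq hne G hG hconj s
  have hDK : (1 : ℝ) ≤ Module.finrank ℚ K := by
    have : 1 ≤ Module.finrank ℚ K := Module.finrank_pos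
    exact_mod_cast this
  set D : ℝ := (Module.finrank ℚ K : ℝ) with hD
  set C : ℝ := C3 + 1 + 2 * d0 * C2 with hC
  have hC1 : 1 ≤ C := by rw [hC]; nlinarith
  have hexpG : 1 ≤ Real.exp G := Real.one_le_exp (by linarith)
  -- sums
  have hAt : (aeval t A : ℂ) = ∑ i ∈ Finset.range (n + 1), ((A.coeff i : Qb) : ℂ) * t ^ i := by
    rw [Polynomial.aeval_eq_sum_range' (n := n + 1)
      (Nat.lt_succ_of_le (by rw [hn, rdeg]; exact le_max_left _ _))]
    apply Finset.sum_congr rfl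
    intro i _
    rw [Algebra.smul_def]
    rfl
  have hBt : (aeval t B : ℂ) = ∑ i ∈ Finset.range (n + 1), ((B.coeff i : Qb) : ℂ) * t ^ i := by
    rw [Polynomial.aeval_eq_sum_range' (n := n + 1)
      (Nat.lt_succ_of_le (by rw [hn, rdeg]; exact le_max_right _ _))]
    apply Finset.sum_congr rfl
    intro i _
    rw [Algebra.smul_def]
    rfl
  set y : ℂ := a - v * b with hy
  have hy0 : y ≠ 0 := sub_ne_zero.2 hne
  -- the relation
  have hrel : y * t ^ n = -∑ i ∈ Finset.range n,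
      (((A.coeff i : Qb) : ℂ) - v * ((B.coeff i : Qb) : ℂ)) * t ^ i := by
    have h1 : ∑ i ∈ Finset.range (n + 1),
        (((A.coeff i : Qb) : ℂ) - v * ((B.coeff i : Qb) : ℂ)) * t ^ i = 0 := by
      have h2 : ∑ i ∈ Finset.range (n + 1),
          (((A.coeff i : Qb) : ℂ) - v * ((B.coeff i : Qb) : ℂ)) * t ^ i =
          (aeval t A : ℂ) - v * aeval t B := by
        rw [hAt, hBt, Finset.mul_sum, ← Finset.sum_sub_distrib]
        apply Finset.sum_congr rfl
        intro i _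
        ring
      rw [h2, heq, sub_self]
    rw [Finset.sum_range_succ] at h1
    have h3 : y * t ^ n + ∑ i ∈ Finset.range n,
      (((A.coeff i : Qb) : ℂ) - v * ((B.coeff i : Qb) : ℂ)) * t ^ i = 0 := by
      rw [hy, add_comm]
      exact h1
    exact eq_neg_of_add_eq_zero_left h3
  -- the lower bound for the conjugate of `y`
  have hsup : K ≤ K ⊔ K₀ := le_sup_left
  have hsup₀ : K₀ ≤ K ⊔ K₀ := le_sup_right
  have : FiniteDimensional ℚ K₀ := hK₀fin
  have hfd : FiniteDimensional ℚ (K ⊔ K₀ : IntermediateField ℚ ℂ) :=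
    IntermediateField.finiteDimensional_sup K K₀
  have haK : a ∈ K ⊔ K₀ := hsup₀ (hK₀ A (by simp) n)
  have hbK : b ∈ K ⊔ K₀ := hsup₀ (hK₀ B (by simp) n)
  have hyK : y ∈ K ⊔ K₀ := (K ⊔ K₀).sub_mem haK ((K ⊔ K₀).mul_mem (hsup hvK) hbK)
  have hsy : ∀ s : ℂ ≃+* ℂ, ‖s y‖ ≤ c0 * Real.exp G := by
    intro s
    have e : s y = s a - s v * s b := by rw [hy, map_sub, map_mul]
    rw [e]
    calc ‖s a - s v * s b‖ ≤ ‖s a‖ + ‖s v * s b‖ := norm_sub_le _ _
      _ ≤ BA + Real.exp G * BB := by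
          rw [norm_mul]
          exact add_le_add (hBA s n) (mul_le_mul (hconj s) (hBB s n) (norm_nonneg _)
            (Real.exp_pos _).le)
      _ ≤ c0 * Real.exp G := by
          rw [hc0]
          nlinarith
  have hbd : Bd (K ⊔ K₀) (C2 * G) y := by
    refine ⟨hyK, ⟨ma * mb, Nat.mul_pos hma hmb, ?_, ?_⟩, ?_⟩
    · rw [← Real.exp_log (lt_of_lt_of_le zero_lt_one hm1)]
      apply Real.exp_le_exp.2
      calc Real.log ((ma * mb : ℕ) : ℝ) ≤ C2 := by rw [hC2]; linarith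
        _ ≤ C2 * G := by nlinarith
    · have e : ((ma * mb : ℕ) : ℂ) * y = (mb : ℂ) * ((ma : ℂ) * a) -
          v * ((ma : ℂ) * ((mb : ℂ) * b)) := by
        rw [hy, Nat.cast_mul]
        ring
      rw [e]
      exact (RTb_nat_mul mb hia).sub (hvi.mul (RTb_nat_mul ma hib))
    · intro σ
      obtain ⟨s', hs'⟩ := exists_aut (K ⊔ K₀) σ
      have h1 := hsy s'
      have h2 : s' y = σ ⟨y, hyK⟩ := hs' ⟨y, hyK⟩
      rw [h2] at h1
      refine h1.trans ?_
      rw [← Real.exp_log (lt_of_lt_of_le zero_lt_one hc01), ← Real.exp_add]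
      apply Real.exp_le_exp.2
      rw [hC2]
      nlinarith
  have hfr : (Module.finrank ℚ (K ⊔ K₀ : IntermediateField ℚ ℂ) : ℝ) ≤ D * d0 := by
    have h1 := IntermediateField.finrank_sup_le K K₀
    rw [hD, hd0]
    exact_mod_cast h1
  have hlow := Bd.lower (D := D * d0) (h := C2 * G) hfr (by nlinarith) hbd hy0
    (((s : ℂ →+* ℂ).comp (algebraMap (K ⊔ K₀ : IntermediateField ℚ ℂ) ℂ)))
  have hlow' : Real.exp (-(2 * (D * d0) * (C2 * G))) ≤ ‖s y‖ := hlow
  -- the bound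
  by_cases ht : ‖s t‖ ≤ 1
  · refine ht.trans (Real.one_le_exp ?_)
    have : 0 ≤ C * D * G := by positivity
    exact this
  · rw [not_le] at ht
    rcases Nat.eq_zero_or_pos n with hn0 | hn0
    · exfalso
      apply hy0
      rw [hn0] at hrel
      simpa using hrel
    · obtain ⟨k, hk⟩ : ∃ k, n = k + 1 := ⟨n - 1, by omega⟩
      have h1 : ‖s y‖ * ‖s t‖ ^ n ≤ ∑ i ∈ Finset.range n, (c0 * Real.exp G) * ‖s t‖ ^ k := by
        have e : s y * s t ^ n = -∑ i ∈ Finset.range n,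
            (s ((A.coeff i : Qb) : ℂ) - s v * s ((B.coeff i : Qb) : ℂ)) * s t ^ i := by
          have := congrArg s hrel
          rw [map_mul, map_pow, map_neg, map_sum] at this
          rw [this]
          congr 1
          apply Finset.sum_congr rfl
          intro i _
          rw [map_mul, map_sub, map_mul, map_pow]
        rw [← norm_pow, ← norm_mul, e, norm_neg]
        refine (norm_sum_le _ _).trans (Finset.sum_le_sum fun i hi => ?_)
        rw [norm_mul, norm_pow]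
        apply mul_le_mul _ _ (by positivity) (by positivity)
        · calc ‖s ((A.coeff i : Qb) : ℂ) - s v * s ((B.coeff i : Qb) : ℂ)‖
              ≤ ‖s ((A.coeff i : Qb) : ℂ)‖ + ‖s v * s ((B.coeff i : Qb) : ℂ)‖ := norm_sub_le _ _
            _ ≤ BA + Real.exp G * BB := by
                rw [norm_mul]
                exact add_le_add (hBA s i) (mul_le_mul (hconj s) (hBB s i) (norm_nonneg _)
                  (Real.exp_pos _).le)
            _ ≤ c0 * Real.exp G := by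
                rw [hc0]
                nlinarith
        · apply pow_le_pow_right₀ ht.le
          rw [Finset.mem_range] at hi
          omega
      rw [Finset.sum_const, Finset.card_range, nsmul_eq_mul, hk, pow_succ] at h1
      have hpk : 0 < ‖s t‖ ^ k := by positivity
      have h2 : ‖s y‖ * ‖s t‖ ≤ ((k + 1 : ℕ) : ℝ) * (c0 * Real.exp G) := by
        have h3 : (‖s y‖ * ‖s t‖) * ‖s t‖ ^ k ≤
            (((k + 1 : ℕ) : ℝ) * (c0 * Real.exp G)) * ‖s t‖ ^ k := by
          calc (‖s y‖ * ‖s t‖) * ‖s t‖ ^ k = ‖s y‖ * (‖s t‖ ^ k * ‖s t‖) := by ring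
            _ ≤ _ := h1
            _ = _ := by ring
        exact le_of_mul_le_mul_right h3 hpk
      have h4 : ‖s t‖ ≤ Real.exp (2 * (D * d0) * (C2 * G)) *
          (((n + 1 : ℝ) * c0) * Real.exp G) := by
        have h5 : Real.exp (-(2 * (D * d0) * (C2 * G))) * ‖s t‖ ≤
            ((n + 1 : ℝ) * c0) * Real.exp G := by
          calc Real.exp (-(2 * (D * d0) * (C2 * G))) * ‖s t‖ ≤ ‖s y‖ * ‖s t‖ :=
                mul_le_mul_of_nonneg_right hlow' (norm_nonneg _)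
            _ ≤ _ := h2
            _ ≤ ((n + 1 : ℝ) * c0) * Real.exp G := by
                rw [← hk]
                have h6 : (n : ℝ) ≤ n + 1 := by linarith
                calc (n : ℝ) * (c0 * Real.exp G) ≤ (n + 1) * (c0 * Real.exp G) :=
                      mul_le_mul_of_nonneg_right h6 (by positivity)
                  _ = _ := by ring
        have h7 : Real.exp (2 * (D * d0) * (C2 * G)) *
            (Real.exp (-(2 * (D * d0) * (C2 * G))) * ‖s t‖) ≤
            Real.exp (2 * (D * d0) * (C2 * G)) * (((n + 1 : ℝ) * c0) * Real.exp G) :=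
          mul_le_mul_of_nonneg_left h5 (Real.exp_pos _).le
        rw [← mul_assoc, ← Real.exp_add, add_neg_cancel, Real.exp_zero, one_mul] at h7
        exact h7
      refine h4.trans ?_
      rw [← Real.exp_log (lt_of_lt_of_le zero_lt_one hn1), ← Real.exp_add, ← Real.exp_add]
      apply Real.exp_le_exp.2
      rw [← hC3, hC]
      have hDG : 1 ≤ D * G := by nlinarith
      have hGDG : G ≤ D * G := by nlinarith
      calc 2 * (D * d0) * (C2 * G) + (C3 + G) = 2 * d0 * C2 * (D * G) + C3 + G := by ring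
        _ ≤ 2 * d0 * C2 * (D * G) + C3 * (D * G) + D * G := by nlinarith
        _ = (C3 + 1 + 2 * d0 * C2) * D * G := by ring

end Pool.Agent.LGO.U
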