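import Mathlib
import Pool.Agent.LGO.U.RNeq
import Pool.Agent.LGO.U.RTb
import Pool.Agent.LGO.U.RAll

/-!
# LGO/U: a bound for the parameter

PROOF of `t_bound`.  `N = mdeg v u ≥ 1`, `D = [K : ℚ] ≥ 1`, `n_a = rdeg Aa Ba = deg Aa` (because `deg Ba < deg Aa`), `n_b = rdeg Ab Bb`.
`Ba(t), Bb(t), Aa(t) ∈ K` (`mem_aeval`).
Case 1: `n_a = n_b`.  Then `deg Ab ≤ deg Bb` (hypothesis `h`), so `deg Bb = n_b = deg Aa`.  `Ξ = Xi Ba Bb 1 1 t B ∈ K` (`xi_mem`).  `xi_size` with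
`p = q = 1` (cancel `max 1 ‖s v‖ > 0`): `‖s Ξ‖ ≤ (C N H) ^ C` for all `s`, so `≤ exp (C₁ (1 + log N + log H))`; `xi_int_m`: `r Ξ` is integral,
`r ≤ exp C₁`.  So `Bd K (C₁ (1 + log N + log H)) Ξ` (`mem`, `den`: `r`; `house`: extend the embedding to an automorphism,
`exists_aut`; or `bd_of_aut` for `r Ξ` and `Bd.mul`).  `M = (C₁ + 2) D (1 + log N + log H)`: `M ≥ 2`, `M ≥ D`, `exp M ≥ N`.  `meas_all`.
Case 2: `n_a ≠ n_b`.  `neq_v_m`: `‖s v‖ ≤ exp G` with `G = C D (1 + log N + log H) ≥ 1`.  `tb_m`: `‖s t‖ ≤ exp (C D G)`.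
In both cases the bound is `exp ((C D (1 + log N + log H)) ^ C)` for a large natural number `C` (the base is `≥ 1`).
-/

namespace Pool.Agent.LGO.U

open Polynomial Pool.Agent.Hhelper14.ZPL Pool.Agent.LGO

/-- `tb` for a number `v` with `m v` integral -/
theorem RTt_tb_m (A B : Polynomial Qb) (m : ℕ) (hm : 0 < m) : ∃ C : ℝ, 1 ≤ C ∧
    ∀ (K : IntermediateField ℚ ℂ) [FiniteDimensional ℚ K] (v t : ℂ), v ∈ K →
      IsIntegral ℤ ((m : ℂ) * v) → (aeval t A : ℂ) = v * aeval t B →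
      ((A.coeff (rdeg A B) : Qb) : ℂ) ≠ v * ((B.coeff (rdeg A B) : Qb) : ℂ) →
      ∀ G : ℝ, 1 ≤ G → (∀ s : ℂ ≃+* ℂ, ‖s v‖ ≤ Real.exp G) →
        ∀ s : ℂ ≃+* ℂ, ‖s t‖ ≤ Real.exp (C * Module.finrank ℚ K * G) := by
  have hm0 : (m : Qb) ≠ 0 := by exact_mod_cast hm.ne'
  have hmC : (m : ℂ) ≠ 0 := by exact_mod_cast hm.ne'
  have hmR : (1 : ℝ) ≤ m := by exact_mod_cast hm
  have hlog : 0 ≤ Real.log m := Real.log_nonneg hmR
  obtain ⟨c, hc⟩ : ∃ c : Qb, c = (m : Qb)⁻¹ := ⟨_, rfl⟩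
  have hc0 : c ≠ 0 := by rw [hc]; exact inv_ne_zero hm0
  have hcC : (c : ℂ) = (m : ℂ)⁻¹ := by rw [hc]; push_cast; rfl
  obtain ⟨C, hC, h⟩ := tb A (Polynomial.C c * B)
  have hdeg : rdeg A (Polynomial.C c * B) = rdeg A B := by
    rw [rdeg, rdeg, Polynomial.natDegree_C_mul hc0]
  refine ⟨C * (1 + Real.log m), ?_, ?_⟩
  · nlinarith
  intro K _ v t hv hi he hne G hG hs s
  have hev : (aeval t (Polynomial.C c * B) : ℂ) = (m : ℂ)⁻¹ * aeval t B := by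
    rw [map_mul, aeval_C]
    congr 1
  have h1 := h K (m * v) t (K.mul_mem (natCast_mem K m) hv) hi
    (by rw [hev, he]; field_simp)
    (by
      rw [hdeg, Polynomial.coeff_C_mul]
      push_cast
      rw [hcC]
      intro e
      apply hne
      rw [e]
      field_simp)
    (G + Real.log m) (by linarith)
    (fun s => by
      rw [map_mul, map_natCast, norm_mul, Complex.norm_natCast, Real.exp_add,
        Real.exp_log (by linarith), mul_comm]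
      exact mul_le_mul_of_nonneg_right (hs s) (by linarith)) s
  refine h1.trans (Real.exp_le_exp.2 ?_)
  have hD : (0 : ℝ) ≤ Module.finrank ℚ K := Nat.cast_nonneg _
  have h2 : G + Real.log m ≤ (1 + Real.log m) * G := by nlinarith
  calc C * Module.finrank ℚ K * (G + Real.log m) ≤
        C * Module.finrank ℚ K * ((1 + Real.log m) * G) := by gcongr
    _ = C * (1 + Real.log m) * Module.finrank ℚ K * G := by ring

private theorem RTt_num {C1 C3 : ℕ} (h1 : 1 ≤ C1) (h3 : 1 ≤ C3) {X : ℝ} (hX : 1 ≤ X) :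
    ((C1 : ℝ) * (C3 * X)) ^ C1 ≤ (((C1 * C3 : ℕ) : ℝ) * X) ^ (C1 * C3) := by
  have h1' : (1 : ℝ) ≤ C1 := by exact_mod_cast h1
  have h3' : (1 : ℝ) ≤ C3 := by exact_mod_cast h3
  have e : (C1 : ℝ) * (C3 * X) = ((C1 * C3 : ℕ) : ℝ) * X := by push_cast; ring
  rw [e]
  refine pow_le_pow_right₀ ?_ (Nat.le_mul_of_pos_right _ h3)
  push_cast
  have h4 : 1 ≤ (C1 : ℝ) * C3 := one_le_mul_of_one_le_of_one_le h1' h3'
  exact one_le_mul_of_one_le_of_one_le h4 hX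

private theorem RTt_num2 {c : ℝ} (hc : 0 ≤ c) {D W : ℝ} (hD : 1 ≤ D) (hW : 1 ≤ W) :
    c * D * (D * W) ≤ (((⌈c⌉₊ + 2 : ℕ) : ℝ) * (D * W)) ^ (⌈c⌉₊ + 2) := by
  obtain ⟨n, hn⟩ : ∃ n : ℕ, n = ⌈c⌉₊ := ⟨_, rfl⟩
  rw [← hn]
  have h1 : c ≤ n := by rw [hn]; exact Nat.le_ceil c
  have h2 : 1 ≤ D * W := one_le_mul_of_one_le_of_one_le hD hW
  have h0 : (0 : ℝ) ≤ n := Nat.cast_nonneg _
  have h3 : 1 ≤ ((n + 2 : ℕ) : ℝ) * (D * W) := by
    push_cast
    nlinarith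
  have h4 : (((n + 2 : ℕ) : ℝ) * (D * W)) ^ 2 ≤ (((n + 2 : ℕ) : ℝ) * (D * W)) ^ (n + 2) :=
    pow_le_pow_right₀ h3 (by omega)
  refine le_trans ?_ h4
  push_cast
  have h5 : c ≤ ((n : ℝ) + 2) ^ 2 := by nlinarith
  have h6 : D * (D * W) ≤ (D * W) ^ 2 := by
    rw [sq]
    exact mul_le_mul_of_nonneg_right (le_mul_of_one_le_right (by linarith) hW) (by linarith)
  calc c * D * (D * W) = c * (D * (D * W)) := by ring
    _ ≤ ((n : ℝ) + 2) ^ 2 * (D * W) ^ 2 := by gcongr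
    _ = _ := by ring

private theorem RTt_house {C2 : ℕ} (hC2 : 1 ≤ C2) {N H x W M : ℝ} (hN : 1 ≤ N) (hH : 1 ≤ H)
    (hW : W = 1 + Real.log N + Real.log H) (hM : (C2 : ℝ) * C2 * W ≤ M)
    (hx : x ≤ (C2 * N * H) ^ C2) : x ≤ Real.exp M := by
  have hC2' : (1 : ℝ) ≤ C2 := by exact_mod_cast hC2
  have hlN : 0 ≤ Real.log N := Real.log_nonneg hN
  have hlH : 0 ≤ Real.log H := Real.log_nonneg hH
  have hlC : Real.log C2 ≤ C2 := (Real.log_le_sub_one_of_pos (by linarith)).trans (by linarith)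
  have hpos : (0 : ℝ) < C2 * N * H := by positivity
  have e : Real.log (C2 * N * H) = Real.log C2 + Real.log N + Real.log H := by
    rw [Real.log_mul (by positivity) (by positivity), Real.log_mul (by positivity) (by positivity)]
  have h1 : Real.log (C2 * N * H) ≤ C2 * W := by
    rw [e, hW]
    nlinarith
  have h2 : (C2 * N * H) ^ C2 = Real.exp (C2 * Real.log (C2 * N * H)) := by
    rw [Real.exp_nat_mul, Real.exp_log hpos]
  refine hx.trans ?_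
  rw [h2]
  refine Real.exp_le_exp.2 (le_trans ?_ hM)
  calc (C2 : ℝ) * Real.log (C2 * N * H) ≤ C2 * (C2 * W) := by gcongr
    _ = C2 * C2 * W := by ring

theorem t_bound_m {Aa Ba Ab Bb : Polynomial Qb} (ca : IsCoprime Aa Ba) (cb : IsCoprime Ab Bb)
    (hd : Ba.natDegree < Aa.natDegree)
    (h : Ab.natDegree ≤ Bb.natDegree ∨ rdeg Aa Ba ≠ rdeg Ab Bb) (m : ℕ) (hm : 0 < m) :
    ∃ C : ℕ, 1 ≤ C ∧ ∀ (K : IntermediateField ℚ ℂ) [FiniteDimensional ℚ K] (u v t B : ℂ),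
      Par Aa Ba Ab Bb u v t B → IsIntegral ℤ ((m : ℂ) * u) → IsIntegral ℤ ((m : ℂ) * v) →
      u ∈ K → v ∈ K → t ∈ K →
      (∀ i, ((Ba.coeff i : Qb) : ℂ) ∈ K) → (∀ i, ((Bb.coeff i : Qb) : ℂ) ∈ K) →
      ((Ab.coeff (rdeg Ab Bb) : Qb) : ℂ) ≠ v * ((Bb.coeff (rdeg Ab Bb) : Qb) : ℂ) →
      ∀ H : ℝ, 1 ≤ H → (∀ s : ℂ ≃+* ℂ, ‖s u‖ ≤ Real.exp H) →
        (∀ s : ℂ ≃+* ℂ, ‖s v‖ ≤ Real.exp H) →
          ∀ s : ℂ ≃+* ℂ, ‖s t‖ ≤ Real.exp ((C * (Module.finrank ℚ K *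
            (1 + Real.log (mdeg v u) + Real.log H))) ^ C) := by
  have hna : rdeg Aa Ba = Aa.natDegree := max_eq_left hd.le
  by_cases hne : rdeg Aa Ba = rdeg Ab Bb
  · have hAb : Ab.natDegree ≤ Bb.natDegree := h.resolve_right fun h => h hne
    have hnb : rdeg Ab Bb = Bb.natDegree := max_eq_right hAb
    have hBb : Bb.natDegree = Aa.natDegree := by rw [← hnb, ← hne, hna]
    obtain ⟨C1, hC1, hmeas⟩ := meas_all Aa Ba Ab Bb hBb hd (hAb.trans hBb.le)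
    obtain ⟨C2, hC2, hsize⟩ := xi_size ca cb (p := 1) (q := 1) (by rw [one_mul, one_mul, hne])
    obtain ⟨r, hr, hint⟩ := xi_int_m ca cb hd 1 1 m hm
    obtain ⟨C3, hC3⟩ : ∃ C3 : ℕ, C3 = C2 * C2 + r + 2 := ⟨_, rfl⟩
    refine ⟨C1 * C3, Nat.mul_pos hC1 (by omega), ?_⟩
    intro K _ u v t B hP hiu hiv hu hv ht hBaK hBbK hne' H hH hsu hsv s
    have hN0 : 0 < mdeg v u := mdeg_pos hP.isB.isog
    have hN : (1 : ℝ) ≤ mdeg v u := by exact_mod_cast hN0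
    have hD : (1 : ℝ) ≤ Module.finrank ℚ K := by
      exact_mod_cast Module.finrank_pos (R := ℚ) (M := K)
    obtain ⟨N, hNdef⟩ : ∃ N : ℝ, N = (mdeg v u : ℝ) := ⟨_, rfl⟩
    obtain ⟨D, hDdef⟩ : ∃ D : ℝ, D = (Module.finrank ℚ K : ℝ) := ⟨_, rfl⟩
    obtain ⟨W, hW⟩ : ∃ W : ℝ, W = 1 + Real.log N + Real.log H := ⟨_, rfl⟩
    rw [← hNdef] at hN
    rw [← hDdef] at hD
    have hlN : 0 ≤ Real.log N := Real.log_nonneg hN
    have hlH : 0 ≤ Real.log H := Real.log_nonneg hH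
    have hW1 : 1 ≤ W := by rw [hW]; linarith
    have hDW : 1 ≤ D * W := one_le_mul_of_one_le_of_one_le hD hW1
    have hWDW : W ≤ D * W := le_mul_of_one_le_left (by linarith) hD
    have hDDW : D ≤ D * W := le_mul_of_one_le_right (by linarith) hW1
    have hC3r : (C3 : ℝ) = C2 * C2 + r + 2 := by rw [hC3]; push_cast; ring
    have hC20 : (0 : ℝ) ≤ (C2 : ℝ) * C2 := by positivity
    have hr0 : (0 : ℝ) ≤ r := Nat.cast_nonneg _
    have hC32 : (2 : ℝ) ≤ C3 := by rw [hC3r]; linarith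
    have hC3rr : (r : ℝ) ≤ C3 := by rw [hC3r]; linarith
    have hC3c : (C2 : ℝ) * C2 ≤ C3 := by rw [hC3r]; linarith
    have hC3D : (C3 : ℝ) ≤ C3 * (D * W) := le_mul_of_one_le_right (by linarith) hDW
    have hDC3 : D * W ≤ C3 * (D * W) := le_mul_of_one_le_left (by linarith) (by linarith)
    have hXiK : Xi Ba Bb 1 1 t B ∈ K := xi_mem hP K hu hv ht hBaK hBbK 1 1
    have hBd : Bd K (C3 * (D * W)) (Xi Ba Bb 1 1 t B) := by
      refine ⟨hXiK, ⟨r, hr, ?_, (hint u v t B hP hiu hiv).1⟩, ?_⟩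
      · have h1 := Real.add_one_le_exp (r : ℝ)
        have h2 : Real.exp r ≤ Real.exp (C3 * (D * W)) := Real.exp_le_exp.2 (hC3rr.trans hC3D)
        linarith
      · intro σ
        obtain ⟨s', hs'⟩ := exists_aut K σ
        have e1 : s' (Xi Ba Bb 1 1 t B) = σ ⟨Xi Ba Bb 1 1 t B, hXiK⟩ :=
          hs' ⟨Xi Ba Bb 1 1 t B, hXiK⟩
        rw [← e1]
        have h1 := (hsize s' u v t B hP H hH (hsu s') (hsv s')).1
        rw [pow_one] at h1
        have h2 : (0 : ℝ) < max 1 ‖s' v‖ := zero_lt_one.trans_le (le_max_left _ _)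
        have h3 := le_of_mul_le_mul_right h1 h2
        rw [← hNdef] at h3
        refine RTt_house hC2 hN hH hW ?_ h3
        exact mul_le_mul hC3c hWDW (by linarith) (by linarith)
    have key := hmeas K (C3 * (D * W)) u v t B (hC32.trans hC3D)
      (by rw [← hDdef]; exact hDDW.trans hDC3)
      (by
        rw [← hNdef]
        have h1 : N = Real.exp (Real.log N) := (Real.exp_log (by linarith)).symm
        rw [h1]
        refine Real.exp_le_exp.2 (le_trans ?_ (hWDW.trans hDC3))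
        rw [hW]
        linarith)
      hP hBd s
    refine key.trans (Real.exp_le_exp.2 ?_)
    rw [← hNdef, ← hDdef, ← hW]
    exact RTt_num hC1 (by omega) hDW
  · obtain ⟨C4, hC4, hv4⟩ := neq_v_m ca cb hd hne m hm
    obtain ⟨C5, hC5, ht5⟩ := RTt_tb_m Ab Bb m hm
    refine ⟨⌈C5 * C4⌉₊ + 2, by omega, ?_⟩
    intro K _ u v t B hP hiu hiv hu hv ht hBaK hBbK hne' H hH hsu hsv s
    have hN0 : 0 < mdeg v u := mdeg_pos hP.isB.isog
    have hN : (1 : ℝ) ≤ mdeg v u := by exact_mod_cast hN0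
    have hD : (1 : ℝ) ≤ Module.finrank ℚ K := by
      exact_mod_cast Module.finrank_pos (R := ℚ) (M := K)
    have h1 := hv4 K u v t B hP hiu hiv hu hv ht hBaK hBbK H hH hsu hsv
    obtain ⟨N, hNdef⟩ : ∃ N : ℝ, N = (mdeg v u : ℝ) := ⟨_, rfl⟩
    obtain ⟨W, hW⟩ : ∃ W : ℝ, W = 1 + Real.log N + Real.log H := ⟨_, rfl⟩
    rw [← hNdef] at hN
    rw [← hNdef, ← hW] at h1
    have hlN : 0 ≤ Real.log N := Real.log_nonneg hN
    have hlH : 0 ≤ Real.log H := Real.log_nonneg hH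
    have hW1 : 1 ≤ W := by rw [hW]; linarith
    have hG : 1 ≤ C4 * Module.finrank ℚ K * W :=
      one_le_mul_of_one_le_of_one_le (one_le_mul_of_one_le_of_one_le hC4 hD) hW1
    have h2 := ht5 K v t hv hiv hP.eqb hne' _ hG h1 s
    refine h2.trans (Real.exp_le_exp.2 ?_)
    rw [← hNdef, ← hW]
    have h3 := RTt_num2 (c := C5 * C4) (by positivity) hD hW1
    refine le_trans (le_of_eq ?_) h3
    ring

end Pool.Agent.LGO.U
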