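import Mathlib
import Pool.Agent.LGO.U.RTt
import Pool.Agent.LGO.U.RHt
import Pool.Agent.LGO.U.RNum

/-!
# LGO/U: the theorem for pairs

PROOF of `pair_bound_m`.  `r` from `int_t_m` (for `Aa`, `Ba`), `C₀` from `fld_t` for `Aa`, `Ba` and `S = {Ba, Bb}`.  `K' ⊇ K` contains `t` and the
coefficients, `D' = [K' : ℚ] ≤ C₀ D`.  `B` from `exists_B` for `(v, u)`; `Par Aa Ba Ab Bb u v t B`.
`H`: the conjugates of an algebraic number are finitely many, so there are automorphisms `s_u`, `s_v`, `s_t` with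
`‖s z‖ ≤ ‖s_z z‖` for all `s` (see `Core_max` in `H/Core.lean`; `u, v, t` are algebraic).  Put
`H = max 1 (max (log ‖s_u u‖) (log ‖s_v v‖))` and `L = max 0 (log ‖s_t t‖)` (`Real.log 0 = 0`, so for `z = 0` there is no problem:
`‖s z‖ ≤ exp (log ‖s_z z‖)` if `s_z z ≠ 0`, and `‖s z‖ = 0` otherwise).  `‖s u‖, ‖s v‖ ≤ exp H`, `‖s t‖ ≤ exp L` for all `s`.
(a) `H ≤ C₁ D' (1 + L)`: `ht_x_m` for `(Aa, Ba)`, `u` and `(Ab, Bb)`, `v`, applied to `s_u`, `s_v` (take logarithms), and `1 ≤ C₁ D'`.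
(b) `L ≤ (C₂ D' (1 + l + log H)) ^ C₂`, `l = log (mdeg v u) ≤ log N`: `t_bound_m` applied to `s_t` (take logarithms).
So with `1 ≤ log N`: `H ≤ C₁ D' (1 + (2 C₂ D' (log N + log H)) ^ C₂) ≤ (a D (log N + log H)) ^ k`, `a`, `k` constants, and `num_H`:
`H ≤ (C D log N) ^ C`.
-/

namespace Pool.Agent.LGO.U

open Polynomial Pool.Agent.Hhelper14.ZPL Pool.Agent.LGO

/-- one of the conjugates of an algebraic number has the largest absolute value -/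
private theorem RPair_max {z : ℂ} (hint : IsIntegral ℚ z) :
    ∃ s₀ : ℂ ≃+* ℂ, ∀ s : ℂ ≃+* ℂ, ‖s z‖ ≤ ‖s₀ z‖ := by
  classical
  have hP0 : minpoly ℚ z ≠ 0 := minpoly.ne_zero hint
  have hfin : (Set.range fun s : ℂ ≃+* ℂ => ‖s z‖).Finite := by
    apply Set.Finite.subset ((((minpoly ℚ z).aroots ℂ).toFinset.finite_toSet).image fun w => ‖w‖)
    rintro _ ⟨s, rfl⟩
    refine ⟨s z, ?_, rfl⟩
    rw [Finset.mem_coe, Multiset.mem_toFinset, Polynomial.mem_aroots]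
    refine ⟨hP0, ?_⟩
    have h1 := Polynomial.aeval_algHom_apply (RingHom.toRatAlgHom (s : ℂ →+* ℂ)) z (minpoly ℚ z)
    rw [minpoly.aeval, map_zero] at h1
    exact h1
  obtain ⟨r, ⟨s₀, hs₀⟩, hr⟩ := Set.exists_max_image (Set.range fun s : ℂ ≃+* ℂ => ‖s z‖) id hfin
    ⟨_, ⟨RingEquiv.refl ℂ, rfl⟩⟩
  refine ⟨s₀, fun s => ?_⟩
  have := hr _ ⟨s, rfl⟩
  rw [← hs₀] at this
  exact this

private theorem RPair_log {x y : ℝ} (hx : 0 ≤ x) (hy : 0 ≤ y) (h : x ≤ Real.exp y) : Real.log x ≤ y := by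
  rcases hx.eq_or_lt with rfl | hx
  · rwa [Real.log_zero]
  · exact (Real.log_le_iff_le_exp hx).2 h

/-- the scaled denominator -/
private noncomputable def RPair_B (m : ℕ) (B : Polynomial Qb) : Polynomial Qb := C ((m : Qb)⁻¹) * B

private theorem RPair_B_ae (m : ℕ) (B : Polynomial Qb) (t : ℂ) :
    (aeval t (RPair_B m B) : ℂ) = (m : ℂ)⁻¹ * aeval t B := by
  unfold RPair_B
  rw [map_mul, aeval_C, map_inv₀, map_natCast]

private theorem RPair_B_deg {m : ℕ} (hm : 0 < m) (B : Polynomial Qb) :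
    (RPair_B m B).natDegree = B.natDegree := by
  unfold RPair_B
  refine natDegree_C_mul ?_
  have : (m : Qb) ≠ 0 := by exact_mod_cast hm.ne'
  exact inv_ne_zero this

private theorem RPair_B_cop {m : ℕ} (hm : 0 < m) {A B : Polynomial Qb} (h : IsCoprime A B) :
    IsCoprime A (RPair_B m B) := by
  unfold RPair_B
  have h0 : (m : Qb)⁻¹ ≠ 0 := by
    have : (m : Qb) ≠ 0 := by exact_mod_cast hm.ne'
    exact inv_ne_zero this
  have hu : IsUnit (C ((m : Qb)⁻¹) : Polynomial Qb) := isUnit_C.2 (isUnit_iff_ne_zero.2 h0)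
  exact (isCoprime_mul_unit_left_right hu A B).2 h

private theorem RPair_eq {m : ℕ} (hm : 0 < m) {A B : Polynomial Qb} {x t : ℂ}
    (h : (aeval t A : ℂ) = x * aeval t B) :
    (aeval t A : ℂ) = ((m : ℂ) * x) * aeval t (RPair_B m B) := by
  have : (m : ℂ) ≠ 0 := by exact_mod_cast hm.ne'
  rw [RPair_B_ae, h]
  field_simp

private theorem RPair_int {m : ℕ} (hm : 0 < m) (A B : Polynomial Qb) (hd : B.natDegree < A.natDegree) :
    ∃ r : ℕ, 0 < r ∧ ∀ x t : ℂ, IsIntegral ℤ ((m : ℂ) * x) → (aeval t A : ℂ) = x * aeval t B →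
      IsIntegral ℤ ((r : ℂ) * t) := by
  obtain ⟨r, hr, h⟩ := int_t A (RPair_B m B) (by rw [RPair_B_deg hm]; exact hd)
  exact ⟨r, hr, fun x t hx hxt => h _ t hx (RPair_eq hm hxt)⟩

private theorem RPair_ht {m : ℕ} (hm : 0 < m) {A B : Polynomial Qb} (h : IsCoprime A B) (r : ℕ) (hr : 0 < r) :
    ∃ C : ℝ, 1 ≤ C ∧ ∀ (K : IntermediateField ℚ ℂ) [FiniteDimensional ℚ K] (x t : ℂ) (L : ℝ),
      IsIntegral ℤ ((m : ℂ) * x) → IsIntegral ℤ ((r : ℂ) * t) → (aeval t A : ℂ) = x * aeval t B →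
      (aeval t B : ℂ) ≠ 0 → (aeval t B : ℂ) ∈ K → 0 ≤ L →
      (∀ s : ℂ ≃+* ℂ, ‖s t‖ ≤ Real.exp L) →
        ∀ s : ℂ ≃+* ℂ, ‖s x‖ ≤ Real.exp (C * Module.finrank ℚ K * (1 + L)) := by
  obtain ⟨C, hC, h1⟩ := ht_x (RPair_B_cop hm h) r hr
  refine ⟨C, hC, ?_⟩
  intro K _ x t L hx ht hxt hB hBK hL hs s
  have hm0 : (m : ℂ) ≠ 0 := by exact_mod_cast hm.ne'
  have hmK : (m : ℂ)⁻¹ ∈ K := K.inv_mem (natCast_mem K m)
  have h2 := h1 K ((m : ℂ) * x) t L hx ht (RPair_eq hm hxt)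
    (by rw [RPair_B_ae]; exact mul_ne_zero (inv_ne_zero hm0) hB)
    (by rw [RPair_B_ae]; exact K.mul_mem hmK hBK) hL hs s
  refine le_trans ?_ h2
  rw [map_mul, map_natCast, norm_mul, Complex.norm_natCast]
  have hm1 : (1 : ℝ) ≤ m := by exact_mod_cast hm
  nlinarith [norm_nonneg (s x)]

private theorem RPair_num {C₀ C₁ Ct D D' lN lm lH H L : ℝ} {k : ℕ} (h0 : 1 ≤ C₀) (h1 : 1 ≤ C₁) (ht : 1 ≤ Ct)
    (hD : 1 ≤ D) (hD' : 1 ≤ D') (hDD : D' ≤ C₀ * D) (hN : 1 ≤ lN) (hm : 0 ≤ lm) (hmN : lm ≤ lN)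
    (hH : 0 ≤ lH) (hHL : H ≤ C₁ * D' * (1 + L)) (hL : L ≤ (Ct * (D' * (1 + lm + lH))) ^ k) :
    H ≤ ((2 * C₁ * C₀ + 2 * Ct * C₀) * D * (lN + lH)) ^ (k + 1) := by
  set X : ℝ := (2 * C₁ * C₀ + 2 * Ct * C₀) * D * (lN + lH) with hX
  have hl : 1 ≤ lN + lH := by linarith
  have hCC : 1 ≤ C₁ * C₀ := one_le_mul_of_one_le_of_one_le h1 h0
  have hCt : 1 ≤ Ct * C₀ := one_le_mul_of_one_le_of_one_le ht h0
  have hX1 : 1 ≤ X := by
    rw [hX]
    have e1 : 1 ≤ (2 * C₁ * C₀ + 2 * Ct * C₀) := by nlinarith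
    exact one_le_mul_of_one_le_of_one_le (one_le_mul_of_one_le_of_one_le e1 hD) hl
  have hXt : Ct * (D' * (1 + lm + lH)) ≤ X := by
    have e1 : 1 + lm + lH ≤ 2 * (lN + lH) := by linarith
    have e2 : D' * (1 + lm + lH) ≤ (C₀ * D) * (2 * (lN + lH)) :=
      mul_le_mul hDD e1 (by linarith) (by positivity)
    have e3 : Ct * (D' * (1 + lm + lH)) ≤ Ct * ((C₀ * D) * (2 * (lN + lH))) :=
      mul_le_mul_of_nonneg_left e2 (by linarith)
    have e4 : 0 ≤ (2 * C₁ * C₀) * D * (lN + lH) := by positivity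
    rw [hX]
    nlinarith
  have hL2 : L ≤ X ^ k := hL.trans (pow_le_pow_left₀ (by positivity) hXt k)
  have hXk : 1 ≤ X ^ k := one_le_pow₀ hX1
  have e5 : C₁ * D' * (1 + L) ≤ C₁ * (C₀ * D) * (2 * X ^ k) := by
    have e6 : 1 + L ≤ 2 * X ^ k := by linarith
    have e7 : C₁ * D' ≤ C₁ * (C₀ * D) := mul_le_mul_of_nonneg_left hDD (by linarith)
    calc C₁ * D' * (1 + L) ≤ C₁ * D' * (2 * X ^ k) :=
          mul_le_mul_of_nonneg_left e6 (by positivity)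
      _ ≤ C₁ * (C₀ * D) * (2 * X ^ k) := mul_le_mul_of_nonneg_right e7 (by positivity)
  have e8 : C₁ * (C₀ * D) * 2 ≤ X := by
    have e9 : (2 * C₁ * C₀) * D * 1 ≤ (2 * C₁ * C₀) * D * (lN + lH) :=
      mul_le_mul_of_nonneg_left hl (by positivity)
    have e10 : 0 ≤ (2 * Ct * C₀) * D * (lN + lH) := by positivity
    rw [hX]
    nlinarith
  calc H ≤ _ := hHL
    _ ≤ _ := e5
    _ = (C₁ * (C₀ * D) * 2) * X ^ k := by ring
    _ ≤ X * X ^ k := mul_le_mul_of_nonneg_right e8 (by positivity)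
    _ = X ^ (k + 1) := by ring

theorem pair_bound_m {Aa Ba Ab Bb : Polynomial Qb} (ca : IsCoprime Aa Ba) (cb : IsCoprime Ab Bb)
    (hd : Ba.natDegree < Aa.natDegree)
    (h : Ab.natDegree ≤ Bb.natDegree ∨ rdeg Aa Ba ≠ rdeg Ab Bb) (m : ℕ) (hm : 0 < m) :
    ∃ C : ℕ, 1 ≤ C ∧ ∀ (K : IntermediateField ℚ ℂ) [FiniteDimensional ℚ K] (u v t : ℂ),
      u ∈ K → v ∈ K → IsIntegral ℤ ((m : ℂ) * u) → IsIntegral ℤ ((m : ℂ) * v) → NCM v →
      (∃ N, 0 < N ∧ IsogDeg N v u) → (aeval t Aa : ℂ) = u * aeval t Ba →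
      (aeval t Ba : ℂ) ≠ 0 → (aeval t Ab : ℂ) = v * aeval t Bb → (aeval t Bb : ℂ) ≠ 0 →
      ((Ab.coeff (rdeg Ab Bb) : Qb) : ℂ) ≠ v * ((Bb.coeff (rdeg Ab Bb) : Qb) : ℂ) →
      ∀ N : ℝ, 3 ≤ N → (mdeg v u : ℝ) ≤ N →
        (∀ s : ℂ ≃+* ℂ, ‖s u‖ ≤
          Real.exp ((C * (Module.finrank ℚ K * Real.log N)) ^ C)) ∧
        ∀ s : ℂ ≃+* ℂ, ‖s v‖ ≤
          Real.exp ((C * (Module.finrank ℚ K * Real.log N)) ^ C) := by
  classical
  obtain ⟨r, hr, hint⟩ := RPair_int hm Aa Ba hd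
  obtain ⟨C₀, hC₀, hfld⟩ := fld_t Aa Ba hd {Ba, Bb}
  obtain ⟨Ca, hCa, hta⟩ := RPair_ht hm ca r hr
  obtain ⟨Cb, hCb, htb⟩ := RPair_ht hm cb r hr
  obtain ⟨Ct, hCt, htt⟩ := t_bound_m ca cb hd h m hm
  have hC₀r : (1 : ℝ) ≤ C₀ := by exact_mod_cast hC₀
  have hCtr : (1 : ℝ) ≤ Ct := by exact_mod_cast hCt
  have hC1 : 1 ≤ max Ca Cb := hCa.trans (le_max_left _ _)
  obtain ⟨C, hC, hnum⟩ := num_H (2 * (max Ca Cb) * C₀ + 2 * Ct * C₀) (by positivity) (Ct + 1)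
  refine ⟨C, hC, ?_⟩
  intro K _ u v t hu hv hmu hmv hncm hiso heqa hnea heqb hneb hlead N hN hmN
  obtain ⟨K', hKK, hfd, hrank, htK, hcoef⟩ := hfld K u t hu heqa
  obtain ⟨B, hB⟩ := exists_B hiso
  have hpar : Par Aa Ba Ab Bb u v t B := ⟨heqa, hnea, heqb, hneb, hncm, hB⟩
  have hint' : ∀ z ∈ K', IsIntegral ℚ z := by
    intro z hz
    have h1 : IsIntegral ℚ (⟨z, hz⟩ : K') := Algebra.IsIntegral.isIntegral _
    exact h1.map K'.val
  have huK : u ∈ K' := hKK hu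
  have hvK : v ∈ K' := hKK hv
  have hrt : IsIntegral ℤ ((r : ℂ) * t) := hint u t hmu heqa
  have hBaK : (aeval t Ba : ℂ) ∈ K' := mem_aeval htK (hcoef Ba (by simp))
  have hBbK : (aeval t Bb : ℂ) ∈ K' := mem_aeval htK (hcoef Bb (by simp))
  obtain ⟨su, hsu⟩ := RPair_max (hint' u huK)
  obtain ⟨sv, hsv⟩ := RPair_max (hint' v hvK)
  obtain ⟨st, hst⟩ := RPair_max (hint' t htK)
  set H : ℝ := max 1 (max (Real.log ‖su u‖) (Real.log ‖sv v‖)) with hHdef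
  set L : ℝ := max 0 (Real.log ‖st t‖) with hLdef
  have hH1 : 1 ≤ H := le_max_left _ _
  have hL0 : 0 ≤ L := le_max_left _ _
  have bu : ∀ s : ℂ ≃+* ℂ, ‖s u‖ ≤ Real.exp H := fun s =>
    (hsu s).trans ((Real.le_exp_log _).trans (Real.exp_le_exp.2 ((le_max_left _ _).trans (le_max_right _ _))))
  have bv : ∀ s : ℂ ≃+* ℂ, ‖s v‖ ≤ Real.exp H := fun s =>
    (hsv s).trans ((Real.le_exp_log _).trans (Real.exp_le_exp.2 ((le_max_right _ _).trans (le_max_right _ _))))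
  have bt : ∀ s : ℂ ≃+* ℂ, ‖s t‖ ≤ Real.exp L := fun s =>
    (hst s).trans ((Real.le_exp_log _).trans (Real.exp_le_exp.2 (le_max_right _ _)))
  have hD1 : (1 : ℝ) ≤ Module.finrank ℚ K := by exact_mod_cast Module.finrank_pos
  have hD1' : (1 : ℝ) ≤ Module.finrank ℚ K' := by exact_mod_cast Module.finrank_pos
  have hrank' : (Module.finrank ℚ K' : ℝ) ≤ C₀ * Module.finrank ℚ K := by exact_mod_cast hrank
  have hlN : 1 ≤ Real.log N := by
    rw [Real.le_log_iff_exp_le (by linarith)]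
    have := Real.exp_one_lt_d9
    linarith
  have hHL : H ≤ max Ca Cb * Module.finrank ℚ K' * (1 + L) := by
    have e0 : (0 : ℝ) ≤ Module.finrank ℚ K' * (1 + L) := by positivity
    have e1 : ∀ c : ℝ, 1 ≤ c → c ≤ max Ca Cb →
        c * Module.finrank ℚ K' * (1 + L) ≤ max Ca Cb * Module.finrank ℚ K' * (1 + L) := by
      intro c _ hc
      rw [mul_assoc, mul_assoc]
      exact mul_le_mul_of_nonneg_right hc e0
    refine max_le ?_ (max_le ?_ ?_)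
    · have e2 : 1 ≤ max Ca Cb * Module.finrank ℚ K' := one_le_mul_of_one_le_of_one_le hC1 hD1'
      exact one_le_mul_of_one_le_of_one_le e2 (by linarith)
    · refine le_trans (RPair_log (norm_nonneg _) (by positivity)
        (hta K' u t L hmu hrt heqa hnea hBaK hL0 bt su)) (e1 Ca hCa (le_max_left _ _))
    · refine le_trans (RPair_log (norm_nonneg _) (by positivity)
        (htb K' v t L hmv hrt heqb hneb hBbK hL0 bt sv)) (e1 Cb hCb (le_max_right _ _))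
  have hm0 : 0 ≤ Real.log (mdeg v u) := Real.log_natCast_nonneg _
  have hmlog : Real.log (mdeg v u) ≤ Real.log N := by
    rcases Nat.eq_zero_or_pos (mdeg v u) with h0 | h0
    · rw [h0, Nat.cast_zero, Real.log_zero]
      linarith
    · exact Real.log_le_log (by exact_mod_cast h0) hmN
  have hH0 : 0 ≤ Real.log H := Real.log_nonneg hH1
  have hLb : L ≤ (Ct * (Module.finrank ℚ K' * (1 + Real.log (mdeg v u) + Real.log H))) ^ Ct := by
    refine max_le (by positivity) ?_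
    exact RPair_log (norm_nonneg _) (by positivity)
      (htt K' u v t B hpar hmu hmv huK hvK htK (hcoef Ba (by simp)) (hcoef Bb (by simp)) hlead H hH1 bu bv st)
  have hfin := RPair_num (k := Ct) hC₀r hC1 hCtr hD1 hD1' hrank' hlN hm0 hmlog hH0 hHL hLb
  have hfin2 := hnum _ N H hD1 hN hH1 hfin
  rw [mul_assoc] at hfin2
  exact ⟨fun s => (bu s).trans (Real.exp_le_exp.2 hfin2), fun s => (bv s).trans (Real.exp_le_exp.2 hfin2)⟩

end Pool.Agent.LGO.U
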