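import Mathlib
import Pool.Agent.LGO.U.RPair
import Pool.Agent.LGO.U.RCore
import Pool.Agent.LGO.U.RNorm
import Pool.Agent.LGO.G.RelF
import Pool.Agent.LGO.H.Main

/-!
# LGO/U: large Galois orbits for rational curves

PROOF of `core_rat`.  The data of `RatPair`; `n_b = rdeg Ab Bb`, `α = coeff Ab n_b`, `β = coeff Bb n_b` in `Qb`.  The set of the `x ∈ V` with
`α = x (i b) β` is finite: `finite_zero` (`LGO/G/RelF.lean`) for `G = C α - C β * X b`; `G` does not vanish on `V`: if `β ≠ 0` take `x ∈ V` with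
`x (i b) ≠ α / β` (`hconst`); if `β = 0` then `α ≠ 0` (`Ab`, `Bb` are coprime, so not both `0`, and one of them has degree `n_b`) and `V` is
not empty.  `E₀ = E ∪` this set.  `pair_bound_m` with `m = 1`, and `core_D` for the coordinate `a`:
`mdeg (x (i b)) (x (i a)) ≤ N`.
`main_rat`: `ratPair_of_rat` or `ratPair_of_pair`, `core_rat`, `finish`.
-/

namespace Pool.Agent.LGO.U

open Polynomial UpperHalfPlane Pool.Agent.Hhelper14.ZP Pool.Agent.Hhelper14.ZPL Pool.Agent.LGO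

private theorem RFin_coeff {A B : Polynomial Qb} (h : IsCoprime A B)
    (hB : B.coeff (rdeg A B) = 0) : A.coeff (rdeg A B) ≠ 0 := by
  intro hA
  rcases le_total A.natDegree B.natDegree with hle | hle
  · have hr : rdeg A B = B.natDegree := max_eq_right hle
    rw [hr] at hA hB
    have hB0 : B = 0 := leadingCoeff_eq_zero.1 hB
    rw [hB0, natDegree_zero] at hle
    have hA0 : A = 0 := by
      rw [eq_C_of_natDegree_eq_zero (Nat.le_zero.1 hle)]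
      rw [hB0, natDegree_zero] at hA
      rw [hA, C_0]
    rw [hA0, hB0] at h
    exact not_isCoprime_zero_zero h
  · have hr : rdeg A B = A.natDegree := max_eq_left hle
    rw [hr] at hA hB
    have hA0 : A = 0 := leadingCoeff_eq_zero.1 hA
    rw [hA0, natDegree_zero] at hle
    have hB0 : B = 0 := by
      rw [eq_C_of_natDegree_eq_zero (Nat.le_zero.1 hle)]
      rw [hA0, natDegree_zero] at hB
      rw [hB, C_0]
    rw [hA0, hB0] at h
    exact not_isCoprime_zero_zero h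

theorem core_rat {n : ℕ} {V : Set (Fin n → ℂ)} (hV : Pool.Agent.Hhelper14.ZPL.IsIrredClosed V)
    (hVk : KClosed V) (hdim : Pool.Agent.Hhelper14.ZPL.dim V = 1) (i : Fin 3 → Fin n)
    (hconst : ∀ a, ∀ c : ℂ, ∃ x ∈ V, x (i a) ≠ c) {a b : Fin 3} (h : RatPair V i a b) :
    ∃ (C : ℕ) (E : Set (Fin n → ℂ)), E.Finite ∧ ∀ x ∈ V, x ∉ E → (∀ a, NCM (x (i a))) →
      (∀ a b, ∃ N, 0 < N ∧ IsogDeg N (x (i a)) (x (i b))) → (∀ a, IsIntegral ℤ (x (i a))) →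
      Concl i C x := by
  obtain ⟨Aa, Ba, Ab, Bb, E, hE, ca, cb, hd, hor, hpar⟩ := h
  obtain ⟨C₀, -, hb⟩ := pair_bound_m ca cb hd hor 1 one_pos
  have hval : ∀ x : Fin n → ℂ, (MvPolynomial.aeval (x ∘ i)
      (MvPolynomial.C (Ab.coeff (rdeg Ab Bb)) - MvPolynomial.C (Bb.coeff (rdeg Ab Bb)) *
        MvPolynomial.X b : MvPolynomial (Fin 3) Qb) : ℂ) =
      ((Ab.coeff (rdeg Ab Bb) : Qb) : ℂ) - ((Bb.coeff (rdeg Ab Bb) : Qb) : ℂ) * x (i b) := by
    intro x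
    rw [map_sub, map_mul, MvPolynomial.aeval_C, MvPolynomial.aeval_C, MvPolynomial.aeval_X]
    rfl
  have hG : ∃ x ∈ V, (MvPolynomial.aeval (x ∘ i)
      (MvPolynomial.C (Ab.coeff (rdeg Ab Bb)) - MvPolynomial.C (Bb.coeff (rdeg Ab Bb)) *
        MvPolynomial.X b : MvPolynomial (Fin 3) Qb) : ℂ) ≠ 0 := by
    by_cases hβ : Bb.coeff (rdeg Ab Bb) = 0
    · obtain ⟨x, hx, -⟩ := hconst a 0
      refine ⟨x, hx, ?_⟩
      rw [hval, hβ]
      have hα : Ab.coeff (rdeg Ab Bb) ≠ 0 := RFin_coeff cb hβ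
      simpa using hα
    · obtain ⟨x, hx, hne⟩ := hconst b (((Ab.coeff (rdeg Ab Bb) : Qb) : ℂ) /
        ((Bb.coeff (rdeg Ab Bb) : Qb) : ℂ))
      refine ⟨x, hx, ?_⟩
      rw [hval]
      intro h0
      have hβ' : ((Bb.coeff (rdeg Ab Bb) : Qb) : ℂ) ≠ 0 := by simpa using hβ
      refine hne ?_
      rw [eq_div_iff hβ', mul_comm]
      exact (sub_eq_zero.1 h0).symm
  have hfin := finite_zero hV hVk hdim i hG
  refine core_D hV hVk hdim i a (hconst a) (C₀ := C₀) (hE.union hfin) ?_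
  intro x hx hxE hncm hiso hint K _ hK N hN hmd s
  obtain ⟨t, h1, h2, h3, h4⟩ := hpar x hx (fun h => hxE (Or.inl h))
  have hne : ((Ab.coeff (rdeg Ab Bb) : Qb) : ℂ) ≠
      x (i b) * ((Bb.coeff (rdeg Ab Bb) : Qb) : ℂ) := by
    intro h0
    refine hxE (Or.inr ⟨hx, ?_⟩)
    rw [hval, h0]
    ring
  exact (hb K (x (i a)) (x (i b)) t (hK a) (hK b) (by simpa using hint a)
    (by simpa using hint b) (hncm b) (hiso b a) h2.symm h1 h4.symm h3 hne N hN (hmd b a)).1 s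

/-- the hypothesis of Theorem R: either all three coordinates are rational functions of one parameter, or two of them, which
do not have both the same poles and the same degree -/
def Rat {n : ℕ} (V : Set (Fin n → ℂ)) (i : Fin 3 → Fin n) : Prop :=
  (∃ (A B : Fin 3 → Polynomial Qb) (E : Set (Fin n → ℂ)), E.Finite ∧
    ∀ x ∈ V, x ∉ E → ∃ t : ℂ, ∀ a, (aeval t (B a) : ℂ) ≠ 0 ∧
      x (i a) * aeval t (B a) = aeval t (A a)) ∨
  ∃ (a b : Fin 3) (Aa Ba Ab Bb : Polynomial Qb) (E : Set (Fin n → ℂ)), E.Finite ∧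
    IsCoprime Aa Ba ∧ IsCoprime Ab Bb ∧ Ba ≠ 0 ∧ Bb ≠ 0 ∧
    ¬ ((∀ z : Qb, Ba.eval z = 0 ↔ Bb.eval z = 0) ∧
      (Ba.natDegree < Aa.natDegree ↔ Bb.natDegree < Ab.natDegree) ∧
      max Aa.natDegree Ba.natDegree = max Ab.natDegree Bb.natDegree) ∧
    ∀ x ∈ V, x ∉ E → ∃ t : ℂ, (aeval t Ba : ℂ) ≠ 0 ∧ x (i a) * aeval t Ba = aeval t Aa ∧
      (aeval t Bb : ℂ) ≠ 0 ∧ x (i b) * aeval t Bb = aeval t Ab

theorem main_rat {n : ℕ} {V : Set (Fin n → ℂ)} (hV : Pool.Agent.Hhelper14.ZPL.IsIrredClosed V)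
    (hVk : KClosed V) (hdim : Pool.Agent.Hhelper14.ZPL.dim V = 1) (i : Fin 3 → Fin n)
    (hconst : ∀ a, ∀ c : ℂ, ∃ x ∈ V, x (i a) ≠ c)
    (hmod : ∀ a b, a ≠ b → ∀ g : GL (Fin 2) ℚ, 0 < g.det.val →
      ∃ x ∈ V, ¬ ∃ τ : ℍ, x (i a) = jInv τ ∧ x (i b) = jInv (gact g τ))
    {Q : MvPolynomial (Fin 3) ℂ} (hQ0 : MvPolynomial.constantCoeff Q ≠ 0)
    (hQ : ∀ x ∈ V, (∀ a, x (i a) ≠ 0) → MvPolynomial.eval (fun a => (x (i a))⁻¹) Q = 0)
    (h : Rat V i) :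
    ∃ C : ℕ, ∀ x ∈ V, (∀ a, NCM (x (i a))) →
      (∀ a b, ∃ N, 0 < N ∧ IsogDeg N (x (i a)) (x (i b))) → Concl i C x := by
  refine finish hV hVk hdim i hconst hmod hQ0 hQ ?_
  rcases h with ⟨A, B, E, hE, hpar⟩ | ⟨a, b, Aa, Ba, Ab, Bb, E, hE, ca, cb, ha, hb, hne, hpar⟩
  · obtain ⟨a, b, -, hab⟩ := ratPair_of_rat hV i hconst hQ0 hQ hE hpar
    exact core_rat hV hVk hdim i hconst hab
  · rcases ratPair_of_pair i a b hE ca cb ha hb hpar hne with h | h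
    · exact core_rat hV hVk hdim i hconst h
    · exact core_rat hV hVk hdim i hconst h

end Pool.Agent.LGO.U
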